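import Mathlib

/-!
# The maps `W_a(X) = ρ_X V(-ρ_X a)`
-/

open MeasureTheory Set Metric Filter
open scoped NNReal Topology RealInnerProductSpace ContDiff

namespace Pool.Agent.Helper20.VF

variable {E : Type*} [NormedAddCommGroup E] [InnerProductSpace ℝ E]

/-- reflection in the hyperplane orthogonal to `X`. -/
noncomputable def refl (X v : E) : E := v - (2 * ⟪X, v⟫ / ‖X‖ ^ 2) • X

lemma inner_refl {X : E} (hX : X ≠ 0) (u v : E) : ⟪refl X u, refl X v⟫ = ⟪u, v⟫ := by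
  have h : ⟪X, X⟫ = ‖X‖ ^ 2 := real_inner_self_eq_norm_sq X
  have h0 : ‖X‖ ^ 2 ≠ 0 := pow_ne_zero 2 (norm_ne_zero_iff.2 hX)
  simp only [refl, inner_sub_left, inner_sub_right, inner_smul_left, inner_smul_right, h,
    RCLike.conj_to_real, real_inner_comm X u]
  field_simp
  ring

lemma norm_refl {X : E} (hX : X ≠ 0) (v : E) : ‖refl X v‖ = ‖v‖ := by
  have h := inner_refl hX v v
  rw [real_inner_self_eq_norm_sq, real_inner_self_eq_norm_sq] at h
  exact (sq_eq_sq₀ (norm_nonneg _) (norm_nonneg _)).1 h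

lemma inner_refl_right {X : E} (u v : E) : ⟪refl X u, v⟫ = ⟪u, refl X v⟫ := by
  simp only [refl, inner_sub_left, inner_sub_right, inner_smul_left, inner_smul_right,
    RCLike.conj_to_real, real_inner_comm X u]
  ring

lemma refl_refl {X : E} (hX : X ≠ 0) (v : E) : refl X (refl X v) = v := by
  refine ext_inner_right ℝ (fun u => ?_)
  rw [inner_refl_right, inner_refl hX]

lemma refl_smul {X : E} {t : ℝ} (ht : t ≠ 0) (v : E) : refl (t • X) v = refl X v := by
  unfold refl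
  by_cases hX : X = 0
  · simp [hX]
  have h0 : ‖X‖ ≠ 0 := norm_ne_zero_iff.2 hX
  congr 1
  rw [smul_smul, inner_smul_left, norm_smul, mul_pow, Real.norm_eq_abs, sq_abs]
  congr 1
  simp only [RCLike.conj_to_real]
  field_simp

lemma refl_neg (X v : E) : refl X (-v) = -refl X v := by
  simp only [refl, inner_neg_right]
  module

lemma refl_of_orth {X v : E} (h : ⟪X, v⟫ = 0) : refl X v = v := by
  simp [refl, h]

/-- the map `W_a`. -/
noncomputable def Wf (V : E → E) (a X : E) : E := refl X (V (-refl X a))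

/-- hypotheses on the degree-zero extension of a unit tangent field. -/
structure UField (V : E → E) : Prop where
  smooth : ContDiffOn ℝ 1 V {0}ᶜ
  homog : ∀ x : E, ∀ t : ℝ, 0 < t → V (t • x) = V x
  unit : ∀ x : E, x ≠ 0 → ‖V x‖ = 1
  tang : ∀ x : E, ⟪x, V x⟫ = 0

lemma neg_refl_ne {X a : E} (hX : X ≠ 0) (ha : ‖a‖ = 1) : -refl X a ≠ 0 := by
  rw [← norm_ne_zero_iff, norm_neg, norm_refl hX, ha]; exact one_ne_zero

lemma norm_Wf {V : E → E} (hV : UField V) {a : E} (ha : ‖a‖ = 1) {X : E} (hX : X ≠ 0) :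
    ‖Wf V a X‖ = 1 := by
  rw [Wf, norm_refl hX, hV.unit _ (neg_refl_ne hX ha)]

lemma inner_Wf {V : E → E} (hV : UField V) {a : E} {X : E} :
    ⟪Wf V a X, a⟫ = 0 := by
  rw [Wf, inner_refl_right]
  have := hV.tang (-refl X a)
  rw [inner_neg_left, neg_eq_zero] at this
  rw [real_inner_comm]; exact this

lemma contDiffOn_refl {f : E → E} (hf : ContDiffOn ℝ 1 f {0}ᶜ) :
    ContDiffOn ℝ 1 (fun X => refl X (f X)) {0}ᶜ := by
  unfold refl
  refine hf.sub (ContDiffOn.smul (ContDiffOn.div ?_ ?_ ?_) contDiffOn_id)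
  · exact contDiffOn_const.mul (contDiffOn_id.inner ℝ hf)
  · exact (contDiff_norm_sq ℝ).contDiffOn
  · intro x hx
    exact pow_ne_zero 2 (norm_ne_zero_iff.2 hx)

lemma contDiffOn_Wf {V : E → E} (hV : UField V) {a : E} (ha : ‖a‖ = 1) :
    ContDiffOn ℝ 1 (Wf V a) {0}ᶜ := by
  have h1 : ContDiffOn ℝ 1 (fun X : E => -refl X a) {0}ᶜ := (contDiffOn_refl contDiffOn_const).neg
  have h2 : ContDiffOn ℝ 1 (fun X : E => V (-refl X a)) {0}ᶜ :=
    hV.smooth.comp h1 (fun X hX => neg_refl_ne hX ha)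
  exact contDiffOn_refl h2

lemma Wf_smul {V : E → E} {a X : E} {t : ℝ} (ht : t ≠ 0) : Wf V a (t • X) = Wf V a X := by
  rw [Wf, refl_smul ht, refl_smul ht, Wf]

lemma Wf_of_orth {V : E → E} {a X : E} (h : ⟪X, a⟫ = 0) : Wf V a X = refl X (V (-a)) := by
  rw [Wf, refl_of_orth h]

lemma fderiv_smul_of_homog {F : Type*} [NormedAddCommGroup F] [NormedSpace ℝ F] {f : E → F} {t : ℝ}
    (ht : t ≠ 0) (hf : ∀ X, f (t • X) = f X) (X : E) :
    fderiv ℝ f (t • X) = t⁻¹ • fderiv ℝ f X := by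
  have h : f = fun Y => f (t⁻¹ • Y) := by
    funext Y
    rw [← hf (t⁻¹ • Y), smul_smul, mul_inv_cancel₀ ht, one_smul]
  conv_lhs => rw [h]
  rw [fderiv_comp_smul]
  simp [smul_smul, inv_mul_cancel₀ ht]

lemma fderiv_apply_self_of_homog {F : Type*} [NormedAddCommGroup F] [NormedSpace ℝ F] {f : E → F}
    (hf : ∀ X, ∀ t : ℝ, 0 < t → f (t • X) = f X) {X : E} (hd : DifferentiableAt ℝ f X) :
    fderiv ℝ f X X = 0 := by
  have h1 : HasDerivAt (fun t : ℝ => f (t • X)) (fderiv ℝ f X X) 1 := by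
    have hc : HasDerivAt (fun t : ℝ => t • X) X 1 := by
      simpa using (hasDerivAt_id (1 : ℝ)).smul_const X
    have : HasFDerivAt f (fderiv ℝ f X) ((1 : ℝ) • X) := by rw [one_smul]; exact hd.hasFDerivAt
    exact this.comp_hasDerivAt (1 : ℝ) hc
  have h2 : HasDerivAt (fun t : ℝ => f (t • X)) 0 1 := by
    refine (hasDerivAt_const (1 : ℝ) (f X)).congr_of_eventuallyEq ?_
    filter_upwards [lt_mem_nhds (zero_lt_one : (0 : ℝ) < 1)] with t ht
    exact hf X t ht
  exact h1.unique h2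

end Pool.Agent.Helper20.VF
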