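import Pool.Agent.Helper20.VF.Omega

/-!
# A Stokes-type identity for maps into a sphere
-/

open MeasureTheory Set Metric Filter
open scoped NNReal Topology RealInnerProductSpace Manifold ContDiff

namespace Pool.Agent.Helper20.VF

variable {E : Type*} [NormedAddCommGroup E] [InnerProductSpace ℝ E] [FiniteDimensional ℝ E]

omit [FiniteDimensional ℝ E] in
lemma contDiff_of_contDiffOn_of_zero {G : Type*} [NormedAddCommGroup G] [NormedSpace ℝ G]
    {U K : Set E} (hU : IsOpen U) (hK : IsClosed K) (hKU : K ⊆ U) (h : E → G)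
    (h1 : ContDiffOn ℝ 1 h U) (h2 : ∀ x ∉ K, h x = 0) : ContDiff ℝ 1 h := by
  rw [contDiff_iff_contDiffAt]
  intro x
  by_cases hx : x ∈ U
  · exact h1.contDiffAt (hU.mem_nhds hx)
  · have hx' : x ∈ Kᶜ := fun h => hx (hKU h)
    refine (contDiffAt_const (c := (0 : G))).congr_of_eventuallyEq ?_
    filter_upwards [hK.isOpen_compl.mem_nhds hx'] with y hy using h2 y hy

omit [FiniteDimensional ℝ E] in
/-- the range of the derivative of a unit vector field is orthogonal to the field. -/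
lemma inner_fderiv_of_norm_one {U : Set E} (hU : IsOpen U) (W : E → E)
    (hW : DifferentiableOn ℝ W U) (hWn : ∀ x ∈ U, ‖W x‖ = 1) {x : E} (hx : x ∈ U) (v : E) :
    ⟪W x, fderiv ℝ W x v⟫ = 0 := by
  have hd : HasFDerivAt W (fderiv ℝ W x) x :=
    ((hW x hx).differentiableAt (hU.mem_nhds hx)).hasFDerivAt
  have h1 := (hd.inner ℝ hd)
  have h2 : HasFDerivAt (fun t => ⟪W t, W t⟫) (0 : E →L[ℝ] ℝ) x := by
    refine (hasFDerivAt_const (1 : ℝ) x).congr_of_eventuallyEq ?_
    filter_upwards [hU.mem_nhds hx] with y hy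
    rw [real_inner_self_eq_norm_sq, hWn y hy]; norm_num
  have h3 := congrArg (fun T : E →L[ℝ] ℝ => T v) (h1.unique h2)
  simp only [ContinuousLinearMap.comp_apply, fderivInnerCLM_apply] at h3
  simp at h3
  rw [real_inner_comm (W x)] at h3
  linarith

omit [FiniteDimensional ℝ E] in
/-- if `W` is orthogonal to a fixed vector then so is its derivative. -/
lemma inner_fderiv_of_orth {U : Set E} (hU : IsOpen U) (W : E → E)
    (hW : DifferentiableOn ℝ W U) (a : E) (hWa : ∀ x ∈ U, ⟪W x, a⟫ = 0) {x : E} (hx : x ∈ U) (v : E) :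
    ⟪a, fderiv ℝ W x v⟫ = 0 := by
  have hd : HasFDerivAt W (fderiv ℝ W x) x :=
    ((hW x hx).differentiableAt (hU.mem_nhds hx)).hasFDerivAt
  have h1 := ((innerSL ℝ a : E →L[ℝ] ℝ).hasFDerivAt.comp x hd)
  have h2 : HasFDerivAt ((innerSL ℝ a : E →L[ℝ] ℝ) ∘ W) (0 : E →L[ℝ] ℝ) x := by
    refine (hasFDerivAt_const (0 : ℝ) x).congr_of_eventuallyEq ?_
    filter_upwards [hU.mem_nhds hx] with y hy
    simp only [Function.comp, innerSL_apply_apply]
    rw [real_inner_comm, hWa y hy]
  have h3 := congrArg (fun T : E →L[ℝ] ℝ => T v) (h1.unique h2)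
  simpa using h3

theorem integral_Om_eq_zero [MeasurableSpace E] [BorelSpace E] (hN : 2 ≤ Module.finrank ℝ E)
    (μ : Measure E) [μ.IsAddHaarMeasure] {U : Set E} (hU : IsOpen U) (W : E → E)
    (hW : ContDiffOn ℝ 1 W U) (a : E) (ha : ‖a‖ = 1)
    (hWn : ∀ x ∈ U, ‖W x‖ = 1) (hWa : ∀ x ∈ U, ⟪W x, a⟫ = 0)
    (F g : E → ℝ) (hF : ContDiff ℝ 1 F) (hFc : HasCompactSupport F) (hFU : tsupport F ⊆ U)
    (hg : ContDiffOn ℝ 1 g U) :
    ∫ x in U, Om (fderiv ℝ W x) (W x) a (fderiv ℝ F x) (fderiv ℝ g x) ∂μ = 0 := by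
  classical
  have : Nontrivial E := Module.nontrivial_of_finrank_pos (R := ℝ) (by omega)
  obtain ⟨n, hn⟩ : ∃ n : ℕ, Module.finrank ℝ E = n + 2 := ⟨_, (Nat.sub_add_cancel hN).symm⟩
  -- cutoff
  obtain ⟨K', hK'c, hKK', hK'U⟩ := exists_compact_between hFc hU hFU
  obtain ⟨χ, hχ1, hχ0, -⟩ := exists_contMDiffMap_one_nhds_of_subset_interior (n := 1)
    (𝓘(ℝ, E)) (isClosed_tsupport F) hKK'
  have hχd : ContDiff ℝ 1 (χ : E → ℝ) := χ.contMDiff.contDiff
  -- the function `lam`
  obtain ⟨B, hB⟩ := hF.continuous.bounded_above_of_compact_support hFc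
  have hB0 : 0 ≤ B := (norm_nonneg _).trans (hB 0)
  set C : ℝ := (n + 1) * B + 1 with hC
  have hpos : ∀ x, 0 < C + (n + 1) * F x := by
    intro x
    have := (abs_le.1 (hB x)).1
    have hn0 : (0 : ℝ) ≤ n + 1 := by positivity
    nlinarith
  set lam : E → ℝ := fun x => (C + (n + 1) * F x) ^ ((1 : ℝ) / (n + 1)) with hlam
  have hlampos : ∀ x, 0 < lam x := fun x => Real.rpow_pos_of_pos (hpos x) _
  set lam0 : ℝ := C ^ ((1 : ℝ) / (n + 1)) with hlam0
  have hlamd : ContDiff ℝ 1 lam := by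
    refine ContDiff.rpow_const_of_ne ?_ (fun x => (hpos x).ne')
    fun_prop
  have hlamderiv : ∀ x, HasFDerivAt lam (((lam x) ^ n)⁻¹ • fderiv ℝ F x) x := by
    intro x
    have hFd : HasFDerivAt F (fderiv ℝ F x) x :=
      (hF.differentiable one_ne_zero x).hasFDerivAt
    have h1 : HasFDerivAt (fun y => C + (n + 1) * F y) (((n : ℝ) + 1) • fderiv ℝ F x) x := by
      simpa using (hFd.const_mul ((n : ℝ) + 1)).const_add C
    have h2 := h1.rpow_const (p := (1 : ℝ) / (n + 1)) (Or.inl (hpos x).ne')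
    convert h2 using 1
    rw [smul_smul]
    congr 1
    have hn1 : (n : ℝ) + 1 ≠ 0 := by positivity
    have e1 : 1 / ((n : ℝ) + 1) * (C + (n + 1) * F x) ^ (1 / ((n : ℝ) + 1) - 1) * (n + 1)
        = (C + (n + 1) * F x) ^ (1 / ((n : ℝ) + 1) - 1) := by
      field_simp
    rw [e1, hlam]
    simp only
    rw [← Real.rpow_natCast, ← Real.rpow_mul (hpos x).le, ← Real.rpow_neg (hpos x).le]
    congr 1
    field_simp
    ring
  -- the two maps
  set h : E → E := fun x => χ x • (lam x • W x + g x • a) with hh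
  set h0 : E → E := fun x => χ x • (lam0 • W x + g x • a) with hh0
  have hhd : ContDiff ℝ 1 h := by
    refine contDiff_of_contDiffOn_of_zero hU hK'c.isClosed hK'U h ?_ (fun x hx => by simp [hh, hχ0 x hx])
    exact hχd.contDiffOn.smul ((hlamd.contDiffOn.smul hW).add (hg.smul contDiffOn_const))
  have hh0d : ContDiff ℝ 1 h0 := by
    refine contDiff_of_contDiffOn_of_zero hU hK'c.isClosed hK'U h0 ?_ (fun x hx => by simp [hh0, hχ0 x hx])
    exact hχd.contDiffOn.smul ((contDiffOn_const.smul hW).add (hg.smul contDiffOn_const))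
  have hhc : HasCompactSupport h := HasCompactSupport.intro hK'c (fun x hx => by simp [hh, hχ0 x hx])
  have hh0c : HasCompactSupport h0 := HasCompactSupport.intro hK'c (fun x hx => by simp [hh0, hχ0 x hx])
  have I1 := integral_det_fderiv_eq_zero μ h hhd hhc
  have I2 := integral_det_fderiv_eq_zero μ h0 hh0d hh0c
  have hint : ∀ k : E → E, ContDiff ℝ 1 k → HasCompactSupport k →
      Integrable (fun x => (fderiv ℝ k x).det) μ := by
    intro k hk hkc
    refine (ContinuousLinearMap.continuous_det.comp (hk.continuous_fderiv one_ne_zero)).integrable_of_hasCompactSupport ?_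
    refine (hkc.fderiv ℝ).comp_left (g := ContinuousLinearMap.det) ?_
    obtain ⟨u, hu⟩ := exists_ne (0 : E)
    exact det_eq_zero_of_apply _ u hu rfl
  have I3 : ∫ x, ((fderiv ℝ h x).det - (fderiv ℝ h0 x).det) ∂μ = 0 := by
    rw [integral_sub (hint h hhd hhc) (hint h0 hh0d hh0c), I1, I2, sub_zero]
  rw [← integral_indicator hU.measurableSet, ← I3]
  refine integral_congr_ae (Eventually.of_forall fun x => ?_)
  simp only
  by_cases hx : x ∈ tsupport F
  · have hxU : x ∈ U := hFU hx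
    rw [indicator_of_mem hxU]
    have hWd : HasFDerivAt W (fderiv ℝ W x) x :=
      ((hW.differentiableOn one_ne_zero x hxU).differentiableAt (hU.mem_nhds hxU)).hasFDerivAt
    have hgd : HasFDerivAt g (fderiv ℝ g x) x :=
      ((hg.differentiableOn one_ne_zero x hxU).differentiableAt (hU.mem_nhds hxU)).hasFDerivAt
    have hχx : ∀ᶠ y in 𝓝 x, χ y = 1 := by
      have := hχ1
      rw [eventually_nhdsSet_iff_forall] at this
      exact this x hx
    have e1 : HasFDerivAt h (lam x • fderiv ℝ W x + (((lam x) ^ n)⁻¹ • fderiv ℝ F x).smulRight (W x)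
        + (fderiv ℝ g x).smulRight a) x := by
      have := ((hlamderiv x).smul hWd).add (hgd.smul (hasFDerivAt_const a x))
      rw [smul_zero, zero_add] at this
      refine this.congr_of_eventuallyEq ?_
      filter_upwards [hχx] with y hy
      simp [hh, hy]
    have e2 : HasFDerivAt h0 (lam0 • fderiv ℝ W x + ((0 : E →L[ℝ] ℝ)).smulRight (W x)
        + (fderiv ℝ g x).smulRight a) x := by
      have := ((hasFDerivAt_const lam0 x).smul hWd).add (hgd.smul (hasFDerivAt_const a x))
      rw [smul_zero, zero_add] at this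
      refine this.congr_of_eventuallyEq ?_
      filter_upwards [hχx] with y hy
      simp [hh0, hy]
    have o1 := fun v => inner_fderiv_of_norm_one hU W (hW.differentiableOn one_ne_zero) hWn hxU v
    have o2 := fun v => inner_fderiv_of_orth hU W (hW.differentiableOn one_ne_zero) a hWa hxU v
    rw [e1.fderiv, e2.fderiv]
    have s1 := det_scale (fderiv ℝ W x) (W x) a (hWn x hxU) ha (hWa x hxU) o1 o2 (fderiv ℝ F x)
      (fderiv ℝ g x) (lam x) ((lam x) ^ n)⁻¹ (hlampos x).ne'
    have s2 := Om_zero_left (lam0 • fderiv ℝ W x) (W x) a (hWn x hxU) (hWa x hxU)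
      (fun v => by simp [inner_smul_right, o1]) (fderiv ℝ g x)
    unfold Om at s1 s2 ⊢
    rw [s2, sub_zero]
    have hl := (hlampos x).ne'
    rw [hn] at s1
    have : lam x ^ (n + 2) * ((lam x) ^ n)⁻¹ = lam x ^ 2 := by
      rw [pow_add]; field_simp
    rw [this] at s1
    have h2 : lam x ^ 2 ≠ 0 := pow_ne_zero _ hl
    rw [mul_comm (lam x ^ 2)] at s1
    exact (mul_right_cancel₀ h2 s1).symm
  · have hF0 : ∀ᶠ y in 𝓝 x, F y = 0 := by
      filter_upwards [(isClosed_tsupport F).isOpen_compl.mem_nhds hx] with y hy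
      exact image_eq_zero_of_notMem_tsupport hy
    have hFd0 : fderiv ℝ F x = 0 := by
      have : HasFDerivAt F (0 : E →L[ℝ] ℝ) x :=
        (hasFDerivAt_const (0 : ℝ) x).congr_of_eventuallyEq hF0
      exact this.fderiv
    have e : fderiv ℝ h x = fderiv ℝ h0 x := by
      refine Filter.EventuallyEq.fderiv_eq ?_
      filter_upwards [hF0] with y hy
      simp [hh, hh0, hlam, hlam0, hy]
    rw [e, sub_self]
    by_cases hxU : x ∈ U
    · rw [indicator_of_mem hxU, hFd0]
      exact Om_zero_left _ _ _ (hWn x hxU) (hWa x hxU)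
        (fun v => inner_fderiv_of_norm_one hU W (hW.differentiableOn one_ne_zero) hWn hxU v) _
    · rw [indicator_of_notMem hxU]

end Pool.Agent.Helper20.VF
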