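import Mathlib
import Pool.Agent.Helper20.VF.Field
import Pool.Agent.Helper20.VF.Stokes

/-!
# The value of `Om` on the equator
-/

open MeasureTheory Set Metric Filter
open scoped NNReal Topology RealInnerProductSpace ContDiff

namespace Pool.Agent.Helper20.VF

section LinAlg
variable {E : Type*} [AddCommGroup E] [Module ℝ E] [FiniteDimensional ℝ E]

lemma det_one_add_sum {ι : Type*} [Fintype ι] [DecidableEq ι] (φ : ι → (E →ₗ[ℝ] ℝ)) (u : ι → E) :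
    LinearMap.det (1 + ∑ i, (φ i).smulRight (u i) : E →ₗ[ℝ] E)
      = (1 + Matrix.of (fun i j => φ i (u j))).det := by
  classical
  set b := Module.finBasis ℝ E
  set A : Matrix (Fin (Module.finrank ℝ E)) ι ℝ := Matrix.of (fun k i => b.repr (u i) k) with hA
  set B : Matrix ι (Fin (Module.finrank ℝ E)) ℝ := Matrix.of (fun i k => φ i (b k)) with hB
  have h1 : LinearMap.toMatrix b b (1 + ∑ i, (φ i).smulRight (u i) : E →ₗ[ℝ] E) = 1 + A * B := by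
    rw [map_add, LinearMap.toMatrix_one, map_sum]
    congr 1
    ext k l
    rw [Matrix.sum_apply, Matrix.mul_apply]
    refine Finset.sum_congr rfl (fun i _ => ?_)
    simp [LinearMap.toMatrix_apply, hA, hB, mul_comm]
  have h2 : B * A = Matrix.of (fun i j => φ i (u j)) := by
    ext i j
    rw [Matrix.mul_apply]
    simp only [hA, hB, Matrix.of_apply]
    conv_rhs => rw [← b.sum_repr (u j), map_sum]
    refine Finset.sum_congr rfl (fun k _ => ?_)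
    simp [mul_comm]
  rw [← LinearMap.det_toMatrix b, h1, Matrix.det_one_add_mul_comm, h2]

end LinAlg

variable {E : Type*} [NormedAddCommGroup E] [InnerProductSpace ℝ E]

lemma hasDerivAt_refl {Y : E} (hY : Y ≠ 0) (u v : E) :
    HasDerivAt (fun t : ℝ => refl (Y + t • u) v)
      (-((2 * ⟪u, v⟫ / ‖Y‖ ^ 2 - 4 * ⟪Y, v⟫ * ⟪Y, u⟫ / ‖Y‖ ^ 4) • Y
        + (2 * ⟪Y, v⟫ / ‖Y‖ ^ 2) • u)) 0 := by
  have h0 : ‖Y‖ ≠ 0 := norm_ne_zero_iff.2 hY
  have hc : HasDerivAt (fun t : ℝ => Y + t • u) u 0 := by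
    simpa using ((hasDerivAt_id (0 : ℝ)).smul_const u).const_add Y
  have h1 : HasDerivAt (fun t : ℝ => 2 * ⟪Y + t • u, v⟫) (2 * ⟪u, v⟫) 0 := by
    have : HasDerivAt (fun t : ℝ => ⟪Y + t • u, v⟫) (⟪u, v⟫) 0 := by
      have := hc.inner ℝ (hasDerivAt_const (0 : ℝ) v)
      simpa using this
    exact this.const_mul 2
  have h2 : HasDerivAt (fun t : ℝ => ‖Y + t • u‖ ^ 2) (2 * ⟪Y, u⟫) 0 := by
    have := hc.norm_sq
    simpa using this
  have h3 := h1.div h2 (by simpa using h0)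
  have h4 := (h3.smul hc).const_sub v
  have h5 : HasDerivAt (fun t : ℝ => refl (Y + t • u) v) _ 0 := h4
  convert h5 using 1
  simp only [zero_smul, add_zero, Pi.div_apply]
  rw [neg_add_rev]
  have e : (2 * ⟪u, v⟫ * ‖Y‖ ^ 2 - 2 * ⟪Y, v⟫ * (2 * ⟪Y, u⟫)) / (‖Y‖ ^ 2) ^ 2
      = 2 * ⟪u, v⟫ / ‖Y‖ ^ 2 - 4 * ⟪Y, v⟫ * ⟪Y, u⟫ / ‖Y‖ ^ 4 := by
    field_simp
    ring
  rw [e]
  abel

variable [FiniteDimensional ℝ E]

lemma Om_boundary {V : E → E} (hV : UField V) {a : E} (ha : ‖a‖ = 1) {Y : E} (hY : Y ≠ 0)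
    (hYa : ⟪Y, a⟫ = 0) {k : ℕ} (hk : Module.finrank ℝ E = k + 3) {τ : ℝ}
    (hτ : τ = ⟪V (-a), Y⟫ / ‖Y‖ ^ 2) (h0 : τ ≠ 0) :
    Om (fderiv ℝ (Wf V a) Y) (Wf V a Y) a (innerSL ℝ a) (innerSL ℝ Y) = -2 * (-2 * τ) ^ k := by
  have hY0 : ‖Y‖ ≠ 0 := norm_ne_zero_iff.2 hY
  set v := V (-a) with hv
  have hva : ⟪v, a⟫ = 0 := by
    have := hV.tang (-a)
    rw [inner_neg_left, neg_eq_zero] at this
    rw [real_inner_comm]; exact this
  have hav : ⟪a, v⟫ = 0 := by rw [real_inner_comm]; exact hva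
  have haY : ⟪a, Y⟫ = 0 := by rw [real_inner_comm]; exact hYa
  have haa : ⟪a, a⟫ = 1 := by rw [real_inner_self_eq_norm_sq, ha]; norm_num
  have hYY : ⟪Y, Y⟫ = ‖Y‖ ^ 2 := real_inner_self_eq_norm_sq Y
  have hW : Wf V a Y = v - (2 * τ) • Y := by
    rw [Wf_of_orth hYa, refl, real_inner_comm, hτ]
    congr 2
    ring
  have hvY : ⟪v, Y⟫ = τ * ‖Y‖ ^ 2 := by rw [hτ]; field_simp
  have hYv : ⟪Y, v⟫ = τ * ‖Y‖ ^ 2 := by rw [real_inner_comm]; exact hvY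
  have hU : IsOpen ({0}ᶜ : Set E) := isOpen_compl_singleton
  have hWd : DifferentiableOn ℝ (Wf V a) {0}ᶜ := (contDiffOn_Wf hV ha).differentiableOn one_ne_zero
  have hYU : Y ∈ ({0}ᶜ : Set E) := hY
  have hWY : HasFDerivAt (Wf V a) (fderiv ℝ (Wf V a) Y) Y :=
    ((hWd Y hYU).differentiableAt (hU.mem_nhds hYU)).hasFDerivAt
  set L := fderiv ℝ (Wf V a) Y with hL
  have hLW : ∀ u, ⟪Wf V a Y, L u⟫ = 0 := fun u =>
    inner_fderiv_of_norm_one hU (Wf V a) hWd (fun x hx => norm_Wf hV ha hx) hYU u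
  have hLa : ∀ u, ⟪a, L u⟫ = 0 := fun u =>
    inner_fderiv_of_orth hU (Wf V a) hWd a (fun x _ => inner_Wf hV) hYU u
  have hWW : ⟪Wf V a Y, Wf V a Y⟫ = 1 := by
    rw [real_inner_self_eq_norm_sq, norm_Wf hV ha hY]; norm_num
  have hWa : ⟪Wf V a Y, a⟫ = 0 := inner_Wf hV
  have haW : ⟪a, Wf V a Y⟫ = 0 := by rw [real_inner_comm]; exact hWa
  have hWYi : ⟪Wf V a Y, Y⟫ = -τ * ‖Y‖ ^ 2 := by
    rw [hW, inner_sub_left, inner_smul_left, hvY, hYY]
    simp only [RCLike.conj_to_real]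
    ring
  -- derivative in directions orthogonal to `a`
  have hLu : ∀ u, ⟪a, u⟫ = 0 → L u = -(2 * τ) • u - (2 / ‖Y‖ ^ 2 * ⟪Wf V a Y, u⟫) • Y := by
    intro u hu
    have hc : HasDerivAt (fun t : ℝ => Y + t • u) u 0 := by
      simpa using ((hasDerivAt_id (0 : ℝ)).smul_const u).const_add Y
    have h1 : HasDerivAt (fun t : ℝ => Wf V a (Y + t • u)) (L u) 0 := by
      have : HasFDerivAt (Wf V a) L (Y + (0 : ℝ) • u) := by rw [zero_smul, add_zero]; exact hWY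
      exact this.comp_hasDerivAt (0 : ℝ) hc
    have h2 : HasDerivAt (fun t : ℝ => Wf V a (Y + t • u)) _ 0 :=
      (hasDerivAt_refl hY u v).congr_of_eventuallyEq (Eventually.of_forall fun t => by
        simp only
        rw [Wf_of_orth]
        rw [inner_add_left, inner_smul_left, hYa, real_inner_comm, hu]; simp)
    rw [h1.unique h2, hW, inner_sub_left, inner_smul_left]
    simp only [RCLike.conj_to_real]
    rw [hYv, real_inner_comm v u, neg_add_rev]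
    have e1 : (2 * (τ * ‖Y‖ ^ 2) / ‖Y‖ ^ 2) = 2 * τ := by field_simp
    have e2 : 2 * ⟪v, u⟫ / ‖Y‖ ^ 2 - 4 * (τ * ‖Y‖ ^ 2) * ⟪Y, u⟫ / ‖Y‖ ^ 4
        = 2 / ‖Y‖ ^ 2 * (⟪v, u⟫ - 2 * τ * ⟪Y, u⟫) := by
      field_simp
      ring
    rw [e1, e2]
    simp only [neg_smul]
    abel
  -- the three rank one terms
  set q : E := Wf V a Y + (L a + (2 * τ) • a) with hq
  set φ : Fin 3 → (E →ₗ[ℝ] ℝ) := ![((1 / (τ * ‖Y‖ ^ 2)) • (innerSL ℝ (Wf V a Y) : E →L[ℝ] ℝ) : E →L[ℝ] ℝ),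
    ((-1 / (2 * τ)) • (innerSL ℝ a : E →L[ℝ] ℝ) : E →L[ℝ] ℝ),
    ((-1 / (2 * τ)) • (innerSL ℝ Y : E →L[ℝ] ℝ) : E →L[ℝ] ℝ)] with hφ
  set w : Fin 3 → E := ![Y, q, a] with hw
  have key : ((L + (innerSL ℝ a : E →L[ℝ] ℝ).smulRight (Wf V a Y)
      + (innerSL ℝ Y : E →L[ℝ] ℝ).smulRight a : E →L[ℝ] E) : E →ₗ[ℝ] E)
      = (-2 * τ) • (1 + ∑ i, (φ i).smulRight (w i) : E →ₗ[ℝ] E) := by
    ext u
    have hu' : ⟪a, u - ⟪a, u⟫ • a⟫ = 0 := by
      rw [inner_sub_right, inner_smul_right, haa]; ring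
    have hdec : L u = L (u - ⟪a, u⟫ • a) + ⟪a, u⟫ • L a := by
      rw [map_sub, map_smul]; abel
    rw [hLu _ hu'] at hdec
    have e3 : ⟪Wf V a Y, u - ⟪a, u⟫ • a⟫ = ⟪Wf V a Y, u⟫ := by
      rw [inner_sub_right, inner_smul_right, hWa]; ring
    rw [e3] at hdec
    simp only [ContinuousLinearMap.coe_coe, add_apply, ContinuousLinearMap.smulRight_apply,
      innerSL_apply_apply, hdec, Fin.sum_univ_three, hφ, hw, LinearMap.smul_apply,
      LinearMap.add_apply, Module.End.one_apply, LinearMap.smulRight_apply, Matrix.cons_val_zero,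
      Matrix.cons_val_one, Matrix.cons_val_two, Matrix.head_cons, Matrix.tail_cons, smul_apply,
      smul_eq_mul, hq, Matrix.cons_val]
    have f1 : (-2 * τ) * (1 / (τ * ‖Y‖ ^ 2) * ⟪Wf V a Y, u⟫) = -(2 / ‖Y‖ ^ 2 * ⟪Wf V a Y, u⟫) := by
      field_simp
    have f2 : (-2 * τ) * (-1 / (2 * τ) * ⟪a, u⟫) = ⟪a, u⟫ := by field_simp
    have f3 : (-2 * τ) * (-1 / (2 * τ) * ⟪Y, u⟫) = ⟪Y, u⟫ := by field_simp
    rw [smul_add, smul_add, smul_add, smul_smul (-2 * τ) (1 / (τ * ‖Y‖ ^ 2) * ⟪Wf V a Y, u⟫),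
      smul_smul (-2 * τ) (-1 / (2 * τ) * ⟪a, u⟫), smul_smul (-2 * τ) (-1 / (2 * τ) * ⟪Y, u⟫),
      f1, f2, f3]
    module
  unfold Om
  rw [ContinuousLinearMap.det, key, LinearMap.det_smul, det_one_add_sum, hk, Matrix.det_fin_three]
  have hqa : ⟪a, q⟫ = 2 * τ := by
    rw [hq, inner_add_right, inner_add_right, inner_smul_right, haW, hLa, haa]; ring
  have hqW : ⟪Wf V a Y, q⟫ = 1 := by
    rw [hq, inner_add_right, inner_add_right, inner_smul_right, hWW, hLW, hWa]; ring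
  have hWYi' : ⟪Y, Wf V a Y⟫ = -τ * ‖Y‖ ^ 2 := by rw [real_inner_comm]; exact hWYi
  simp only [hφ, hw, Matrix.add_apply, Matrix.one_apply, Matrix.of_apply, Matrix.cons_val_zero,
      Matrix.cons_val_one, Matrix.cons_val_two, Matrix.head_cons, Matrix.tail_cons,
      ContinuousLinearMap.coe_coe, smul_apply, innerSL_apply_apply, smul_eq_mul, Matrix.cons_val,
      hqa, hqW, hWYi, hWa, haY, hYY, hYa, haa]
  have c01 : ((0 : Fin 3) = 1) = False := by decide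
  have c02 : ((0 : Fin 3) = 2) = False := by decide
  have c10 : ((1 : Fin 3) = 0) = False := by decide
  have c12 : ((1 : Fin 3) = 2) = False := by decide
  have c20 : ((2 : Fin 3) = 0) = False := by decide
  have c21 : ((2 : Fin 3) = 1) = False := by decide
  simp only [c01, c02, c10, c12, c20, c21, if_true, if_false]
  field_simp
  ring

end Pool.Agent.Helper20.VF
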