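import Mathlib

/-!
# The calibrating function `arcsin ⟪X, b⟫ / ‖X‖`
-/

open MeasureTheory Set Metric Filter
open scoped NNReal Topology RealInnerProductSpace ContDiff

namespace Pool.Agent.Helper20.VF

variable {E : Type*} [NormedAddCommGroup E] [InnerProductSpace ℝ E]

/-- the gradient in `X` of `arcsin (⟪X, b⟫ / ‖X‖)`. -/
noncomputable def cvec (X b : E) : E :=
  (1 / √(1 - (⟪X, b⟫ / ‖X‖) ^ 2)) • ((1 / ‖X‖) • b - (⟪X, b⟫ / ‖X‖ ^ 3) • X)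

lemma abs_inner_div_lt {X b : E} (hX : X ≠ 0) (hb : ‖b‖ < 1) : |⟪X, b⟫ / ‖X‖| < 1 := by
  have h0 : 0 < ‖X‖ := norm_pos_iff.2 hX
  rw [abs_div, abs_norm, div_lt_one h0]
  calc |⟪X, b⟫| ≤ ‖X‖ * ‖b‖ := abs_real_inner_le_norm X b
    _ < ‖X‖ * 1 := mul_lt_mul_of_pos_left hb h0
    _ = ‖X‖ := mul_one _

lemma norm_cvec_le {X b : E} (hX : X ≠ 0) (hb : ‖b‖ < 1) : ‖cvec X b‖ ≤ 1 / ‖X‖ := by
  have h0 : 0 < ‖X‖ := norm_pos_iff.2 hX
  obtain ⟨A, hA⟩ : ∃ A, A = ⟪X, b⟫ / ‖X‖ := ⟨_, rfl⟩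
  have hA1 : |A| < 1 := hA ▸ abs_inner_div_lt hX hb
  have hA2 : 0 < 1 - A ^ 2 := by
    have := sq_lt_one_iff_abs_lt_one A |>.2 hA1
    linarith
  have hXb : ⟪X, b⟫ = A * ‖X‖ := by rw [hA]; field_simp
  have hsq : ‖(1 / ‖X‖) • b - (⟪X, b⟫ / ‖X‖ ^ 3) • X‖ ^ 2 = (‖b‖ ^ 2 - A ^ 2) / ‖X‖ ^ 2 := by
    rw [norm_sub_sq_real, norm_smul, norm_smul, inner_smul_left, inner_smul_right,
      real_inner_comm X b, hXb, mul_pow, mul_pow, Real.norm_eq_abs, Real.norm_eq_abs, sq_abs, sq_abs]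
    simp only [RCLike.conj_to_real]
    field_simp
    ring
  have h1 : ‖cvec X b‖ ^ 2 ≤ (1 / ‖X‖) ^ 2 := by
    rw [cvec, norm_smul, mul_pow, hsq, Real.norm_eq_abs, sq_abs, ← hA, div_pow, Real.sq_sqrt hA2.le]
    rw [div_pow, one_pow, div_mul_div_comm, one_mul, mul_comm (1 - A ^ 2), ← div_div]
    rw [div_le_iff₀ hA2, one_div, div_eq_mul_inv, mul_comm]
    refine mul_le_mul_of_nonneg_left ?_ (by positivity)
    have : ‖b‖ ^ 2 ≤ 1 := by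
      have := norm_nonneg b
      nlinarith
    linarith
  exact abs_le_of_sq_le_sq' h1 (by positivity) |>.2

lemma hasFDerivAt_arcsin_inner {B : E → E} {B' : E →L[ℝ] E} {X : E} (hX : X ≠ 0)
    (hB : HasFDerivAt B B' X) (hb : ‖B X‖ < 1) :
    HasFDerivAt (fun Y : E => Real.arcsin (⟪Y, B Y⟫ / ‖Y‖))
      (innerSL ℝ (cvec X (B X))
        + (((1 / √(1 - (⟪X, B X⟫ / ‖X‖) ^ 2)) / ‖X‖) • (innerSL ℝ X : E →L[ℝ] ℝ)) ∘L B') X := by
  have h0 : 0 < ‖X‖ := norm_pos_iff.2 hX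
  set A := ⟪X, B X⟫ / ‖X‖ with hA
  have hA1 : |A| < 1 := abs_inner_div_lt hX hb
  obtain ⟨hA3, hA4⟩ := abs_lt.1 hA1
  have hn : HasFDerivAt (fun Y : E => ‖Y‖) (‖X‖⁻¹ • (innerSL ℝ X : E →L[ℝ] ℝ)) X := by
    have := (hasStrictFDerivAt_norm_sq X).hasFDerivAt.sqrt (by positivity)
    simp only [Real.sqrt_sq (norm_nonneg _)] at this
    convert this using 1
    ext v
    simp
    field_simp
  have hni : HasFDerivAt (fun Y : E => ‖Y‖⁻¹)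
      ((-(‖X‖ ^ 2)⁻¹) • (‖X‖⁻¹ • (innerSL ℝ X : E →L[ℝ] ℝ))) X :=
    (hasDerivAt_inv h0.ne').comp_hasFDerivAt X hn
  have h1 := ((hasFDerivAt_id X).inner ℝ hB).mul hni
  have h2 := (Real.hasDerivAt_arcsin (x := A) hA3.ne' hA4.ne).comp_hasFDerivAt_of_eq X h1
    (by simp [hA, div_eq_mul_inv])
  refine (h2.congr_of_eventuallyEq (Eventually.of_forall fun Y => by
    simp [div_eq_mul_inv])).congr_fderiv ?_
  ext v
  simp only [add_apply, smul_apply, ContinuousLinearMap.comp_apply, innerSL_apply_apply,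
    ContinuousLinearMap.prod_apply, fderivInnerCLM_apply, cvec, ← hA, inner_sub_left,
    inner_smul_left, smul_eq_mul, RCLike.conj_to_real, ContinuousLinearMap.id_apply, id]
  rw [real_inner_comm v (B X)]
  have hXb : ⟪X, B X⟫ = A * ‖X‖ := by rw [hA]; field_simp
  rw [hXb]
  field_simp
  ring

end Pool.Agent.Helper20.VF
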