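import Pool.Agent.Helper20.VF.NullLag

/-!
# Linear algebra of the form `Om`
-/

open MeasureTheory Set Metric Filter
open scoped NNReal Topology RealInnerProductSpace

namespace Pool.Agent.Helper20.VF

variable {E : Type*} [NormedAddCommGroup E] [InnerProductSpace ℝ E] [FiniteDimensional ℝ E]

/-- The determinant of `L + φ ⊗ w + ψ ⊗ a`. -/
noncomputable def Om (L : E →L[ℝ] E) (w a : E) (φ ψ : E →L[ℝ] ℝ) : ℝ :=
  (L + φ.smulRight w + ψ.smulRight a).det

/-- an operator whose range is orthogonal to a non-zero vector has zero determinant. -/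
lemma det_eq_zero_of_inner (T : E →L[ℝ] E) (u : E) (hu : u ≠ 0) (h : ∀ v, ⟪u, T v⟫ = 0) :
    T.det = 0 := by
  rw [ContinuousLinearMap.det]
  by_contra hne
  have hsurj := (LinearMap.equivOfDetNeZero _ hne).surjective
  obtain ⟨v, hv⟩ := hsurj u
  have hv' : T v = u := by simpa using hv
  have h1 := h v
  rw [hv'] at h1
  exact hu (by simpa using h1)

/-- an operator killing a non-zero vector has zero determinant. -/
lemma det_eq_zero_of_apply (T : E →L[ℝ] E) (u : E) (hu : u ≠ 0) (h : T u = 0) :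
    T.det = 0 := by
  rw [ContinuousLinearMap.det]
  by_contra hne
  have hinj := (LinearMap.equivOfDetNeZero _ hne).injective
  exact hu (hinj (by simpa using h))

lemma det_add_smulRight_of_ne (A : E →L[ℝ] E) (hA : A.det ≠ 0) (φ : E →L[ℝ] ℝ) (w : E) :
    (A + φ.smulRight w).det = A.det * (1 + φ ((LinearMap.equivOfDetNeZero _ hA).symm w)) := by
  set e := LinearMap.equivOfDetNeZero _ hA with he
  have key : ((A + φ.smulRight w : E →L[ℝ] E) : E →ₗ[ℝ] E)
      = (A : E →ₗ[ℝ] E) ∘ₗ LinearMap.transvection (φ : E →ₗ[ℝ] ℝ) (e.symm w) := by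
    ext v
    have h1 : A (e.symm w) = w := by
      have := e.apply_symm_apply w
      simpa [he] using this
    simp [LinearMap.transvection.apply, h1]
  rw [ContinuousLinearMap.det, key, LinearMap.det_comp, LinearMap.transvection.det]
  rfl

lemma eventually_det_ne (A : E →L[ℝ] E) :
    ∀ᶠ t in 𝓝[≠] (0 : ℝ), (t • ContinuousLinearMap.id ℝ E + A).det ≠ 0 := by
  have hp : ((-(A : E →ₗ[ℝ] E) : Module.End ℝ E).charpoly) ≠ 0 := (LinearMap.charpoly_monic _).ne_zero
  have hfin : {t : ℝ | ((-(A : E →ₗ[ℝ] E) : Module.End ℝ E).charpoly).eval t = 0}.Finite := by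
    refine (Polynomial.finite_setOfPred_isRoot hp).subset (fun t ht => ht)
  have hcl : IsClosed ({t : ℝ | ((-(A : E →ₗ[ℝ] E) : Module.End ℝ E).charpoly).eval t = 0} \ {0}) :=
    (hfin.subset sdiff_subset).isClosed
  have : ∀ᶠ t in 𝓝 (0 : ℝ), t ∉ ({t : ℝ | ((-(A : E →ₗ[ℝ] E) : Module.End ℝ E).charpoly).eval t = 0} \ {0}) :=
    hcl.isOpen_compl.mem_nhds (by simp)
  filter_upwards [nhdsWithin_le_nhds this, self_mem_nhdsWithin] with t ht ht0
  rw [det_smul_id_add]
  intro h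
  exact ht ⟨h, ht0⟩

lemma det_add_smulRight_add (A : E →L[ℝ] E) (φ₁ φ₂ : E →L[ℝ] ℝ) (w : E) :
    (A + (φ₁ + φ₂).smulRight w).det + A.det
      = (A + φ₁.smulRight w).det + (A + φ₂.smulRight w).det := by
  have h1 : Tendsto (fun t : ℝ => ((t • ContinuousLinearMap.id ℝ E + A)
      + (φ₁ + φ₂).smulRight w).det + (t • ContinuousLinearMap.id ℝ E + A).det) (𝓝[≠] 0)
      (𝓝 ((A + (φ₁ + φ₂).smulRight w).det + A.det)) := by
    have hc : Continuous (fun t : ℝ => ((t • ContinuousLinearMap.id ℝ E + A)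
      + (φ₁ + φ₂).smulRight w).det + (t • ContinuousLinearMap.id ℝ E + A).det) :=
      (ContinuousLinearMap.continuous_det.comp (by fun_prop)).add
        (ContinuousLinearMap.continuous_det.comp (by fun_prop))
    have := hc.tendsto 0
    simp only [zero_smul, zero_add] at this
    exact this.mono_left nhdsWithin_le_nhds
  have h2 : Tendsto (fun t : ℝ => ((t • ContinuousLinearMap.id ℝ E + A)
      + φ₁.smulRight w).det + ((t • ContinuousLinearMap.id ℝ E + A) + φ₂.smulRight w).det) (𝓝[≠] 0)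
      (𝓝 ((A + φ₁.smulRight w).det + (A + φ₂.smulRight w).det)) := by
    have hc : Continuous (fun t : ℝ => ((t • ContinuousLinearMap.id ℝ E + A)
      + φ₁.smulRight w).det + ((t • ContinuousLinearMap.id ℝ E + A) + φ₂.smulRight w).det) :=
      (ContinuousLinearMap.continuous_det.comp (by fun_prop)).add
        (ContinuousLinearMap.continuous_det.comp (by fun_prop))
    have := hc.tendsto 0
    simp only [zero_smul, zero_add] at this
    exact this.mono_left nhdsWithin_le_nhds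
  refine tendsto_nhds_unique h1 (h2.congr' ?_)
  filter_upwards [eventually_det_ne A] with t ht
  rw [det_add_smulRight_of_ne _ ht, det_add_smulRight_of_ne _ ht, det_add_smulRight_of_ne _ ht]
  simp
  ring

lemma det_add_smulRight_smul (A : E →L[ℝ] E) (c : ℝ) (φ : E →L[ℝ] ℝ) (w : E) :
    (A + (c • φ).smulRight w).det = c * ((A + φ.smulRight w).det - A.det) + A.det := by
  have h1 : Tendsto (fun t : ℝ => ((t • ContinuousLinearMap.id ℝ E + A)
      + (c • φ).smulRight w).det) (𝓝[≠] 0)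
      (𝓝 ((A + (c • φ).smulRight w).det)) := by
    have hc : Continuous (fun t : ℝ => ((t • ContinuousLinearMap.id ℝ E + A)
      + (c • φ).smulRight w).det) :=
      (ContinuousLinearMap.continuous_det.comp (by fun_prop))
    have := hc.tendsto 0
    simp only [zero_smul, zero_add] at this
    exact this.mono_left nhdsWithin_le_nhds
  have h2 : Tendsto (fun t : ℝ => c * (((t • ContinuousLinearMap.id ℝ E + A)
      + φ.smulRight w).det - (t • ContinuousLinearMap.id ℝ E + A).det)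
      + (t • ContinuousLinearMap.id ℝ E + A).det) (𝓝[≠] 0)
      (𝓝 (c * ((A + φ.smulRight w).det - A.det) + A.det)) := by
    have hc : Continuous (fun t : ℝ => c * (((t • ContinuousLinearMap.id ℝ E + A)
      + φ.smulRight w).det - (t • ContinuousLinearMap.id ℝ E + A).det)
      + (t • ContinuousLinearMap.id ℝ E + A).det) :=
      (continuous_const.mul ((ContinuousLinearMap.continuous_det.comp (by fun_prop)).sub
        (ContinuousLinearMap.continuous_det.comp (by fun_prop)))).add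
        (ContinuousLinearMap.continuous_det.comp (by fun_prop))
    have := hc.tendsto 0
    simp only [zero_smul, zero_add] at this
    exact this.mono_left nhdsWithin_le_nhds
  refine tendsto_nhds_unique h1 (h2.congr' ?_)
  filter_upwards [eventually_det_ne A] with t ht
  rw [det_add_smulRight_of_ne _ ht, det_add_smulRight_of_ne _ ht]
  simp
  ring

lemma det_scale (L : E →L[ℝ] E) (w a : E) (hw : ‖w‖ = 1) (ha : ‖a‖ = 1) (hwa : ⟪w, a⟫ = 0)
    (hLw : ∀ v, ⟪w, L v⟫ = 0) (hLa : ∀ v, ⟪a, L v⟫ = 0) (φ ψ : E →L[ℝ] ℝ) (lam c : ℝ)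
    (hlam : lam ≠ 0) :
    Om (lam • L) w a (c • φ) ψ * lam ^ 2 = lam ^ Module.finrank ℝ E * c * Om L w a φ ψ := by
  set T1 : E →ₗ[ℝ] E := LinearMap.transvection
    (((c - lam) / lam) • (innerSL ℝ w : E →L[ℝ] ℝ) : E →ₗ[ℝ] ℝ) w with hT1
  set T2 : E →ₗ[ℝ] E := LinearMap.transvection
    (((1 - lam) / lam) • (innerSL ℝ a : E →L[ℝ] ℝ) : E →ₗ[ℝ] ℝ) a with hT2
  have hww : ⟪w, w⟫ = 1 := by rw [real_inner_self_eq_norm_sq, hw]; norm_num
  have haa : ⟪a, a⟫ = 1 := by rw [real_inner_self_eq_norm_sq, ha]; norm_num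
  have haw : ⟪a, w⟫ = 0 := by rw [real_inner_comm]; exact hwa
  have hd1 : T1.det = c / lam := by
    rw [hT1, LinearMap.transvection.det]
    simp [hw]
    field_simp
    ring
  have hd2 : T2.det = 1 / lam := by
    rw [hT2, LinearMap.transvection.det]
    simp [ha]
    field_simp
    ring
  have key : ((lam • L + (c • φ).smulRight w + ψ.smulRight a : E →L[ℝ] E) : E →ₗ[ℝ] E)
      = (lam • (T1 ∘ₗ T2)) ∘ₗ ((L + φ.smulRight w + ψ.smulRight a : E →L[ℝ] E) : E →ₗ[ℝ] E) := by
    ext v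
    simp only [hT1, hT2, LinearMap.transvection.apply, ContinuousLinearMap.coe_coe,
      add_apply, smul_apply, LinearMap.smul_apply,
      ContinuousLinearMap.smulRight_apply, LinearMap.comp_apply, innerSL_apply_apply,
      inner_add_right, inner_smul_right, hLw, hLa, hww, haa, hwa, haw, smul_eq_mul]
    simp only [smul_add, smul_smul, mul_zero, mul_one, zero_add, add_zero]
    have e1 : lam * ((1 - lam) / lam * ψ v) = (1 - lam) * ψ v := by field_simp
    have e2 : lam * ((c - lam) / lam * φ v) = (c - lam) * φ v := by field_simp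
    rw [e1, e2]
    module
  unfold Om
  rw [ContinuousLinearMap.det, key, LinearMap.det_comp, LinearMap.det_smul, LinearMap.det_comp,
    hd1, hd2, ContinuousLinearMap.det]
  field_simp

lemma Om_zero_left (L : E →L[ℝ] E) (w a : E) (hw : ‖w‖ = 1) (hwa : ⟪w, a⟫ = 0)
    (hLw : ∀ v, ⟪w, L v⟫ = 0) (ψ : E →L[ℝ] ℝ) : Om L w a 0 ψ = 0 := by
  unfold Om
  refine det_eq_zero_of_inner _ w (by rintro rfl; simp at hw) (fun v => ?_)
  simp [inner_add_right, inner_smul_right, hLw, hwa]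

lemma Om_add_left (L : E →L[ℝ] E) (w a : E) (hw : ‖w‖ = 1) (hwa : ⟪w, a⟫ = 0)
    (hLw : ∀ v, ⟪w, L v⟫ = 0) (φ₁ φ₂ ψ : E →L[ℝ] ℝ) :
    Om L w a (φ₁ + φ₂) ψ = Om L w a φ₁ ψ + Om L w a φ₂ ψ := by
  have h := det_add_smulRight_add (L + ψ.smulRight a) φ₁ φ₂ w
  have h0 := Om_zero_left L w a hw hwa hLw ψ
  unfold Om at *
  have e : ∀ χ : E →L[ℝ] ℝ, L + χ.smulRight w + ψ.smulRight a
      = L + ψ.smulRight a + χ.smulRight w := fun χ => by abel
  rw [e] at h0 ⊢
  rw [e, e]
  have h0' : (L + ψ.smulRight a).det = 0 := by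
    rw [← h0]; congr 1; ext v; simp
  rw [h0', add_zero] at h
  exact h

lemma Om_smul_left (L : E →L[ℝ] E) (w a : E) (hw : ‖w‖ = 1) (hwa : ⟪w, a⟫ = 0)
    (hLw : ∀ v, ⟪w, L v⟫ = 0) (c : ℝ) (φ ψ : E →L[ℝ] ℝ) :
    Om L w a (c • φ) ψ = c * Om L w a φ ψ := by
  have h := det_add_smulRight_smul (L + ψ.smulRight a) c φ w
  have h0 := Om_zero_left L w a hw hwa hLw ψ
  unfold Om at *
  have e : ∀ χ : E →L[ℝ] ℝ, L + χ.smulRight w + ψ.smulRight a
      = L + ψ.smulRight a + χ.smulRight w := fun χ => by abel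
  rw [e] at h0 ⊢
  rw [e]
  have h0' : (L + ψ.smulRight a).det = 0 := by
    rw [← h0]; congr 1; ext v; simp
  rw [h0', add_zero, sub_zero] at h
  exact h

omit [FiniteDimensional ℝ E] in
lemma Om_swap (L : E →L[ℝ] E) (w a : E) (φ ψ : E →L[ℝ] ℝ) : Om L w a φ ψ = Om L a w ψ φ := by
  unfold Om
  congr 1
  abel

lemma Om_smul_right (L : E →L[ℝ] E) (w a : E) (ha : ‖a‖ = 1) (hwa : ⟪w, a⟫ = 0)
    (hLa : ∀ v, ⟪a, L v⟫ = 0) (c : ℝ) (φ ψ : E →L[ℝ] ℝ) :
    Om L w a φ (c • ψ) = c * Om L w a φ ψ := by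
  rw [Om_swap, Om_swap L w a φ ψ]
  exact Om_smul_left L a w ha (by rw [real_inner_comm]; exact hwa) hLa c ψ φ

/-- `Om` vanishes when the two covectors are proportional. -/
lemma Om_self (L : E →L[ℝ] E) (w a : E) (hw : ‖w‖ = 1) (ha : ‖a‖ = 1) (hwa : ⟪w, a⟫ = 0)
    (hLw : ∀ v, ⟪w, L v⟫ = 0) (hLa : ∀ v, ⟪a, L v⟫ = 0) (c : ℝ) (ψ : E →L[ℝ] ℝ) :
    Om L w a (c • ψ) ψ = 0 := by
  unfold Om
  have hww : ⟪w, w⟫ = 1 := by rw [real_inner_self_eq_norm_sq, hw]; norm_num
  have haa : ⟪a, a⟫ = 1 := by rw [real_inner_self_eq_norm_sq, ha]; norm_num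
  have haw : ⟪a, w⟫ = 0 := by rw [real_inner_comm]; exact hwa
  refine det_eq_zero_of_inner _ (w - c • a) ?_ (fun v => ?_)
  · intro h
    have : ⟪w, w - c • a⟫ = 0 := by rw [h]; simp
    rw [inner_sub_right, inner_smul_right, hwa, hww] at this
    norm_num at this
  · simp only [add_apply, smul_apply, ContinuousLinearMap.smulRight_apply, inner_add_right,
      inner_sub_left, inner_smul_left, inner_smul_right, hLw, hLa, hww, haa, hwa, haw, smul_eq_mul]
    simp
    ring

/-- `Om` vanishes when the first covector factors through `L`. -/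
lemma Om_comp_left (L : E →L[ℝ] E) (w a : E) (hw : ‖w‖ = 1) (hwa : ⟪w, a⟫ = 0)
    (haa : ‖a‖ = 1) (hLw : ∀ v, ⟪w, L v⟫ = 0) (hLa : ∀ v, ⟪a, L v⟫ = 0) (β ψ : E →L[ℝ] ℝ) :
    Om L w a (β ∘L L) ψ = 0 := by
  unfold Om
  have hww : ⟪w, w⟫ = 1 := by rw [real_inner_self_eq_norm_sq, hw]; norm_num
  have haa' : ⟪a, a⟫ = 1 := by rw [real_inner_self_eq_norm_sq, haa]; norm_num
  have haw : ⟪a, w⟫ = 0 := by rw [real_inner_comm]; exact hwa
  obtain ⟨b, hb⟩ : ∃ b : E, ∀ v, β v = ⟪b, v⟫ :=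
    ⟨(InnerProductSpace.toDual ℝ E).symm β, fun v => by simp⟩
  refine det_eq_zero_of_inner _ (w - (b - ⟪b, w⟫ • w - ⟪b, a⟫ • a)) ?_ (fun v => ?_)
  · intro h
    have : ⟪w, w - (b - ⟪b, w⟫ • w - ⟪b, a⟫ • a)⟫ = 0 := by rw [h]; simp
    simp only [inner_sub_right, inner_smul_right, hwa, hww, real_inner_comm b w] at this
    norm_num at this
  · simp only [add_apply, ContinuousLinearMap.smulRight_apply, inner_add_right,
      inner_sub_left, inner_smul_left, inner_smul_right, hLw, hLa, hww, haa', hwa, haw,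
      ContinuousLinearMap.comp_apply, hb]
    simp

/-- The Jacobian-type quantity `√det(L L† + w⊗w + a⊗a)`. -/
noncomputable def Dd (L : E →L[ℝ] E) (w a : E) : ℝ :=
  √(L ∘L L.adjoint + (innerSL ℝ w).smulRight w + (innerSL ℝ a).smulRight a).det

lemma det_adjoint_eq (M : E →L[ℝ] E) : M.adjoint.det = M.det := by
  have h : ((ContinuousLinearMap.adjoint M : E →L[ℝ] E) : E →ₗ[ℝ] E)
      = LinearMap.adjoint (M : E →ₗ[ℝ] E) := by
    rfl
  rw [ContinuousLinearMap.det, h, ContinuousLinearMap.det,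
    ← LinearMap.det_toMatrix (stdOrthonormalBasis ℝ E).toBasis,
    LinearMap.toMatrix_adjoint, Matrix.det_conjTranspose, LinearMap.det_toMatrix]
  simp

lemma abs_Om_le (L : E →L[ℝ] E) (w a : E) (hw : ‖w‖ = 1) (ha : ‖a‖ = 1) (hwa : ⟪w, a⟫ = 0)
    (hLw : ∀ v, ⟪w, L v⟫ = 0) (hLa : ∀ v, ⟪a, L v⟫ = 0) (c e : E) (he : ‖e‖ = 1)
    (hLe : L e = 0) :
    |Om L w a (innerSL ℝ c) (innerSL ℝ e)| ≤ ‖c‖ * Dd L w a := by
  have hww : ⟪w, w⟫ = 1 := by rw [real_inner_self_eq_norm_sq, hw]; norm_num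
  have haa : ⟪a, a⟫ = 1 := by rw [real_inner_self_eq_norm_sq, ha]; norm_num
  have haw : ⟪a, w⟫ = 0 := by rw [real_inner_comm]; exact hwa
  -- a unit vector `k` with `L k = 0`, `⟪e, k⟫ = 0`
  obtain ⟨k, hk, hLk, hek⟩ : ∃ k : E, ‖k‖ = 1 ∧ L k = 0 ∧ ⟪e, k⟫ = 0 := by
    have h0 : (L + (innerSL ℝ e).smulRight a : E →L[ℝ] E).det = 0 := by
      refine det_eq_zero_of_inner _ w (by rintro rfl; simp at hw) (fun v => ?_)
      simp [inner_add_right, inner_smul_right, hLw, hwa]
    have hlt := LinearMap.bot_lt_ker_of_det_eq_zero h0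
    obtain ⟨k, hk, hk0⟩ := SetLike.exists_of_lt hlt
    have hk0' : k ≠ 0 := by simpa using hk0
    have hk1 : L k + ⟪e, k⟫ • a = 0 := by simpa using hk
    have hek : ⟪e, k⟫ = 0 := by
      have := congrArg (fun v => ⟪a, v⟫) hk1
      simp only [inner_add_right, inner_smul_right, hLa, haa] at this
      simpa using this
    rw [hek, zero_smul, add_zero] at hk1
    refine ⟨‖k‖⁻¹ • k, ?_, ?_, ?_⟩
    · rw [norm_smul, norm_inv, norm_norm, inv_mul_cancel₀ (norm_ne_zero_iff.2 hk0')]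
    · rw [map_smul, hk1, smul_zero]
    · rw [inner_smul_right, hek, mul_zero]
  have hkk : ⟪k, k⟫ = 1 := by rw [real_inner_self_eq_norm_sq, hk]; norm_num
  have hke : ⟪k, e⟫ = 0 := by rw [real_inner_comm]; exact hek
  have hee : ⟪e, e⟫ = 1 := by rw [real_inner_self_eq_norm_sq, he]; norm_num
  -- decomposition of `c`
  have h1 : Om L w a (innerSL ℝ c) (innerSL ℝ e)
      = ⟪c, k⟫ * Om L w a (innerSL ℝ k) (innerSL ℝ e) := by
    have hdec : (innerSL ℝ c : E →L[ℝ] ℝ) = ⟪c, k⟫ • (innerSL ℝ k : E →L[ℝ] ℝ)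
        + innerSL ℝ (c - ⟪c, k⟫ • k) := by
      ext v
      simp
    rw [hdec, Om_add_left L w a hw hwa hLw, Om_smul_left L w a hw hwa hLw]
    have : Om L w a (innerSL ℝ (c - ⟪c, k⟫ • k)) (innerSL ℝ e) = 0 := by
      refine det_eq_zero_of_apply _ k (by rintro rfl; simp at hk) ?_
      simp [hLk, hek, hk]
    rw [this, add_zero]
  -- the value at `k`
  have h2 : |Om L w a (innerSL ℝ k) (innerSL ℝ e)| = Dd L w a := by
    set M : E →L[ℝ] E := L + (innerSL ℝ k).smulRight w + (innerSL ℝ e).smulRight a with hM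
    have hadj : ∀ v, M.adjoint v = L.adjoint v + ⟪w, v⟫ • k + ⟪a, v⟫ • e := by
      intro v
      refine ext_inner_right ℝ (fun u => ?_)
      rw [ContinuousLinearMap.adjoint_inner_left]
      simp only [hM, add_apply, ContinuousLinearMap.smulRight_apply, innerSL_apply_apply,
        inner_add_right, inner_add_left, inner_smul_right, inner_smul_left,
        ContinuousLinearMap.adjoint_inner_left]
      simp only [RCLike.conj_to_real, real_inner_comm v w, real_inner_comm v a]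
      ring
    have hMM : M ∘L M.adjoint
        = L ∘L L.adjoint + (innerSL ℝ w).smulRight w + (innerSL ℝ a).smulRight a := by
      ext v
      have hk' : ⟪k, L.adjoint v⟫ = 0 := by
        rw [ContinuousLinearMap.adjoint_inner_right, hLk, inner_zero_left]
      have he' : ⟪e, L.adjoint v⟫ = 0 := by
        rw [ContinuousLinearMap.adjoint_inner_right, hLe, inner_zero_left]
      rw [ContinuousLinearMap.comp_apply, hadj]
      simp only [hM, add_apply, ContinuousLinearMap.smulRight_apply, innerSL_apply_apply,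
        map_add, map_smul, inner_add_right, inner_smul_right, hLk, hLe, hk', he', hkk, hke, hek, hee,
        ContinuousLinearMap.comp_apply]
      simp
    have hdet : (L ∘L L.adjoint + (innerSL ℝ w).smulRight w + (innerSL ℝ a).smulRight a).det
        = M.det ^ 2 := by
      rw [← hMM]
      change LinearMap.det ((M : E →ₗ[ℝ] E) ∘ₗ (M.adjoint : E →ₗ[ℝ] E)) = _
      rw [LinearMap.det_comp]
      change M.det * M.adjoint.det = _
      rw [det_adjoint_eq, sq]
    rw [Dd, hdet, Real.sqrt_sq_eq_abs]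
    rfl
  rw [h1, abs_mul, h2]
  refine mul_le_mul_of_nonneg_right ?_ (Real.sqrt_nonneg _)
  calc |⟪c, k⟫| ≤ ‖c‖ * ‖k‖ := abs_real_inner_le_norm c k
    _ = ‖c‖ := by rw [hk, mul_one]

end Pool.Agent.Helper20.VF
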