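import Mathlib
import Pool.Agent.Helper20.VF.Omega

/-!
# Step function, continuity lemmas
-/

open MeasureTheory Set Metric Filter
open scoped NNReal Topology RealInnerProductSpace ContDiff

namespace Pool.Agent.Helper20.VF

lemma exists_step : ∃ η θ : ℝ → ℝ, ContDiff ℝ 1 η ∧ (∀ t, HasDerivAt η (θ t) t) ∧ Continuous θ ∧
    HasCompactSupport θ ∧ ∫ t, θ t = 1 ∧ (∀ t, 0 ≤ η t) ∧ (∀ t, η t ≤ 1) ∧ ∀ t ≤ 0, η t = 0 := by
  have hd : ContDiff ℝ 1 Real.smoothTransition := Real.smoothTransition.contDiff
  have hD : ∀ t, HasDerivAt Real.smoothTransition (deriv Real.smoothTransition t) t := fun t =>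
    (hd.differentiable one_ne_zero t).hasDerivAt
  have hc : Continuous (deriv Real.smoothTransition) := hd.continuous_deriv le_rfl
  have h0 : ∀ t, t < 0 → deriv Real.smoothTransition t = 0 := by
    intro t ht
    have : HasDerivAt Real.smoothTransition 0 t := by
      refine (hasDerivAt_const t (0 : ℝ)).congr_of_eventuallyEq ?_
      filter_upwards [gt_mem_nhds ht] with s hs
      exact Real.smoothTransition.zero_of_nonpos hs.le
    exact this.deriv
  have h1 : ∀ t, 1 < t → deriv Real.smoothTransition t = 0 := by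
    intro t ht
    have : HasDerivAt Real.smoothTransition 0 t := by
      refine (hasDerivAt_const t (1 : ℝ)).congr_of_eventuallyEq ?_
      filter_upwards [lt_mem_nhds ht] with s hs
      exact Real.smoothTransition.one_of_one_le hs.le
    exact this.deriv
  have hz : ∀ t ∉ Icc (0 : ℝ) 1, deriv Real.smoothTransition t = 0 := by
    intro t ht
    by_cases h : t < 0
    · exact h0 t h
    · refine h1 t ?_
      by_contra h'
      exact ht ⟨not_lt.1 h, not_lt.1 h'⟩
  refine ⟨Real.smoothTransition, deriv Real.smoothTransition, hd, hD, hc, ?_, ?_,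
    Real.smoothTransition.nonneg, Real.smoothTransition.le_one,
    fun t ht => Real.smoothTransition.zero_of_nonpos ht⟩
  · exact HasCompactSupport.intro isCompact_Icc hz
  · have e1 : ∫ t, deriv Real.smoothTransition t = ∫ t in Icc (0 : ℝ) 1, deriv Real.smoothTransition t :=
      (setIntegral_eq_integral_of_forall_compl_eq_zero hz).symm
    rw [e1, integral_Icc_eq_integral_Ioc, ← intervalIntegral.integral_of_le zero_le_one,
      intervalIntegral.integral_eq_sub_of_hasDerivAt (fun t _ => hD t) (hc.intervalIntegrable _ _)]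
    simp

variable {E : Type*} [NormedAddCommGroup E] [InnerProductSpace ℝ E]

lemma continuous_of_continuousOn_of_zero {U K : Set E} (hU : IsOpen U) (hK : IsClosed K)
    (hKU : K ⊆ U) (h : E → ℝ) (h1 : ContinuousOn h U) (h2 : ∀ x ∉ K, h x = 0) : Continuous h := by
  rw [continuous_iff_continuousAt]
  intro x
  by_cases hx : x ∈ U
  · exact h1.continuousAt (hU.mem_nhds hx)
  · have hx' : x ∈ Kᶜ := fun h => hx (hKU h)
    refine (continuousAt_const (y := (0 : ℝ))).congr ?_
    filter_upwards [hK.isOpen_compl.mem_nhds hx'] with y hy using (h2 y hy).symm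

lemma continuous_Om (a : E) : Continuous (fun p : (E →L[ℝ] E) × E × (E →L[ℝ] ℝ) × (E →L[ℝ] ℝ) =>
    Om p.1 p.2.1 a p.2.2.1 p.2.2.2) := by
  unfold Om
  refine ContinuousLinearMap.continuous_det.comp ?_
  have h1 : Continuous (fun p : (E →L[ℝ] E) × E × (E →L[ℝ] ℝ) × (E →L[ℝ] ℝ) =>
      (p.2.2.1).smulRight p.2.1) :=
    ((ContinuousLinearMap.smulRightL ℝ E E).continuous.comp (by fun_prop)).clm_apply (by fun_prop)
  have h2 : Continuous (fun p : (E →L[ℝ] E) × E × (E →L[ℝ] ℝ) × (E →L[ℝ] ℝ) =>
      (p.2.2.2).smulRight a) :=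
    ((ContinuousLinearMap.smulRightL ℝ E E).continuous.comp (by fun_prop)).clm_apply (by fun_prop)
  exact (continuous_fst.add h1).add h2

variable [FiniteDimensional ℝ E]

lemma continuous_Dd : Continuous (fun p : (E →L[ℝ] E) × E × E => Dd p.1 p.2.1 p.2.2) := by
  unfold Dd
  refine Real.continuous_sqrt.comp (ContinuousLinearMap.continuous_det.comp ?_)
  have h1 : Continuous (fun p : (E →L[ℝ] E) × E × E => (innerSL ℝ p.2.1 : E →L[ℝ] ℝ).smulRight p.2.1) :=
    ((ContinuousLinearMap.smulRightL ℝ E E).continuous.comp (by fun_prop)).clm_apply (by fun_prop)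
  have h2 : Continuous (fun p : (E →L[ℝ] E) × E × E => (innerSL ℝ p.2.2 : E →L[ℝ] ℝ).smulRight p.2.2) :=
    ((ContinuousLinearMap.smulRightL ℝ E E).continuous.comp (by fun_prop)).clm_apply (by fun_prop)
  have h3 : Continuous (fun p : (E →L[ℝ] E) × E × E => p.1 ∘L ContinuousLinearMap.adjoint p.1) :=
    continuous_fst.clm_comp ((ContinuousLinearMap.adjoint : (E →L[ℝ] E) ≃ₗᵢ⋆[ℝ] _).continuous.comp continuous_fst)
  exact (h3.add h1).add h2

end Pool.Agent.Helper20.VF
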