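import Mathlib
import Pool.Agent.Helper20.VF.Step
import Pool.Agent.Helper20.VF.Arcsin
import Pool.Agent.Helper20.VF.Field
import Pool.Agent.Helper20.VF.Stokes

/-!
# The calibration inequality for a fixed pole
-/

open MeasureTheory Set Metric Filter
open scoped NNReal Topology RealInnerProductSpace ContDiff Manifold

namespace Pool.Agent.Helper20.VF

variable {E : Type*} [NormedAddCommGroup E] [InnerProductSpace ℝ E]

/-- normalised difference vector. -/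
noncomputable def Bf (δ : ℝ) (v w : E) : E := (1 / √(2 + δ - 2 * ⟪v, w⟫)) • (v - w)

lemma den_pos {δ : ℝ} (hδ : 0 < δ) {v w : E} (hv : ‖v‖ = 1) (hw : ‖w‖ = 1) :
    0 < 2 + δ - 2 * ⟪v, w⟫ := by
  have := real_inner_le_norm v w
  rw [hv, hw] at this
  linarith

lemma norm_Bf_lt {δ : ℝ} (hδ : 0 < δ) {v w : E} (hv : ‖v‖ = 1) (hw : ‖w‖ = 1) :
    ‖Bf δ v w‖ < 1 := by
  have h := den_pos hδ hv hw
  have h1 : ‖Bf δ v w‖ ^ 2 < 1 := by
    rw [Bf, norm_smul, mul_pow, Real.norm_eq_abs, sq_abs, div_pow, Real.sq_sqrt h.le,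
      norm_sub_sq_real, hv, hw, one_pow, div_mul_eq_mul_div, one_mul, div_lt_one h]
    linarith
  exact (sq_lt_one_iff₀ (norm_nonneg _)).1 h1

lemma contDiffAt_Bf {δ : ℝ} (hδ : 0 < δ) {v w : E} (hv : ‖v‖ = 1) (hw : ‖w‖ = 1) :
    ContDiffAt ℝ 1 (Bf δ v) w := by
  have h := den_pos hδ hv hw
  unfold Bf
  have h1 : ContDiffAt ℝ 1 (fun w : E => 2 + δ - 2 * ⟪v, w⟫) w :=
    contDiffAt_const.sub (contDiffAt_const.mul (contDiffAt_const.inner ℝ contDiffAt_id))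
  exact (contDiffAt_const.div (h1.sqrt h.ne') (Real.sqrt_pos.2 h).ne').smul
    (contDiffAt_const.sub contDiffAt_id)

variable {V : E → E} {a : E} {δ : ℝ}

/-- the field of vectors `b`. -/
noncomputable def Bw (V : E → E) (a : E) (δ : ℝ) (X : E) : E := Bf δ (V (-a)) (Wf V a X)

/-- the calibrating function. -/
noncomputable def F2 (V : E → E) (a : E) (δ : ℝ) (X : E) : ℝ :=
  Real.arcsin (⟪X, Bw V a δ X⟫ / ‖X‖)

lemma norm_V_neg (hV : UField V) (ha : ‖a‖ = 1) : ‖V (-a)‖ = 1 :=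
  hV.unit _ (by rw [neg_ne_zero]; rintro rfl; simp at ha)

lemma norm_Bw_lt (hV : UField V) (ha : ‖a‖ = 1) (hδ : 0 < δ) {X : E} (hX : X ≠ 0) :
    ‖Bw V a δ X‖ < 1 :=
  norm_Bf_lt hδ (norm_V_neg hV ha) (norm_Wf hV ha hX)

lemma contDiffOn_Bw (hV : UField V) (ha : ‖a‖ = 1) (hδ : 0 < δ) :
    ContDiffOn ℝ 1 (Bw V a δ) {0}ᶜ := by
  intro X hX
  exact (contDiffAt_Bf hδ (norm_V_neg hV ha) (norm_Wf hV ha hX)).comp_contDiffWithinAt X
    (contDiffOn_Wf hV ha X hX)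

lemma contDiffOn_F2 (hV : UField V) (ha : ‖a‖ = 1) (hδ : 0 < δ) :
    ContDiffOn ℝ 1 (F2 V a δ) {0}ᶜ := by
  intro X hX
  have hX' : X ≠ 0 := hX
  have h := abs_inner_div_lt hX' (norm_Bw_lt hV ha hδ hX')
  obtain ⟨h1, h2⟩ := abs_lt.1 h
  have h3 : ContDiffOn ℝ 1 (fun X : E => ⟪X, Bw V a δ X⟫ / ‖X‖) {0}ᶜ :=
    (contDiffOn_id.inner ℝ (contDiffOn_Bw hV ha hδ)).div
      (fun Y hY => ((contDiffAt_norm ℝ hY).contDiffWithinAt)) (fun Y hY => norm_ne_zero_iff.2 hY)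
  exact (Real.contDiffAt_arcsin h1.ne' h2.ne).comp_contDiffWithinAt X (h3 X hX)

lemma hasFDerivAt_F2 (hV : UField V) (ha : ‖a‖ = 1) (hδ : 0 < δ) {X : E} (hX : X ≠ 0) :
    ∃ β : E →L[ℝ] ℝ, HasFDerivAt (F2 V a δ)
      (innerSL ℝ (cvec X (Bw V a δ X)) + β ∘L (fderiv ℝ (Wf V a) X)) X := by
  have hU : IsOpen ({0}ᶜ : Set E) := isOpen_compl_singleton
  have hWd : HasFDerivAt (Wf V a) (fderiv ℝ (Wf V a) X) X :=
    (((contDiffOn_Wf hV ha).differentiableOn one_ne_zero X hX).differentiableAt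
      (hU.mem_nhds hX)).hasFDerivAt
  have hBd := ((contDiffAt_Bf hδ (norm_V_neg hV ha) (norm_Wf hV ha hX)).differentiableAt
    one_ne_zero).hasFDerivAt
  have h1 : HasFDerivAt (Bw V a δ) _ X := hBd.comp X hWd
  have h2 := hasFDerivAt_arcsin_inner hX h1 (norm_Bw_lt hV ha hδ hX)
  exact ⟨(((1 / √(1 - (⟪X, Bw V a δ X⟫ / ‖X‖) ^ 2)) / ‖X‖) • (innerSL ℝ X : E →L[ℝ] ℝ))
    ∘L (fderiv ℝ (Bf δ (V (-a))) (Wf V a X)), h2⟩

variable [FiniteDimensional ℝ E]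

/-- the boundary density. -/
noncomputable def Psi (V : E → E) (a : E) (δ : ℝ) (K : ℝ → ℝ) (X : E) : ℝ :=
  F2 V a δ X * (2 * K (‖X‖ ^ 2) *
    Om (fderiv ℝ (Wf V a) X) (Wf V a X) a (innerSL ℝ a) (innerSL ℝ X))

/-- the interior density. -/
noncomputable def Theta (V : E → E) (a : E) (δ : ℝ) (K : ℝ → ℝ) (X : E) : ℝ :=
  2 * K (‖X‖ ^ 2) * Om (fderiv ℝ (Wf V a) X) (Wf V a X) a (innerSL ℝ (cvec X (Bw V a δ X)))
    (innerSL ℝ X)

/-- the Jacobian density. -/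
noncomputable def Mj (V : E → E) (a : E) (X : E) : ℝ :=
  Dd (fderiv ℝ (Wf V a) X) (Wf V a X) a

lemma isOpen_U : IsOpen ({0}ᶜ : Set E) := isOpen_compl_singleton

lemma diffOn_Wf (hV : UField V) (ha : ‖a‖ = 1) : DifferentiableOn ℝ (Wf V a) {0}ᶜ :=
  (contDiffOn_Wf hV ha).differentiableOn one_ne_zero

lemma inner_Wf_fderiv (hV : UField V) (ha : ‖a‖ = 1) {X : E} (hX : X ≠ 0) (v : E) :
    ⟪Wf V a X, fderiv ℝ (Wf V a) X v⟫ = 0 :=
  inner_fderiv_of_norm_one isOpen_U (Wf V a) (diffOn_Wf hV ha) (fun _ hx => norm_Wf hV ha hx) hX v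

lemma inner_a_fderiv (hV : UField V) (ha : ‖a‖ = 1) {X : E} (hX : X ≠ 0) (v : E) :
    ⟪a, fderiv ℝ (Wf V a) X v⟫ = 0 :=
  inner_fderiv_of_orth isOpen_U (Wf V a) (diffOn_Wf hV ha) a (fun _ _ => inner_Wf hV) hX v

lemma fderiv_Wf_self (hV : UField V) (ha : ‖a‖ = 1) {X : E} (hX : X ≠ 0) :
    fderiv ℝ (Wf V a) X X = 0 :=
  fderiv_apply_self_of_homog (fun _ _ ht => Wf_smul ht.ne')
    ((diffOn_Wf hV ha X hX).differentiableAt (isOpen_U.mem_nhds hX))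

lemma abs_Theta_le (hV : UField V) (ha : ‖a‖ = 1) (hδ : 0 < δ) (K : ℝ → ℝ) (hK : ∀ u, 0 ≤ K u)
    {X : E} (hX : X ≠ 0) : |Theta V a δ K X| ≤ 2 * K (‖X‖ ^ 2) * Mj V a X := by
  have h0 : 0 < ‖X‖ := norm_pos_iff.2 hX
  set e : E := ‖X‖⁻¹ • X with he
  have hen : ‖e‖ = 1 := by rw [he, norm_smul, norm_inv, norm_norm, inv_mul_cancel₀ h0.ne']
  have hXe : (innerSL ℝ X : E →L[ℝ] ℝ) = ‖X‖ • innerSL ℝ e := by
    ext v
    simp [he, h0.ne']
  have hLe : fderiv ℝ (Wf V a) X e = 0 := by rw [he, map_smul, fderiv_Wf_self hV ha hX, smul_zero]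
  have hb := abs_Om_le (fderiv ℝ (Wf V a) X) (Wf V a X) a (norm_Wf hV ha hX) ha (inner_Wf hV)
    (inner_Wf_fderiv hV ha hX) (inner_a_fderiv hV ha hX) (cvec X (Bw V a δ X)) e hen hLe
  have hc := norm_cvec_le hX (norm_Bw_lt hV ha hδ hX)
  rw [Theta, hXe, Om_smul_right _ _ _ ha (inner_Wf hV) (inner_a_fderiv hV ha hX), abs_mul,
    abs_of_nonneg (mul_nonneg zero_le_two (hK _)), abs_mul, abs_of_pos h0]
  refine mul_le_mul_of_nonneg_left ?_ (mul_nonneg zero_le_two (hK _))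
  calc ‖X‖ * |Om (fderiv ℝ (Wf V a) X) (Wf V a X) a (innerSL ℝ (cvec X (Bw V a δ X))) (innerSL ℝ e)|
      ≤ ‖X‖ * (‖cvec X (Bw V a δ X)‖ * Mj V a X) := mul_le_mul_of_nonneg_left hb h0.le
    _ ≤ ‖X‖ * (1 / ‖X‖ * Mj V a X) := by
        refine mul_le_mul_of_nonneg_left (mul_le_mul_of_nonneg_right hc (Real.sqrt_nonneg _)) h0.le
    _ = Mj V a X := by field_simp

lemma continuousOn_fderiv_Wf (hV : UField V) (ha : ‖a‖ = 1) :
    ContinuousOn (fderiv ℝ (Wf V a)) {0}ᶜ :=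
  (contDiffOn_Wf hV ha).continuousOn_fderiv_of_isOpen isOpen_U le_rfl

lemma continuousOn_Mj (hV : UField V) (ha : ‖a‖ = 1) : ContinuousOn (Mj V a) {0}ᶜ := by
  have hf : ContinuousOn (fun X : E => ((fderiv ℝ (Wf V a) X, Wf V a X, a) :
      (E →L[ℝ] E) × E × E)) {0}ᶜ := (continuousOn_fderiv_Wf hV ha).prodMk
    ((contDiffOn_Wf hV ha).continuousOn.prodMk continuousOn_const)
  exact (continuous_Dd.comp_continuousOn hf).congr (fun X _ => rfl)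

lemma continuousOn_Psi (hV : UField V) (ha : ‖a‖ = 1) (hδ : 0 < δ) {K : ℝ → ℝ}
    (hK : Continuous K) : ContinuousOn (Psi V a δ K) {0}ᶜ := by
  have hf : ContinuousOn (fun X : E => ((fderiv ℝ (Wf V a) X, Wf V a X, innerSL ℝ a, innerSL ℝ X) :
      (E →L[ℝ] E) × E × (E →L[ℝ] ℝ) × (E →L[ℝ] ℝ))) {0}ᶜ :=
    (continuousOn_fderiv_Wf hV ha).prodMk
      ((contDiffOn_Wf hV ha).continuousOn.prodMk (continuousOn_const.prodMk
        (innerSL ℝ (E := E)).continuous.continuousOn))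
  have hO := (continuous_Om a).comp_continuousOn hf
  have hKc : ContinuousOn (fun X : E => 2 * K (‖X‖ ^ 2)) {0}ᶜ := by fun_prop
  exact ((contDiffOn_F2 hV ha hδ).continuousOn.mul (hKc.mul hO)).congr (fun X _ => rfl)

lemma continuousOn_cvec (hV : UField V) (ha : ‖a‖ = 1) (hδ : 0 < δ) :
    ContinuousOn (fun X => cvec X (Bw V a δ X)) {0}ᶜ := by
  have hB := (contDiffOn_Bw hV ha hδ).continuousOn
  have hi : ContinuousOn (fun X : E => ⟪X, Bw V a δ X⟫) {0}ᶜ := continuousOn_id.inner hB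
  have hn : ∀ X ∈ ({0}ᶜ : Set E), ‖X‖ ≠ 0 := fun X hX => norm_ne_zero_iff.2 hX
  unfold cvec
  refine ContinuousOn.smul ?_ (ContinuousOn.sub (ContinuousOn.smul ?_ hB)
    (ContinuousOn.smul ?_ continuousOn_id))
  · refine continuousOn_const.div ?_ (fun X hX => ?_)
    · exact Real.continuous_sqrt.comp_continuousOn
        (continuousOn_const.sub ((hi.div continuous_norm.continuousOn hn).pow 2))
    · refine (Real.sqrt_pos.2 ?_).ne'
      have := (sq_lt_one_iff_abs_lt_one _).2 (abs_inner_div_lt hX (norm_Bw_lt hV ha hδ hX))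
      linarith
  · exact continuousOn_const.div continuous_norm.continuousOn hn
  · exact hi.div (continuous_norm.continuousOn.pow 3) (fun X hX => pow_ne_zero 3 (hn X hX))

lemma continuousOn_Theta (hV : UField V) (ha : ‖a‖ = 1) (hδ : 0 < δ) {K : ℝ → ℝ}
    (hK : Continuous K) : ContinuousOn (Theta V a δ K) {0}ᶜ := by
  have hf : ContinuousOn (fun X : E => ((fderiv ℝ (Wf V a) X, Wf V a X,
      innerSL ℝ (cvec X (Bw V a δ X)), innerSL ℝ X) :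
      (E →L[ℝ] E) × E × (E →L[ℝ] ℝ) × (E →L[ℝ] ℝ))) {0}ᶜ :=
    (continuousOn_fderiv_Wf hV ha).prodMk
      ((contDiffOn_Wf hV ha).continuousOn.prodMk
        (((innerSL ℝ (E := E)).continuous.comp_continuousOn (continuousOn_cvec hV ha hδ)).prodMk
        (innerSL ℝ (E := E)).continuous.continuousOn))
  have hO := (continuous_Om a).comp_continuousOn hf
  have hKc : ContinuousOn (fun X : E => 2 * K (‖X‖ ^ 2)) {0}ᶜ := by fun_prop
  exact (hKc.mul hO).congr (fun X _ => rfl)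

end Pool.Agent.Helper20.VF
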