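import Mathlib
import Pool.Agent.Helper20.VF.Boundary
import Pool.Agent.Helper20.VF.PartOne

/-!
# Conjugation by the reflection
-/

open MeasureTheory Set Metric Filter
open scoped NNReal Topology RealInnerProductSpace ContDiff Manifold Real

namespace Pool.Agent.Helper20.VF

variable {E : Type*} [NormedAddCommGroup E] [InnerProductSpace ℝ E]

/-- the reflection as a linear isometry equivalence. -/
noncomputable def reflI (X : E) (hX : X ≠ 0) : E ≃ₗᵢ[ℝ] E where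
  toFun := refl X
  map_add' u v := by simp only [refl, inner_add_right]; module
  map_smul' t v := by
    simp only [refl, inner_smul_right, RingHom.id_apply]
    rw [smul_sub, smul_smul]
    congr 2
    ring
  invFun := refl X
  left_inv v := refl_refl hX v
  right_inv v := refl_refl hX v
  norm_map' v := norm_refl hX v

lemma reflI_apply (X : E) (hX : X ≠ 0) (v : E) : reflI X hX v = refl X v := rfl

/-- the operator `B_{x,X}`. -/
noncomputable def Bx (T : E →L[ℝ] E) (v x X : E) : E →L[ℝ] E :=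
  (2 : ℝ) • (T ∘L (⟪X, x⟫ • ContinuousLinearMap.id ℝ E - (innerSL ℝ x : E →L[ℝ] ℝ).smulRight X)
    - (⟪X, v⟫ • ContinuousLinearMap.id ℝ E - (innerSL ℝ v : E →L[ℝ] ℝ).smulRight X))

lemma Bx_apply (T : E →L[ℝ] E) (v x X δ : E) :
    Bx T v x X δ = (2 : ℝ) • (T (⟪X, x⟫ • δ - ⟪x, δ⟫ • X) - (⟪X, v⟫ • δ - ⟪v, δ⟫ • X)) := by
  simp [Bx]

variable [FiniteDimensional ℝ E]

lemma Dd_conj (R : E ≃ₗᵢ[ℝ] E) (L : E →L[ℝ] E) (w a : E) :
    Dd ((R : E →L[ℝ] E) ∘L L) (R w) (R a) = Dd L w a := by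
  unfold Dd
  congr 1
  set M := L ∘L L.adjoint + (innerSL ℝ w).smulRight w + (innerSL ℝ a).smulRight a with hM
  have e1 : ((R : E →L[ℝ] E) ∘L L) ∘L ((R : E →L[ℝ] E) ∘L L).adjoint
      + (innerSL ℝ (R w)).smulRight (R w) + (innerSL ℝ (R a)).smulRight (R a)
      = (R : E →L[ℝ] E) ∘L M ∘L (R.symm : E →L[ℝ] E) := by
    have hadj : ((R : E →L[ℝ] E)).adjoint = (R.symm : E →L[ℝ] E) := by
      ext v
      refine ext_inner_right ℝ (fun u => ?_)
      rw [ContinuousLinearMap.adjoint_inner_left]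
      have := R.inner_map_map (R.symm v) u
      rw [R.apply_symm_apply] at this
      exact this
    ext v
    rw [ContinuousLinearMap.adjoint_comp, hadj]
    have h1 : ∀ u : E, ⟪R u, v⟫ = ⟪u, R.symm v⟫ := fun u => by
      have := R.inner_map_map u (R.symm v)
      rw [R.apply_symm_apply] at this
      exact this
    simp [hM, h1]
  rw [e1]
  have e2 := LinearMap.det_conj (M : E →ₗ[ℝ] E) R.toLinearEquiv
  rw [ContinuousLinearMap.det, ContinuousLinearMap.det, ← e2]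
  rfl

lemma Dd_neg_right (L : E →L[ℝ] E) (w a : E) : Dd L w (-a) = Dd L w a := by
  unfold Dd
  congr 2
  ext v
  simp

lemma Dd_neg_left (L : E →L[ℝ] E) (w a : E) : Dd (-L) w a = Dd L w a := by
  unfold Dd
  congr 2
  ext v
  simp

variable {V : E → E} {a : E}

/-- derivative of `W`. -/
lemma refl_fderiv_Wf (hV : UField V) (ha : ‖a‖ = 1) {X : E} (hX : X ≠ 0) (δ : E) :
    refl X (fderiv ℝ (Wf V a) X δ)
      = (‖X‖ ^ 2)⁻¹ • Bx (fderiv ℝ V (-refl X a)) (V (-refl X a)) (-refl X a) X δ := by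
  have hX0 : ‖X‖ ≠ 0 := norm_ne_zero_iff.2 hX
  set x := -refl X a with hx
  have hx0 : x ≠ 0 := neg_refl_ne hX ha
  set T := fderiv ℝ V x with hT
  have hVd : HasFDerivAt V T x :=
    ((hV.smooth.differentiableOn one_ne_zero x hx0).differentiableAt
      (isOpen_U.mem_nhds hx0)).hasFDerivAt
  have hWd : HasFDerivAt (Wf V a) (fderiv ℝ (Wf V a) X) X :=
    ((diffOn_Wf hV ha X hX).differentiableAt (isOpen_U.mem_nhds hX)).hasFDerivAt
  have hc : HasDerivAt (fun t : ℝ => X + t • δ) δ 0 := by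
    simpa using ((hasDerivAt_id (0 : ℝ)).smul_const δ).const_add X
  -- derivative along the line, two ways
  have h1 : HasDerivAt (fun t : ℝ => Wf V a (X + t • δ)) (fderiv ℝ (Wf V a) X δ) 0 := by
    have : HasFDerivAt (Wf V a) (fderiv ℝ (Wf V a) X) (X + (0 : ℝ) • δ) := by
      rw [zero_smul, add_zero]; exact hWd
    exact this.comp_hasDerivAt (0 : ℝ) hc
  have hp := (hasDerivAt_refl hX δ a).neg
  set p' : E := - -((2 * ⟪δ, a⟫ / ‖X‖ ^ 2 - 4 * ⟪X, a⟫ * ⟪X, δ⟫ / ‖X‖ ^ 4) • X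
        + (2 * ⟪X, a⟫ / ‖X‖ ^ 2) • δ) with hp'
  have hu : HasDerivAt (fun t : ℝ => V (-refl (X + t • δ) a)) (T p') 0 := by
    have : HasFDerivAt V T (-refl (X + (0 : ℝ) • δ) a) := by
      rw [zero_smul, add_zero]; exact hVd
    exact this.comp_hasDerivAt (0 : ℝ) hp
  set u0 : E := V x with hu0
  have h2 : HasDerivAt (fun t : ℝ => 2 * ⟪X + t • δ, V (-refl (X + t • δ) a)⟫)
      (2 * (⟪X, T p'⟫ + ⟪δ, u0⟫)) 0 := by
    have := (hc.inner ℝ hu).const_mul 2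
    simpa using this
  have h3 : HasDerivAt (fun t : ℝ => ‖X + t • δ‖ ^ 2) (2 * ⟪X, δ⟫) 0 := by
    have := hc.norm_sq
    simpa using this
  have h4 := h2.div h3 (by simpa using hX0)
  have h5 := hu.sub (h4.smul hc)
  have h6 : HasDerivAt (fun t : ℝ => Wf V a (X + t • δ)) _ 0 := h5
  rw [h1.unique h6]
  simp only [zero_smul, add_zero, Pi.div_apply, ← hx, ← hu0]
  -- inner products with `a`
  have ha1 : a = -refl X x := by
    rw [hx, refl_neg, refl_refl hX, neg_neg]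
  have ha2 : ⟪X, a⟫ = ⟪X, x⟫ := by
    rw [ha1, inner_neg_right, refl, inner_sub_right, inner_smul_right, real_inner_self_eq_norm_sq]
    field_simp
    ring
  have ha3 : ⟪δ, a⟫ = -⟪x, δ⟫ + 2 * ⟪X, x⟫ * ⟪X, δ⟫ / ‖X‖ ^ 2 := by
    rw [ha1, inner_neg_right, refl, inner_sub_right, inner_smul_right, real_inner_comm δ X,
      real_inner_comm δ x]
    ring
  have hp2 : p' = (2 / ‖X‖ ^ 2) • (⟪X, x⟫ • δ - ⟪x, δ⟫ • X) := by
    rw [hp', ha2, ha3, neg_neg, smul_sub, smul_smul, smul_smul]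
    have : 2 * (-⟪x, δ⟫ + 2 * ⟪X, x⟫ * ⟪X, δ⟫ / ‖X‖ ^ 2) / ‖X‖ ^ 2
        - 4 * ⟪X, x⟫ * ⟪X, δ⟫ / ‖X‖ ^ 4 = -(2 / ‖X‖ ^ 2 * ⟪x, δ⟫) := by
      field_simp
      ring
    rw [this]
    have e : 2 * ⟪X, x⟫ / ‖X‖ ^ 2 = 2 / ‖X‖ ^ 2 * ⟪X, x⟫ := by ring
    rw [e, neg_smul]
    abel
  have hXX : ⟪X, X⟫ = ‖X‖ ^ 2 := real_inner_self_eq_norm_sq X
  rw [Bx_apply, smul_smul]
  have hT2 : T p' = (2 / ‖X‖ ^ 2) • T (⟪X, x⟫ • δ - ⟪x, δ⟫ • X) := by rw [hp2, map_smul]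
  set q := T (⟪X, x⟫ • δ - ⟪x, δ⟫ • X) with hq
  rw [hT2]
  simp only [refl, inner_add_right, inner_sub_right, inner_smul_right, hXX]
  rw [real_inner_comm δ u0]
  have g1 : ‖X‖ ^ 2 ≠ 0 := pow_ne_zero 2 hX0
  -- compare coefficients
  have key : ∀ (α β γ δ' : ℝ), 
      (2 / ‖X‖ ^ 2) • q - ((α) • δ + β • X) - γ • X
      = (2 / ‖X‖ ^ 2) • q - α • δ - (β + γ) • X := by
    intro α β γ δ'
    module
  rw [key _ _ _ 0, smul_sub, smul_sub, smul_smul, smul_smul]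
  have c1 : (‖X‖ ^ 2)⁻¹ * 2 = 2 / ‖X‖ ^ 2 := by ring
  rw [c1]
  have c2 : 2 * ⟪X, u0⟫ / ‖X‖ ^ 2 = 2 / ‖X‖ ^ 2 * ⟪X, u0⟫ := by ring
  rw [c2, sub_sub, sub_right_inj]
  have c3 : ∀ α β γ : ℝ, β = -γ → α • δ + β • X = α • δ - γ • X := by
    intro α β γ h
    rw [h]; module
  refine c3 _ _ _ ?_
  field_simp
  ring

end Pool.Agent.Helper20.VF
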