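import Mathlib

/-!
# Matrix identities for Part III
-/

open Set Metric Filter Matrix
open scoped Topology

namespace Pool.Agent.Helper20.VF

variable {J : Type*} [Fintype J] [DecidableEq J]

/-- Jacobi's formula. -/
lemma hasDerivAt_det (A : ℝ → Matrix J J ℝ) (A' : Matrix J J ℝ) (t : ℝ)
    (h : ∀ i j, HasDerivAt (fun s => A s i j) (A' i j) t) :
    HasDerivAt (fun s => (A s).det) (trace (adjugate (A t) * A')) t := by
  have h1 : HasDerivAt (fun s => ∑ σ : Equiv.Perm J, ((Equiv.Perm.sign σ : ℤ) : ℝ) * ∏ i, A s (σ i) i)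
      (∑ σ : Equiv.Perm J, ((Equiv.Perm.sign σ : ℤ) : ℝ) *
        ∑ i, (∏ j ∈ Finset.univ.erase i, A t (σ j) j) • A' (σ i) i) t := by
    refine HasDerivAt.fun_sum (fun σ _ => ?_)
    have h2 := HasDerivAt.fun_finsetProd (u := Finset.univ) (f := fun i s => A s (σ i) i)
      (f' := fun i => A' (σ i) i) (fun i _ => h (σ i) i)
    exact h2.const_mul _
  have e1 : (fun s => (A s).det)
      = fun s => ∑ σ : Equiv.Perm J, ((Equiv.Perm.sign σ : ℤ) : ℝ) * ∏ i, A s (σ i) i := by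
    funext s
    rw [det_apply']
  rw [e1]
  convert h1 using 1
  have e2 : trace (adjugate (A t) * A') = ∑ i, ((A t).updateCol i (fun j => A' j i)).det := by
    rw [trace]
    refine Finset.sum_congr rfl (fun i _ => ?_)
    rw [diag_apply, ← cramer_apply, cramer_eq_adjugate_mulVec]
    rfl
  rw [e2]
  simp_rw [det_apply', Finset.mul_sum]
  rw [Finset.sum_comm]
  refine Finset.sum_congr rfl (fun σ _ => Finset.sum_congr rfl (fun i _ => ?_))
  rw [← Finset.mul_prod_erase _ _ (Finset.mem_univ i), updateCol_self, smul_eq_mul, mul_comm (A' (σ i) i)]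
  have : ∏ x ∈ Finset.univ.erase i, (A t).updateCol i (fun j => A' j i) (σ x) x
      = ∏ j ∈ Finset.univ.erase i, A t (σ j) j := by
    refine Finset.prod_congr rfl (fun j hj => ?_)
    rw [updateCol_ne (Finset.ne_of_mem_erase hj)]
  rw [this]

lemma det_rank_two (ρ : ℝ) (hρ : ρ ≠ 0) (y w : J → ℝ) {k : ℕ} (hk : Fintype.card J = k + 2) :
    (ρ ^ 2 • (1 : Matrix J J ℝ) + vecMulVec y y + vecMulVec w w).det
      = ρ ^ (2 * k) * ((ρ ^ 2 + y ⬝ᵥ y) * (ρ ^ 2 + w ⬝ᵥ w) - (y ⬝ᵥ w) ^ 2) := by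
  set U : Matrix J (Fin 2) ℝ := Matrix.of (fun i j => ρ⁻¹ * (![y, w] j) i) with hU
  have e1 : ρ ^ 2 • (1 : Matrix J J ℝ) + vecMulVec y y + vecMulVec w w
      = ρ ^ 2 • (1 + U * Uᵀ) := by
    ext i j
    simp [hU, Matrix.mul_apply, vecMulVec_apply, Fin.sum_univ_two]
    field_simp
    ring
  have e2 : (1 + Uᵀ * U).det = (1 + (ρ⁻¹) ^ 2 * (y ⬝ᵥ y)) * (1 + (ρ⁻¹) ^ 2 * (w ⬝ᵥ w))
      - ((ρ⁻¹) ^ 2 * (y ⬝ᵥ w)) ^ 2 := by
    rw [Matrix.det_fin_two]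
    have f : ∀ i j : Fin 2, (1 + Uᵀ * U : Matrix (Fin 2) (Fin 2) ℝ) i j = (1 : Matrix (Fin 2) (Fin 2) ℝ) i j
        + (ρ⁻¹) ^ 2 * ((![y, w] i) ⬝ᵥ (![y, w] j)) := by
      intro i j
      rw [Matrix.add_apply, Matrix.mul_apply, dotProduct, Finset.mul_sum]
      congr 1
      refine Finset.sum_congr rfl (fun l _ => ?_)
      simp [hU]
      ring
    rw [f, f, f, f]
    have hwy : w ⬝ᵥ y = y ⬝ᵥ w := dotProduct_comm _ _
    simp [hwy]
    ring
  rw [e1, det_smul, hk, det_one_add_mul_comm, e2]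
  rw [show 2 * k = k * 2 by ring, pow_mul]
  field_simp
  ring

/-- the main determinant identity. -/
lemma det_main (Q : Matrix J J ℝ) (ρ : ℝ) (hρ : ρ ≠ 0) (y g : J → ℝ) {k : ℕ}
    (hk : Fintype.card J = k + 2) :
    (Q * (ρ ^ 2 • (1 : Matrix J J ℝ) + vecMulVec y y) * Qᵀ + vecMulVec g g).det
      = ρ ^ (2 * k) * ((ρ ^ 2 + y ⬝ᵥ y) * (ρ ^ 2 * Q.det ^ 2 + (Q.adjugate *ᵥ g) ⬝ᵥ (Q.adjugate *ᵥ g))
        - (y ⬝ᵥ (Q.adjugate *ᵥ g)) ^ 2) := by
  -- the invertible case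
  have hinv : ∀ Q : Matrix J J ℝ, Q.det ≠ 0 →
      (Q * (ρ ^ 2 • (1 : Matrix J J ℝ) + vecMulVec y y) * Qᵀ + vecMulVec g g).det
      = ρ ^ (2 * k) * ((ρ ^ 2 + y ⬝ᵥ y) * (ρ ^ 2 * Q.det ^ 2 + (Q.adjugate *ᵥ g) ⬝ᵥ (Q.adjugate *ᵥ g))
        - (y ⬝ᵥ (Q.adjugate *ᵥ g)) ^ 2) := by
    intro Q hQ
    set w : J → ℝ := (Q.det)⁻¹ • (Q.adjugate *ᵥ g) with hw
    have hadj : Q.adjugate *ᵥ g = Q.det • w := by
      rw [hw, smul_smul, mul_inv_cancel₀ hQ, one_smul]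
    have hQw : Q *ᵥ w = g := by
      rw [hw, mulVec_smul, mulVec_mulVec, mul_adjugate, smul_mulVec, one_mulVec, smul_smul,
        inv_mul_cancel₀ hQ, one_smul]
    have e1 : Q * (ρ ^ 2 • (1 : Matrix J J ℝ) + vecMulVec y y) * Qᵀ + vecMulVec g g
        = Q * (ρ ^ 2 • (1 : Matrix J J ℝ) + vecMulVec y y + vecMulVec w w) * Qᵀ := by
      have : Q * vecMulVec w w * Qᵀ = vecMulVec g g := by
        rw [mul_vecMulVec, hQw, vecMulVec_mul, vecMul_transpose, hQw]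
      rw [mul_add Q (ρ ^ 2 • (1 : Matrix J J ℝ) + vecMulVec y y), add_mul _ _ Qᵀ, this]
    rw [e1, det_mul, det_mul, det_transpose, det_rank_two ρ hρ y w hk, hadj]
    simp only [smul_dotProduct, dotProduct_smul, smul_eq_mul]
    ring
  -- density
  have hL : Continuous (fun t : ℝ => ((Q + t • 1) * (ρ ^ 2 • (1 : Matrix J J ℝ) + vecMulVec y y)
      * (Q + t • 1)ᵀ + vecMulVec g g).det) := by fun_prop
  have hR : Continuous (fun t : ℝ => ρ ^ (2 * k) * ((ρ ^ 2 + y ⬝ᵥ y) * (ρ ^ 2 * (Q + t • 1).det ^ 2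
      + ((Q + t • 1).adjugate *ᵥ g) ⬝ᵥ ((Q + t • 1).adjugate *ᵥ g))
        - (y ⬝ᵥ ((Q + t • 1).adjugate *ᵥ g)) ^ 2)) := by fun_prop
  have hne : ∀ᶠ t in 𝓝[≠] (0 : ℝ), (Q + t • (1 : Matrix J J ℝ)).det ≠ 0 := by
    have hp : ((-Q).charpoly) ≠ 0 := (Matrix.charpoly_monic _).ne_zero
    have hev : ∀ t : ℝ, (Q + t • (1 : Matrix J J ℝ)).det = (-Q).charpoly.eval t := by
      intro t
      rw [Matrix.eval_charpoly]
      congr 1
      ext i j
      simp [Matrix.scalar_apply, Matrix.smul_apply, Matrix.one_apply, Matrix.diagonal_apply, add_comm]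
    have hfin : {t : ℝ | (-Q).charpoly.eval t = 0}.Finite :=
      (Polynomial.finite_setOfPred_isRoot hp).subset (fun t ht => ht)
    have hcl : IsClosed ({t : ℝ | (-Q).charpoly.eval t = 0} \ {0}) :=
      (hfin.subset sdiff_subset).isClosed
    have : ∀ᶠ t in 𝓝 (0 : ℝ), t ∉ ({t : ℝ | (-Q).charpoly.eval t = 0} \ {0}) :=
      hcl.isOpen_compl.mem_nhds (by simp)
    filter_upwards [nhdsWithin_le_nhds this, self_mem_nhdsWithin] with t ht ht0
    rw [hev]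
    exact fun h => ht ⟨h, ht0⟩
  have t1 := (hL.tendsto 0).mono_left (nhdsWithin_le_nhds (s := {0}ᶜ))
  have t2 := (hR.tendsto 0).mono_left (nhdsWithin_le_nhds (s := {0}ᶜ))
  simp only [zero_smul, add_zero] at t1 t2
  refine tendsto_nhds_unique t1 (t2.congr' ?_)
  filter_upwards [hne] with t ht
  exact (hinv _ ht).symm

end Pool.Agent.Helper20.VF
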