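import Pool.Agent.Helper20.VF.CircB
import Pool.Agent.Helper20.VF.MatDet
import Pool.Agent.Helper77.Star

/-!
# Pencils of matrices
-/

open MeasureTheory Set Metric Filter Matrix
open scoped Topology Real

namespace Pool.Agent.Helper20.VF

variable {n : ℕ}

/-- the pencil. -/
noncomputable def Qc (P₁ P₂ : Matrix (Fin (n + 1)) (Fin (n + 1)) ℝ) (t : ℝ) :
    Matrix (Fin (n + 1)) (Fin (n + 1)) ℝ := Real.cos t • P₁ + Real.sin t • P₂

/-- the derivative of the pencil. -/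
noncomputable def Qs (P₁ P₂ : Matrix (Fin (n + 1)) (Fin (n + 1)) ℝ) (t : ℝ) :
    Matrix (Fin (n + 1)) (Fin (n + 1)) ℝ := -Real.sin t • P₁ + Real.cos t • P₂

variable {P₁ P₂ : Matrix (Fin (n + 1)) (Fin (n + 1)) ℝ}

lemma Qc_mul_add (hP : P₁ * P₁ᵀ + P₂ * P₂ᵀ = 1) (t : ℝ) :
    Qc P₁ P₂ t * (Qc P₁ P₂ t)ᵀ + Qs P₁ P₂ t * (Qs P₁ P₂ t)ᵀ = 1 := by
  have h1 : Qc P₁ P₂ t * (Qc P₁ P₂ t)ᵀ + Qs P₁ P₂ t * (Qs P₁ P₂ t)ᵀ
      = (Real.sin t ^ 2 + Real.cos t ^ 2) • (P₁ * P₁ᵀ + P₂ * P₂ᵀ) := by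
    simp only [Qc, Qs, transpose_add, transpose_smul, Matrix.add_mul, Matrix.mul_add,
      Matrix.smul_mul, Matrix.mul_smul, smul_smul, transpose_neg, neg_mul, smul_add, add_smul, neg_smul,
      Matrix.mul_neg]
    ext i j
    simp only [Matrix.add_apply, Matrix.smul_apply, Matrix.neg_apply, smul_eq_mul]
    ring
  rw [h1, Real.sin_sq_add_cos_sq, one_smul, hP]

lemma hasDerivAt_Qc (t : ℝ) (i j : Fin (n + 1)) :
    HasDerivAt (fun s => Qc P₁ P₂ s i j) (Qs P₁ P₂ t i j) t := by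
  have h := ((Real.hasDerivAt_cos t).mul_const (P₁ i j)).add
    ((Real.hasDerivAt_sin t).mul_const (P₂ i j))
  refine (h.congr_of_eventuallyEq (Eventually.of_forall fun s => ?_)).congr_deriv ?_
  · simp [Qc]
  · simp [Qs]

lemma continuous_Qc : Continuous (Qc P₁ P₂) := by
  unfold Qc
  exact (Real.continuous_cos.smul continuous_const).add (Real.continuous_sin.smul continuous_const)

lemma continuous_Qs : Continuous (Qs P₁ P₂) := by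
  unfold Qs
  exact (Real.continuous_sin.neg.smul continuous_const).add (Real.continuous_cos.smul continuous_const)

lemma Qc_periodic (t : ℝ) : Qc P₁ P₂ (t + 2 * π) = Qc P₁ P₂ t := by
  simp [Qc]

lemma row_sum (hP : P₁ * P₁ᵀ + P₂ * P₂ᵀ = 1) (i : Fin (n + 1)) :
    ∑ j, P₂ i j ^ 2 = 1 - ∑ j, P₁ i j ^ 2 := by
  have h := congrFun (congrFun hP i) i
  simp only [Matrix.add_apply, Matrix.mul_apply, transpose_apply, Matrix.one_apply_eq] at h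
  have h1 : ∀ P : Matrix (Fin (n + 1)) (Fin (n + 1)) ℝ, ∑ j, P i j ^ 2 = ∑ j, P i j * P i j :=
    fun P => Finset.sum_congr rfl (fun j _ => sq _)
  rw [h1, h1]
  linarith

lemma row_form (hP : P₁ * P₁ᵀ + P₂ * P₂ᵀ = 1) (i : Fin (n + 1)) (t : ℝ) :
    ∑ j, Qc P₁ P₂ t i j ^ 2 = frm (∑ j, P₁ i j ^ 2) (∑ j, P₁ i j * P₂ i j) t := by
  rw [frm, ← row_sum hP i]
  simp only [Finset.sum_mul, Finset.mul_sum, ← Finset.sum_add_distrib]
  refine Finset.sum_congr rfl (fun j _ => ?_)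
  simp [Qc]
  ring

/-- the mean of the first `n` rows. -/
noncomputable def pa (P₁ : Matrix (Fin (n + 1)) (Fin (n + 1)) ℝ) : ℝ :=
  (∑ i : Fin n, ∑ j, P₁ i.castSucc j ^ 2) / n

/-- the mixed term of the first `n` rows. -/
noncomputable def pb (P₁ P₂ : Matrix (Fin (n + 1)) (Fin (n + 1)) ℝ) : ℝ :=
  (∑ i : Fin n, ∑ j, P₁ i.castSucc j * P₂ i.castSucc j) / n

lemma mean_form (hn : 0 < n) (hP : P₁ * P₁ᵀ + P₂ * P₂ᵀ = 1) (t : ℝ) :
    (∑ i : Fin n, ∑ j, Qc P₁ P₂ t i.castSucc j ^ 2) / n = frm (pa P₁) (pb P₁ P₂) t := by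
  have hn' : (n : ℝ) ≠ 0 := by positivity
  simp_rw [row_form hP]
  simp only [frm, pa, pb]
  have h1 : ∀ f g h : Fin n → ℝ, ∀ A B C : ℝ,
      (∑ i, (f i * A + 2 * g i * B + (1 - f i) * C)) / n
      = (∑ i, f i) / n * A + 2 * ((∑ i, g i) / n) * B + (1 - (∑ i, f i) / n) * C := by
    intro f g h A B C
    rw [Finset.sum_add_distrib, Finset.sum_add_distrib, ← Finset.sum_mul, ← Finset.sum_mul,
      ← Finset.sum_mul, ← Finset.mul_sum, Finset.sum_sub_distrib]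
    simp
    field_simp
  exact h1 _ _ (fun _ => 0) _ _ _

lemma quad_eq (Q : Matrix (Fin (n + 1)) (Fin (n + 1)) ℝ) (v : Fin (n + 1) → ℝ) :
    v ⬝ᵥ ((Q * Qᵀ) *ᵥ v) = (Qᵀ *ᵥ v) ⬝ᵥ (Qᵀ *ᵥ v) := by
  rw [← mulVec_mulVec, dotProduct_mulVec, mulVec_transpose]

lemma Qc_contraction (hP : P₁ * P₁ᵀ + P₂ * P₂ᵀ = 1) (t : ℝ) (v : Fin (n + 1) → ℝ) :
    v ⬝ᵥ ((Qc P₁ P₂ t * (Qc P₁ P₂ t)ᵀ) *ᵥ v) ≤ v ⬝ᵥ v := by
  have h := Qc_mul_add hP t
  have h1 : v ⬝ᵥ ((Qc P₁ P₂ t * (Qc P₁ P₂ t)ᵀ) *ᵥ v) + v ⬝ᵥ ((Qs P₁ P₂ t * (Qs P₁ P₂ t)ᵀ) *ᵥ v)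
      = v ⬝ᵥ v := by
    rw [← dotProduct_add, ← add_mulVec, h, one_mulVec]
  have h2 : 0 ≤ v ⬝ᵥ ((Qs P₁ P₂ t * (Qs P₁ P₂ t)ᵀ) *ᵥ v) := by
    rw [quad_eq]
    exact Finset.sum_nonneg (fun i _ => mul_self_nonneg _)
  linarith

/-- the cofactors of the last row. -/
lemma cofactor_bound (hn : 3 ≤ n) (Q : Matrix (Fin (n + 1)) (Fin (n + 1)) ℝ)
    (hQ : ∀ v : Fin (n + 1) → ℝ, v ⬝ᵥ ((Q * Qᵀ) *ᵥ v) ≤ v ⬝ᵥ v) :
    ∑ j, Q.adjugate j (Fin.last n) ^ 2 ≤ ((∑ i : Fin n, ∑ j, Q i.castSucc j ^ 2) / n) ^ n := by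
  set Q0 := Q.updateRow (Fin.last n) 0 with hQ0
  have hrow : ∀ i : Fin n, Q0 i.castSucc = Q i.castSucc := fun i => by
    rw [hQ0, updateRow_ne (Fin.castSucc_lt_last i).ne]
  have hlast : Q0 (Fin.last n) = 0 := by rw [hQ0, updateRow_self]
  have hadj : ∀ j, Q0.adjugate j (Fin.last n) = Q.adjugate j (Fin.last n) := by
    intro j
    rw [adjugate_apply, adjugate_apply, hQ0, updateRow_idem]
  have hdet : Q0.det = 0 := det_eq_zero_of_row_eq_zero (Fin.last n) (fun j => by rw [hlast]; rfl)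
  have hQ0c : ∀ v : Fin (n + 1) → ℝ, v ⬝ᵥ ((Q0 * Q0ᵀ) *ᵥ v) ≤ v ⬝ᵥ v := by
    intro v
    set v' : Fin (n + 1) → ℝ := Function.update v (Fin.last n) 0 with hv'
    have h1 : Q0ᵀ *ᵥ v = Qᵀ *ᵥ v' := by
      ext j
      simp only [mulVec, dotProduct, transpose_apply]
      rw [Fin.sum_univ_castSucc, Fin.sum_univ_castSucc]
      have : ∀ i : Fin n, Q0 i.castSucc j * v i.castSucc = Q i.castSucc j * v' i.castSucc := by
        intro i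
        rw [hrow, hv', Function.update_of_ne (Fin.castSucc_lt_last i).ne]
      simp only [this, hlast, hv', Function.update_self, Pi.zero_apply, zero_mul, mul_zero]
    have h2 : v ⬝ᵥ ((Q0 * Q0ᵀ) *ᵥ v) = v' ⬝ᵥ ((Q * Qᵀ) *ᵥ v') := by
      rw [quad_eq, quad_eq, h1]
    rw [h2]
    refine (hQ v').trans ?_
    simp only [dotProduct]
    refine Finset.sum_le_sum (fun i _ => ?_)
    by_cases h : i = Fin.last n
    · subst h
      rw [hv', Function.update_self]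
      nlinarith [sq_nonneg (v (Fin.last n))]
    · rw [hv', Function.update_of_ne h]
  have hs := Pool.Agent.Helper77.Star.star_ineq hn Q0 hQ0c 0
    ((∑ i : Fin n, ∑ j, Q i.castSucc j ^ 2) / n) (by simp [hlast]) (by simp [hrow])
  rw [hdet] at hs
  have h3 : ∑ j, Q.adjugate j (Fin.last n) ^ 2 ≤ ∑ i, ∑ j, Q0.adjugate i j ^ 2 := by
    refine Finset.sum_le_sum (fun i _ => ?_)
    rw [← hadj]
    exact Finset.single_le_sum (f := fun j => Q0.adjugate i j ^ 2) (fun j _ => sq_nonneg _)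
      (Finset.mem_univ _)
  have h4 : (0 : ℝ) < 2 * n + 3 := by positivity
  have h5 : (2 * n + 3) * (∑ i, ∑ j, Q0.adjugate i j ^ 2)
      ≤ (2 * n + 3) * ((∑ i : Fin n, ∑ j, Q i.castSucc j ^ 2) / n) ^ n := by
    simpa using hs
  exact h3.trans (le_of_mul_le_mul_left h5 h4)

lemma det_bound (hn : 3 ≤ n) (Q : Matrix (Fin (n + 1)) (Fin (n + 1)) ℝ)
    (hQ : ∀ v : Fin (n + 1) → ℝ, v ⬝ᵥ ((Q * Qᵀ) *ᵥ v) ≤ v ⬝ᵥ v) :
    Q.det ^ 2 ≤ (∑ j, Q (Fin.last n) j ^ 2)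
      * ((∑ i : Fin n, ∑ j, Q i.castSucc j ^ 2) / n) ^ n := by
  have h1 : Q.det = ∑ j, Q (Fin.last n) j * Q.adjugate j (Fin.last n) :=
    det_eq_sum_mul_adjugate_row Q (Fin.last n)
  rw [h1]
  refine (Finset.sum_mul_sq_le_sq_mul_sq _ _ _).trans ?_
  exact mul_le_mul_of_nonneg_left (cofactor_bound hn Q hQ)
    (Finset.sum_nonneg (fun _ _ => sq_nonneg _))

/-- The inequality for pencils. -/
theorem pencil_ineq (hn : 3 ≤ n) (hW : OneVar n) (hP : P₁ * P₁ᵀ + P₂ * P₂ᵀ = 1)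
    (hpos : ∀ t, 0 < frm (pa P₁) (pb P₁ P₂) t) :
    ∫ t in (0 : ℝ)..(2 * π), ((2 * n + 3) * ((∑ i, ∑ j, (Qc P₁ P₂ t).adjugate i j ^ 2)
          - (Qc P₁ P₂ t).det ^ 2)
          - (n + 3) / (n + 1) * (trace ((Qc P₁ P₂ t).adjugate * Qs P₁ P₂ t)) ^ 2)
        * frm (pa P₁) (pb P₁ P₂) t ^ (-((n : ℝ) / 2))
      ≤ 2 * (n + 1) * n * (2 * (∫ t in (0 : ℝ)..(2 * π), |Real.cos t| ^ n)
          - ∫ t in (0 : ℝ)..(2 * π), frm (pa P₁) (pb P₁ P₂) t ^ ((n : ℝ) / 2)) := by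
  have hadjc : Continuous (fun t => (Qc P₁ P₂ t).adjugate) := continuous_Qc.matrix_adjugate
  refine circle_ineq hn hW (a' := ∑ j, P₁ (Fin.last n) j ^ 2)
    (b' := ∑ j, P₁ (Fin.last n) j * P₂ (Fin.last n) j) hpos ?_
    (δ := fun t => (Qc P₁ P₂ t).det) (δ' := fun t => trace ((Qc P₁ P₂ t).adjugate * Qs P₁ P₂ t))
    (σ := fun t => ∑ i, ∑ j, (Qc P₁ P₂ t).adjugate i j ^ 2) ?_ ?_ ?_ ?_ ?_ ?_
  · intro t
    rw [← row_form hP]
    exact Finset.sum_nonneg (fun _ _ => sq_nonneg _)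
  · intro t
    exact hasDerivAt_det (Qc P₁ P₂) (Qs P₁ P₂ t) t (fun i j => hasDerivAt_Qc t i j)
  · exact (hadjc.matrix_mul continuous_Qs).matrix_trace
  · have := Qc_periodic (P₁ := P₁) (P₂ := P₂) 0
    rw [zero_add] at this
    rw [this]
  · refine continuous_finsetSum _ (fun i _ => continuous_finsetSum _ (fun j _ => ?_))
    exact (hadjc.matrix_elem i j).pow 2
  · intro t
    rw [← row_form hP, ← mean_form (by omega) hP]
    exact Pool.Agent.Helper77.Star.star_ineq hn (Qc P₁ P₂ t) (Qc_contraction hP t) _ _ rfl rfl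
  · intro t
    rw [← row_form hP, ← mean_form (by omega) hP]
    exact det_bound hn (Qc P₁ P₂ t) (Qc_contraction hP t)

end Pool.Agent.Helper20.VF
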