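import Pool.Agent.Helper20.VF.YAvg
import Pool.Agent.Helper20.VF.Pencil

/-!
# The normalised bound: the inner integral
-/

open MeasureTheory Set Metric Filter Module Matrix
open scoped NNReal Topology RealInnerProductSpace ENNReal Real

namespace Pool.Agent.Helper20.VF

variable {n : ℕ}

/-- the Gram matrix. -/
noncomputable def Gm (P₁ P₂ : Matrix (Fin (n + 1)) (Fin (n + 1)) ℝ) (a y : Fin (n + 1) → ℝ)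
    (z₁ z₂ : ℝ) : Matrix (Fin (n + 1)) (Fin (n + 1)) ℝ :=
  (z₁ • P₁ + z₂ • P₂) * (z₁ • P₁ + z₂ • P₂)ᵀ
    + vecMulVec (-(z₂ • a) - P₁ *ᵥ y) (-(z₂ • a) - P₁ *ᵥ y)
    + vecMulVec (z₁ • a - P₂ *ᵥ y) (z₁ • a - P₂ *ᵥ y)

variable {P₁ P₂ : Matrix (Fin (n + 1)) (Fin (n + 1)) ℝ} {a : Fin (n + 1) → ℝ}

lemma Gm_polar (y : Fin (n + 1) → ℝ) (ρ φ : ℝ) :
    Gm P₁ P₂ a y (ρ * Real.cos φ) (ρ * Real.sin φ)
      = Qc P₁ P₂ φ * (ρ ^ 2 • (1 : Matrix (Fin (n + 1)) (Fin (n + 1)) ℝ) + vecMulVec y y)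
          * (Qc P₁ P₂ φ)ᵀ
        + vecMulVec (ρ • a - Qs P₁ P₂ φ *ᵥ y) (ρ • a - Qs P₁ P₂ φ *ᵥ y) := by
  have e1 : (ρ * Real.cos φ) • P₁ + (ρ * Real.sin φ) • P₂ = ρ • Qc P₁ P₂ φ := by
    rw [Qc, smul_add, smul_smul, smul_smul]
  have e2 : Qc P₁ P₂ φ * (ρ ^ 2 • (1 : Matrix (Fin (n + 1)) (Fin (n + 1)) ℝ) + vecMulVec y y)
          * (Qc P₁ P₂ φ)ᵀ = (ρ • Qc P₁ P₂ φ) * (ρ • Qc P₁ P₂ φ)ᵀ
            + vecMulVec (Qc P₁ P₂ φ *ᵥ y) (Qc P₁ P₂ φ *ᵥ y) := by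
    rw [Matrix.mul_add, Matrix.add_mul, mul_vecMulVec, vecMulVec_mul, vecMul_transpose]
    congr 1
    simp only [Matrix.mul_smul, Matrix.mul_one, Matrix.smul_mul, transpose_smul, smul_smul, sq]
  rw [Gm, e1, e2, add_assoc, add_assoc]
  congr 1
  ext i j
  have h := Real.sin_sq_add_cos_sq φ
  simp only [Matrix.add_apply, vecMulVec_apply, Pi.sub_apply, Pi.neg_apply, Pi.smul_apply,
    smul_eq_mul, Qc, Qs, add_mulVec, smul_mulVec, Pi.add_apply, neg_smul, neg_mulVec]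
  generalize (P₁ *ᵥ y) i = p1i
  generalize (P₁ *ᵥ y) j = p1j
  generalize (P₂ *ᵥ y) i = p2i
  generalize (P₂ *ᵥ y) j = p2j
  linear_combination (ρ ^ 2 * a i * a j - p1i * p1j - p2i * p2j) * h

lemma det_Gm_polar (hn : 1 ≤ n) (y : Fin (n + 1) → ℝ) {ρ : ℝ} (hρ : ρ ≠ 0) (φ : ℝ) :
    (Gm P₁ P₂ a y (ρ * Real.cos φ) (ρ * Real.sin φ)).det
      = ρ ^ (2 * (n - 1)) * ((ρ ^ 2 + y ⬝ᵥ y) * (ρ ^ 2 * (Qc P₁ P₂ φ).det ^ 2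
        + (ρ • ((Qc P₁ P₂ φ).adjugate *ᵥ a) - ((Qc P₁ P₂ φ).adjugate * Qs P₁ P₂ φ) *ᵥ y)
          ⬝ᵥ (ρ • ((Qc P₁ P₂ φ).adjugate *ᵥ a) - ((Qc P₁ P₂ φ).adjugate * Qs P₁ P₂ φ) *ᵥ y))
        - (y ⬝ᵥ (ρ • ((Qc P₁ P₂ φ).adjugate *ᵥ a)
          - ((Qc P₁ P₂ φ).adjugate * Qs P₁ P₂ φ) *ᵥ y)) ^ 2) := by
  rw [Gm_polar, det_main _ ρ hρ _ _ (k := n - 1) (by rw [Fintype.card_fin]; omega)]
  have : (Qc P₁ P₂ φ).adjugate *ᵥ (ρ • a - Qs P₁ P₂ φ *ᵥ y)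
      = ρ • ((Qc P₁ P₂ φ).adjugate *ᵥ a) - ((Qc P₁ P₂ φ).adjugate * Qs P₁ P₂ φ) *ᵥ y := by
    rw [mulVec_sub, mulVec_smul, mulVec_mulVec]
  rw [this]

lemma quart_nonneg (y w : Fin (n + 1) → ℝ) (ρ Δ : ℝ) (hΔ : 0 ≤ Δ) :
    0 ≤ (ρ ^ 2 + y ⬝ᵥ y) * (ρ ^ 2 * Δ + w ⬝ᵥ w) - (y ⬝ᵥ w) ^ 2 := by
  have h1 : (y ⬝ᵥ w) ^ 2 ≤ (y ⬝ᵥ y) * (w ⬝ᵥ w) := by
    have := Finset.sum_mul_sq_le_sq_mul_sq Finset.univ y w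
    simp only [dotProduct, ← sq]
    exact this
  have h2 : 0 ≤ y ⬝ᵥ y := Finset.sum_nonneg (fun i _ => mul_self_nonneg _)
  have h3 : 0 ≤ w ⬝ᵥ w := Finset.sum_nonneg (fun i _ => mul_self_nonneg _)
  nlinarith [mul_nonneg (sq_nonneg ρ) (mul_nonneg (sq_nonneg ρ) hΔ),
    mul_nonneg h2 (mul_nonneg (sq_nonneg ρ) hΔ), mul_nonneg (sq_nonneg ρ) h3]

lemma sum_Xi_sq (hP : P₁ * P₁ᵀ + P₂ * P₂ᵀ = 1) (φ : ℝ) :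
    ∑ i, ∑ j, ((Qc P₁ P₂ φ).adjugate * Qs P₁ P₂ φ) i j ^ 2
      = (∑ i, ∑ j, (Qc P₁ P₂ φ).adjugate i j ^ 2) - (n + 1) * (Qc P₁ P₂ φ).det ^ 2 := by
  have htr : ∀ M : Matrix (Fin (n + 1)) (Fin (n + 1)) ℝ, ∑ i, ∑ j, M i j ^ 2 = trace (M * Mᵀ) := by
    intro M
    rw [trace]
    refine Finset.sum_congr rfl (fun i _ => ?_)
    rw [diag_apply, mul_apply]
    exact Finset.sum_congr rfl (fun j _ => by rw [transpose_apply, sq])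
  have h := Qc_mul_add hP φ
  have h1 : Qs P₁ P₂ φ * (Qs P₁ P₂ φ)ᵀ = 1 - Qc P₁ P₂ φ * (Qc P₁ P₂ φ)ᵀ := by
    rw [← h]; simp
  rw [htr, htr]
  have h2 : ((Qc P₁ P₂ φ).adjugate * Qs P₁ P₂ φ) * ((Qc P₁ P₂ φ).adjugate * Qs P₁ P₂ φ)ᵀ
      = (Qc P₁ P₂ φ).adjugate * ((Qc P₁ P₂ φ).adjugate)ᵀ
        - ((Qc P₁ P₂ φ).det ^ 2) • (1 : Matrix (Fin (n + 1)) (Fin (n + 1)) ℝ) := by
    have h3 : ((Qc P₁ P₂ φ).adjugate * Qs P₁ P₂ φ) * ((Qc P₁ P₂ φ).adjugate * Qs P₁ P₂ φ)ᵀ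
        = (Qc P₁ P₂ φ).adjugate * (Qs P₁ P₂ φ * (Qs P₁ P₂ φ)ᵀ) * ((Qc P₁ P₂ φ).adjugate)ᵀ := by
      rw [transpose_mul]; simp only [Matrix.mul_assoc]
    rw [h3, h1, Matrix.mul_sub, Matrix.sub_mul, Matrix.mul_one]
    congr 1
    have h4 : (Qc P₁ P₂ φ).adjugate * (Qc P₁ P₂ φ * (Qc P₁ P₂ φ)ᵀ) * ((Qc P₁ P₂ φ).adjugate)ᵀ
        = ((Qc P₁ P₂ φ).adjugate * Qc P₁ P₂ φ) * ((Qc P₁ P₂ φ).adjugate * Qc P₁ P₂ φ)ᵀ := by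
      rw [transpose_mul]; simp only [Matrix.mul_assoc]
    rw [h4, adjugate_mul, transpose_smul, transpose_one, smul_mul_smul_comm, Matrix.mul_one, sq]
  rw [h2, trace_sub, trace_smul, trace_one, Fintype.card_fin, smul_eq_mul]
  push_cast
  ring


/-- the radial polynomial. -/
noncomputable def Rp (P₁ P₂ : Matrix (Fin (n + 1)) (Fin (n + 1)) ℝ) (a : Fin (n + 1) → ℝ)
    (ρ φ : ℝ) : ℝ :=
  ρ ^ 4 * ((Qc P₁ P₂ φ).det ^ 2 + ((Qc P₁ P₂ φ).adjugate *ᵥ a) ⬝ᵥ ((Qc P₁ P₂ φ).adjugate *ᵥ a))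
    + ρ ^ 2 * ((∑ i, ∑ j, (Qc P₁ P₂ φ).adjugate i j ^ 2)
        + n * (((Qc P₁ P₂ φ).adjugate *ᵥ a) ⬝ᵥ ((Qc P₁ P₂ φ).adjugate *ᵥ a)))
    + ((n + 3) * ((∑ i, ∑ j, (Qc P₁ P₂ φ).adjugate i j ^ 2) - (n + 1) * (Qc P₁ P₂ φ).det ^ 2)
      - (n + 3) / (n + 1) * (trace ((Qc P₁ P₂ φ).adjugate * Qs P₁ P₂ φ)) ^ 2)

lemma inner_y (hn : 1 ≤ n) (hP : P₁ * P₁ᵀ + P₂ * P₂ᵀ = 1) {ρ κ : ℝ} (hρ : 0 < ρ) (hκ : 0 < κ)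
    (φ : ℝ) :
    0 ≤ Zg (EuclideanSpace ℝ (Fin (n + 1))) / 2 * (κ⁻¹ * (ρ ^ (2 * (n - 1)) * Rp P₁ P₂ a ρ φ) + κ * (ρ ^ 2 + (n + 1))) ∧
    ∫⁻ y : EuclideanSpace ℝ (Fin (n + 1)), ENNReal.ofReal (√(ρ ^ 2 + ‖y‖ ^ 2) *
        √((Gm P₁ P₂ a y.ofLp (ρ * Real.cos φ) (ρ * Real.sin φ)).det) * gw y)
      ≤ ENNReal.ofReal (Zg (EuclideanSpace ℝ (Fin (n + 1))) / 2 * (κ⁻¹ * (ρ ^ (2 * (n - 1)) * Rp P₁ P₂ a ρ φ)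
          + κ * (ρ ^ 2 + (n + 1)))) := by
  obtain ⟨hi, hle⟩ := yavg ((Qc P₁ P₂ φ).adjugate * Qs P₁ P₂ φ) ((Qc P₁ P₂ φ).adjugate *ᵥ a) ρ
    ((Qc P₁ P₂ φ).det ^ 2)
  set T : (EuclideanSpace ℝ (Fin (n + 1))) → ℝ := fun y => ((ρ ^ 2 + y.ofLp ⬝ᵥ y.ofLp) * (ρ ^ 2 * (Qc P₁ P₂ φ).det ^ 2
        + (ρ • ((Qc P₁ P₂ φ).adjugate *ᵥ a) - ((Qc P₁ P₂ φ).adjugate * Qs P₁ P₂ φ) *ᵥ y.ofLp)
          ⬝ᵥ (ρ • ((Qc P₁ P₂ φ).adjugate *ᵥ a) - ((Qc P₁ P₂ φ).adjugate * Qs P₁ P₂ φ) *ᵥ y.ofLp))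
        - (y.ofLp ⬝ᵥ (ρ • ((Qc P₁ P₂ φ).adjugate *ᵥ a)
          - ((Qc P₁ P₂ φ).adjugate * Qs P₁ P₂ φ) *ᵥ y.ofLp)) ^ 2) with hT
  have hT0 : ∀ y, 0 ≤ T y := fun y => quart_nonneg _ _ _ _ (sq_nonneg _)
  have hdet : ∀ y : EuclideanSpace ℝ (Fin (n + 1)), (Gm P₁ P₂ a y.ofLp (ρ * Real.cos φ) (ρ * Real.sin φ)).det
      = ρ ^ (2 * (n - 1)) * T y := fun y => det_Gm_polar hn _ hρ.ne' φ
  have hN : Integrable (fun y : EuclideanSpace ℝ (Fin (n + 1)) => (ρ ^ 2 + ‖y‖ ^ 2) * gw y) := by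
    have h0 : Integrable (fun y : EuclideanSpace ℝ (Fin (n + 1)) => (1 : ℝ) * gw y) := by
      have h3 : Hom 0 (fun _ : EuclideanSpace ℝ (Fin (n + 1)) => (1 : ℝ)) := ⟨continuous_const, fun r y => by simp⟩
      exact h3.integrable
    have h2 := (Hom.norm_sq (E := EuclideanSpace ℝ (Fin (n + 1)))).integrable
    refine ((h0.const_mul (ρ ^ 2)).add h2).congr (Eventually.of_forall fun y => ?_)
    simp only [Pi.add_apply]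
    ring
  have hNi : ∫ y : EuclideanSpace ℝ (Fin (n + 1)), (ρ ^ 2 + ‖y‖ ^ 2) * gw y = (ρ ^ 2 + (n + 1)) * Zg (EuclideanSpace ℝ (Fin (n + 1))) := by
    have h3 : Hom 0 (fun _ : EuclideanSpace ℝ (Fin (n + 1)) => (1 : ℝ)) := ⟨continuous_const, fun r y => by simp⟩
    have h0 : Integrable (fun y : EuclideanSpace ℝ (Fin (n + 1)) => (1 : ℝ) * gw y) := h3.integrable
    have h2 := (Hom.norm_sq (E := EuclideanSpace ℝ (Fin (n + 1)))).integrable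
    have h4 := h3.integral_mul_sq
    have hfr : (finrank ℝ (EuclideanSpace ℝ (Fin (n + 1))) : ℝ) = n + 1 := by
      rw [finrank_euclideanSpace, Fintype.card_fin]; push_cast; ring
    simp only [one_mul, hfr, Nat.cast_zero, add_zero] at h4
    have e : ∀ y : EuclideanSpace ℝ (Fin (n + 1)), (ρ ^ 2 + ‖y‖ ^ 2) * gw y = ρ ^ 2 * ((1 : ℝ) * gw y) + ‖y‖ ^ 2 * gw y :=
      fun y => by ring
    simp_rw [e]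
    rw [integral_add (h0.const_mul _) h2, integral_const_mul, h4]
    simp only [one_mul, Zg]
    ring
  set U : (EuclideanSpace ℝ (Fin (n + 1))) → ℝ := fun y => 1 / 2 * (κ⁻¹ * ρ ^ (2 * (n - 1)) * (T y * gw y)
      + κ * ((ρ ^ 2 + ‖y‖ ^ 2) * gw y)) with hU
  have hUi : Integrable U :=
    ((hi.const_mul (κ⁻¹ * ρ ^ (2 * (n - 1)))).add (hN.const_mul κ)).const_mul (1 / 2)
  have hU0 : ∀ y, 0 ≤ U y := by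
    intro y
    have := hT0 y
    have := gw_pos y
    simp only [hU]
    positivity
  have hUint : ∫ y, U y ≤ Zg (EuclideanSpace ℝ (Fin (n + 1))) / 2 * (κ⁻¹ * (ρ ^ (2 * (n - 1)) * Rp P₁ P₂ a ρ φ)
      + κ * (ρ ^ 2 + (n + 1))) := by
    simp only [hU]
    rw [integral_const_mul, integral_add (hi.const_mul (κ⁻¹ * ρ ^ (2 * (n - 1)))) (hN.const_mul κ),
      integral_const_mul, integral_const_mul, hNi]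
    have hR : Zg (EuclideanSpace ℝ (Fin (n + 1))) * (ρ ^ 4 * ((Qc P₁ P₂ φ).det ^ 2
        + ((Qc P₁ P₂ φ).adjugate *ᵥ a) ⬝ᵥ ((Qc P₁ P₂ φ).adjugate *ᵥ a))
        + ρ ^ 2 * (((n + 1 : ℕ) : ℝ) * (Qc P₁ P₂ φ).det ^ 2 + (((n + 1 : ℕ) : ℝ) - 1)
          * (((Qc P₁ P₂ φ).adjugate *ᵥ a) ⬝ᵥ ((Qc P₁ P₂ φ).adjugate *ᵥ a))
          + ∑ i, ∑ j, ((Qc P₁ P₂ φ).adjugate * Qs P₁ P₂ φ) i j ^ 2)
        + (((n + 1 : ℕ) : ℝ) + 2) * (∑ i, ∑ j, ((Qc P₁ P₂ φ).adjugate * Qs P₁ P₂ φ) i j ^ 2)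
        - (((n + 1 : ℕ) : ℝ) + 2) / ((n + 1 : ℕ) : ℝ)
          * (trace ((Qc P₁ P₂ φ).adjugate * Qs P₁ P₂ φ)) ^ 2) = Zg (EuclideanSpace ℝ (Fin (n + 1))) * Rp P₁ P₂ a ρ φ := by
      rw [sum_Xi_sq hP, Rp]
      push_cast
      ring
    rw [hR] at hle
    have hc : 0 ≤ κ⁻¹ * ρ ^ (2 * (n - 1)) := by positivity
    have := mul_le_mul_of_nonneg_left hle hc
    linarith
  refine ⟨(integral_nonneg hU0).trans hUint, ?_⟩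
  calc ∫⁻ y : EuclideanSpace ℝ (Fin (n + 1)), ENNReal.ofReal (√(ρ ^ 2 + ‖y‖ ^ 2) *
        √((Gm P₁ P₂ a y.ofLp (ρ * Real.cos φ) (ρ * Real.sin φ)).det) * gw y)
      ≤ ∫⁻ y : EuclideanSpace ℝ (Fin (n + 1)), ENNReal.ofReal (U y) := by
        refine lintegral_mono (fun y => ENNReal.ofReal_le_ofReal ?_)
        rw [hdet]
        have hg := gw_pos y
        have hG : 0 ≤ ρ ^ (2 * (n - 1)) * T y := mul_nonneg (by positivity) (hT0 y)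
        have hX : 0 ≤ ρ ^ 2 + ‖y‖ ^ 2 := by positivity
        have s1 := Real.sq_sqrt hG
        have s2 := Real.sq_sqrt hX
        generalize √(ρ ^ (2 * (n - 1)) * T y) = g1 at *
        generalize √(ρ ^ 2 + ‖y‖ ^ 2) = g2 at *
        have e : U y = 1 / 2 * (κ⁻¹ * g1 ^ 2 + κ * g2 ^ 2) * gw y := by
          simp only [hU]
          rw [s1, s2]
          ring
        rw [e]
        refine mul_le_mul_of_nonneg_right ?_ hg.le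
        have h5 : 1 / 2 * (κ⁻¹ * g1 ^ 2 + κ * g2 ^ 2) - g2 * g1 = κ⁻¹ / 2 * (g1 - κ * g2) ^ 2 := by
          field_simp
          ring
        have h6 : 0 ≤ κ⁻¹ / 2 * (g1 - κ * g2) ^ 2 := by positivity
        linarith
    _ = ENNReal.ofReal (∫ y, U y) := (ofReal_integral_eq_lintegral_ofReal hUi
        (Eventually.of_forall hU0)).symm
    _ ≤ _ := ENNReal.ofReal_le_ofReal hUint

end Pool.Agent.Helper20.VF
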