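import Mathlib
import Pool.Agent.Helper20.VF.Conj
import Pool.Agent.Helper20.VF.NormB

/-!
# Coordinates
-/

open MeasureTheory Set Metric Filter Module Matrix
open scoped NNReal Topology RealInnerProductSpace ENNReal Real

namespace Pool.Agent.Helper20.VF

variable {n : ℕ}
variable {E : Type*} [NormedAddCommGroup E] [InnerProductSpace ℝ E] [FiniteDimensional ℝ E]


/-- coordinates in an orthonormal basis. -/
noncomputable def coordMap (b : OrthonormalBasis (Fin 2 ⊕ Fin (n + 1)) ℝ E) (q : (ℝ × ℝ) × (EuclideanSpace ℝ (Fin (n + 1)))) : E :=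
  q.1.1 • b (Sum.inl 0) + q.1.2 • b (Sum.inl 1) + ∑ j, q.2.ofLp j • b (Sum.inr j)

lemma measurePreserving_coordMap [MeasurableSpace E] [BorelSpace E]
    (b : OrthonormalBasis (Fin 2 ⊕ Fin (n + 1)) ℝ E) :
    MeasurePreserving (coordMap b) (volume.prod volume) volume := by
  have h1 : MeasurePreserving (MeasurableEquiv.finTwoArrow (α := ℝ)).symm
      (volume : Measure (ℝ × ℝ)) volume := (volume_preserving_finTwoArrow ℝ).symm _
  have h2 : MeasurePreserving (WithLp.ofLp : (EuclideanSpace ℝ (Fin (n + 1))) → (Fin (n + 1) → ℝ)) volume volume :=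
    PiLp.volume_preserving_ofLp _
  have h3 := h1.prod h2
  have h4 : MeasurePreserving (MeasurableEquiv.sumPiEquivProdPi (fun _ : Fin 2 ⊕ Fin (n + 1) => ℝ)).symm
      (volume.prod volume) volume := volume_measurePreserving_sumPiEquivProdPi_symm _
  have h5 : MeasurePreserving (WithLp.toLp 2 : ((Fin 2 ⊕ Fin (n + 1)) → ℝ) →
      EuclideanSpace ℝ (Fin 2 ⊕ Fin (n + 1))) volume volume := PiLp.volume_preserving_toLp _
  have h6 := b.measurePreserving_repr_symm
  have h7 := h6.comp (h5.comp (h4.comp h3))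
  have e : coordMap b = (b.repr.symm ∘ (WithLp.toLp 2) ∘
      (MeasurableEquiv.sumPiEquivProdPi (fun _ : Fin 2 ⊕ Fin (n + 1) => ℝ)).symm ∘
        Prod.map (MeasurableEquiv.finTwoArrow (α := ℝ)).symm (WithLp.ofLp : (EuclideanSpace ℝ (Fin (n + 1))) → (Fin (n + 1) → ℝ))) := by
    funext q
    simp only [Function.comp_apply]
    rw [← b.sum_repr_symm, Fintype.sum_sum_type, Fin.sum_univ_two]
    rfl
  rw [e]
  exact h7

lemma norm_coordMap (b : OrthonormalBasis (Fin 2 ⊕ Fin (n + 1)) ℝ E) (q : (ℝ × ℝ) × (EuclideanSpace ℝ (Fin (n + 1)))) :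
    ‖coordMap b q‖ ^ 2 = q.1.1 ^ 2 + q.1.2 ^ 2 + ‖q.2‖ ^ 2 := by
  have e : coordMap b q = b.repr.symm (WithLp.toLp 2 (Sum.elim ![q.1.1, q.1.2] q.2.ofLp)) := by
    rw [← b.sum_repr_symm, Fintype.sum_sum_type, Fin.sum_univ_two]
    rfl
  rw [e, LinearIsometryEquiv.norm_map, EuclideanSpace.norm_sq_eq, Fintype.sum_sum_type,
    Fin.sum_univ_two, EuclideanSpace.norm_sq_eq]
  simp

/-- the matrix of an operator with values in the last block. -/
lemma det_block (b : OrthonormalBasis (Fin 2 ⊕ Fin (n + 1)) ℝ E) (M : E →L[ℝ] E)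
    (D : Matrix (Fin (n + 1)) (Fin (n + 1)) ℝ)
    (h11 : ∀ k l, ⟪b (Sum.inl k), M (b (Sum.inl l))⟫ = (1 : Matrix (Fin 2) (Fin 2) ℝ) k l)
    (h12 : ∀ k j, ⟪b (Sum.inl k), M (b (Sum.inr j))⟫ = 0)
    (h21 : ∀ i l, ⟪b (Sum.inr i), M (b (Sum.inl l))⟫ = 0)
    (h22 : ∀ i j, ⟪b (Sum.inr i), M (b (Sum.inr j))⟫ = D i j) : M.det = D.det := by
  have h : LinearMap.toMatrix b.toBasis b.toBasis (M : E →ₗ[ℝ] E) = Matrix.fromBlocks 1 0 0 D := by
    ext i j
    rw [LinearMap.toMatrix_apply, OrthonormalBasis.coe_toBasis_repr_apply,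
      OrthonormalBasis.repr_apply_apply, OrthonormalBasis.coe_toBasis]
    rcases i with i | i <;> rcases j with j | j
    · exact h11 i j
    · exact h12 i j
    · exact h21 i j
    · exact h22 i j
  rw [ContinuousLinearMap.det, ← LinearMap.det_toMatrix b.toBasis, h, det_fromBlocks_zero₂₁,
    det_one, one_mul]

lemma inner_adj (b : OrthonormalBasis (Fin 2 ⊕ Fin (n + 1)) ℝ E) (L : E →L[ℝ] E) (u w : E) :
    ⟪u, (L ∘L L.adjoint) w⟫ = ⟪u, L (b (Sum.inl 0))⟫ * ⟪w, L (b (Sum.inl 0))⟫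
      + ⟪u, L (b (Sum.inl 1))⟫ * ⟪w, L (b (Sum.inl 1))⟫
      + ∑ j, ⟪u, L (b (Sum.inr j))⟫ * ⟪w, L (b (Sum.inr j))⟫ := by
  have h1 : ⟪u, (L ∘L L.adjoint) w⟫ = ⟪L.adjoint u, L.adjoint w⟫ := by
    rw [ContinuousLinearMap.comp_apply, ContinuousLinearMap.adjoint_inner_left]
  rw [h1, ← b.sum_inner_mul_inner, Fintype.sum_sum_type, Fin.sum_univ_two]
  have h2 : ∀ i, ⟪L.adjoint u, b i⟫ * ⟪b i, L.adjoint w⟫ = ⟪u, L (b i)⟫ * ⟪w, L (b i)⟫ := by
    intro i
    rw [ContinuousLinearMap.adjoint_inner_left, ContinuousLinearMap.adjoint_inner_right,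
      real_inner_comm w]
  simp only [h2]

/-- the compression of the derivative. -/
noncomputable def Am (b : OrthonormalBasis (Fin 2 ⊕ Fin (n + 1)) ℝ E) (T : E →L[ℝ] E) :
    Matrix (Fin (n + 1)) (Fin (n + 1)) ℝ := Matrix.of fun i j => ⟪b (Sum.inr i), T (b (Sum.inr j))⟫

/-- the column of the derivative. -/
noncomputable def av (b : OrthonormalBasis (Fin 2 ⊕ Fin (n + 1)) ℝ E) (T : E →L[ℝ] E) :
    Fin (n + 1) → ℝ := fun i => ⟪b (Sum.inr i), T (b (Sum.inl 1))⟫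

lemma b_inl_inl (b : OrthonormalBasis (Fin 2 ⊕ Fin (n + 1)) ℝ E) (k l : Fin 2) :
    ⟪b (Sum.inl k), b (Sum.inl l)⟫ = (1 : Matrix (Fin 2) (Fin 2) ℝ) k l := by
  rw [b.inner_eq_ite, Matrix.one_apply]
  simp

lemma b_inr_inr (b : OrthonormalBasis (Fin 2 ⊕ Fin (n + 1)) ℝ E) (k l : Fin (n + 1)) :
    ⟪b (Sum.inr k), b (Sum.inr l)⟫ = (1 : Matrix (Fin (n + 1)) (Fin (n + 1)) ℝ) k l := by
  rw [b.inner_eq_ite, Matrix.one_apply]
  simp

lemma b_inl_inr (b : OrthonormalBasis (Fin 2 ⊕ Fin (n + 1)) ℝ E) (k : Fin 2) (l : Fin (n + 1)) :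
    ⟪b (Sum.inl k), b (Sum.inr l)⟫ = 0 := by
  rw [b.inner_eq_ite]; simp

lemma b_inr_inl (b : OrthonormalBasis (Fin 2 ⊕ Fin (n + 1)) ℝ E) (k : Fin 2) (l : Fin (n + 1)) :
    ⟪b (Sum.inr l), b (Sum.inl k)⟫ = 0 := by
  rw [b.inner_eq_ite]; simp

lemma inner_coordMap_inl0 (b : OrthonormalBasis (Fin 2 ⊕ Fin (n + 1)) ℝ E) (q : (ℝ × ℝ) × (EuclideanSpace ℝ (Fin (n + 1)))) :
    ⟪coordMap b q, b (Sum.inl 0)⟫ = q.1.1 := by
  simp only [coordMap, inner_add_left, inner_smul_left, sum_inner, b_inl_inl, b_inr_inl,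
    RCLike.conj_to_real]
  simp

lemma inner_coordMap_inl1 (b : OrthonormalBasis (Fin 2 ⊕ Fin (n + 1)) ℝ E) (q : (ℝ × ℝ) × (EuclideanSpace ℝ (Fin (n + 1)))) :
    ⟪coordMap b q, b (Sum.inl 1)⟫ = q.1.2 := by
  simp only [coordMap, inner_add_left, inner_smul_left, sum_inner, b_inl_inl, b_inr_inl,
    RCLike.conj_to_real]
  simp

lemma inner_inr_coordMap (b : OrthonormalBasis (Fin 2 ⊕ Fin (n + 1)) ℝ E) (q : (ℝ × ℝ) × (EuclideanSpace ℝ (Fin (n + 1))))
    (i : Fin (n + 1)) : ⟪b (Sum.inr i), coordMap b q⟫ = q.2.ofLp i := by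
  simp only [coordMap, inner_add_right, inner_smul_right, inner_sum, b_inr_inl, b_inr_inr,
    RCLike.conj_to_real]
  simp [Matrix.one_apply]

lemma T_coordMap (b : OrthonormalBasis (Fin 2 ⊕ Fin (n + 1)) ℝ E) (T : E →L[ℝ] E)
    (hTx : T (b (Sum.inl 0)) = 0) (q : (ℝ × ℝ) × (EuclideanSpace ℝ (Fin (n + 1)))) (i : Fin (n + 1)) :
    ⟪b (Sum.inr i), T (coordMap b q)⟫ = q.1.2 * av b T i + (Am b T *ᵥ q.2.ofLp) i := by
  simp only [coordMap, map_add, map_smul, map_sum, hTx, smul_zero, zero_add, inner_add_right,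
    inner_smul_right, inner_sum, av, Am, mulVec, dotProduct, Matrix.of_apply]
  congr 1
  exact Finset.sum_congr rfl (fun j _ => mul_comm _ _)

/-- the Jacobian density in coordinates. -/
lemma Dd_coord (b : OrthonormalBasis (Fin 2 ⊕ Fin (n + 1)) ℝ E) (T : E →L[ℝ] E)
    (hTx : T (b (Sum.inl 0)) = 0) (hTv : ∀ δ, ⟪b (Sum.inl 1), T δ⟫ = 0)
    (hTt : ∀ δ, ⟪b (Sum.inl 0), T δ⟫ = -⟪δ, b (Sum.inl 1)⟫) (q : (ℝ × ℝ) × (EuclideanSpace ℝ (Fin (n + 1)))) :
    Dd (Bx T (b (Sum.inl 1)) (b (Sum.inl 0)) (coordMap b q)) (b (Sum.inl 1)) (b (Sum.inl 0))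
      = 2 ^ (n + 1) * √((Gm (Am b T) (-1) (av b T) q.2.ofLp q.1.1 q.1.2).det) := by
  set X := coordMap b q with hX
  set L := Bx T (b (Sum.inl 1)) (b (Sum.inl 0)) X with hL
  have hx0 : ⟪X, b (Sum.inl 0)⟫ = q.1.1 := inner_coordMap_inl0 b q
  have hx1 : ⟪X, b (Sum.inl 1)⟫ = q.1.2 := inner_coordMap_inl1 b q
  have hLd : ∀ δ, L δ = (2 : ℝ) • (T (q.1.1 • δ - ⟪b (Sum.inl 0), δ⟫ • X)
      - (q.1.2 • δ - ⟪b (Sum.inl 1), δ⟫ • X)) := by
    intro δ
    rw [hL, Bx_apply, hx0, hx1]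
  have hL0 : ∀ δ, ⟪b (Sum.inl 0), L δ⟫ = 0 := by
    intro δ
    rw [hLd, inner_smul_right, inner_sub_right, hTt]
    simp only [inner_sub_left, inner_sub_right, inner_smul_left, inner_smul_right,
      RCLike.conj_to_real, hx1, real_inner_comm X, hx0, real_inner_comm δ]
    ring
  have hL1 : ∀ δ, ⟪b (Sum.inl 1), L δ⟫ = 0 := by
    intro δ
    rw [hLd, inner_smul_right, inner_sub_right, hTv]
    simp only [inner_sub_left, inner_sub_right, inner_smul_left, inner_smul_right,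
      RCLike.conj_to_real, hx1, real_inner_comm X, hx0, real_inner_comm δ]
    ring
  have hLk : ∀ (k : Fin 2) δ, ⟪b (Sum.inl k), L δ⟫ = 0 := by
    intro k δ
    fin_cases k
    · exact hL0 δ
    · exact hL1 δ
  -- entries
  have g0 : ∀ i, ⟪b (Sum.inr i), L (b (Sum.inl 0))⟫
      = 2 * (-(q.1.2 • av b T) - Am b T *ᵥ q.2.ofLp) i := by
    intro i
    rw [hLd, b_inl_inl, b_inl_inl, map_sub, map_smul, hTx]
    simp only [inner_smul_right, inner_sub_right, map_smul, T_coordMap b T hTx, hX,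
      inner_inr_coordMap, b_inr_inl, Pi.sub_apply, Pi.neg_apply, Pi.smul_apply, smul_eq_mul,
      smul_zero, inner_zero_right]
    simp
    ring
  have g1 : ∀ i, ⟪b (Sum.inr i), L (b (Sum.inl 1))⟫
      = 2 * (q.1.1 • av b T - (-1 : Matrix (Fin (n + 1)) (Fin (n + 1)) ℝ) *ᵥ q.2.ofLp) i := by
    intro i
    rw [hLd, b_inl_inl, b_inl_inl, map_sub, map_smul]
    simp only [inner_smul_right, inner_sub_right, map_smul, T_coordMap b T hTx, hX,
      inner_inr_coordMap, b_inr_inl, Pi.sub_apply, Pi.neg_apply, Pi.smul_apply, smul_eq_mul,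
      smul_zero, inner_zero_right, neg_mulVec, one_mulVec, av]
    simp
  have g2 : ∀ i j, ⟪b (Sum.inr i), L (b (Sum.inr j))⟫
      = 2 * (q.1.1 • Am b T + q.1.2 • (-1 : Matrix (Fin (n + 1)) (Fin (n + 1)) ℝ)) i j := by
    intro i j
    rw [hLd, b_inl_inr, b_inl_inr, map_sub, map_smul]
    simp only [inner_smul_right, inner_sub_right, map_smul, zero_smul, sub_zero, b_inr_inr, map_zero,
      Matrix.add_apply, Matrix.smul_apply, Matrix.neg_apply, smul_eq_mul, Am, Matrix.of_apply]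
    ring
  have hM : (L ∘L L.adjoint + (innerSL ℝ (b (Sum.inl 1))).smulRight (b (Sum.inl 1))
      + (innerSL ℝ (b (Sum.inl 0))).smulRight (b (Sum.inl 0))).det
      = ((4 : ℝ) • Gm (Am b T) (-1) (av b T) q.2.ofLp q.1.1 q.1.2).det := by
    refine det_block b _ _ ?_ ?_ ?_ ?_
    · intro k l
      simp only [_root_.add_apply, ContinuousLinearMap.smulRight_apply, innerSL_apply_apply,
        inner_add_right, inner_smul_right, inner_adj b, hLk, b_inl_inl]
      fin_cases k <;> fin_cases l <;> simp [Matrix.one_apply]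
    · intro k j
      simp only [_root_.add_apply, ContinuousLinearMap.smulRight_apply, innerSL_apply_apply,
        inner_add_right, inner_smul_right, inner_adj b, hLk, b_inl_inr]
      simp
    · intro i l
      simp only [_root_.add_apply, ContinuousLinearMap.smulRight_apply, innerSL_apply_apply,
        inner_add_right, inner_smul_right, inner_adj b, hLk, b_inr_inl]
      simp
    · intro i j
      simp only [_root_.add_apply, ContinuousLinearMap.smulRight_apply, innerSL_apply_apply,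
        inner_add_right, inner_smul_right, inner_adj b, g0, g1, g2, b_inl_inr, b_inr_inl]
      simp only [Gm, Matrix.smul_apply, Matrix.add_apply, vecMulVec_apply, Matrix.mul_apply,
        transpose_apply, smul_eq_mul, mul_add, Finset.mul_sum, zero_mul, mul_zero, add_zero]
      have : ∀ c d : ℝ, 2 * c * (2 * d) = 4 * (c * d) := fun c d => by ring
      simp only [this]
      ring
  rw [Dd, hM, det_smul, Fintype.card_fin, Real.sqrt_mul (by positivity),
    show (4 : ℝ) ^ (n + 1) = (2 ^ (n + 1)) ^ 2 by rw [← pow_mul, mul_comm, pow_mul]; norm_num,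
    Real.sqrt_sq (by positivity)]

end Pool.Agent.Helper20.VF
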