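import Pool.Agent.Helper20.VF.NormD

/-!
# The bound for a general pencil: removing the nondegeneracy
-/

open MeasureTheory Set Metric Filter Module Matrix
open scoped NNReal Topology RealInnerProductSpace ENNReal Real

namespace Pool.Agent.Helper20.VF

variable {n : ℕ}


lemma fatou2 {α β : Type*} [MeasurableSpace α] [MeasurableSpace β] {μ : Measure α} {ν : Measure β}
    [SFinite ν] {f : ℕ → α → β → ℝ≥0∞} (hf : ∀ k, Measurable (fun p : α × β => f k p.1 p.2))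
    {g : α → β → ℝ≥0∞} (hlim : ∀ x y, Tendsto (fun k => f k x y) atTop (𝓝 (g x y)))
    {r : ℕ → ℝ≥0∞} {R : ℝ≥0∞} (hr : Tendsto r atTop (𝓝 R))
    (h : ∀ k, ∫⁻ x, ∫⁻ y, f k x y ∂ν ∂μ ≤ r k) : ∫⁻ x, ∫⁻ y, g x y ∂ν ∂μ ≤ R := by
  calc ∫⁻ x, ∫⁻ y, g x y ∂ν ∂μ = ∫⁻ x, ∫⁻ y, liminf (fun k => f k x y) atTop ∂ν ∂μ := by
        refine lintegral_congr (fun x => lintegral_congr (fun y => ?_))
        exact (hlim x y).liminf_eq.symm
    _ ≤ ∫⁻ x, liminf (fun k => ∫⁻ y, f k x y ∂ν) atTop ∂μ := by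
        refine lintegral_mono (fun x => ?_)
        exact lintegral_liminf_le (fun k => (hf k).comp measurable_prodMk_left)
    _ ≤ liminf (fun k => ∫⁻ x, ∫⁻ y, f k x y ∂ν ∂μ) atTop :=
        lintegral_liminf_le (fun k => (hf k).lintegral_prod_right')
    _ ≤ liminf r atTop := liminf_le_liminf (Eventually.of_forall h)
    _ = R := hr.liminf_eq

/-- the perturbation direction. -/
noncomputable def EE (hn : 3 ≤ n) : Matrix (Fin (n + 1)) (Fin (n + 1)) ℝ :=
  Matrix.single ⟨0, by omega⟩ ⟨1, by omega⟩ 1 + Matrix.single ⟨2, by omega⟩ ⟨3, by omega⟩ 1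

lemma ND_pert (hn : 3 ≤ n) (A : Matrix (Fin (n + 1)) (Fin (n + 1)) ℝ) :
    ∀ᶠ t in 𝓝[≠] (0 : ℝ), ND hn (A + t • EE hn) := by
  have key : ∀ t : ℝ, ND hn (A + t • EE hn) ↔
      (A ⟨0, by omega⟩ ⟨1, by omega⟩ + t) * (A ⟨2, by omega⟩ ⟨3, by omega⟩ + t)
    - A ⟨0, by omega⟩ ⟨3, by omega⟩ * A ⟨2, by omega⟩ ⟨1, by omega⟩ ≠ 0 := by
    intro t
    unfold ND EE
    simp only [Matrix.add_apply, Matrix.smul_apply, Matrix.single_apply, Fin.mk.injEq, smul_eq_mul]
    norm_num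
  simp_rw [key]
  generalize A ⟨0, by omega⟩ ⟨1, by omega⟩ = b1
  generalize A ⟨2, by omega⟩ ⟨3, by omega⟩ = b2
  generalize A ⟨0, by omega⟩ ⟨3, by omega⟩ * A ⟨2, by omega⟩ ⟨1, by omega⟩ = b3
  by_cases h0 : b1 * b2 - b3 = 0
  · by_cases h1 : b1 + b2 = 0
    · filter_upwards [self_mem_nhdsWithin] with t ht h
      have : t ^ 2 = 0 := by linear_combination h - h0 - t * h1
      exact ht (pow_eq_zero_iff two_ne_zero |>.1 this)
    · have hc : Continuous (fun t : ℝ => b1 + b2 + t) := by fun_prop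
      have h2 := (hc.tendsto 0).eventually_ne (by simpa using h1 : b1 + b2 + 0 ≠ 0)
      filter_upwards [self_mem_nhdsWithin, nhdsWithin_le_nhds h2] with t ht ht2 h
      have : t * (b1 + b2 + t) = 0 := by linear_combination h - h0
      rcases mul_eq_zero.1 this with h | h
      · exact ht h
      · exact ht2 h
  · have hc : Continuous (fun t : ℝ => (b1 + t) * (b2 + t) - b3) := by fun_prop
    have h2 := (hc.tendsto 0).eventually_ne (by simpa using h0 : (b1 + 0) * (b2 + 0) - b3 ≠ 0)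
    exact nhdsWithin_le_nhds h2

lemma continuous_Gm : Continuous (fun q : Matrix (Fin (n + 1)) (Fin (n + 1)) ℝ × (Fin (n + 1) → ℝ)
    × (Fin (n + 1) → ℝ) × ℝ × ℝ => Gm q.1 (-1) q.2.1 q.2.2.1 q.2.2.2.1 q.2.2.2.2) := by
  set T := Matrix (Fin (n + 1)) (Fin (n + 1)) ℝ × (Fin (n + 1) → ℝ) × (Fin (n + 1) → ℝ) × ℝ × ℝ
  have k1 : Continuous (fun q : T => q.1) := continuous_fst
  have k2 : Continuous (fun q : T => q.2.1) := continuous_fst.comp continuous_snd
  have k3 : Continuous (fun q : T => q.2.2.1) := by fun_prop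
  have k4 : Continuous (fun q : T => q.2.2.2.1) := by fun_prop
  have k5 : Continuous (fun q : T => q.2.2.2.2) := by fun_prop
  have c1 : Continuous (fun q : T => q.2.2.2.1 • q.1
      + q.2.2.2.2 • (-1 : Matrix (Fin (n + 1)) (Fin (n + 1)) ℝ)) :=
    (k4.smul k1).add (k5.smul continuous_const)
  have c2 : Continuous (fun q : T => -(q.2.2.2.2 • q.2.1) - q.1 *ᵥ q.2.2.1) :=
    (k5.smul k2).neg.sub (k1.matrix_mulVec k3)
  have c3 : Continuous (fun q : T => q.2.2.2.1 • q.2.1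
      - (-1 : Matrix (Fin (n + 1)) (Fin (n + 1)) ℝ) *ᵥ q.2.2.1) :=
    (k4.smul k2).sub (Continuous.matrix_mulVec continuous_const k3)
  exact ((c1.matrix_mul c1.matrix_transpose).add (c2.matrix_vecMulVec c2)).add (c3.matrix_vecMulVec c3)

/-- **The bound for a general pencil.** -/
theorem gen_bound (hn : 3 ≤ n) (hW : OneVar n) (A : Matrix (Fin (n + 1)) (Fin (n + 1)) ℝ)
    (a : Fin (n + 1) → ℝ) :
    ∫⁻ p : ℝ × ℝ, ∫⁻ y : EuclideanSpace ℝ (Fin (n + 1)), ENNReal.ofReal (√(p.1 ^ 2 + p.2 ^ 2 + ‖y‖ ^ 2)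
        * √((Gm A (-1) a y.ofLp p.1 p.2).det)
        * (gw y * Real.exp (-(p.1 ^ 2 + p.2 ^ 2) / 2)))
      ≤ ENNReal.ofReal (KN n * √((1 + A * Aᵀ + vecMulVec a a).det)) := by
  obtain ⟨t, ht⟩ := (𝓝[≠] (0 : ℝ)).exists_seq_tendsto
  obtain ⟨k0, hk0⟩ := eventually_atTop.1 (ht.eventually (ND_pert hn A))
  set τ : ℕ → ℝ := fun k => t (k + k0) with hτ
  have hτ0 : Tendsto τ atTop (𝓝 0) :=
    ((tendsto_nhdsWithin_iff.1 ht).1).comp (tendsto_add_atTop_nat k0)
  have hAk : Tendsto (fun k => A + τ k • EE hn) atTop (𝓝 A) := by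
    have : Tendsto (fun k => A + τ k • EE hn) atTop (𝓝 (A + (0 : ℝ) • EE hn)) :=
      tendsto_const_nhds.add (hτ0.smul_const _)
    rwa [zero_smul, add_zero] at this
  refine fatou2 (f := fun k p y => ENNReal.ofReal (√(p.1 ^ 2 + p.2 ^ 2 + ‖y‖ ^ 2)
        * √((Gm (A + τ k • EE hn) (-1) a y.ofLp p.1 p.2).det)
        * (gw y * Real.exp (-(p.1 ^ 2 + p.2 ^ 2) / 2)))) ?_ ?_
        (r := fun k => ENNReal.ofReal (KN n * √((1 + (A + τ k • EE hn) * (A + τ k • EE hn)ᵀ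
          + vecMulVec a a).det))) ?_ ?_
  · intro k
    have c1 : Continuous (fun q : (ℝ × ℝ) × (EuclideanSpace ℝ (Fin (n + 1))) => Gm (A + τ k • EE hn) (-1) a q.2.ofLp q.1.1 q.1.2) :=
      continuous_Gm.comp (f := fun q : (ℝ × ℝ) × (EuclideanSpace ℝ (Fin (n + 1))) => (A + τ k • EE hn, a, q.2.ofLp, q.1.1, q.1.2))
        (by fun_prop)
    have c2 : Continuous (fun q : (ℝ × ℝ) × (EuclideanSpace ℝ (Fin (n + 1))) => √(q.1.1 ^ 2 + q.1.2 ^ 2 + ‖q.2‖ ^ 2)
        * √((Gm (A + τ k • EE hn) (-1) a q.2.ofLp q.1.1 q.1.2).det)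
        * (gw q.2 * Real.exp (-(q.1.1 ^ 2 + q.1.2 ^ 2) / 2))) := by
      refine (Continuous.mul (by fun_prop) c1.matrix_det.sqrt).mul (Continuous.mul ?_ (by fun_prop))
      exact continuous_gw.comp continuous_snd
    exact c2.measurable.ennreal_ofReal
  · intro p y
    refine (ENNReal.continuous_ofReal.tendsto _).comp ?_
    refine Tendsto.mul_const _ (Tendsto.const_mul _ ?_)
    have c1 : Continuous (fun M : Matrix (Fin (n + 1)) (Fin (n + 1)) ℝ =>
        √((Gm M (-1) a y.ofLp p.1 p.2).det)) :=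
      (continuous_Gm.comp (f := fun M : Matrix (Fin (n + 1)) (Fin (n + 1)) ℝ =>
        (M, a, y.ofLp, p.1, p.2)) (by fun_prop)).matrix_det.sqrt
    exact (c1.tendsto A).comp hAk
  · refine (ENNReal.continuous_ofReal.tendsto _).comp ?_
    refine Tendsto.const_mul _ ?_
    have c1 : Continuous (fun M : Matrix (Fin (n + 1)) (Fin (n + 1)) ℝ =>
        √((1 + M * Mᵀ + vecMulVec a a).det)) := by
      refine Continuous.sqrt (Continuous.matrix_det ?_)
      exact (continuous_const.add (continuous_id.matrix_mul continuous_id.matrix_transpose)).add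
        continuous_const
    exact (c1.tendsto A).comp hAk
  · intro k
    exact gen_bound_ND hn hW _ (hk0 _ (by omega)) a

end Pool.Agent.Helper20.VF
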