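import Pool.Agent.Helper20.VF.Slice

/-!
# Gaussian moments
-/

open MeasureTheory Set Metric Filter Module
open scoped NNReal Topology RealInnerProductSpace ENNReal Real

namespace Pool.Agent.Helper20.VF

/-- the half-line Gaussian moments. -/
noncomputable def gm (j : ℕ) : ℝ := ∫ r in Ioi (0 : ℝ), r ^ j * Real.exp (-r ^ 2 / 2)

lemma gm_eq (j : ℕ) : gm j = (2 : ℝ) ^ (((j : ℝ) + 1) / 2) / 2 * Real.Gamma (((j : ℝ) + 1) / 2) := by
  have h := integral_rpow_mul_exp_neg_mul_rpow (p := 2) (q := j) (b := 1 / 2) (by norm_num)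
    (by have : (0 : ℝ) ≤ j := by positivity
        linarith) (by norm_num)
  have h2 : gm j = ∫ x in Ioi (0 : ℝ), x ^ (j : ℝ) * Real.exp (-(1 / 2) * x ^ (2 : ℝ)) := by
    rw [gm]
    refine setIntegral_congr_fun measurableSet_Ioi (fun x _ => ?_)
    simp only [Real.rpow_natCast, Real.rpow_two]
    congr 2
    ring
  rw [h2, h]
  have e : ((1 : ℝ) / 2) ^ (-((j : ℝ) + 1) / 2) = (2 : ℝ) ^ (((j : ℝ) + 1) / 2) := by
    rw [one_div, Real.inv_rpow (by norm_num), ← Real.rpow_neg (by norm_num)]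
    congr 1
    ring
  rw [e]
  ring

lemma gm_pos (j : ℕ) : 0 < gm j := by
  rw [gm_eq]
  have : 0 < Real.Gamma (((j : ℝ) + 1) / 2) := Real.Gamma_pos_of_pos (by positivity)
  positivity

lemma gm_succ_succ (j : ℕ) : gm (j + 2) = (j + 1) * gm j := by
  rw [gm_eq, gm_eq]
  have h1 : (((j + 2 : ℕ) : ℝ) + 1) / 2 = ((j : ℝ) + 1) / 2 + 1 := by push_cast; ring
  rw [h1, Real.Gamma_add_one (by positivity), Real.rpow_add (by norm_num), Real.rpow_one]
  ring

lemma integrableOn_gm (j : ℕ) :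
    IntegrableOn (fun r : ℝ => r ^ j * Real.exp (-r ^ 2 / 2)) (Ioi 0) := by
  by_contra h
  have := integral_undef h
  have h2 := gm_pos j
  rw [gm] at h2
  exact absurd this h2.ne'

lemma continuous_gauss_mul (j : ℕ) : Continuous (fun r : ℝ => r ^ j * Real.exp (-r ^ 2 / 2)) := by
  fun_prop

lemma integrable_pow_gauss (j : ℕ) : Integrable (fun t : ℝ => t ^ j * Real.exp (-t ^ 2 / 2)) := by
  have h := integrable_rpow_mul_exp_neg_mul_sq (b := 1 / 2) (by norm_num) (s := j)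
    (by have : (0 : ℝ) ≤ j := by positivity
        linarith)
  refine h.congr (Eventually.of_forall fun t => ?_)
  simp only [Real.rpow_natCast]
  congr 2
  ring

lemma integral_abs_pow_gauss (j : ℕ) : ∫ t : ℝ, |t| ^ j * Real.exp (-t ^ 2 / 2) = 2 * gm j := by
  have h := integral_comp_abs (f := fun t => t ^ j * Real.exp (-t ^ 2 / 2))
  simp only [sq_abs] at h
  rw [h, gm]

variable {E : Type*} [NormedAddCommGroup E] [InnerProductSpace ℝ E] [FiniteDimensional ℝ E]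
  [MeasurableSpace E] [BorelSpace E]

lemma integral_gauss : ∫ x : E, Real.exp (-‖x‖ ^ 2 / 2) = (2 * π) ^ ((finrank ℝ E : ℝ) / 2) := by
  have h := GaussianFourier.integral_rexp_neg_mul_sq_norm (V := E) (b := 1 / 2) (by norm_num)
  have e : ∀ x : E, -(1 / 2 : ℝ) * ‖x‖ ^ 2 = -‖x‖ ^ 2 / 2 := fun x => by ring
  simp_rw [e] at h
  rw [h]
  congr 1
  ring

lemma integral_gauss_slice (v : E) (hv : ‖v‖ = 1) (φ : ℝ → ℝ) :
    ∫ x : E, φ ⟪v, x⟫ * Real.exp (-‖x‖ ^ 2 / 2)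
      = (∫ t : ℝ, φ t * Real.exp (-t ^ 2 / 2)) * (2 * π) ^ (((finrank ℝ E : ℝ) - 1) / 2) := by
  rw [integral_slice v hv]
  have h1 : ∀ p : ℝ × (ℝ ∙ v)ᗮ, φ ⟪v, p.1 • v + (p.2 : E)⟫ * Real.exp (-‖p.1 • v + (p.2 : E)‖ ^ 2 / 2)
      = (φ p.1 * Real.exp (-p.1 ^ 2 / 2)) * Real.exp (-‖p.2‖ ^ 2 / 2) := by
    intro p
    rw [norm_slice hv, real_inner_comm, inner_slice hv, mul_assoc, ← Real.exp_add]
    congr 2
    ring
  simp_rw [h1]
  rw [show (volume : Measure (ℝ × (ℝ ∙ v)ᗮ)) = volume.prod volume from rfl,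
    integral_prod_mul (fun t => φ t * Real.exp (-t ^ 2 / 2))
      (fun Y : (ℝ ∙ v)ᗮ => Real.exp (-‖Y‖ ^ 2 / 2)), integral_gauss]
  congr 2
  have hf : finrank ℝ (ℝ ∙ v)ᗮ + 1 = finrank ℝ E := by
    have h0 : v ≠ 0 := by rintro rfl; simp at hv
    have := (ℝ ∙ v).finrank_add_finrank_orthogonal
    rw [finrank_span_singleton h0] at this
    omega
  rw [← hf]
  push_cast
  ring

end Pool.Agent.Helper20.VF
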