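import Pool.Agent.Helper20.VF.PartOneC
import Pool.Agent.Helper20.VF.GaussMom

/-!
# Final form of Part I
-/

open MeasureTheory Set Metric Filter
open scoped NNReal Topology RealInnerProductSpace ContDiff Manifold Real

namespace Pool.Agent.Helper20.VF

variable {E : Type*} [NormedAddCommGroup E] [InnerProductSpace ℝ E] [FiniteDimensional ℝ E]

lemma Dd_eq_Om (L : E →L[ℝ] E) (w a : E) :
    Dd L w a = √(Om (L ∘L L.adjoint) w a (innerSL ℝ w) (innerSL ℝ a)) := rfl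

lemma Dd_smul (L : E →L[ℝ] E) (w a : E) (hw : ‖w‖ = 1) (ha : ‖a‖ = 1) (hwa : ⟪w, a⟫ = 0)
    (hLw : ∀ v, ⟪w, L v⟫ = 0) (hLa : ∀ v, ⟪a, L v⟫ = 0) {t : ℝ} (ht : 0 < t) {k : ℕ}
    (hk : Module.finrank ℝ E = k + 2) : Dd (t • L) w a = t ^ k * Dd L w a := by
  rw [Dd_eq_Om, Dd_eq_Om]
  have h := det_scale (L ∘L L.adjoint) w a hw ha hwa (fun v => by simp [hLw]) (fun v => by simp [hLa])
    (innerSL ℝ w) (innerSL ℝ a) (t ^ 2) 1 (by positivity)
  have e1 : (t • L) ∘L (t • L).adjoint = t ^ 2 • (L ∘L L.adjoint) := by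
    ext v
    simp [smul_smul, sq]
  rw [e1]
  rw [one_smul, hk, mul_one] at h
  have e2 : ((t ^ 2) ^ (k + 2) : ℝ) = (t ^ 2) ^ k * (t ^ 2) ^ 2 := by rw [pow_add]
  rw [e2, mul_assoc, mul_comm ((t ^ 2) ^ 2), ← mul_assoc] at h
  have h2 : ((t ^ 2) ^ 2 : ℝ) ≠ 0 := by positivity
  rw [mul_right_cancel₀ h2 h]
  rw [Real.sqrt_mul (by positivity), ← pow_mul, mul_comm 2 k, pow_mul, Real.sqrt_sq (by positivity)]

variable {V : E → E} {a : E}

lemma Mj_smul (hV : UField V) (ha : ‖a‖ = 1) {k : ℕ} (hk : Module.finrank ℝ E = k + 3)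
    {r : ℝ} (hr : 0 < r) {u : E} (hu : u ≠ 0) :
    Mj V a (r • u) = (r⁻¹) ^ (k + 1) * Mj V a u := by
  rw [Mj, Wf_smul hr.ne', fderiv_smul_of_homog hr.ne' (fun X => Wf_smul hr.ne')]
  exact Dd_smul _ _ _ (norm_Wf hV ha hu) ha (inner_Wf hV) (inner_Wf_fderiv hV ha hu)
    (inner_a_fderiv hV ha hu) (inv_pos.2 hr) (by omega)

variable [MeasurableSpace E] [BorelSpace E]

/-- a bump function on the half-line. -/
lemma exists_bump : ∃ K : ℝ → ℝ, Continuous K ∧ HasCompactSupport K ∧ tsupport K ⊆ Ioi 0 ∧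
    (∀ u, 0 ≤ K u) ∧ 0 < ∫ r in Ioi (0 : ℝ), r * K (r ^ 2) := by
  refine ⟨fun u => max 0 (min (u - 1) (2 - u)), by fun_prop, ?_, ?_, fun u => le_max_left _ _, ?_⟩
  · refine HasCompactSupport.intro (isCompact_Icc (a := (1 : ℝ)) (b := 2)) (fun u hu => ?_)
    refine max_eq_left ?_
    by_contra h
    push Not at h
    obtain ⟨h1, h2⟩ := lt_min_iff.1 h
    exact hu ⟨by linarith, by linarith⟩
  · have : tsupport (fun u : ℝ => max 0 (min (u - 1) (2 - u))) ⊆ Icc 1 2 := by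
      refine closure_minimal (fun u hu => ?_) isClosed_Icc
      by_contra hn
      refine hu (max_eq_left ?_)
      by_contra h
      push Not at h
      obtain ⟨h1, h2⟩ := lt_min_iff.1 h
      exact hn ⟨by linarith, by linarith⟩
    exact this.trans (fun u hu => lt_of_lt_of_le one_pos hu.1)
  · have hc : Continuous (fun r : ℝ => r * max 0 (min (r ^ 2 - 1) (2 - r ^ 2))) := by fun_prop
    have hcs : HasCompactSupport (fun r : ℝ => r * max 0 (min (r ^ 2 - 1) (2 - r ^ 2))) := by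
      refine HasCompactSupport.intro (isCompact_Icc (a := (-2 : ℝ)) (b := 2)) (fun u hu => ?_)
      have : max 0 (min (u ^ 2 - 1) (2 - u ^ 2)) = 0 := by
        refine max_eq_left ?_
        by_contra h
        push Not at h
        obtain ⟨h1, h2⟩ := lt_min_iff.1 h
        exact hu ⟨by nlinarith, by nlinarith⟩
      simp only [this, mul_zero]
    have hi := hc.integrable_of_hasCompactSupport (μ := volume) hcs
    rw [setIntegral_pos_iff_support_of_nonneg_ae]
    · have hsub : Ioo (1.1 : ℝ) 1.2 ⊆ Function.support (fun r : ℝ => r * max 0 (min (r ^ 2 - 1) (2 - r ^ 2)))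
          ∩ Ioi 0 := by
        intro r hr
        have h1 : 1.1 < r := hr.1
        have h2 : r < 1.2 := hr.2
        refine ⟨?_, by simp only [mem_Ioi]; linarith⟩
        have h3 : 0 < min (r ^ 2 - 1) (2 - r ^ 2) := lt_min (by nlinarith) (by nlinarith)
        have h4 : 0 < max 0 (min (r ^ 2 - 1) (2 - r ^ 2)) := lt_max_of_lt_right h3
        exact (mul_pos (by linarith) h4).ne'
      refine lt_of_lt_of_le ?_ (measure_mono hsub)
      rw [Real.volume_Ioo]
      norm_num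
    · filter_upwards [self_mem_ae_restrict measurableSet_Ioi] with r hr
      exact mul_nonneg (le_of_lt hr) (le_max_left _ _)
    · exact hi.integrableOn

/-- Part I: lower bound for the half-space Gaussian average of the Jacobian. -/
theorem partI (hV : UField V) (ha : ‖a‖ = 1) {k : ℕ} (hk : Module.finrank ℝ E = k + 3)
    (hodd : Odd k) :
    π * gm (2 * k + 4) / gm (2 * k + 1) * (2 ^ k * ((2 * gm k) * (2 * π) ^ (((k : ℝ) + 1) / 2)))
      ≤ ∫ X in {X : E | 0 < ⟪X, a⟫}, ‖X‖ ^ (2 * k + 3) * Real.exp (-‖X‖ ^ 2 / 2) * Mj V a X := by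
  have hnt : Nontrivial E := Module.nontrivial_of_finrank_pos (R := ℝ) (by omega)
  have ha0 : a ≠ 0 := by rintro rfl; simp at ha
  have hfF : Module.finrank ℝ (ℝ ∙ a)ᗮ = k + 2 := by
    have := (ℝ ∙ a).finrank_add_finrank_orthogonal
    rw [finrank_span_singleton ha0] at this
    omega
  have hntF : Nontrivial (ℝ ∙ a)ᗮ := Module.nontrivial_of_finrank_pos (R := ℝ) (by omega)
  obtain ⟨K, hK, hKc, hKpos, hK0, hKint⟩ := exists_bump
  set cK := ∫ r in Ioi (0 : ℝ), r * K (r ^ 2) with hcK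
  have hmeas : MeasurableSet {X : E | 0 < ⟪X, a⟫} :=
    (isOpen_lt continuous_const (by fun_prop)).measurableSet
  -- the vector `v`, as an element of the orthogonal complement
  have hvo : V (-a) ∈ (ℝ ∙ a)ᗮ := by
    rw [Submodule.mem_orthogonal_singleton_iff_inner_right]
    have := hV.tang (-a)
    rwa [inner_neg_left, neg_eq_zero] at this
  set v : (ℝ ∙ a)ᗮ := ⟨V (-a), hvo⟩ with hv
  have hvn : ‖v‖ = 1 := norm_V_neg hV ha
  have hvi : ∀ Y : (ℝ ∙ a)ᗮ, ⟪V (-a), (Y : E)⟫ = ⟪v, Y⟫ := fun Y => rfl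
  set S₁ : ℝ := ∫ u : sphere (0 : (ℝ ∙ a)ᗮ) 1, |⟪v, (u : (ℝ ∙ a)ᗮ)⟫| ^ k
    ∂(volume : Measure (ℝ ∙ a)ᗮ).toSphere with hS₁
  set I : E → ℝ := fun u => {X : E | 0 < ⟪X, a⟫}.indicator (Mj V a) u with hI
  set S₂ : ℝ := ∫ u : sphere (0 : E) 1, I u ∂(volume : Measure E).toSphere with hS₂
  have hmemiff : ∀ u : E, ∀ r : ℝ, 0 < r →
      (r • u ∈ {X : E | 0 < ⟪X, a⟫} ↔ u ∈ {X : E | 0 < ⟪X, a⟫}) := by
    intro u r hr
    simp only [mem_ofPred_eq, inner_smul_left, RCLike.conj_to_real]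
    exact mul_pos_iff_of_pos_left hr
  have hIsmul : ∀ u : E, ‖u‖ = 1 → ∀ r : ℝ, 0 < r → I (r • u) = (r⁻¹) ^ (k + 1) * I u := by
    intro u hu r hr
    have hu0 : u ≠ 0 := by rintro rfl; simp at hu
    by_cases h : u ∈ {X : E | 0 < ⟪X, a⟫}
    · simp only [hI]
      rw [indicator_of_mem h, indicator_of_mem ((hmemiff u r hr).2 h), Mj_smul hV ha hk hr hu0]
    · simp only [hI]
      rw [indicator_of_notMem h, indicator_of_notMem (fun h' => h ((hmemiff u r hr).1 h')), mul_zero]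
  -- first inequality on spheres
  have h0 := calib0 hV ha hk hodd hK hKc hKpos hK0
  have e1 : ∫ Y : (ℝ ∙ a)ᗮ, π / 2 * (4 * K (‖Y‖ ^ 2) * |2 * (⟪V (-a), (Y : E)⟫ / ‖Y‖ ^ 2)| ^ k)
      = (2 * π * 2 ^ k * S₁) * cK := by
    rw [integral_polar_mul _ (fun u : (ℝ ∙ a)ᗮ => 2 * π * 2 ^ k * |⟪v, u⟫| ^ k)
      (fun r => K (r ^ 2) * (r⁻¹) ^ k)]
    · rw [integral_const_mul, hfF]
      congr 1
      refine setIntegral_congr_fun measurableSet_Ioi (fun r hr => ?_)
      have hr' : (r : ℝ) ≠ 0 := ne_of_gt hr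
      rw [show k + 2 - 1 = k + 1 by omega, pow_succ, inv_pow]
      field_simp
    · intro u hu r hr
      simp only [hvi]
      rw [norm_smul, hu, mul_one, Real.norm_eq_abs, sq_abs, inner_smul_right, abs_mul, abs_div,
        abs_mul, abs_of_pos hr, abs_of_pos (by positivity : (0 : ℝ) < r ^ 2),
        abs_of_pos (by norm_num : (0 : ℝ) < 2)]
      have : 2 * (r * |⟪v, u⟫| / r ^ 2) = 2 * |⟪v, u⟫| * r⁻¹ := by
        field_simp
      rw [this, mul_pow, mul_pow]
      ring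
  have e2 : ∫ X in {X : E | 0 < ⟪X, a⟫}, 2 * K (‖X‖ ^ 2) * Mj V a X = S₂ * (2 * cK) := by
    rw [← integral_indicator hmeas, integral_polar_mul _ I (fun r => 2 * K (r ^ 2) * (r⁻¹) ^ (k + 1))]
    · congr 1
      rw [hcK, ← integral_const_mul, hk]
      refine setIntegral_congr_fun measurableSet_Ioi (fun r hr => ?_)
      have hr' : (r : ℝ) ≠ 0 := ne_of_gt hr
      rw [show k + 3 - 1 = (k + 1) + 1 by omega, pow_succ r (k + 1), inv_pow]
      field_simp
    · intro u hu r hr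
      have h1 : ∀ X : E, {X : E | 0 < ⟪X, a⟫}.indicator (fun X => 2 * K (‖X‖ ^ 2) * Mj V a X) X
          = 2 * K (‖X‖ ^ 2) * I X := by
        intro X
        by_cases h : X ∈ {X : E | 0 < ⟪X, a⟫}
        · simp only [hI]; rw [indicator_of_mem h, indicator_of_mem h]
        · simp only [hI]; rw [indicator_of_notMem h, indicator_of_notMem h, mul_zero]
      rw [h1, hIsmul u hu r hr, norm_smul, hu, mul_one, Real.norm_eq_abs, sq_abs]
      ring
  rw [e1, e2] at h0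
  have h1 : π * 2 ^ k * S₁ ≤ S₂ := by
    have : (π * 2 ^ k * S₁) * (2 * cK) ≤ S₂ * (2 * cK) := by
      calc (π * 2 ^ k * S₁) * (2 * cK) = (2 * π * 2 ^ k * S₁) * cK := by ring
        _ ≤ _ := h0
    exact le_of_mul_le_mul_right this (by positivity)
  -- Gaussian forms
  have e3 : ∫ X in {X : E | 0 < ⟪X, a⟫}, ‖X‖ ^ (2 * k + 3) * Real.exp (-‖X‖ ^ 2 / 2) * Mj V a X
      = S₂ * gm (2 * k + 4) := by
    rw [← integral_indicator hmeas, integral_polar_mul _ I
      (fun r => r ^ (2 * k + 3) * Real.exp (-r ^ 2 / 2) * (r⁻¹) ^ (k + 1))]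
    · congr 1
      rw [gm, hk]
      refine setIntegral_congr_fun measurableSet_Ioi (fun r hr => ?_)
      have hr' : (r : ℝ) ≠ 0 := ne_of_gt hr
      have : r ^ (k + 3 - 1) * (r ^ (2 * k + 3) * (r⁻¹) ^ (k + 1)) = r ^ (2 * k + 4) := by
        rw [inv_pow, show k + 3 - 1 = (k + 1) + 1 by omega, pow_succ r (k + 1)]
        field_simp
        ring
      rw [← this]
      ring
    · intro u hu r hr
      have h1 : ∀ X : E, {X : E | 0 < ⟪X, a⟫}.indicator
          (fun X => ‖X‖ ^ (2 * k + 3) * Real.exp (-‖X‖ ^ 2 / 2) * Mj V a X) X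
          = ‖X‖ ^ (2 * k + 3) * Real.exp (-‖X‖ ^ 2 / 2) * I X := by
        intro X
        by_cases h : X ∈ {X : E | 0 < ⟪X, a⟫}
        · simp only [hI]; rw [indicator_of_mem h, indicator_of_mem h]
        · simp only [hI]; rw [indicator_of_notMem h, indicator_of_notMem h, mul_zero]
      rw [h1, hIsmul u hu r hr, norm_smul, hu, mul_one, Real.norm_eq_abs, abs_of_pos hr]
      ring
  have e4 : ∫ Y : (ℝ ∙ a)ᗮ, |⟪v, Y⟫| ^ k * Real.exp (-‖Y‖ ^ 2 / 2) = S₁ * gm (2 * k + 1) := by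
    rw [integral_polar_mul _ (fun u : (ℝ ∙ a)ᗮ => |⟪v, u⟫| ^ k)
      (fun r => r ^ k * Real.exp (-r ^ 2 / 2))]
    · congr 1
      rw [gm, hfF]
      refine setIntegral_congr_fun measurableSet_Ioi (fun r hr => ?_)
      rw [← mul_assoc, ← pow_add]
      congr 2
      omega
    · intro u hu r hr
      rw [norm_smul, hu, mul_one, Real.norm_eq_abs, sq_abs, inner_smul_right, abs_mul,
        abs_of_pos hr, mul_pow]
      ring
  have e5 := integral_gauss_slice v hvn (fun t => |t| ^ k)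
  rw [e4, integral_abs_pow_gauss, hfF] at e5
  have e6 : (((k + 2 : ℕ) : ℝ) - 1) / 2 = ((k : ℝ) + 1) / 2 := by push_cast; ring
  rw [e6] at e5
  rw [← e5, e3]
  have hg1 := gm_pos (2 * k + 1)
  have hg4 := gm_pos (2 * k + 4)
  calc π * gm (2 * k + 4) / gm (2 * k + 1) * (2 ^ k * (S₁ * gm (2 * k + 1)))
      = (π * 2 ^ k * S₁) * gm (2 * k + 4) := by field_simp
    _ ≤ S₂ * gm (2 * k + 4) := mul_le_mul_of_nonneg_right h1 hg4.le

end Pool.Agent.Helper20.VF
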