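import Mathlib
import Pool.Agent.Helper20.VF.Conj
import Pool.Agent.Helper20.VF.PartOneD

/-!
# Averaging over the pole
-/

open MeasureTheory Set Metric Filter
open scoped NNReal Topology RealInnerProductSpace ContDiff Manifold Real ENNReal

namespace Pool.Agent.Helper20.VF

variable {E : Type*} [NormedAddCommGroup E] [InnerProductSpace ℝ E] [FiniteDimensional ℝ E]
variable {V : E → E} {a : E}

/-- The Jacobian density in the variables `(x, X)`. -/
noncomputable def Dp (V : E → E) (x X : E) : ℝ :=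
  Dd (Bx (fderiv ℝ V x) (V x) x X) (V x) (‖x‖⁻¹ • x)

lemma Dp_nonneg (x X : E) : 0 ≤ Dp V x X := Real.sqrt_nonneg _

lemma Bx_smul_right (T : E →L[ℝ] E) (v x X : E) (t : ℝ) : Bx T v x (t • X) = t • Bx T v x X := by
  ext δ
  simp only [Bx_apply, smul_apply, inner_smul_left, RCLike.conj_to_real]
  have e : (t * ⟪X, x⟫) • δ - ⟪x, δ⟫ • t • X = t • (⟪X, x⟫ • δ - ⟪x, δ⟫ • X) := by module
  rw [e, map_smul]
  module

lemma Bx_neg (T : E →L[ℝ] E) (v x X : E) : Bx T v x (-X) = -Bx T v x X := by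
  have := Bx_smul_right T v x X (-1)
  simpa using this

lemma Dp_neg (x X : E) : Dp V x (-X) = Dp V x X := by
  rw [Dp, Bx_neg, Dd_neg_left, Dp]

lemma Dp_smul_left (hV : UField V) (x X : E) {t : ℝ} (ht : 0 < t) : Dp V (t • x) X = Dp V x X := by
  rw [Dp, Dp, hV.homog x t ht, norm_smul, Real.norm_eq_abs, abs_of_pos ht]
  have h1 : fderiv ℝ V (t • x) = t⁻¹ • fderiv ℝ V x :=
    fderiv_smul_of_homog ht.ne' (fun X => hV.homog X t ht) x
  have h2 : Bx (fderiv ℝ V (t • x)) (V x) (t • x) X = Bx (fderiv ℝ V x) (V x) x X := by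
    ext δ
    rw [h1, Bx_apply, Bx_apply]
    have e : ⟪X, t • x⟫ • δ - ⟪t • x, δ⟫ • X = t • (⟪X, x⟫ • δ - ⟪x, δ⟫ • X) := by
      simp only [inner_smul_left, inner_smul_right, RCLike.conj_to_real]
      module
    rw [e, smul_apply, map_smul, smul_smul, inv_mul_cancel₀ ht.ne', one_smul]
  rw [h2, smul_smul]
  congr 2
  field_simp

lemma Mj_eq (hV : UField V) (ha : ‖a‖ = 1) {k : ℕ} (hk : Module.finrank ℝ E = k + 3)
    {X : E} (hX : X ≠ 0) :
    Mj V a X = ((‖X‖ ^ 2)⁻¹) ^ (k + 1) * Dp V (-refl X a) X := by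
  set x := -refl X a with hx
  have hxn : ‖x‖ = 1 := by rw [hx, norm_neg, norm_refl hX, ha]
  have hx0 : x ≠ 0 := neg_refl_ne hX ha
  have hpos : 0 < (‖X‖ ^ 2)⁻¹ := by
    have := norm_pos_iff.2 hX
    positivity
  have hVx : refl X (Wf V a X) = V x := by rw [Wf, refl_refl hX]
  have h1 : Mj V a X = Dd ((reflI X hX : E →L[ℝ] E) ∘L (fderiv ℝ (Wf V a) X)) (V x) x := by
    rw [Mj, ← Dd_conj (reflI X hX), reflI_apply, reflI_apply, hVx, ← Dd_neg_right]
  have h2 : (reflI X hX : E →L[ℝ] E) ∘L (fderiv ℝ (Wf V a) X)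
      = (‖X‖ ^ 2)⁻¹ • Bx (fderiv ℝ V x) (V x) x X := by
    ext δ
    exact refl_fderiv_Wf hV ha hX δ
  have hvx : ⟪V x, x⟫ = 0 := by rw [real_inner_comm]; exact hV.tang x
  -- the range of `Bx`
  have hB : ∀ δ, Bx (fderiv ℝ V x) (V x) x X δ
      = (‖X‖ ^ 2) • refl X (fderiv ℝ (Wf V a) X δ) := by
    intro δ
    rw [refl_fderiv_Wf hV ha hX δ, smul_smul, mul_inv_cancel₀ (by
      have := norm_pos_iff.2 hX
      positivity), one_smul]
  have hB1 : ∀ δ, ⟪V x, Bx (fderiv ℝ V x) (V x) x X δ⟫ = 0 := by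
    intro δ
    rw [hB, inner_smul_right, ← hVx, inner_refl hX, inner_Wf_fderiv hV ha hX, mul_zero]
  have hB2 : ∀ δ, ⟪x, Bx (fderiv ℝ V x) (V x) x X δ⟫ = 0 := by
    intro δ
    rw [hB, inner_smul_right, hx, inner_neg_left, inner_refl hX, inner_a_fderiv hV ha hX]
    ring
  rw [h1, h2, Dd_smul _ _ _ (hV.unit x hx0) hxn hvx hB1 hB2 hpos (k := k + 1) (by omega), Dp, hxn]
  simp

variable [MeasurableSpace E] [BorelSpace E]

/-- the lower bound constant. -/
noncomputable def kap (k : ℕ) : ℝ :=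
  π * gm (2 * k + 4) / gm (2 * k + 1) * (2 ^ k * ((2 * gm k) * (2 * π) ^ (((k : ℝ) + 1) / 2)))

/-- the weight function. -/
noncomputable def fw (V : E → E) (x X : E) : ℝ := ‖X‖ * Real.exp (-‖X‖ ^ 2 / 2) * Dp V x X

lemma measurable_V (hV : UField V) : Measurable V :=
  measurable_of_continuousOn_compl_singleton 0 hV.smooth.continuousOn

lemma continuousOn_fderiv_V (hV : UField V) : ContinuousOn (fderiv ℝ V) {0}ᶜ :=
  hV.smooth.continuousOn_fderiv_of_isOpen isOpen_U le_rfl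

omit [MeasurableSpace E] [BorelSpace E] in
lemma continuous_DdBx : Continuous (fun p : (E →L[ℝ] E) × E × E × E × E =>
    Dd (Bx p.1 p.2.1 p.2.2.1 p.2.2.2.1) p.2.1 p.2.2.2.2) := by
  have hs1 : Continuous (fun p : (E →L[ℝ] E) × E × E × E × E =>
      (innerSL ℝ p.2.2.1 : E →L[ℝ] ℝ).smulRight p.2.2.2.1) :=
    ((ContinuousLinearMap.smulRightL ℝ E E).continuous.comp (by fun_prop)).clm_apply (by fun_prop)
  have hs2 : Continuous (fun p : (E →L[ℝ] E) × E × E × E × E =>
      (innerSL ℝ p.2.1 : E →L[ℝ] ℝ).smulRight p.2.2.2.1) :=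
    ((ContinuousLinearMap.smulRightL ℝ E E).continuous.comp (by fun_prop)).clm_apply (by fun_prop)
  have h1 : Continuous (fun p : (E →L[ℝ] E) × E × E × E × E =>
      Bx p.1 p.2.1 p.2.2.1 p.2.2.2.1) := by
    unfold Bx
    have d1 : Continuous (fun p : (E →L[ℝ] E) × E × E × E × E => ⟪p.2.2.2.1, p.2.2.1⟫) := by
      fun_prop
    have d2 : Continuous (fun p : (E →L[ℝ] E) × E × E × E × E => ⟪p.2.2.2.1, p.2.1⟫) := by
      fun_prop
    have c1 : Continuous (fun p : (E →L[ℝ] E) × E × E × E × E =>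
        ⟪p.2.2.2.1, p.2.2.1⟫ • ContinuousLinearMap.id ℝ E) := d1.smul continuous_const
    have c2 : Continuous (fun p : (E →L[ℝ] E) × E × E × E × E =>
        ⟪p.2.2.2.1, p.2.1⟫ • ContinuousLinearMap.id ℝ E) := d2.smul continuous_const
    exact (((continuous_fst.clm_comp (c1.sub hs1)).sub (c2.sub hs2)).const_smul (2 : ℝ))
  have h3 : Continuous (fun p : (E →L[ℝ] E) × E × E × E × E => ((p.2.1, p.2.2.2.2) : E × E)) := by
    fun_prop
  have h2 : Continuous (fun p : (E →L[ℝ] E) × E × E × E × E =>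
      ((Bx p.1 p.2.1 p.2.2.1 p.2.2.2.1, p.2.1, p.2.2.2.2) : (E →L[ℝ] E) × E × E)) :=
    h1.prodMk h3
  exact ((continuous_Dd (E := E)).comp h2).congr (fun p => rfl)

lemma measurable_fderiv_V (hV : UField V) : Measurable (fderiv ℝ V) :=
  measurable_of_continuousOn_compl_singleton 0 (continuousOn_fderiv_V hV)

lemma measurable_Dp (hV : UField V) : Measurable (fun p : E × E => Dp V p.1 p.2) := by
  have h1 : Measurable (fun p : E × E => ((fderiv ℝ V p.1, V p.1, p.1, p.2, ‖p.1‖⁻¹ • p.1) :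
      (E →L[ℝ] E) × E × E × E × E)) := by
    refine ((measurable_fderiv_V hV).comp measurable_fst).prodMk
      (((measurable_V hV).comp measurable_fst).prodMk (measurable_fst.prodMk
        (measurable_snd.prodMk ?_)))
    exact (measurable_fst.norm.inv).smul measurable_fst
  have h2 := (continuous_DdBx (E := E)).measurable.comp h1
  simp only [Function.comp_def] at h2
  exact h2

lemma measurable_fw (hV : UField V) : Measurable (fun p : E × E => fw V p.1 p.2) := by
  unfold fw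
  refine Measurable.mul ?_ (measurable_Dp hV)
  exact (by fun_prop : Continuous fun p : E × E => ‖p.2‖ * Real.exp (-‖p.2‖ ^ 2 / 2)).measurable

lemma fw_nonneg (x X : E) : 0 ≤ fw V x X := by
  unfold fw
  have := Dp_nonneg (V := V) x X
  positivity

lemma ofReal_integral_le_lintegral {α : Type*} [MeasurableSpace α] (μ : Measure α) (f : α → ℝ)
    (hf : ∀ x, 0 ≤ f x) (hm : AEStronglyMeasurable f μ) :
    ENNReal.ofReal (∫ x, f x ∂μ) ≤ ∫⁻ x, ENNReal.ofReal (f x) ∂μ := by
  rw [integral_eq_lintegral_of_nonneg_ae (Eventually.of_forall hf) hm]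
  exact ENNReal.ofReal_toReal_le

/-- lower bound for a fixed unit pole. -/
lemma lower_unit (hV : UField V) (ha : ‖a‖ = 1) {k : ℕ} (hk : Module.finrank ℝ E = k + 3)
    (hodd : Odd k) :
    ENNReal.ofReal (2 * kap k) ≤ ∫⁻ X : E, ENNReal.ofReal (fw V (-refl X a) X) := by
  have hmeasX : Measurable (fun X : E => fw V (-refl X a) X) := by
    have h1 : Measurable (fun X : E => -refl X a) := by
      refine measurable_of_continuousOn_compl_singleton 0 ?_
      exact ((contDiffOn_refl (E := E) contDiffOn_const).continuousOn).neg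
    exact (measurable_fw hV).comp (h1.prodMk measurable_id)
  have hpos : MeasurableSet {X : E | 0 < ⟪X, a⟫} :=
    (isOpen_lt continuous_const (by fun_prop)).measurableSet
  have hneg : MeasurableSet {X : E | ⟪X, a⟫ < 0} :=
    (isOpen_lt (by fun_prop) continuous_const).measurableSet
  have hP := partI hV ha hk hodd
  have e1 : ∫ X in {X : E | 0 < ⟪X, a⟫}, ‖X‖ ^ (2 * k + 3) * Real.exp (-‖X‖ ^ 2 / 2) * Mj V a X
      = ∫ X in {X : E | 0 < ⟪X, a⟫}, fw V (-refl X a) X := by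
    refine setIntegral_congr_fun hpos (fun X hX => ?_)
    have hX0 : X ≠ 0 := by
      rintro rfl
      simp at hX
    have hn : ‖X‖ ≠ 0 := norm_ne_zero_iff.2 hX0
    rw [Mj_eq hV ha hk hX0, fw]
    have : ‖X‖ ^ (2 * k + 3) * ((‖X‖ ^ 2)⁻¹) ^ (k + 1) = ‖X‖ := by
      rw [inv_pow, ← pow_mul, show 2 * k + 3 = 2 * (k + 1) + 1 by ring, pow_succ]
      field_simp
    calc ‖X‖ ^ (2 * k + 3) * Real.exp (-‖X‖ ^ 2 / 2) * (((‖X‖ ^ 2)⁻¹) ^ (k + 1) * Dp V (-refl X a) X)
        = (‖X‖ ^ (2 * k + 3) * ((‖X‖ ^ 2)⁻¹) ^ (k + 1)) * Real.exp (-‖X‖ ^ 2 / 2)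
          * Dp V (-refl X a) X := by ring
      _ = _ := by rw [this]
  rw [e1] at hP
  have h1 : ENNReal.ofReal (kap k)
      ≤ ∫⁻ X in {X : E | 0 < ⟪X, a⟫}, ENNReal.ofReal (fw V (-refl X a) X) := by
    refine (ENNReal.ofReal_le_ofReal hP).trans ?_
    exact ofReal_integral_le_lintegral _ _ (fun X => fw_nonneg _ _) hmeasX.aestronglyMeasurable
  -- the negative half
  have h2 : ∫⁻ X in {X : E | ⟪X, a⟫ < 0}, ENNReal.ofReal (fw V (-refl X a) X)
      = ∫⁻ X in {X : E | 0 < ⟪X, a⟫}, ENNReal.ofReal (fw V (-refl X a) X) := by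
    rw [← lintegral_indicator hneg, ← lintegral_indicator hpos]
    have hmp : MeasurePreserving (fun X : E => -X) (volume : Measure E) volume :=
      (LinearIsometryEquiv.neg ℝ (E := E)).measurePreserving
    rw [← hmp.lintegral_comp_emb (LinearIsometryEquiv.neg ℝ (E := E)).toHomeomorph.measurableEmbedding]
    refine lintegral_congr (fun X => ?_)
    have hfe : fw V (-refl (-X) a) (-X) = fw V (-refl X a) X := by
      have : refl (-X) a = refl X a := by
        have := refl_smul (X := X) (t := -1) (by norm_num) a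
        simpa using this
      rw [this, fw, fw, norm_neg, Dp_neg]
    by_cases h : X ∈ {X : E | 0 < ⟪X, a⟫}
    · have h' : -X ∈ {X : E | ⟪X, a⟫ < 0} := by
        simp only [mem_ofPred_eq, inner_neg_left] at h ⊢
        linarith
      rw [indicator_of_mem h, indicator_of_mem h', hfe]
    · have h' : -X ∉ {X : E | ⟪X, a⟫ < 0} := by
        simp only [mem_ofPred_eq, inner_neg_left] at h ⊢
        linarith
      rw [indicator_of_notMem h, indicator_of_notMem h']
  have hdisj : Disjoint {X : E | 0 < ⟪X, a⟫} {X : E | ⟪X, a⟫ < 0} := by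
    rw [Set.disjoint_left]
    intro X h1 h2
    simp only [mem_ofPred_eq] at h1 h2
    linarith
  have hk0 : 0 ≤ kap k := by
    have := gm_pos (2 * k + 4)
    have := gm_pos (2 * k + 1)
    have := gm_pos k
    unfold kap
    positivity
  calc ENNReal.ofReal (2 * kap k) = ENNReal.ofReal (kap k) + ENNReal.ofReal (kap k) := by
        rw [← ENNReal.ofReal_add hk0 hk0]; congr 1; ring
    _ ≤ (∫⁻ X in {X : E | 0 < ⟪X, a⟫}, ENNReal.ofReal (fw V (-refl X a) X))
        + ∫⁻ X in {X : E | ⟪X, a⟫ < 0}, ENNReal.ofReal (fw V (-refl X a) X) := by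
        rw [h2]; exact add_le_add h1 h1
    _ = ∫⁻ X in {X : E | 0 < ⟪X, a⟫} ∪ {X : E | ⟪X, a⟫ < 0}, ENNReal.ofReal (fw V (-refl X a) X) := by
        rw [lintegral_union hneg hdisj]
    _ ≤ _ := setLIntegral_le_lintegral _ _

end Pool.Agent.Helper20.VF
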