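import Mathlib
import Pool.Agent.Helper20.VF.Coord
import Pool.Agent.Helper77.OneVarSmall
import Pool.Agent.Helper20.VF.NormE
import Pool.Agent.Helper20.VF.PartTwo

/-!
# The covariant derivative and the pointwise upper bound
-/

open MeasureTheory Set Metric Filter Module Matrix
open scoped NNReal Topology RealInnerProductSpace ENNReal Real

namespace Pool.Agent.Helper20.VF

variable {n : ℕ}
variable {E : Type*} [NormedAddCommGroup E] [InnerProductSpace ℝ E] [FiniteDimensional ℝ E]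


lemma oneVar (hn : 3 ≤ n) : OneVar n :=
  fun u hu0 hu a b g ha hb hab => Pool.Agent.Helper77.OneVar.onevar_ineq hn u hu0 hu a b g ha hb hab

/-- the tangential part of an operator. -/
noncomputable def tanPart (x : E) (T : E →L[ℝ] E) : E →L[ℝ] E :=
  T - ((innerSL ℝ x) ∘L T).smulRight x

lemma tanPart_apply (x : E) (T : E →L[ℝ] E) (δ : E) : tanPart x T δ = T δ - ⟪x, T δ⟫ • x := by
  simp [tanPart]

/-- the volume density. -/
noncomputable def volDens (L : E →L[ℝ] E) : ℝ := √((1 + L.adjoint ∘L L).det)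

lemma volDens_nonneg (L : E →L[ℝ] E) : 0 ≤ volDens L := Real.sqrt_nonneg _

lemma continuous_volDens : Continuous (volDens : (E →L[ℝ] E) → ℝ) := by
  unfold volDens
  refine Continuous.sqrt ?_
  refine ContinuousLinearMap.continuous_det.comp ?_
  exact continuous_const.add (((ContinuousLinearMap.adjoint (𝕜 := ℝ) (E := E) (F := E)).continuous).clm_comp
    continuous_id)

lemma det_one_add_adj (b : OrthonormalBasis (Fin 2 ⊕ Fin (n + 1)) ℝ E) (L : E →L[ℝ] E) :
    (1 + L.adjoint ∘L L).det = (1 + L ∘L L.adjoint).det := by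
  set M : Matrix (Fin 2 ⊕ Fin (n + 1)) (Fin 2 ⊕ Fin (n + 1)) ℝ :=
    Matrix.of fun i j => ⟪b i, L (b j)⟫ with hM
  have h1 : LinearMap.toMatrix b.toBasis b.toBasis ((1 + L.adjoint ∘L L : E →L[ℝ] E) : E →ₗ[ℝ] E)
      = 1 + Mᵀ * M := by
    ext i j
    rw [LinearMap.toMatrix_apply, OrthonormalBasis.coe_toBasis_repr_apply,
      OrthonormalBasis.repr_apply_apply, OrthonormalBasis.coe_toBasis]
    have e : ⟪b i, (1 + L.adjoint ∘L L) (b j)⟫ = ⟪b i, b j⟫ + ⟪L (b i), L (b j)⟫ := by
      rw [_root_.add_apply, inner_add_right, ContinuousLinearMap.comp_apply,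
        ContinuousLinearMap.adjoint_inner_right]
      rfl
    have e2 : ⟪L (b i), L (b j)⟫ = ∑ k, M k i * M k j := by
      rw [← b.sum_inner_mul_inner]
      refine Finset.sum_congr rfl (fun k _ => ?_)
      rw [hM, Matrix.of_apply, Matrix.of_apply, real_inner_comm]
    change ⟪b i, (1 + L.adjoint ∘L L) (b j)⟫ = _
    rw [e, e2, b.inner_eq_ite, Matrix.add_apply, Matrix.one_apply, Matrix.mul_apply]
    rfl
  have h2 : LinearMap.toMatrix b.toBasis b.toBasis ((1 + L ∘L L.adjoint : E →L[ℝ] E) : E →ₗ[ℝ] E)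
      = 1 + M * Mᵀ := by
    ext i j
    rw [LinearMap.toMatrix_apply, OrthonormalBasis.coe_toBasis_repr_apply,
      OrthonormalBasis.repr_apply_apply, OrthonormalBasis.coe_toBasis]
    have e : ⟪b i, (1 + L ∘L L.adjoint) (b j)⟫ = ⟪b i, b j⟫ + ⟪L.adjoint (b i), L.adjoint (b j)⟫ := by
      rw [_root_.add_apply, inner_add_right, ContinuousLinearMap.comp_apply,
        ContinuousLinearMap.adjoint_inner_left]
      rfl
    have e2 : ⟪L.adjoint (b i), L.adjoint (b j)⟫ = ∑ k, M i k * M j k := by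
      rw [← b.sum_inner_mul_inner]
      refine Finset.sum_congr rfl (fun k _ => ?_)
      rw [hM, Matrix.of_apply, Matrix.of_apply, ContinuousLinearMap.adjoint_inner_left,
        ContinuousLinearMap.adjoint_inner_right, real_inner_comm (L (b k)) (b j)]
    change ⟪b i, (1 + L ∘L L.adjoint) (b j)⟫ = _
    rw [e, e2, b.inner_eq_ite, Matrix.add_apply, Matrix.one_apply, Matrix.mul_apply]
    rfl
  rw [ContinuousLinearMap.det, ContinuousLinearMap.det, ← LinearMap.det_toMatrix b.toBasis, h1,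
    ← LinearMap.det_toMatrix b.toBasis, h2, det_one_add_mul_comm]

lemma volDens_coord (b : OrthonormalBasis (Fin 2 ⊕ Fin (n + 1)) ℝ E) (T : E →L[ℝ] E)
    (hTx : T (b (Sum.inl 0)) = 0) (hTv : ∀ δ, ⟪b (Sum.inl 1), T δ⟫ = 0) :
    volDens (tanPart (b (Sum.inl 0)) T)
      = √((1 + Am b T * (Am b T)ᵀ + vecMulVec (av b T) (av b T)).det) := by
  rw [volDens, det_one_add_adj b]
  congr 1
  set L := tanPart (b (Sum.inl 0)) T with hL
  have h00 : ⟪b (Sum.inl 0), b (Sum.inl 0)⟫ = 1 := by rw [b_inl_inl]; simp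
  have h10 : ⟪b (Sum.inl 1), b (Sum.inl 0)⟫ = 0 := by rw [b_inl_inl]; simp
  have hLk : ∀ (k : Fin 2) δ, ⟪b (Sum.inl k), L δ⟫ = 0 := by
    intro k δ
    rw [hL, tanPart_apply, inner_sub_right, inner_smul_right]
    fin_cases k
    · simp only [Fin.zero_eta, h00]; ring
    · simp only [Fin.mk_one, h10, hTv]; ring
  have g : ∀ i δ, ⟪b (Sum.inr i), L δ⟫ = ⟪b (Sum.inr i), T δ⟫ := by
    intro i δ
    rw [hL, tanPart_apply, inner_sub_right, inner_smul_right, b_inr_inl]
    ring
  refine det_block b _ _ ?_ ?_ ?_ ?_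
  · intro k l
    simp only [_root_.add_apply, inner_add_right, inner_adj b, hLk, ContinuousLinearMap.one_apply,
      b_inl_inl]
    simp
  · intro k j
    simp only [_root_.add_apply, inner_add_right, inner_adj b, hLk, ContinuousLinearMap.one_apply,
      b_inl_inr]
    simp
  · intro k j
    simp only [_root_.add_apply, inner_add_right, inner_adj b, hLk, ContinuousLinearMap.one_apply,
      b_inr_inl]
    simp
  · intro i j
    simp only [_root_.add_apply, inner_add_right, inner_adj b, g, ContinuousLinearMap.one_apply,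
      b_inr_inr, hTx, inner_zero_right, Matrix.add_apply, Matrix.mul_apply, transpose_apply,
      vecMulVec_apply, Am, av, Matrix.of_apply]
    ring

variable [MeasurableSpace E] [BorelSpace E]

/-- **The pointwise upper bound.** -/
theorem upper_unit (hn : 3 ≤ n) (hfr : finrank ℝ E = n + 3) {V : E → E} (hV : UField V) {x : E}
    (hx : ‖x‖ = 1) :
    ∫⁻ X : E, ENNReal.ofReal (fw V x X)
      ≤ ENNReal.ofReal (2 ^ (n + 1) * KN n * volDens (tanPart x (fderiv ℝ V x))) := by
  have hx0 : x ≠ 0 := by rintro rfl; simp at hx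
  have hvn : ‖V x‖ = 1 := hV.unit x hx0
  have hxv : ⟪x, V x⟫ = 0 := hV.tang x
  -- the basis
  obtain ⟨b, hb⟩ : ∃ b : OrthonormalBasis (Fin 2 ⊕ Fin (n + 1)) ℝ E,
      b (Sum.inl 0) = x ∧ b (Sum.inl 1) = V x := by
    set w : Fin 2 ⊕ Fin (n + 1) → E := Sum.elim ![x, V x] 0 with hw
    set s : Set (Fin 2 ⊕ Fin (n + 1)) := range Sum.inl with hs
    have hon : Orthonormal ℝ (s.domRestrict w) := by
      constructor
      · rintro ⟨i, k, rfl⟩
        fin_cases k
        · simpa [hw, Set.domRestrict] using hx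
        · simpa [hw, Set.domRestrict] using hvn
      · rintro ⟨i, k, rfl⟩ ⟨j, l, rfl⟩ hkl
        fin_cases k <;> fin_cases l
        · exact absurd rfl hkl
        · simpa [hw, Set.domRestrict] using hxv
        · simpa [hw, Set.domRestrict, real_inner_comm] using hxv
        · exact absurd rfl hkl
    obtain ⟨b, hb⟩ := hon.exists_orthonormalBasis_extension_of_card_eq (by
      rw [hfr]; simp; ring)
    exact ⟨b, by rw [hb _ ⟨0, rfl⟩]; rfl, by rw [hb _ ⟨1, rfl⟩]; rfl⟩
  obtain ⟨hb0, hb1⟩ := hb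
  set T := fderiv ℝ V x with hT
  have hVd : HasFDerivAt V T x :=
    ((hV.smooth.differentiableOn one_ne_zero x hx0).differentiableAt
      (isOpen_U.mem_nhds hx0)).hasFDerivAt
  have hTx : T (b (Sum.inl 0)) = 0 := by
    rw [hb0]
    exact fderiv_apply_self_of_homog (fun X t ht => hV.homog X t ht) hVd.differentiableAt
  have hTv : ∀ δ, ⟪b (Sum.inl 1), T δ⟫ = 0 := by
    intro δ
    rw [hb1]
    have h1 : HasDerivAt (fun t : ℝ => ⟪V (x + t • δ), V (x + t • δ)⟫) (⟪V x, T δ⟫ + ⟪T δ, V x⟫) 0 := by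
      have hc : HasDerivAt (fun t : ℝ => x + t • δ) δ 0 := by
        simpa using ((hasDerivAt_id (0 : ℝ)).smul_const δ).const_add x
      have hu : HasDerivAt (fun t : ℝ => V (x + t • δ)) (T δ) 0 := by
        have : HasFDerivAt V T (x + (0 : ℝ) • δ) := by rw [zero_smul, add_zero]; exact hVd
        exact this.comp_hasDerivAt (0 : ℝ) hc
      simpa using hu.inner ℝ hu
    have h2 : HasDerivAt (fun t : ℝ => ⟪V (x + t • δ), V (x + t • δ)⟫) 0 0 := by
      refine (hasDerivAt_const (0 : ℝ) (1 : ℝ)).congr_of_eventuallyEq ?_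
      have hc : Continuous (fun t : ℝ => x + t • δ) := by fun_prop
      have h3 := (hc.tendsto 0).eventually (isOpen_U.mem_nhds (by simpa using hx0 : x + (0 : ℝ) • δ ∈ ({0}ᶜ : Set E)))
      filter_upwards [h3] with t ht
      rw [real_inner_self_eq_norm_sq, hV.unit _ ht]; norm_num
    have h3 := h1.unique h2
    rw [real_inner_comm (V x) (T δ)] at h3
    linarith
  have hTt : ∀ δ, ⟪b (Sum.inl 0), T δ⟫ = -⟪δ, b (Sum.inl 1)⟫ := by
    intro δ
    rw [hb0, hb1]
    have hc : HasDerivAt (fun t : ℝ => x + t • δ) δ 0 := by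
      simpa using ((hasDerivAt_id (0 : ℝ)).smul_const δ).const_add x
    have h1 : HasDerivAt (fun t : ℝ => ⟪x + t • δ, V (x + t • δ)⟫) (⟪x, T δ⟫ + ⟪δ, V x⟫) 0 := by
      have hu : HasDerivAt (fun t : ℝ => V (x + t • δ)) (T δ) 0 := by
        have : HasFDerivAt V T (x + (0 : ℝ) • δ) := by rw [zero_smul, add_zero]; exact hVd
        exact this.comp_hasDerivAt (0 : ℝ) hc
      simpa using hc.inner ℝ hu
    have h2 : HasDerivAt (fun t : ℝ => ⟪x + t • δ, V (x + t • δ)⟫) 0 0 := by
      refine (hasDerivAt_const (0 : ℝ) (0 : ℝ)).congr_of_eventuallyEq (Eventually.of_forall fun t => ?_)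
      exact hV.tang _
    linarith [h1.unique h2]
  -- change variables
  have hmeas : Measurable (fun X : E => ENNReal.ofReal (fw V x X)) :=
    ((measurable_fw hV).comp measurable_prodMk_left).ennreal_ofReal
  rw [← (measurePreserving_coordMap b).lintegral_comp hmeas]
  have hm2 : Measurable (fun q : (ℝ × ℝ) × (EuclideanSpace ℝ (Fin (n + 1))) => ENNReal.ofReal (fw V x (coordMap b q))) :=
    hmeas.comp (measurePreserving_coordMap b).measurable
  rw [lintegral_prod _ hm2.aemeasurable]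
  have hfw : ∀ (p : ℝ × ℝ) (y : EuclideanSpace ℝ (Fin (n + 1))), ENNReal.ofReal (fw V x (coordMap b (p, y)))
      = ENNReal.ofReal (2 ^ (n + 1)) * ENNReal.ofReal (√(p.1 ^ 2 + p.2 ^ 2 + ‖y‖ ^ 2)
        * √((Gm (Am b T) (-1) (av b T) y.ofLp p.1 p.2).det)
        * (gw y * Real.exp (-(p.1 ^ 2 + p.2 ^ 2) / 2))) := by
    intro p y
    rw [← ENNReal.ofReal_mul (by positivity)]
    congr 1
    have hD : Dp V x (coordMap b (p, y))
        = 2 ^ (n + 1) * √((Gm (Am b T) (-1) (av b T) y.ofLp p.1 p.2).det) := by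
      have := Dd_coord b T hTx hTv hTt (p, y)
      rw [hb0, hb1] at this
      rw [Dp, hx, inv_one, one_smul]
      exact this
    have hN := norm_coordMap b (p, y)
    have hN2 : ‖coordMap b (p, y)‖ = √(p.1 ^ 2 + p.2 ^ 2 + ‖y‖ ^ 2) := by
      rw [← hN, Real.sqrt_sq (norm_nonneg _)]
    have hE : Real.exp (-‖coordMap b (p, y)‖ ^ 2 / 2)
        = gw y * Real.exp (-(p.1 ^ 2 + p.2 ^ 2) / 2) := by
      rw [hN, gw, ← Real.exp_add]
      congr 1
      ring
    rw [fw, hD, hE, hN2]
    ring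
  simp_rw [hfw, lintegral_const_mul' _ _ ENNReal.ofReal_ne_top]
  have hg := gen_bound hn (oneVar hn) (Am b T) (av b T)
  refine (mul_le_mul_right hg _).trans (le_of_eq ?_)
  rw [← ENNReal.ofReal_mul (by positivity)]
  congr 1
  have := volDens_coord b T hTx hTv
  rw [hb0] at this
  rw [this]
  ring

end Pool.Agent.Helper20.VF
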