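import Pool.Agent.Helper20.VF.Const

/-!
# Vector fields on the sphere
-/

open MeasureTheory Set Metric Filter Module
open scoped NNReal Topology RealInnerProductSpace ENNReal Real Manifold ContDiff

namespace Pool.Agent.Helper20.VF

section
variable {E : Type*} [NormedAddCommGroup E] [InnerProductSpace ℝ E]

lemma norm_normalize {y : E} (hy : y ≠ 0) : ‖‖y‖⁻¹ • y‖ = 1 := by
  rw [norm_smul, norm_inv, norm_norm, inv_mul_cancel₀ (norm_ne_zero_iff.2 hy)]

open Classical in
/-- The radially constant extension `y ↦ V (y/|y|)` of a map on the unit sphere (`0` at `0`). -/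
noncomputable def radExt (V : sphere (0 : E) 1 → E) (y : E) : E :=
  if hy : y = 0 then 0 else V ⟨‖y‖⁻¹ • y, mem_sphere_zero_iff_norm.2 (norm_normalize hy)⟩

lemma radExt_of_ne (V : sphere (0 : E) 1 → E) {y : E} (hy : y ≠ 0) :
    radExt V y = V ⟨‖y‖⁻¹ • y, mem_sphere_zero_iff_norm.2 (norm_normalize hy)⟩ := dif_neg hy

lemma radExt_zero (V : sphere (0 : E) 1 → E) : radExt V 0 = 0 := dif_pos rfl

lemma radExt_smul (V : sphere (0 : E) 1 → E) (x : E) {t : ℝ} (ht : 0 < t) :
    radExt V (t • x) = radExt V x := by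
  by_cases hx : x = 0
  · subst hx; rw [smul_zero]
  · rw [radExt_of_ne V hx, radExt_of_ne V (smul_ne_zero ht.ne' hx)]
    congr 2
    rw [norm_smul, Real.norm_eq_abs, abs_of_pos ht, smul_smul]
    congr 1
    field_simp

variable [FiniteDimensional ℝ E] {k : ℕ} [Fact (finrank ℝ E = k + 1)]

lemma contDiffAt_radExt {V : sphere (0 : E) 1 → E} (hV : ContMDiff (𝓡 k) 𝓘(ℝ, E) 1 V) {y0 : E}
    (hy0 : y0 ≠ 0) : ContDiffAt ℝ 1 (radExt V) y0 := by
  have hn0 : 0 < ‖y0‖ := norm_pos_iff.2 hy0
  let χ : ContDiffBump y0 := ⟨‖y0‖ / 4, ‖y0‖ / 2, by positivity, by linarith⟩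
  set F : E → E := fun y => y0 + χ y • (y - y0) with hF
  have hFc : ContDiff ℝ 1 F :=
    contDiff_const.add ((χ.contDiff).smul (contDiff_id.sub contDiff_const))
  have hF0 : ∀ y, F y ≠ 0 := by
    intro y h
    have h1 : ‖F y - y0‖ < ‖y0‖ := by
      rw [hF]
      simp only [add_sub_cancel_left, norm_smul, Real.norm_eq_abs, abs_of_nonneg χ.nonneg]
      by_cases hy : y ∈ ball y0 (‖y0‖ / 2)
      · rw [mem_ball_iff_norm] at hy
        calc χ y * ‖y - y0‖ ≤ 1 * ‖y - y0‖ := by
              exact mul_le_mul_of_nonneg_right χ.le_one (norm_nonneg _)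
          _ < ‖y0‖ := by linarith
      · have : χ y = 0 := χ.zero_of_le_dist (by
          rw [mem_ball, not_lt] at hy
          exact hy)
        rw [this, zero_mul]
        exact hn0
    rw [h, zero_sub, norm_neg] at h1
    exact lt_irrefl _ h1
  set N : E → E := fun y => ‖F y‖⁻¹ • F y with hN
  have hNc : ContDiff ℝ 1 N := (ContDiff.inv (hFc.norm ℝ hF0) (fun y => norm_ne_zero_iff.2 (hF0 y))).smul hFc
  have hNs : ∀ y, N y ∈ sphere (0 : E) 1 := fun y => by
    rw [mem_sphere_zero_iff_norm]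
    exact norm_normalize (hF0 y)
  have h2 : ContMDiff 𝓘(ℝ, E) (𝓡 k) 1 (Set.codRestrict N (sphere 0 1) hNs) :=
    (contMDiff_iff_contDiff.2 hNc).codRestrict_sphere hNs
  have h3 : ContDiff ℝ 1 (V ∘ Set.codRestrict N (sphere 0 1) hNs) :=
    contMDiff_iff_contDiff.1 (hV.comp h2)
  refine h3.contDiffAt.congr_of_eventuallyEq ?_
  filter_upwards [ball_mem_nhds y0 (by positivity : 0 < ‖y0‖ / 4)] with y hy
  have h4 : χ y = 1 := χ.one_of_mem_closedBall (ball_subset_closedBall hy)
  have h5 : F y = y := by simp [hF, h4]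
  have hy1 : y ≠ 0 := by rw [← h5]; exact hF0 y
  rw [radExt_of_ne V hy1]
  simp only [Function.comp_apply]
  congr 1
  apply Subtype.ext
  rw [Set.val_codRestrict_apply]
  simp only [hN, h5]

lemma uField_radExt {V : sphere (0 : E) 1 → E} (hV : ContMDiff (𝓡 k) 𝓘(ℝ, E) 1 V)
    (htan : ∀ x : sphere (0 : E) 1, ⟪(x : E), V x⟫ = 0) (hunit : ∀ x, ‖V x‖ = 1) :
    UField (radExt V) where
  smooth := fun y hy => (contDiffAt_radExt hV hy).contDiffWithinAt
  homog := fun x t ht => radExt_smul V x ht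
  unit := fun x hx => by rw [radExt_of_ne V hx]; exact hunit _
  tang := fun x => by
    by_cases hx : x = 0
    · subst hx; rw [inner_zero_left]
    · have h := htan ⟨‖x‖⁻¹ • x, mem_sphere_zero_iff_norm.2 (norm_normalize hx)⟩
      rw [radExt_of_ne V hx]
      simp only [inner_smul_left, RCLike.conj_to_real] at h
      rcases mul_eq_zero.1 h with h | h
      · exact absurd (inv_eq_zero.1 h) (norm_ne_zero_iff.2 hx)
      · exact h

end

/-- The Levi-Civita covariant derivative `∇V` at a point `x` of the unit sphere `S ⊂ E` of a map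
`V : S → E`: the orthogonal projection to `x^⊥ = T_x S` of the derivative at `x` of the radially
constant extension of `V`.  It is an operator on `E` which annihilates `x` and has values in
`x^⊥`. -/
noncomputable def covDeriv {E : Type*} [NormedAddCommGroup E] [InnerProductSpace ℝ E]
    (V : sphere (0 : E) 1 → E) (x : sphere (0 : E) 1) : E →L[ℝ] E :=
  fderiv ℝ (radExt V) x - ((innerSL ℝ (x : E)) ∘L fderiv ℝ (radExt V) x).smulRight (x : E)

/-- The volume of a vector field on the unit sphere (for the Sasaki metric):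
`∫_S √det (I + (∇V)ᵗ ∇V)`, with respect to the surface measure. -/
noncomputable def fieldVolume {E : Type*} [NormedAddCommGroup E] [InnerProductSpace ℝ E]
    [FiniteDimensional ℝ E] [MeasurableSpace E] [BorelSpace E] (V : sphere (0 : E) 1 → E) : ℝ :=
  ∫ x : sphere (0 : E) 1, √((1 + (covDeriv V x).adjoint ∘L covDeriv V x).det)
    ∂(volume : Measure E).toSphere

instance factDim (m : ℕ) : Fact (finrank ℝ (EuclideanSpace ℝ (Fin (2 * m + 2))) = 2 * m + 1 + 1) :=
  ⟨by rw [finrank_euclideanSpace, Fintype.card_fin]⟩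

/-- The volume bound for C¹ unit vector fields on an odd-dimensional sphere. -/
theorem fieldVolume_ge (m : ℕ) (hm : 2 ≤ m)
    (V : sphere (0 : EuclideanSpace ℝ (Fin (2 * m + 2))) 1 → EuclideanSpace ℝ (Fin (2 * m + 2)))
    (hV : ContMDiff (𝓡 (2 * m + 1)) 𝓘(ℝ, EuclideanSpace ℝ (Fin (2 * m + 2))) 1 V)
    (htan : ∀ x : sphere (0 : EuclideanSpace ℝ (Fin (2 * m + 2))) 1,
      ⟪(x : EuclideanSpace ℝ (Fin (2 * m + 2))), V x⟫ = 0) (hunit : ∀ x, ‖V x‖ = 1) :
    bm m * (volume : Measure (EuclideanSpace ℝ (Fin (2 * m + 2)))).toSphere.real univ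
      ≤ fieldVolume V :=
  main_UField_bm m hm (by rw [finrank_euclideanSpace, Fintype.card_fin])
    (uField_radExt hV htan hunit)

end Pool.Agent.Helper20.VF
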