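import Pool.Agent.Helper20.VF.NormC

/-!
# The bound for a general pencil
-/

open MeasureTheory Set Metric Filter Module Matrix
open scoped NNReal Topology RealInnerProductSpace ENNReal Real

namespace Pool.Agent.Helper20.VF

variable {n : ℕ}
variable {P₁ P₂ : Matrix (Fin (n + 1)) (Fin (n + 1)) ℝ} {a : Fin (n + 1) → ℝ}


lemma Gm_conj (M : Matrix (Fin (n + 1)) (Fin (n + 1)) ℝ) (y : Fin (n + 1) → ℝ) (z₁ z₂ : ℝ) :
    Gm (M * P₁) (M * P₂) (M *ᵥ a) y z₁ z₂ = M * Gm P₁ P₂ a y z₁ z₂ * Mᵀ := by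
  have h1 : z₁ • (M * P₁) + z₂ • (M * P₂) = M * (z₁ • P₁ + z₂ • P₂) := by
    rw [Matrix.mul_add, Matrix.mul_smul, Matrix.mul_smul]
  have h2 : -(z₂ • (M *ᵥ a)) - (M * P₁) *ᵥ y = M *ᵥ (-(z₂ • a) - P₁ *ᵥ y) := by
    rw [mulVec_sub, mulVec_neg, mulVec_smul, mulVec_mulVec]
  have h3 : z₁ • (M *ᵥ a) - (M * P₂) *ᵥ y = M *ᵥ (z₁ • a - P₂ *ᵥ y) := by
    rw [mulVec_sub, mulVec_smul, mulVec_mulVec]
  have h4 : ∀ v : Fin (n + 1) → ℝ, vecMulVec (M *ᵥ v) (M *ᵥ v) = M * vecMulVec v v * Mᵀ := by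
    intro v
    rw [mul_vecMulVec, vecMulVec_mul, vecMul_transpose]
  rw [Gm, Gm, h1, h2, h3, h4, h4, transpose_mul]
  generalize z₁ • P₁ + z₂ • P₂ = R
  generalize vecMulVec (-(z₂ • a) - P₁ *ᵥ y) (-(z₂ • a) - P₁ *ᵥ y) = V₁
  generalize vecMulVec (z₁ • a - P₂ *ᵥ y) (z₁ • a - P₂ *ᵥ y) = V₂
  rw [Matrix.mul_add, Matrix.mul_add, Matrix.add_mul, Matrix.add_mul]
  simp only [Matrix.mul_assoc]

lemma exists_orth (u : Fin (n + 1) → ℝ) : ∃ (O : Matrix (Fin (n + 1)) (Fin (n + 1)) ℝ) (s : ℝ),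
    O * Oᵀ = 1 ∧ O *ᵥ u = s • Pi.single (Fin.last n) 1 := by
  set e : Fin (n + 1) → ℝ := Pi.single (Fin.last n) 1 with he
  have hee : e ⬝ᵥ e = 1 := by rw [he, single_dotProduct]; simp
  have huu : 0 ≤ u ⬝ᵥ u := Finset.sum_nonneg (fun i _ => mul_self_nonneg _)
  set s : ℝ := √(u ⬝ᵥ u) with hs
  have hss : s * s = u ⬝ᵥ u := Real.mul_self_sqrt huu
  set v : Fin (n + 1) → ℝ := u - s • e with hv
  by_cases h0 : v = 0
  · exact ⟨1, s, by simp, by rw [one_mulVec]; rw [hv, sub_eq_zero] at h0; exact h0⟩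
  · have hvv : v ⬝ᵥ v ≠ 0 := fun h => h0 (dotProduct_self_eq_zero.1 h)
    have hvu : v ⬝ᵥ v = 2 * (v ⬝ᵥ u) := by
      rw [hv]
      simp only [sub_dotProduct, dotProduct_sub, smul_dotProduct, dotProduct_smul, smul_eq_mul, hee]
      rw [dotProduct_comm e u, ← hss]
      ring
    refine ⟨1 - (2 / (v ⬝ᵥ v)) • vecMulVec v v, s, ?_, ?_⟩
    · have hT : (1 - (2 / (v ⬝ᵥ v)) • vecMulVec v v)ᵀ = 1 - (2 / (v ⬝ᵥ v)) • vecMulVec v v := by
        rw [transpose_sub, transpose_one, transpose_smul, transpose_vecMulVec]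
      have hH : ((2 / (v ⬝ᵥ v)) • vecMulVec v v) * ((2 / (v ⬝ᵥ v)) • vecMulVec v v)
          = (2 : ℝ) • ((2 / (v ⬝ᵥ v)) • vecMulVec v v) := by
        rw [Matrix.smul_mul, Matrix.mul_smul, vecMulVec_mul_vecMulVec, smul_smul]
        ext i j
        simp only [Matrix.smul_apply, vecMulVec_apply, smul_eq_mul, Pi.smul_apply]
        field_simp
      rw [hT]
      generalize (2 / (v ⬝ᵥ v)) • vecMulVec v v = H at hH
      rw [Matrix.sub_mul, Matrix.mul_sub, Matrix.mul_sub, Matrix.one_mul, Matrix.mul_one, hH,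
        Matrix.one_mul]
      module
    · rw [sub_mulVec, one_mulVec, smul_mulVec, vecMulVec_mulVec]
      ext i
      simp only [Pi.sub_apply, Pi.smul_apply, smul_eq_mul, MulOpposite.smul_eq_mul_unop,
        MulOpposite.unop_op]
      have hvi : v i = u i - s * e i := by rw [hv]; rfl
      rw [hvu, hvi]
      have : v ⬝ᵥ u ≠ 0 := fun h => hvv (by rw [hvu, h, mul_zero])
      field_simp
      ring

/-- nondegeneracy. -/
def ND (hn : 3 ≤ n) (A : Matrix (Fin (n + 1)) (Fin (n + 1)) ℝ) : Prop :=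
  A ⟨0, by omega⟩ ⟨1, by omega⟩ * A ⟨2, by omega⟩ ⟨3, by omega⟩
    - A ⟨0, by omega⟩ ⟨3, by omega⟩ * A ⟨2, by omega⟩ ⟨1, by omega⟩ ≠ 0

lemma pos_of_ND (hn : 3 ≤ n) (A M : Matrix (Fin (n + 1)) (Fin (n + 1)) ℝ) (hA : ND hn A)
    (hM : IsUnit M) (hP : (M * A) * (M * A)ᵀ + (M * (-1)) * (M * (-1))ᵀ = 1) (t : ℝ) :
    0 < frm (pa (M * A)) (pb (M * A) (M * (-1))) t := by
  rw [← mean_form (by omega) hP]
  have hn0 : (0 : ℝ) < n := by
    have : 0 < n := by omega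
    exact_mod_cast this
  refine div_pos ?_ hn0
  have hnn : ∀ i : Fin n, 0 ≤ ∑ j, Qc (M * A) (M * (-1)) t i.castSucc j ^ 2 :=
    fun i => Finset.sum_nonneg (fun _ _ => sq_nonneg _)
  rcases (Finset.sum_nonneg (fun i _ => hnn i)).lt_or_eq with h | h
  · exact h
  exfalso
  have h1 := (Finset.sum_eq_zero_iff_of_nonneg (fun i _ => hnn i)).1 h.symm
  have h2 : ∀ (i : Fin n) (j : Fin (n + 1)), Qc (M * A) (M * (-1)) t i.castSucc j = 0 := by
    intro i j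
    have h3 := h1 i (Finset.mem_univ _)
    have h4 := (Finset.sum_eq_zero_iff_of_nonneg (fun j _ => sq_nonneg _)).1 h3 j (Finset.mem_univ _)
    exact pow_eq_zero_iff (two_ne_zero) |>.1 h4
  set R : Matrix (Fin (n + 1)) (Fin (n + 1)) ℝ := Real.cos t • A - Real.sin t • 1 with hR
  have hQ : Qc (M * A) (M * (-1)) t = M * R := by
    rw [Qc, hR, Matrix.mul_sub, Matrix.mul_smul, Matrix.mul_smul, Matrix.mul_neg, Matrix.mul_one,
      smul_neg, sub_eq_add_neg]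
  set e : Fin (n + 1) → ℝ := Pi.single (Fin.last n) 1 with he
  have hQ2 : M * R = vecMulVec e ((M * R) (Fin.last n)) := by
    ext i j
    rw [vecMulVec_apply]
    refine Fin.lastCases ?_ (fun i => ?_) i
    · simp [he]
    · rw [← hQ, h2 i j, he]
      have : (Pi.single (Fin.last n) 1 : Fin (n + 1) → ℝ) i.castSucc = 0 := by
        rw [Pi.single_eq_of_ne]
        exact (Fin.castSucc_lt_last i).ne
      rw [this, zero_mul]
  have hdet : IsUnit M.det := (Matrix.isUnit_iff_isUnit_det M).1 hM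
  have hR2 : R = vecMulVec (M⁻¹ *ᵥ e) ((M * R) (Fin.last n)) := by
    rw [← mul_vecMulVec, ← hQ2, ← Matrix.mul_assoc, nonsing_inv_mul _ hdet, Matrix.one_mul]
  generalize (M * R) (Fin.last n) = r at hR2
  generalize M⁻¹ *ᵥ e = q at hR2
  have hRij : ∀ i j, R i j = q i * r j := fun i j => by
    have := congrFun (congrFun hR2 i) j
    rw [this, vecMulVec_apply]
  have hRd : ∀ i j, R i j = Real.cos t * A i j - Real.sin t * (1 : Matrix (Fin (n + 1)) (Fin (n + 1)) ℝ) i j :=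
    fun i j => by rw [hR]; simp [Matrix.sub_apply, Matrix.smul_apply]
  have o : ∀ i j : Fin (n + 1), i ≠ j → (1 : Matrix (Fin (n + 1)) (Fin (n + 1)) ℝ) i j = 0 :=
    fun i j h => Matrix.one_apply_ne h
  have m1 : R ⟨0, by omega⟩ ⟨1, by omega⟩ * R ⟨2, by omega⟩ ⟨3, by omega⟩
    - R ⟨0, by omega⟩ ⟨3, by omega⟩ * R ⟨2, by omega⟩ ⟨1, by omega⟩ = 0 := by
    rw [hRij, hRij, hRij, hRij]; ring
  rw [hRd, hRd, hRd, hRd, o _ _ (by simp [Fin.ext_iff]), o _ _ (by simp [Fin.ext_iff]),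
    o _ _ (by simp [Fin.ext_iff]), o _ _ (by simp [Fin.ext_iff])] at m1
  have m2 : Real.cos t ^ 2 * (A ⟨0, by omega⟩ ⟨1, by omega⟩ * A ⟨2, by omega⟩ ⟨3, by omega⟩
    - A ⟨0, by omega⟩ ⟨3, by omega⟩ * A ⟨2, by omega⟩ ⟨1, by omega⟩) = 0 := by linarith
  have hcos : Real.cos t = 0 := by
    rcases mul_eq_zero.1 m2 with h | h
    · exact pow_eq_zero_iff (two_ne_zero) |>.1 h
    · exact absurd h hA
  have m3 : R ⟨0, by omega⟩ ⟨0, by omega⟩ * R ⟨1, by omega⟩ ⟨1, by omega⟩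
    - R ⟨0, by omega⟩ ⟨1, by omega⟩ * R ⟨1, by omega⟩ ⟨0, by omega⟩ = 0 := by
    rw [hRij, hRij, hRij, hRij]; ring
  rw [hRd, hRd, hRd, hRd, hcos, o ⟨0, _⟩ ⟨1, _⟩ (by simp [Fin.ext_iff]),
    o ⟨1, _⟩ ⟨0, _⟩ (by simp [Fin.ext_iff]), Matrix.one_apply_eq, Matrix.one_apply_eq] at m3
  have := Real.sin_sq_add_cos_sq t
  rw [hcos] at this
  nlinarith

/-- the constant of the normalised bound. -/
noncomputable def KN (n : ℕ) : ℝ :=
  Zg (EuclideanSpace ℝ (Fin (n + 1))) * gm (n + 1) * √(2 * (n + 1) * (2 * n + 3)) * (∫ t in (0 : ℝ)..(2 * π), |Real.cos t| ^ n)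

lemma det_one_add_vv (v : Fin (n + 1) → ℝ) : (1 + vecMulVec v v).det = 1 + v ⬝ᵥ v := by
  rw [vecMulVec_eq Unit, det_one_add_replicateCol_mul_replicateRow]

lemma posSemidef_eq {S : Matrix (Fin (n + 1)) (Fin (n + 1)) ℝ} (hS : S.PosSemidef) :
    ∃ B : Matrix (Fin (n + 1)) (Fin (n + 1)) ℝ, S = Bᵀ * B := by
  open scoped MatrixOrder in
  obtain ⟨B, hB⟩ := (CStarAlgebra.nonneg_iff_eq_star_mul_self).1 (Matrix.nonneg_iff_posSemidef.2 hS)
  exact ⟨B, by rw [hB, star_eq_conjTranspose, conjTranspose_eq_transpose_of_trivial]⟩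

lemma gen_bound_ND (hn : 3 ≤ n) (hW : OneVar n) (A : Matrix (Fin (n + 1)) (Fin (n + 1)) ℝ)
    (hA : ND hn A) (a : Fin (n + 1) → ℝ) :
    ∫⁻ p : ℝ × ℝ, ∫⁻ y : EuclideanSpace ℝ (Fin (n + 1)), ENNReal.ofReal (√(p.1 ^ 2 + p.2 ^ 2 + ‖y‖ ^ 2)
        * √((Gm A (-1) a y.ofLp p.1 p.2).det)
        * (gw y * Real.exp (-(p.1 ^ 2 + p.2 ^ 2) / 2)))
      ≤ ENNReal.ofReal (KN n * √((1 + A * Aᵀ + vecMulVec a a).det)) := by
  -- the normalising matrix
  have hS : (1 + A * Aᵀ).PosDef := by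
    refine Matrix.PosDef.add_posSemidef Matrix.PosDef.one ?_
    have := Matrix.posSemidef_self_mul_conjTranspose A
    rwa [conjTranspose_eq_transpose_of_trivial] at this
  obtain ⟨B, hB⟩ := posSemidef_eq hS.posSemidef
  have hSdet : 0 < (1 + A * Aᵀ).det := hS.det_pos
  have hBdet : B.det ≠ 0 := by
    intro h
    rw [hB, det_mul, h, mul_zero] at hSdet
    exact lt_irrefl _ hSdet
  obtain ⟨O, s, hO, hOu⟩ := exists_orth ((Bᵀ)⁻¹ *ᵥ a)
  set M : Matrix (Fin (n + 1)) (Fin (n + 1)) ℝ := O * (Bᵀ)⁻¹ with hMdef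
  have hBt : IsUnit (Bᵀ).det := by rw [det_transpose]; exact isUnit_iff_ne_zero.2 hBdet
  have hBu : IsUnit B.det := isUnit_iff_ne_zero.2 hBdet
  have hMSM : M * (1 + A * Aᵀ) * Mᵀ = 1 := by
    rw [hB, hMdef, transpose_mul, transpose_nonsing_inv, transpose_transpose]
    calc O * (Bᵀ)⁻¹ * (Bᵀ * B) * (B⁻¹ * Oᵀ)
        = O * ((Bᵀ)⁻¹ * Bᵀ) * (B * B⁻¹) * Oᵀ := by simp only [Matrix.mul_assoc]
      _ = 1 := by
        rw [nonsing_inv_mul _ hBt, mul_nonsing_inv _ hBu, Matrix.mul_one, Matrix.mul_one, hO]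
  have hMa : M *ᵥ a = s • Pi.single (Fin.last n) 1 := by
    rw [hMdef, ← mulVec_mulVec, hOu]
  have hP : (M * A) * (M * A)ᵀ + (M * (-1)) * (M * (-1))ᵀ = 1 := by
    refine Eq.trans ?_ hMSM
    clear_value M
    rw [transpose_mul, transpose_mul, transpose_neg, transpose_one, Matrix.mul_add,
      Matrix.add_mul, Matrix.mul_one]
    simp only [Matrix.mul_assoc, Matrix.mul_neg, Matrix.neg_mul, Matrix.mul_one, Matrix.one_mul,
      neg_neg]
    exact add_comm _ _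
  have hMdet : M.det ≠ 0 := by
    intro h
    have := congrArg Matrix.det hMSM
    rw [det_mul, det_mul, h, zero_mul, zero_mul, det_one] at this
    exact zero_ne_one this
  have hMu : IsUnit M := (Matrix.isUnit_iff_isUnit_det M).2 (isUnit_iff_ne_zero.2 hMdet)
  have hpos := pos_of_ND hn A M hA hMu hP
  have hmain := norm_bound hn hW hP hpos s hMa
  -- rewriting both sides
  have hdet1 : (1 : ℝ) + s ^ 2 = M.det ^ 2 * (1 + A * Aᵀ + vecMulVec a a).det := by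
    have h1 : M * (1 + A * Aᵀ + vecMulVec a a) * Mᵀ
        = 1 + vecMulVec (s • Pi.single (Fin.last n) 1) (s • Pi.single (Fin.last n) (1 : ℝ)) := by
      rw [Matrix.mul_add, Matrix.add_mul, hMSM, mul_vecMulVec, vecMulVec_mul, vecMul_transpose, hMa]
    have h2 := congrArg Matrix.det h1
    rw [det_mul, det_mul, det_transpose, det_one_add_vv] at h2
    have h3 : (s • Pi.single (Fin.last n) (1 : ℝ) : Fin (n + 1) → ℝ) ⬝ᵥ (s • Pi.single (Fin.last n) (1 : ℝ)) = s ^ 2 := by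
      rw [smul_dotProduct, dotProduct_smul, single_dotProduct]
      simp
      ring
    rw [h3] at h2
    rw [← h2]; ring
  have hS2 : 0 ≤ (1 + A * Aᵀ + vecMulVec a a).det := by
    have : 0 ≤ M.det ^ 2 * (1 + A * Aᵀ + vecMulVec a a).det := by rw [← hdet1]; positivity
    exact nonneg_of_mul_nonneg_right this (by positivity)
  have hint : ∀ (p : ℝ × ℝ) (y : EuclideanSpace ℝ (Fin (n + 1))), ENNReal.ofReal (√(p.1 ^ 2 + p.2 ^ 2 + ‖y‖ ^ 2)
        * √((Gm (M * A) (M * (-1)) (M *ᵥ a) y.ofLp p.1 p.2).det)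
        * (gw y * Real.exp (-(p.1 ^ 2 + p.2 ^ 2) / 2)))
      = ENNReal.ofReal |M.det| * ENNReal.ofReal (√(p.1 ^ 2 + p.2 ^ 2 + ‖y‖ ^ 2)
        * √((Gm A (-1) a y.ofLp p.1 p.2).det)
        * (gw y * Real.exp (-(p.1 ^ 2 + p.2 ^ 2) / 2))) := by
    intro p y
    rw [← ENNReal.ofReal_mul (abs_nonneg _), Gm_conj, det_mul, det_mul, det_transpose]
    congr 1
    have : M.det * (Gm A (-1) a y.ofLp p.1 p.2).det * M.det
        = M.det ^ 2 * (Gm A (-1) a y.ofLp p.1 p.2).det := by ring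
    rw [this, Real.sqrt_mul (sq_nonneg _), Real.sqrt_sq_eq_abs]
    ring
  simp_rw [hint] at hmain
  have hne : ENNReal.ofReal |M.det| ≠ 0 := by
    rw [Ne, ENNReal.ofReal_eq_zero, not_le]
    exact abs_pos.2 hMdet
  simp_rw [lintegral_const_mul' _ _ ENNReal.ofReal_ne_top] at hmain
  have hrhs : Zg (EuclideanSpace ℝ (Fin (n + 1))) * gm (n + 1) * √(2 * (n + 1) * (2 * n + 3))
        * (∫ t in (0 : ℝ)..(2 * π), |Real.cos t| ^ n) * √(1 + s ^ 2)
      = |M.det| * (KN n * √((1 + A * Aᵀ + vecMulVec a a).det)) := by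
    rw [hdet1, Real.sqrt_mul (sq_nonneg _), Real.sqrt_sq_eq_abs, KN]
    ring
  rw [hrhs, ENNReal.ofReal_mul (abs_nonneg _)] at hmain
  exact (ENNReal.mul_le_mul_iff_right hne ENNReal.ofReal_ne_top).1 hmain

end Pool.Agent.Helper20.VF
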