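import Pool.Agent.Helper20.VF.GaussMom

/-!
# Gaussian integrals of homogeneous functions
-/

open MeasureTheory Set Metric Filter Module
open scoped NNReal Topology RealInnerProductSpace ENNReal Real

namespace Pool.Agent.Helper20.VF

variable {E : Type*} [NormedAddCommGroup E] [InnerProductSpace ℝ E] [FiniteDimensional ℝ E]
  [MeasurableSpace E] [BorelSpace E]

/-- The Gaussian weight. -/
noncomputable def gw (y : E) : ℝ := Real.exp (-‖y‖ ^ 2 / 2)

lemma gw_pos (y : E) : 0 < gw y := Real.exp_pos _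

omit [FiniteDimensional ℝ E] [MeasurableSpace E] [BorelSpace E] in
lemma continuous_gw : Continuous (gw : E → ℝ) := by unfold gw; fun_prop

/-- continuous and homogeneous of degree `k`. -/
def Hom (k : ℕ) (f : E → ℝ) : Prop := Continuous f ∧ ∀ (r : ℝ) (y : E), f (r • y) = r ^ k * f y

omit [FiniteDimensional ℝ E] [MeasurableSpace E] [BorelSpace E] in
lemma Hom.mul {k l : ℕ} {f g : E → ℝ} (hf : Hom k f) (hg : Hom l g) :
    Hom (k + l) (fun y => f y * g y) :=
  ⟨hf.1.mul hg.1, fun r y => by simp only; rw [hf.2, hg.2, pow_add]; ring⟩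

omit [FiniteDimensional ℝ E] [MeasurableSpace E] [BorelSpace E] in
lemma Hom.const_mul {k : ℕ} {f : E → ℝ} (hf : Hom k f) (c : ℝ) : Hom k (fun y => c * f y) :=
  ⟨continuous_const.mul hf.1, fun r y => by simp only; rw [hf.2]; ring⟩

omit [FiniteDimensional ℝ E] [MeasurableSpace E] [BorelSpace E] in
lemma Hom.add {k : ℕ} {f g : E → ℝ} (hf : Hom k f) (hg : Hom k g) : Hom k (fun y => f y + g y) :=
  ⟨hf.1.add hg.1, fun r y => by simp only; rw [hf.2, hg.2]; ring⟩

omit [FiniteDimensional ℝ E] [MeasurableSpace E] [BorelSpace E] in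
lemma Hom.sum {ι : Type*} {k : ℕ} {f : ι → E → ℝ} (s : Finset ι) (hf : ∀ i, Hom k (f i)) :
    Hom k (fun y => ∑ i ∈ s, f i y) :=
  ⟨continuous_finsetSum _ fun i _ => (hf i).1, fun r y => by
    simp only [(hf _).2, Finset.mul_sum]⟩

omit [FiniteDimensional ℝ E] [MeasurableSpace E] [BorelSpace E] in
lemma Hom.norm_sq : Hom 2 (fun y : E => ‖y‖ ^ 2) :=
  ⟨by fun_prop, fun r y => by simp only; rw [norm_smul, mul_pow, Real.norm_eq_abs, sq_abs]⟩

omit [FiniteDimensional ℝ E] [MeasurableSpace E] [BorelSpace E] in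
lemma Hom.inner (u : E) : Hom 1 (fun y : E => ⟪u, y⟫) :=
  ⟨by fun_prop, fun r y => by simp only; rw [inner_smul_right, pow_one]⟩

lemma integrable_norm_pow_gw [Nontrivial E] (k : ℕ) : Integrable (fun y : E => ‖y‖ ^ k * gw y) := by
  have h := (integrable_fun_norm_addHaar (E := E) volume
    (f := fun r : ℝ => r ^ k * Real.exp (-r ^ 2 / 2))).2 ?_
  · exact h
  · have := integrableOn_gm (finrank ℝ E - 1 + k)
    refine this.congr_fun (fun r _ => ?_) measurableSet_Ioi
    simp only [smul_eq_mul]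
    rw [pow_add]; ring

omit [MeasurableSpace E] [BorelSpace E] in
lemma Hom.bound {k : ℕ} {f : E → ℝ} (hf : Hom k f) : ∃ C, ∀ y, |f y| ≤ C * ‖y‖ ^ k := by
  obtain ⟨C, hC⟩ := (isCompact_closedBall (0 : E) 1).exists_bound_of_continuousOn hf.1.continuousOn
  refine ⟨C, fun y => ?_⟩
  by_cases hy : y = 0
  · subst hy
    by_cases hk : k = 0
    · subst hk
      have := hC 0 (by simp)
      simpa using this
    · have h0 := hf.2 0 0
      rw [zero_smul, zero_pow hk, zero_mul] at h0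
      rw [h0]
      simp [hk]
  · have h0 : 0 < ‖y‖ := norm_pos_iff.2 hy
    have h1 : f y = ‖y‖ ^ k * f (‖y‖⁻¹ • y) := by
      rw [← hf.2, smul_smul, mul_inv_cancel₀ h0.ne', one_smul]
    rw [h1, abs_mul, abs_of_nonneg (by positivity), mul_comm]
    refine mul_le_mul_of_nonneg_right ?_ (by positivity)
    have := hC (‖y‖⁻¹ • y) (by
      rw [mem_closedBall_zero_iff, norm_smul, norm_inv, norm_norm, inv_mul_cancel₀ h0.ne'])
    rwa [Real.norm_eq_abs] at this

lemma Hom.integrable [Nontrivial E] {k : ℕ} {f : E → ℝ} (hf : Hom k f) :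
    Integrable (fun y => f y * gw y) := by
  obtain ⟨C, hC⟩ := hf.bound
  refine ((integrable_norm_pow_gw (E := E) k).const_mul C).mono'
    (hf.1.mul continuous_gw).aestronglyMeasurable (Eventually.of_forall fun y => ?_)
  rw [norm_mul, Real.norm_eq_abs, Real.norm_eq_abs, abs_of_pos (gw_pos y), ← mul_assoc]
  exact mul_le_mul_of_nonneg_right (hC y) (gw_pos y).le

lemma Hom.integral_eq [Nontrivial E] {k : ℕ} {f : E → ℝ} (hf : Hom k f) :
    ∫ y, f y * gw y = (∫ u : sphere (0 : E) 1, f u ∂(volume : Measure E).toSphere)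
      * gm (finrank ℝ E - 1 + k) := by
  rw [integral_polar_mul _ f (fun r => r ^ k * Real.exp (-r ^ 2 / 2))]
  · congr 1
    rw [gm]
    refine setIntegral_congr_fun measurableSet_Ioi (fun r _ => ?_)
    rw [pow_add]; ring
  · intro u hu r hr
    rw [hf.2, gw, norm_smul, hu, mul_one, Real.norm_eq_abs, sq_abs]
    ring

lemma Hom.integral_mul_sq [Nontrivial E] {k : ℕ} {f : E → ℝ} (hf : Hom k f) :
    ∫ y, f y * ‖y‖ ^ 2 * gw y = ((finrank ℝ E : ℝ) + k) * ∫ y, f y * gw y := by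
  have h1 := (hf.mul Hom.norm_sq).integral_eq
  have hfr : 1 ≤ finrank ℝ E := finrank_pos
  rw [h1, hf.integral_eq]
  have h2 : ∫ u : sphere (0 : E) 1, f u * ‖(u : E)‖ ^ 2 ∂(volume : Measure E).toSphere
      = ∫ u : sphere (0 : E) 1, f u ∂(volume : Measure E).toSphere := by
    refine integral_congr_ae (Eventually.of_forall fun u => ?_)
    simp
  rw [h2, show finrank ℝ E - 1 + (k + 2) = (finrank ℝ E - 1 + k) + 2 by ring, gm_succ_succ]
  push_cast [Nat.cast_sub hfr]
  ring

lemma Hom.integral_odd {k : ℕ} (hk : Odd k) {f : E → ℝ} (hf : Hom k f) :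
    ∫ y, f y * gw y = 0 := by
  have h1 : ∫ y, f y * gw y = ∫ y, f (-y) * gw (-y) :=
    (integral_neg_eq_self (fun y => f y * gw y) volume).symm
  have h2 : ∀ y : E, f (-y) * gw (-y) = -(f y * gw y) := by
    intro y
    have := hf.2 (-1) y
    rw [neg_one_smul, hk.neg_one_pow] at this
    rw [this, gw, norm_neg, gw]; ring
  simp_rw [h2, integral_neg] at h1
  linarith

/-- total Gaussian mass. -/
noncomputable def Zg (E : Type*) [NormedAddCommGroup E] [InnerProductSpace ℝ E]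
  [FiniteDimensional ℝ E] [MeasurableSpace E] [BorelSpace E] : ℝ := ∫ y : E, gw y

lemma Zg_eq : Zg E = (2 * π) ^ ((finrank ℝ E : ℝ) / 2) := integral_gauss

lemma Zg_pos : 0 < Zg E := by rw [Zg_eq]; positivity

lemma integral_inner_sq [Nontrivial E] (u : E) : ∫ y, ⟪u, y⟫ ^ 2 * gw y = ‖u‖ ^ 2 * Zg E := by
  have hunit : ∀ v : E, ‖v‖ = 1 → ∫ y, ⟪v, y⟫ ^ 2 * gw y = Zg E := by
    intro v hv
    have h := integral_gauss_slice v hv (fun t => t ^ 2)
    have h2 : ∫ t : ℝ, t ^ 2 * Real.exp (-t ^ 2 / 2) = (2 * π) ^ ((1 : ℝ) / 2) := by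
      have e1 := integral_abs_pow_gauss 2
      have e0 := integral_abs_pow_gauss 0
      simp only [sq_abs, pow_zero, one_mul] at e1 e0
      rw [e1, show (2 : ℕ) = 0 + 2 by rfl, gm_succ_succ]
      have e2 := integral_gauss (E := ℝ)
      simp only [finrank_self, Nat.cast_one, Real.norm_eq_abs, sq_abs] at e2
      rw [e2] at e0
      rw [e0]
      push_cast
      ring
    rw [h2, ← Real.rpow_add (by positivity)] at h
    rw [Zg_eq, show (finrank ℝ E : ℝ) / 2 = 1 / 2 + ((finrank ℝ E : ℝ) - 1) / 2 by ring, ← h]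
    rfl
  by_cases hu : u = 0
  · subst hu; simp
  · have h0 : 0 < ‖u‖ := norm_pos_iff.2 hu
    have h1 := hunit (‖u‖⁻¹ • u) (by rw [norm_smul, norm_inv, norm_norm, inv_mul_cancel₀ h0.ne'])
    have h2 : ∀ y, ⟪u, y⟫ ^ 2 * gw y = ‖u‖ ^ 2 * (⟪‖u‖⁻¹ • u, y⟫ ^ 2 * gw y) := by
      intro y
      rw [inner_smul_left]
      simp only [RCLike.conj_to_real]
      field_simp
    simp_rw [h2]
    rw [integral_const_mul, h1]

lemma integral_inner_mul [Nontrivial E] (u v : E) :
    ∫ y, ⟪u, y⟫ * ⟪v, y⟫ * gw y = ⟪u, v⟫ * Zg E := by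
  have h1 : ∀ y : E, ⟪u, y⟫ * ⟪v, y⟫ * gw y
      = (1 / 4) * (⟪u + v, y⟫ ^ 2 * gw y) - (1 / 4) * (⟪u - v, y⟫ ^ 2 * gw y) := by
    intro y
    rw [inner_add_left, inner_sub_left]; ring
  simp_rw [h1]
  have i1 : ∀ w : E, Integrable (fun y => ⟪w, y⟫ ^ 2 * gw y) := by
    intro w
    have := ((Hom.inner w).mul (Hom.inner w)).integrable
    refine this.congr (Eventually.of_forall fun y => ?_)
    simp only; ring
  rw [integral_sub ((i1 _).const_mul _) ((i1 _).const_mul _), integral_const_mul, integral_const_mul,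
    integral_inner_sq, integral_inner_sq, norm_add_sq_real, norm_sub_sq_real]
  ring

end Pool.Agent.Helper20.VF
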