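import Pool.Agent.Helper20.VF.Final

/-!
# The constant
-/

open MeasureTheory Set Metric Filter Module Matrix
open scoped NNReal Topology RealInnerProductSpace ENNReal Real

namespace Pool.Agent.Helper20.VF

lemma gm_cos (n : ℕ) :
    gm (n + 1) * (∫ t in (0 : ℝ)..(2 * π), |Real.cos t| ^ n) = (2 * gm n) * √(2 * π) := by
  set f : ℝ × ℝ → ℝ := fun p => (|p.1| ^ n * Real.exp (-p.1 ^ 2 / 2)) * Real.exp (-p.2 ^ 2 / 2)
    with hf
  have h1 : ∫ p : ℝ × ℝ, f p = (2 * gm n) * √(2 * π) := by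
    rw [hf, Measure.volume_eq_prod, integral_prod_mul (fun t => |t| ^ n * Real.exp (-t ^ 2 / 2))
      (fun t => Real.exp (-t ^ 2 / 2)), integral_abs_pow_gauss]
    congr 1
    have e2 := integral_gauss (E := ℝ)
    simp only [finrank_self, Nat.cast_one, Real.norm_eq_abs, sq_abs] at e2
    rw [e2, Real.sqrt_eq_rpow]
  have h2 := integral_comp_polarCoord_symm f
  rw [h1] at h2
  rw [← h2, polarCoord_target]
  have h3 : ∀ p ∈ (Ioi (0 : ℝ) ×ˢ Ioo (-π) π), p.1 • f (polarCoord.symm p)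
      = (p.1 ^ (n + 1) * Real.exp (-p.1 ^ 2 / 2)) * |Real.cos p.2| ^ n := by
    intro p hp
    have hp1 : 0 < p.1 := hp.1
    rw [polarCoord_symm_apply, smul_eq_mul, hf]
    simp only
    have e : Real.exp (-p.1 ^ 2 / 2) = Real.exp (-(p.1 * Real.cos p.2) ^ 2 / 2)
        * Real.exp (-(p.1 * Real.sin p.2) ^ 2 / 2) := by
      rw [← Real.exp_add]
      congr 1
      linear_combination (p.1 ^ 2 / 2) * Real.sin_sq_add_cos_sq p.2
    rw [e, abs_mul, abs_of_pos hp1, mul_pow]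
    ring
  rw [setIntegral_congr_fun (measurableSet_Ioi.prod measurableSet_Ioo) h3, Measure.volume_eq_prod,
    setIntegral_prod_mul (fun r : ℝ => r ^ (n + 1) * Real.exp (-r ^ 2 / 2))
      (fun t : ℝ => |Real.cos t| ^ n)]
  congr 1
  rw [← integral_Ioc_eq_integral_Ioo, ← intervalIntegral.integral_of_le (by linarith [Real.pi_pos])]
  have hper : Function.Periodic (fun t : ℝ => |Real.cos t| ^ n) (2 * π) := by
    intro t
    simp only
    rw [Real.cos_add_two_pi]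
  have := hper.intervalIntegral_add_eq (-π) 0
  rw [zero_add, show -π + 2 * π = π by ring] at this
  exact this.symm

/-- the lower bound `b(m)` for the normalised volume of unit fields. -/
noncomputable def bm (m : ℕ) : ℝ :=
  √π * Real.Gamma (2 * m + 1 / 2) / Real.Gamma (2 * m) * √((4 * m + 1) / (4 * m))

lemma const_eq (m : ℕ) (hm : 1 ≤ m) :
    2 * kap (2 * m - 1) = bm m * (2 ^ (2 * m - 1 + 1) * KN (2 * m - 1)) := by
  obtain ⟨n, hn⟩ : ∃ n, n = 2 * m - 1 := ⟨_, rfl⟩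
  have hm0 : (0 : ℝ) < m := by exact_mod_cast hm
  have hnm : (n : ℝ) = 2 * m - 1 := by rw [hn]; push_cast [Nat.cast_sub (by omega : 1 ≤ 2 * m)]; ring
  rw [← hn]
  have hc := gm_cos n
  have hZ : Zg (EuclideanSpace ℝ (Fin (n + 1))) = (2 * π) ^ (((n : ℝ) + 1) / 2) := by
    rw [Zg_eq, finrank_euclideanSpace, Fintype.card_fin]
    push_cast
    rfl
  rw [kap, KN, hZ]
  have hZ0 : (0 : ℝ) < (2 * π) ^ (((n : ℝ) + 1) / 2) := by positivity
  have hgn := gm_pos n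
  have hg1 : gm (2 * n + 1) = 2 ^ ((n : ℝ) + 1) / 2 * Real.Gamma (2 * m) := by
    rw [gm_eq]
    have e : (((2 * n + 1 : ℕ) : ℝ) + 1) / 2 = (n : ℝ) + 1 := by push_cast; ring
    rw [e, hnm]
    congr 2
    ring
  have hg2 : gm (2 * n + 4) = 2 ^ ((n : ℝ) + 1) * (2 * √2) / 2 * ((2 * m + 1 / 2)
      * Real.Gamma (2 * m + 1 / 2)) := by
    rw [gm_eq]
    have e : (((2 * n + 4 : ℕ) : ℝ) + 1) / 2 = (n : ℝ) + 1 + 3 / 2 := by push_cast; ring
    have e2 : (n : ℝ) + 1 + 3 / 2 = (2 * m + 1 / 2) + 1 := by rw [hnm]; ring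
    rw [e, Real.rpow_add (by norm_num)]
    have e3 : (2 : ℝ) ^ ((3 : ℝ) / 2) = 2 * √2 := by
      rw [show (3 : ℝ) / 2 = 1 + 1 / 2 by norm_num, Real.rpow_add (by norm_num), Real.rpow_one,
        Real.sqrt_eq_rpow]
    rw [e3, e2, Real.Gamma_add_one (by positivity)]
  have hΓ1 : 0 < Real.Gamma (2 * m) := Real.Gamma_pos_of_pos (by positivity)
  have hΓ2 : 0 < Real.Gamma (2 * m + 1 / 2) := Real.Gamma_pos_of_pos (by positivity)
  have hP0 : (0 : ℝ) < 2 ^ ((n : ℝ) + 1) := by positivity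
  -- the two square roots
  have hs2 : √(2 * π) = √2 * √π := Real.sqrt_mul (by norm_num) _
  have hs4 : √(2 * ((n : ℝ) + 1) * (2 * n + 3)) = 2 * √(m * (4 * m + 1)) := by
    have : 2 * ((n : ℝ) + 1) * (2 * n + 3) = 2 ^ 2 * (m * (4 * m + 1)) := by rw [hnm]; ring
    rw [this, Real.sqrt_mul (by norm_num), Real.sqrt_sq (by norm_num)]
  have hs5 : √((4 * (m : ℝ) + 1) / (4 * m)) * (2 * √(m * (4 * m + 1))) = 4 * m + 1 := by
    have e1 : (2 : ℝ) * √(m * (4 * m + 1)) = √(4 * (m * (4 * m + 1))) := by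
      rw [Real.sqrt_mul (by norm_num) (m * (4 * (m : ℝ) + 1)), show (4 : ℝ) = 2 ^ 2 by norm_num,
        Real.sqrt_sq (by norm_num)]
    rw [e1, ← Real.sqrt_mul (by positivity)]
    have e2 : (4 * (m : ℝ) + 1) / (4 * m) * (4 * (m * (4 * m + 1))) = (4 * m + 1) ^ 2 := by
      field_simp
    rw [e2, Real.sqrt_sq (by positivity)]
  have hsp : √π * √π = π := Real.mul_self_sqrt Real.pi_pos.le
  have hs22 : √2 * √2 = (2 : ℝ) := Real.mul_self_sqrt (by norm_num)
  have hrhs : bm m * (2 ^ (n + 1) * ((2 * π) ^ (((n : ℝ) + 1) / 2) * gm (n + 1)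
        * √(2 * (n + 1) * (2 * n + 3)) * ∫ t in (0 : ℝ)..(2 * π), |Real.cos t| ^ n))
      = (2 * π) ^ (((n : ℝ) + 1) / 2) * 2 ^ (n + 1) * (Real.Gamma (2 * m + 1 / 2) / Real.Gamma (2 * m))
        * √π * (√((4 * (m : ℝ) + 1) / (4 * m)) * √(2 * (n + 1) * (2 * n + 3)))
        * (gm (n + 1) * ∫ t in (0 : ℝ)..(2 * π), |Real.cos t| ^ n) := by
    rw [bm]; ring
  rw [hrhs, hc, hs4, hs5, hs2, hg1, hg2]
  have hlhs : 2 * (π * (2 ^ ((n : ℝ) + 1) * (2 * √2) / 2 * ((2 * m + 1 / 2)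
      * Real.Gamma (2 * m + 1 / 2))) / (2 ^ ((n : ℝ) + 1) / 2 * Real.Gamma (2 * m))
      * (2 ^ n * (2 * gm n * (2 * π) ^ (((n : ℝ) + 1) / 2))))
      = (2 * π) ^ (((n : ℝ) + 1) / 2) * 2 ^ n * (Real.Gamma (2 * m + 1 / 2) / Real.Gamma (2 * m))
        * (8 * π * √2 * (2 * m + 1 / 2) * gm n) := by
    field_simp
    ring
  rw [hlhs]
  have : π * √2 = √π * (√2 * √π) := by rw [mul_comm √2 √π, ← mul_assoc, hsp]
  calc (2 * π) ^ (((n : ℝ) + 1) / 2) * 2 ^ n * (Real.Gamma (2 * m + 1 / 2) / Real.Gamma (2 * m))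
        * (8 * π * √2 * (2 * m + 1 / 2) * gm n)
      = (2 * π) ^ (((n : ℝ) + 1) / 2) * 2 ^ n * (Real.Gamma (2 * m + 1 / 2) / Real.Gamma (2 * m))
        * (8 * (π * √2) * (2 * m + 1 / 2) * gm n) := by ring
    _ = _ := by rw [this, pow_succ]; ring

/-- **The volume bound for homogeneous fields**, with the constant in closed form. -/
theorem main_UField_bm {E : Type*} [NormedAddCommGroup E] [InnerProductSpace ℝ E]
    [FiniteDimensional ℝ E] [MeasurableSpace E] [BorelSpace E] {V : E → E} (m : ℕ) (hm : 2 ≤ m)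
    (hfr : finrank ℝ E = 2 * m + 2) (hV : UField V) :
    bm m * (volume : Measure E).toSphere.real univ
      ≤ ∫ u : sphere (0 : E) 1, Jd V u ∂(volume : Measure E).toSphere := by
  have h := main_UField (n := 2 * m - 1) (by omega) ⟨m - 1, by omega⟩ (by omega) hV
  rw [const_eq m (by omega)] at h
  have hK0 : 0 < 2 ^ (2 * m - 1 + 1) * KN (2 * m - 1) := by
    have h1 := Zg_pos (E := EuclideanSpace ℝ (Fin (2 * m - 1 + 1)))
    have h2 := gm_pos (2 * m - 1 + 1)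
    have h3 : 0 < ∫ t in (0 : ℝ)..(2 * π), |Real.cos t| ^ (2 * m - 1) := by
      have hc := gm_cos (2 * m - 1)
      have h4 := gm_pos (2 * m - 1)
      have h5 : 0 < gm (2 * m - 1 + 1) * (∫ t in (0 : ℝ)..(2 * π), |Real.cos t| ^ (2 * m - 1)) := by
        rw [hc]; positivity
      exact (mul_pos_iff_of_pos_left h2).1 h5
    unfold KN
    positivity
  refine le_of_mul_le_mul_left ?_ hK0
  calc _ = bm m * (2 ^ (2 * m - 1 + 1) * KN (2 * m - 1)) * (volume : Measure E).toSphere.real univ := by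
        ring
    _ ≤ _ := h

end Pool.Agent.Helper20.VF
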