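import Mathlib
import Pool.Agent.Helper20.VF.Const

/-!
# Comparison of the constant with the parallel transport field
-/

open MeasureTheory Set Metric Filter Module
open scoped NNReal Topology RealInnerProductSpace ENNReal Real Manifold ContDiff

namespace Pool.Agent.Helper20.VF

open Real.Wallis in
/-- the auxiliary increasing sequence. -/
noncomputable def xs (k : ℕ) : ℝ :=
  W k ^ 2 * (1 - 1 / (16 * (k : ℝ) ^ 2)) ^ 2 * ((2 * k + 1) / (2 * k))

open Real.Wallis in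
lemma xs_mono {k : ℕ} (hk : 1 ≤ k) : xs k ≤ xs (k + 1) := by
  have hk0 : (1 : ℝ) ≤ k := by exact_mod_cast hk
  have hW : 0 < W k := W_pos k
  unfold xs
  rw [W_succ]
  push_cast
  obtain ⟨x, hx⟩ : ∃ x : ℝ, x = k := ⟨_, rfl⟩
  rw [← hx] at hk0 ⊢
  have e : (W k * ((2 * x + 2) / (2 * x + 1) * ((2 * x + 2) / (2 * x + 3)))) ^ 2
      * (1 - 1 / (16 * (x + 1) ^ 2)) ^ 2 * ((2 * (x + 1) + 1) / (2 * (x + 1)))
      - W k ^ 2 * (1 - 1 / (16 * x ^ 2)) ^ 2 * ((2 * x + 1) / (2 * x))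
      = W k ^ 2 * (((2 * x + 2) ^ 3 * (2 * x) * ((16 * (x + 1) ^ 2 - 1) * x ^ 2) ^ 2
        - (2 * x + 1) ^ 3 * (2 * x + 3) * ((16 * x ^ 2 - 1) * (x + 1) ^ 2) ^ 2)
        / ((2 * x + 1) ^ 2 * (2 * x + 3) * (2 * x) * (16 * x ^ 2 * (x + 1) ^ 2) ^ 2)) := by
    have h1 : x ≠ 0 := by positivity
    have h2 : x + 1 ≠ 0 := by positivity
    have h3 : 2 * x + 1 ≠ 0 := by positivity
    have h4 : 2 * x + 3 ≠ 0 := by positivity
    field_simp
    ring
  have hnum : 0 ≤ (2 * x + 2) ^ 3 * (2 * x) * ((16 * (x + 1) ^ 2 - 1) * x ^ 2) ^ 2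
        - (2 * x + 1) ^ 3 * (2 * x + 3) * ((16 * x ^ 2 - 1) * (x + 1) ^ 2) ^ 2 := by
    obtain ⟨y, rfl⟩ : ∃ y, x = y + 1 := ⟨x - 1, by ring⟩
    have hy : 0 ≤ y := by linarith
    ring_nf
    positivity
  have : 0 ≤ W k ^ 2 * (((2 * x + 2) ^ 3 * (2 * x) * ((16 * (x + 1) ^ 2 - 1) * x ^ 2) ^ 2
        - (2 * x + 1) ^ 3 * (2 * x + 3) * ((16 * x ^ 2 - 1) * (x + 1) ^ 2) ^ 2)
        / ((2 * x + 1) ^ 2 * (2 * x + 3) * (2 * x) * (16 * x ^ 2 * (x + 1) ^ 2) ^ 2)) := by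
    refine mul_nonneg (sq_nonneg _) (div_nonneg hnum (by positivity))
  rw [← e] at this
  linarith

open Real.Wallis in
lemma tendsto_xs : Tendsto xs atTop (𝓝 ((π / 2) ^ 2)) := by
  have hinv : Tendsto (fun k : ℕ => 1 / ((k : ℝ))) atTop (𝓝 0) := tendsto_one_div_atTop_nhds_zero_nat
  have h1 : Tendsto (fun k : ℕ => 1 - 1 / (16 * (k : ℝ) ^ 2)) atTop (𝓝 1) := by
    have : Tendsto (fun k : ℕ => 1 - (1 / 16) * (1 / (k : ℝ)) ^ 2) atTop (𝓝 (1 - (1 / 16) * 0 ^ 2)) :=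
      tendsto_const_nhds.sub ((hinv.pow 2).const_mul _)
    simp only [ne_eq, OfNat.ofNat_ne_zero, not_false_eq_true, zero_pow, mul_zero, sub_zero] at this
    refine this.congr (fun k => ?_)
    by_cases hk : (k : ℝ) = 0
    · simp [hk]
    · field_simp
  have h2 : Tendsto (fun k : ℕ => (2 * (k : ℝ) + 1) / (2 * k)) atTop (𝓝 1) := by
    have : Tendsto (fun k : ℕ => 1 + (1 / 2) * (1 / (k : ℝ))) atTop (𝓝 (1 + (1 / 2) * 0)) :=
      tendsto_const_nhds.add (hinv.const_mul _)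
    simp only [mul_zero, add_zero] at this
    refine this.congr' ?_
    filter_upwards [eventually_ge_atTop 1] with k hk
    have : (k : ℝ) ≠ 0 := by positivity
    field_simp
  have h3 := ((tendsto_W_nhds_pi_div_two.pow 2).mul (h1.pow 2)).mul h2
  rw [one_pow, mul_one, mul_one] at h3
  exact h3

open Real.Wallis in
lemma W_bound {k : ℕ} (hk : 1 ≤ k) :
    W k * (1 - 1 / (16 * (k : ℝ) ^ 2)) * √((2 * k + 1) / (2 * k)) ≤ π / 2 := by
  have h1 : xs k ≤ (π / 2) ^ 2 := by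
    have hm : ∀ j, xs k ≤ xs (k + j) := by
      intro j
      induction j with
      | zero => exact le_rfl
      | succ j ih => exact ih.trans (xs_mono (by omega))
    have ht : Tendsto (fun j => xs (k + j)) atTop (𝓝 ((π / 2) ^ 2)) := by
      have := tendsto_xs.comp (tendsto_add_atTop_nat k)
      refine this.congr (fun j => ?_)
      simp only [Function.comp_apply, add_comm]
    exact ge_of_tendsto' ht hm
  have hk0 : (1 : ℝ) ≤ k := by exact_mod_cast hk
  refine (sq_le_sq₀ ?_ (by positivity)).1 ?_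
  · have := W_pos k
    have h5 : 1 / (16 * (k : ℝ) ^ 2) ≤ 1 := by
      rw [div_le_one (by positivity)]
      nlinarith
    have h6 : 0 ≤ 1 - 1 / (16 * (k : ℝ) ^ 2) := by linarith
    positivity
  rw [mul_pow, mul_pow, Real.sq_sqrt (by positivity)]
  exact h1

/-- `c*(m,1) = 16^m / binom(4m,2m)`, the normalised volume of the parallel transport field. -/
noncomputable def cst (m : ℕ) : ℝ := 16 ^ m / ((4 * m).choose (2 * m) : ℝ)

lemma cst_pos (m : ℕ) : 0 < cst m := by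
  have : 0 < (4 * m).choose (2 * m) := Nat.choose_pos (by omega)
  unfold cst
  positivity

open Real.Wallis in
lemma cst_sq (m : ℕ) : cst m ^ 2 = (2 * ((2 * m : ℕ) : ℝ) + 1) * W (2 * m) := by
  rw [W_eq_factorial_ratio]
  have h1 : (((4 * m).choose (2 * m) : ℕ) : ℝ)
      = ((2 * (2 * m)).factorial : ℝ) / (((2 * m).factorial : ℝ) * ((2 * m).factorial : ℝ)) := by
    rw [show 4 * m = 2 * (2 * m) by ring, Nat.cast_choose ℝ (by omega)]
    congr 3
    congr 1
    omega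
  rw [cst, h1]
  have h2 : (0 : ℝ) < (2 * (2 * m)).factorial := by positivity
  have h3 : (0 : ℝ) < (2 * m).factorial := by positivity
  have h4 : (2 : ℝ) ^ (4 * (2 * m)) = (16 ^ m) ^ 2 := by
    rw [← pow_mul, show (16 : ℝ) = 2 ^ 4 by norm_num, ← pow_mul]
    congr 1
    ring
  rw [h4]
  field_simp

lemma bm_mul_cst {m : ℕ} (hm : 1 ≤ m) :
    bm m * cst m = π * (2 * m) * √((4 * m + 1) / (4 * m)) := by
  have hm0 : (1 : ℝ) ≤ m := by exact_mod_cast hm
  have hdup := Real.Gamma_mul_Gamma_add_half (2 * m : ℝ)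
  have hΓ : Real.Gamma (2 * m : ℝ) = ((2 * m - 1).factorial : ℝ) := by
    have := Real.Gamma_nat_eq_factorial (2 * m - 1)
    rw [← this]
    congr 1
    push_cast [Nat.cast_sub (by omega : 1 ≤ 2 * m)]
    ring
  have hΓ2 : Real.Gamma (2 * (2 * m) : ℝ) = ((4 * m - 1).factorial : ℝ) := by
    have := Real.Gamma_nat_eq_factorial (4 * m - 1)
    rw [← this]
    congr 1
    push_cast [Nat.cast_sub (by omega : 1 ≤ 4 * m)]
    ring
  have hΓ0 : 0 < Real.Gamma (2 * m : ℝ) := Real.Gamma_pos_of_pos (by positivity)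
  have e1 : Real.Gamma (2 * m + 1 / 2) = Real.Gamma (2 * (2 * m) : ℝ) * 2 ^ (1 - 2 * (2 * (m : ℝ))) * √π
      / Real.Gamma (2 * m : ℝ) := by
    rw [eq_div_iff hΓ0.ne', ← hdup]; ring
  have e2 : (2 : ℝ) ^ (1 - 2 * (2 * (m : ℝ))) = 2 / 16 ^ m := by
    rw [Real.rpow_sub (by norm_num), Real.rpow_one]
    congr 1
    rw [show 2 * (2 * (m : ℝ)) = ((4 * m : ℕ) : ℝ) by push_cast; ring, Real.rpow_natCast,
      pow_mul]
    norm_num
  have f1 : ((2 * m).factorial : ℝ) = (2 * m) * ((2 * m - 1).factorial : ℝ) := by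
    have : 2 * m = (2 * m - 1) + 1 := by omega
    rw [this, Nat.factorial_succ]
    push_cast [Nat.cast_sub (by omega : 1 ≤ 2 * m)]
    congr 1
    ring
  have f2 : ((4 * m).factorial : ℝ) = (4 * m) * ((4 * m - 1).factorial : ℝ) := by
    have : 4 * m = (4 * m - 1) + 1 := by omega
    rw [this, Nat.factorial_succ]
    push_cast [Nat.cast_sub (by omega : 1 ≤ 4 * m)]
    congr 1
    ring
  have h1 : (((4 * m).choose (2 * m) : ℕ) : ℝ)
      = ((4 * m).factorial : ℝ) / (((2 * m).factorial : ℝ) * ((2 * m).factorial : ℝ)) := by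
    rw [Nat.cast_choose ℝ (by omega)]
    congr 3
    congr 1
    omega
  have h3 : (0 : ℝ) < (2 * m - 1).factorial := by positivity
  have h4 : (0 : ℝ) < (4 * m - 1).factorial := by positivity
  have hsp : √π ^ 2 = π := Real.sq_sqrt Real.pi_pos.le
  rw [bm, cst, e1, e2, h1, f1, f2, hΓ, hΓ2]
  field_simp
  rw [hsp]
  ring

/-- The constant is within a factor `1 - 1/(64 m²)` of the volume of the parallel transport field. -/
theorem cst_le_bm {m : ℕ} (hm : 1 ≤ m) : (1 - 1 / (64 * (m : ℝ) ^ 2)) * cst m ≤ bm m := by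
  have hc := cst_pos m
  have hm0 : (1 : ℝ) ≤ m := by exact_mod_cast hm
  refine le_of_mul_le_mul_right ?_ hc
  rw [bm_mul_cst hm, mul_assoc, ← sq, cst_sq]
  have h := W_bound (k := 2 * m) (by omega)
  push_cast at h ⊢
  have e1 : (1 : ℝ) - 1 / (16 * (2 * m) ^ 2) = 1 - 1 / (64 * m ^ 2) := by ring
  have e2 : (2 * (2 * (m : ℝ)) + 1) / (2 * (2 * m)) = (4 * m + 1) / (4 * m) := by ring
  rw [e1, e2] at h
  set s := √((4 * (m : ℝ) + 1) / (4 * m)) with hs
  have hs0 : 0 < s := Real.sqrt_pos.2 (by positivity)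
  have hs2 : s * s = (4 * m + 1) / (4 * m) := Real.mul_self_sqrt (by positivity)
  have h5 : (1 - 1 / (64 * (m : ℝ) ^ 2)) * ((2 * (2 * m) + 1) * Real.Wallis.W (2 * m))
      = (Real.Wallis.W (2 * m) * (1 - 1 / (64 * m ^ 2)) * s) * (4 * m * s) := by
    have : (2 * (2 * (m : ℝ)) + 1) = 4 * m * (s * s) := by rw [hs2]; field_simp; ring
    rw [this]; ring
  rw [h5]
  calc (Real.Wallis.W (2 * m) * (1 - 1 / (64 * m ^ 2)) * s) * (4 * m * s)
      ≤ (π / 2) * (4 * m * s) := mul_le_mul_of_nonneg_right h (by positivity)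
    _ = _ := by ring

end Pool.Agent.Helper20.VF
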