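import Pool.Agent.Helper20.VF.Pairing
import Pool.Agent.Helper77.Star

/-!
# The comparison inequality for matrices
-/

open Set Matrix
open scoped Topology

namespace Pool.Agent.Helper20.VF

variable {N m : ℕ}

lemma det_diag_form (B U : Matrix (Fin N) (Fin N) ℝ) (lam : Fin N → ℝ) (h1 : Uᵀ * U = 1)
    (h2 : Uᵀ * B * U = diagonal lam) (t : ℝ) : (1 + t • B).det = ∏ i, (1 + t * lam i) := by
  have hdet : U.det * U.det = 1 := by
    have := congrArg Matrix.det h1
    rwa [det_mul, det_transpose, det_one] at this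
  have h3 : Uᵀ * (1 + t • B) * U = diagonal (fun i => 1 + t * lam i) := by
    rw [Matrix.mul_add, Matrix.add_mul, Matrix.mul_one, h1, Matrix.mul_smul, Matrix.smul_mul, h2]
    ext i j
    by_cases hij : i = j
    · subst hij; simp
    · simp [hij]
  have h4 := congrArg Matrix.det h3
  rw [det_mul, det_mul, det_transpose, det_diagonal] at h4
  rw [← h4]
  linear_combination (-(1 + t • B).det) * hdet

/-- **The comparison inequality.** -/
theorem matrix_ineq (hN : N = 2 * m) (A : Matrix (Fin N) (Fin N) ℝ) (a : Fin N → ℝ) {r b : ℝ}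
    (hr : 0 < r) (hb : b = min 1 (r ^ 2)) :
    ∑ j ∈ Finset.range (m + 1), ((r ^ 2) ^ j - b ^ m) * (cj m j * sg A (2 * j))
      ≤ √((1 + r ^ 2 • (A * Aᵀ + vecMulVec a a)).det)
        - b ^ m * √((1 + (A * Aᵀ + vecMulVec a a)).det) := by
  set B := A * Aᵀ + vecMulVec a a with hB
  have hBt : Bᵀ = B := by
    rw [hB, transpose_add, transpose_mul, transpose_transpose, transpose_vecMulVec]
  obtain ⟨U, lam, hU1, hU2, hdiag⟩ := Pool.Agent.Helper77.Star.exists_orth_diag B hBt
  set A₁ := Uᵀ * A * U with hA₁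
  have hdiag' : A₁ * A₁ᵀ + vecMulVec (Uᵀ *ᵥ a) (Uᵀ *ᵥ a) = diagonal lam := by
    rw [← hdiag, hB, hA₁, Matrix.mul_add, Matrix.add_mul]
    congr 1
    · rw [transpose_mul, transpose_mul, transpose_transpose]
      calc Uᵀ * A * U * (Uᵀ * (Aᵀ * U)) = Uᵀ * A * (U * Uᵀ) * (Aᵀ * U) := by
            simp only [Matrix.mul_assoc]
        _ = _ := by rw [hU2, Matrix.mul_one]; simp only [Matrix.mul_assoc]
    · rw [mul_vecMulVec, vecMulVec_mul, ← mulVec_transpose]
  have hrow : ∀ i, ∑ j, A₁ i j ^ 2 ≤ lam i := by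
    intro i
    have h := congrFun (congrFun hdiag' i) i
    rw [Matrix.add_apply, Matrix.mul_apply, vecMulVec_apply, diagonal_apply_eq] at h
    have h2 : ∑ j, A₁ i j ^ 2 = ∑ j, A₁ i j * A₁ᵀ j i :=
      Finset.sum_congr rfl (fun j _ => by rw [transpose_apply, sq])
    rw [h2, ← h]
    nlinarith [mul_self_nonneg ((Uᵀ *ᵥ a) i)]
  have hlam : ∀ i, 0 ≤ lam i := fun i => (Finset.sum_nonneg (fun j _ => sq_nonneg _)).trans (hrow i)
  set μ : Fin N → ℝ := fun i => √(lam i) with hμ
  have hμ0 : ∀ i, 0 ≤ μ i := fun i => Real.sqrt_nonneg _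
  have hμ2 : ∀ i, μ i ^ 2 = lam i := fun i => Real.sq_sqrt (hlam i)
  have hsg : ∀ k, sg A k = sg A₁ k := by
    refine fun k => sg_conj A A₁ (fun t => ?_) k
    have hdet : U.det * U.det = 1 := by
      have := congrArg Matrix.det hU1
      rwa [det_mul, det_transpose, det_one] at this
    have h3 : 1 + t • A₁ = Uᵀ * (1 + t • A) * U := by
      rw [Matrix.mul_add, Matrix.add_mul, Matrix.mul_one, hU1, Matrix.mul_smul, Matrix.smul_mul]
    rw [h3, det_mul, det_mul, det_transpose]
    linear_combination (-(1 + t • A).det) * hdet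
  have hb0 : 0 < b := by rw [hb]; exact lt_min one_pos (by positivity)
  have hb1 : b ≤ 1 := by rw [hb]; exact min_le_left _ _
  have hbr : b ≤ r ^ 2 := by rw [hb]; exact min_le_right _ _
  have h1 := pair_ineq (ι := Fin N) (m := m) (by rw [Fintype.card_fin, hN]) hr hb μ hμ0
  have h2 : ∏ i, √(1 + r ^ 2 * μ i ^ 2) = √((1 + r ^ 2 • B).det) := by
    rw [det_diag_form B U lam hU1 hdiag, Real.sqrt_prod _ (fun i _ => by
      have := hlam i
      positivity)]
    exact Finset.prod_congr rfl (fun i _ => by rw [hμ2])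
  have h3 : ∏ i, √(1 + μ i ^ 2) = √((1 + B).det) := by
    have h4 := det_diag_form B U lam hU1 hdiag 1
    rw [one_smul] at h4
    rw [h4, Real.sqrt_prod _ (fun i _ => by
      have := hlam i
      positivity)]
    exact Finset.prod_congr rfl (fun i _ => by rw [hμ2, one_mul])
  rw [h2, h3] at h1
  refine le_trans (Finset.sum_le_sum (fun j hj => ?_)) h1
  have hj : j ≤ m := by
    rw [Finset.mem_range] at hj; omega
  have hcoef : 0 ≤ (r ^ 2) ^ j - b ^ m := by
    have e1 : b ^ m ≤ b ^ j := pow_le_pow_of_le_one hb0.le hb1 hj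
    have e2 : b ^ j ≤ (r ^ 2) ^ j := pow_le_pow_left₀ hb0.le hbr j
    linarith
  refine mul_le_mul_of_nonneg_left (mul_le_mul_of_nonneg_left ?_ (cj_nonneg m j)) hcoef
  rw [hsg]
  refine (le_abs_self _).trans (abs_sg_le A₁ (2 * j) μ (fun i => ?_))
  exact Real.sqrt_le_sqrt (hrow i)

end Pool.Agent.Helper20.VF
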