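import Pool.Agent.Helper20.VF.NullV

/-!
# Null Lagrangians of unit fields: the integral identity
-/

open MeasureTheory Set Metric Filter Module Matrix
open scoped NNReal Topology RealInnerProductSpace ENNReal Real ContDiff

namespace Pool.Agent.Helper20.VF

/-- the radial cutoff. -/
noncomputable def bmp : ContDiffBump (5 / 2 : ℝ) := ⟨1 / 2, 1, by norm_num, by norm_num⟩

/-- the cutoff as a function. -/
noncomputable def psi (t : ℝ) : ℝ := bmp t

lemma psi_contDiff : ContDiff ℝ 2 psi := bmp.contDiff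

lemma psi_nonneg (t : ℝ) : 0 ≤ psi t := bmp.nonneg

lemma psi_zero {t : ℝ} (ht : 1 ≤ |t - 5 / 2|) : psi t = 0 :=
  bmp.zero_of_le_dist (by rw [Real.dist_eq]; exact ht)

lemma psi_one {t : ℝ} (ht : |t - 5 / 2| ≤ 1 / 2) : psi t = 1 :=
  bmp.one_of_mem_closedBall (by rw [mem_closedBall, Real.dist_eq]; exact ht)

lemma psi_hasDerivAt (t : ℝ) : HasDerivAt psi (deriv psi t) t :=
  (psi_contDiff.differentiable (by norm_num) t).hasDerivAt

lemma continuous_dpsi : Continuous (deriv psi) := psi_contDiff.continuous_deriv (by norm_num)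

lemma dpsi_zero {t : ℝ} (ht : 1 < |t - 5 / 2|) : deriv psi t = 0 := by
  have h : psi =ᶠ[𝓝 t] fun _ => 0 := by
    have hc : Continuous (fun u : ℝ => |u - 5 / 2|) := by fun_prop
    filter_upwards [(isOpen_lt continuous_const hc).mem_nhds ht] with u hu
    exact psi_zero (le_of_lt hu)
  rw [h.deriv_eq, deriv_const]

/-- radial integrals. -/
noncomputable def ra (N k : ℕ) : ℝ := ∫ r in Ioi (0 : ℝ), r ^ (N - 1) * (psi (r ^ 2) / r) ^ k

/-- radial integrals. -/
noncomputable def rb (N k : ℕ) : ℝ :=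
  ∫ r in Ioi (0 : ℝ), r ^ (N - 1) * (2 * r * deriv psi (r ^ 2) * (psi (r ^ 2) / r) ^ (k + 1))

lemma integral_Ioi_eq_one_two {f : ℝ → ℝ} (hf : ∀ r, 0 < r → r ∉ Ioc (1 : ℝ) 2 → f r = 0) :
    ∫ r in Ioi (0 : ℝ), f r = ∫ r in (1 : ℝ)..2, f r := by
  rw [intervalIntegral.integral_of_le (by norm_num)]
  refine setIntegral_eq_of_subset_of_forall_sdiff_eq_zero measurableSet_Ioi
    (fun r hr => ?_) (fun r hr => ?_)
  · exact mem_Ioi.2 (by linarith [hr.1])
  · exact hf r hr.1 hr.2

lemma psi_sq_zero {r : ℝ} (hr : 0 < r) (h : r ∉ Ioc (1 : ℝ) 2) : psi (r ^ 2) = 0 := by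
  refine psi_zero ?_
  rw [mem_Ioc, not_and_or, not_lt, not_le] at h
  rcases h with h | h
  · have : r ^ 2 ≤ 1 := by nlinarith
    rw [abs_sub_comm]
    exact le_trans (by linarith) (le_abs_self _)
  · have : 4 ≤ r ^ 2 := by nlinarith
    exact le_trans (by linarith) (le_abs_self _)

lemma ra_eq (N k : ℕ) (hk : k ≠ 0) :
    ra N k = ∫ r in (1 : ℝ)..2, r ^ (N - 1) * (psi (r ^ 2) / r) ^ k := by
  refine integral_Ioi_eq_one_two (fun r hr h => ?_)
  rw [psi_sq_zero hr h, zero_div, zero_pow hk, mul_zero]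

lemma rb_eq (N k : ℕ) :
    rb N k = ∫ r in (1 : ℝ)..2, r ^ (N - 1) * (2 * r * deriv psi (r ^ 2) * (psi (r ^ 2) / r) ^ (k + 1)) := by
  refine integral_Ioi_eq_one_two (fun r hr h => ?_)
  rw [psi_sq_zero hr h, zero_div, zero_pow (by omega)]
  ring

lemma continuousOn_psi_div : ContinuousOn (fun r : ℝ => psi (r ^ 2) / r) (Icc 1 2) := by
  refine ContinuousOn.div ?_ continuousOn_id (fun r hr => ?_)
  · exact (psi_contDiff.continuous.comp (by fun_prop)).continuousOn
  · have := hr.1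
    linarith

lemma ra_pos (N k : ℕ) (hk : k ≠ 0) : 0 < ra N k := by
  rw [ra_eq N k hk]
  refine intervalIntegral.integral_pos (by norm_num) ?_ (fun r hr => ?_) ⟨8 / 5, by norm_num, ?_⟩
  · exact (by fun_prop : Continuous fun r : ℝ => r ^ (N - 1)).continuousOn.mul
      (continuousOn_psi_div.pow k)
  · have h1 := psi_nonneg (r ^ 2)
    have h2 : 0 < r := by linarith [hr.1]
    positivity
  · rw [psi_one (by norm_num)]
    positivity

lemma ra_rb (N k : ℕ) (hN : 1 ≤ N) :
    ((k : ℝ) + 2) * rb N k + ((N : ℝ) - (k + 2)) * ra N (k + 2) = 0 := by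
  rw [rb_eq, ra_eq N (k + 2) (by omega), ← intervalIntegral.integral_const_mul,
    ← intervalIntegral.integral_const_mul, ← intervalIntegral.integral_add]
  · have hder : ∀ r ∈ uIcc (1 : ℝ) 2, HasDerivAt (fun r => r ^ N * (psi (r ^ 2) / r) ^ (k + 2))
        (((k : ℝ) + 2) * (r ^ (N - 1) * (2 * r * deriv psi (r ^ 2) * (psi (r ^ 2) / r) ^ (k + 1)))
          + ((N : ℝ) - (k + 2)) * (r ^ (N - 1) * (psi (r ^ 2) / r) ^ (k + 2))) r := by
      intro r hr
      rw [uIcc_of_le (by norm_num)] at hr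
      have hr0 : r ≠ 0 := by
        have := hr.1
        linarith
      have h1 : HasDerivAt (fun r : ℝ => psi (r ^ 2)) (deriv psi (r ^ 2) * (2 * r)) r := by
        have := (psi_hasDerivAt (r ^ 2)).comp r ((hasDerivAt_pow 2 r))
        refine this.congr_deriv ?_
        ring
      have h2 := ((hasDerivAt_pow N r).mul (((h1.div (hasDerivAt_id r) hr0)).pow (k + 2)))
      refine (h2.congr_of_eventuallyEq (Eventually.of_forall fun s => ?_)).congr_deriv ?_
      · simp
      · obtain ⟨M, rfl⟩ : ∃ M, N = M + 1 := ⟨N - 1, by omega⟩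
        simp only [id_eq, Pi.div_apply, Pi.pow_apply, Nat.add_sub_cancel,
          show k + 2 - 1 = k + 1 by omega]
        push_cast
        have e1 : (psi (r ^ 2) / r) ^ (k + 2) = (psi (r ^ 2) / r) ^ (k + 1) * (psi (r ^ 2) / r) :=
          pow_succ _ _
        rw [e1]
        generalize (psi (r ^ 2) / r) ^ (k + 1) = Q
        field_simp
        ring
    rw [intervalIntegral.integral_eq_sub_of_hasDerivAt hder]
    · have h1 : psi ((2 : ℝ) ^ 2) = 0 := psi_zero (by norm_num)
      have h2 : psi ((1 : ℝ) ^ 2) = 0 := psi_zero (by norm_num)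
      rw [h1, h2, zero_div, zero_div, zero_pow (by omega)]
      ring
    · refine ContinuousOn.intervalIntegrable ?_
      rw [uIcc_of_le (by norm_num)]
      have c1 : Continuous (fun r : ℝ => deriv psi (r ^ 2)) := continuous_dpsi.comp (by fun_prop)
      have c2 := continuousOn_psi_div
      fun_prop
  · refine ContinuousOn.intervalIntegrable ?_
    rw [uIcc_of_le (by norm_num)]
    have c1 : Continuous (fun r : ℝ => deriv psi (r ^ 2)) := continuous_dpsi.comp (by fun_prop)
    have c2 := continuousOn_psi_div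
    fun_prop
  · refine ContinuousOn.intervalIntegrable ?_
    rw [uIcc_of_le (by norm_num)]
    have c2 := continuousOn_psi_div
    fun_prop

variable {n : ℕ}
variable {E : Type*} [NormedAddCommGroup E] [InnerProductSpace ℝ E] [FiniteDimensional ℝ E]
  [MeasurableSpace E] [BorelSpace E]
variable {V : E → E}

lemma cutoff_continuous {φ : ℝ → ℝ} (hφ : Continuous φ) (h0 : ∀ t, 1 < |t - 5 / 2| → φ t = 0)
    {F : E → ℝ} (hF : ContinuousOn F {0}ᶜ) : Continuous (fun x : E => φ (‖x‖ ^ 2) * F x) := by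
  rw [continuous_iff_continuousAt]
  intro x
  by_cases hx : x = 0
  · subst hx
    have h1 : (fun x : E => φ (‖x‖ ^ 2) * F x) =ᶠ[𝓝 0] fun _ => 0 := by
      filter_upwards [ball_mem_nhds (0 : E) one_pos] with y hy
      rw [mem_ball_zero_iff] at hy
      have h2 : ‖y‖ ^ 2 < 1 := by nlinarith [norm_nonneg y]
      rw [h0 _ (by rw [abs_sub_comm]; exact lt_of_lt_of_le (by linarith) (le_abs_self _)), zero_mul]
    exact (continuousAt_const).congr h1.symm
  · exact ((hφ.comp (by fun_prop : Continuous fun x : E => ‖x‖ ^ 2)).continuousAt).mul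
      (hF.continuousAt (isOpen_compl_singleton.mem_nhds hx))

lemma cutoff_support {φ : ℝ → ℝ} (h0 : ∀ t, 1 < |t - 5 / 2| → φ t = 0) (F : E → ℝ) :
    HasCompactSupport (fun x : E => φ (‖x‖ ^ 2) * F x) := by
  refine HasCompactSupport.intro (isCompact_closedBall (0 : E) 2) (fun x hx => ?_)
  rw [mem_closedBall_zero_iff, not_le] at hx
  have h2 : 4 < ‖x‖ ^ 2 := by nlinarith
  rw [h0 _ (lt_of_lt_of_le (by linarith) (le_abs_self _)), zero_mul]

lemma cutoff_integrable {φ : ℝ → ℝ} (hφ : Continuous φ) (h0 : ∀ t, 1 < |t - 5 / 2| → φ t = 0)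
    {F : E → ℝ} (hF : ContinuousOn F {0}ᶜ) : Integrable (fun x : E => φ (‖x‖ ^ 2) * F x) :=
  (cutoff_continuous hφ h0 hF).integrable_of_hasCompactSupport (cutoff_support h0 F)

/-- integral of the elementary symmetric functions. -/
noncomputable def Ik (V : E → E) (k : ℕ) : ℝ :=
  ∫ u : sphere (0 : E) 1, sgE (Lw V u) k ∂(volume : Measure E).toSphere

lemma continuousOn_Lw (hV : UField V) : ContinuousOn (Lw V) {0}ᶜ := by
  unfold Lw tanPart
  have h1 := continuousOn_fderiv_V hV
  refine h1.sub ?_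
  have h2 : ContinuousOn (fun x : E => (innerSL ℝ x) ∘L (fderiv ℝ V x)) {0}ᶜ :=
    ((innerSL ℝ (E := E)).continuous.continuousOn).clm_comp h1
  exact (((ContinuousLinearMap.smulRightL ℝ E E).continuous.comp_continuousOn h2)).clm_apply
    continuousOn_id

lemma continuousOn_sgE (hV : UField V) (k : ℕ) :
    ContinuousOn (fun x : E => sgE (Lw V (‖x‖⁻¹ • x)) k) {0}ᶜ := by
  refine (continuous_sgE k).comp_continuousOn ((continuousOn_Lw hV).comp
    (ContinuousOn.smul (ContinuousOn.inv₀ (by fun_prop)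
      (fun x hx => norm_ne_zero_iff.2 hx)) continuousOn_id) (fun x hx => ?_))
  intro h
  have h1 : ‖‖x‖⁻¹ • x‖ = 1 := by
    rw [norm_smul, norm_inv, norm_norm, inv_mul_cancel₀ (norm_ne_zero_iff.2 hx)]
  rw [mem_singleton_iff] at h
  rw [h, norm_zero] at h1
  exact zero_ne_one h1

/-- first family. -/
noncomputable def g1 (V : E → E) (k : ℕ) (x : E) : ℝ :=
  psi (‖x‖ ^ 2) ^ k * ((‖x‖⁻¹) ^ k * sgE (Lw V (‖x‖⁻¹ • x)) k)

/-- second family. -/
noncomputable def g2 (V : E → E) (k : ℕ) (x : E) : ℝ :=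
  (deriv psi (‖x‖ ^ 2) * psi (‖x‖ ^ 2) ^ (k + 1))
    * (2 * ‖x‖ * (‖x‖⁻¹) ^ (k + 1) * sgE (Lw V (‖x‖⁻¹ • x)) k)

lemma norm_inv_cont : ContinuousOn (fun x : E => ‖x‖⁻¹) {0}ᶜ :=
  ContinuousOn.inv₀ (by fun_prop) (fun x hx => norm_ne_zero_iff.2 hx)

lemma g1_integrable (hV : UField V) {k : ℕ} (hk : k ≠ 0) : Integrable (g1 V k) := by
  unfold g1
  refine cutoff_integrable (φ := fun t => psi t ^ k) (psi_contDiff.continuous.pow k)
    (fun t ht => by rw [psi_zero ht.le, zero_pow hk]) ?_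
  exact (norm_inv_cont.pow k).mul (continuousOn_sgE hV k)

lemma g2_integrable (hV : UField V) (k : ℕ) : Integrable (g2 V k) := by
  unfold g2
  refine cutoff_integrable (φ := fun t => deriv psi t * psi t ^ (k + 1))
    (continuous_dpsi.mul (psi_contDiff.continuous.pow _))
    (fun t ht => by rw [psi_zero ht.le, zero_pow (by omega), mul_zero]) ?_
  have h1 : ContinuousOn (fun x : E => 2 * ‖x‖) {0}ᶜ := by fun_prop
  exact (h1.mul (norm_inv_cont.pow (k + 1))).mul (continuousOn_sgE hV k)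

lemma g1_integral [Nontrivial E] (k : ℕ) : ∫ x, g1 V k x = Ik V k * ra (finrank ℝ E) k := by
  rw [integral_polar_mul (g1 V k) (fun u => sgE (Lw V u) k) (fun r => (psi (r ^ 2) / r) ^ k)]
  · rfl
  · intro u hu r hr
    have h1 : ‖r • u‖ = r := by rw [norm_smul, hu, mul_one, Real.norm_eq_abs, abs_of_pos hr]
    rw [g1, h1, smul_smul, inv_mul_cancel₀ hr.ne', one_smul, div_pow, inv_pow]
    field_simp

lemma g2_integral [Nontrivial E] (k : ℕ) : ∫ x, g2 V k x = Ik V k * rb (finrank ℝ E) k := by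
  rw [integral_polar_mul (g2 V k) (fun u => sgE (Lw V u) k)
    (fun r => 2 * r * deriv psi (r ^ 2) * (psi (r ^ 2) / r) ^ (k + 1))]
  · rfl
  · intro u hu r hr
    have h1 : ‖r • u‖ = r := by rw [norm_smul, hu, mul_one, Real.norm_eq_abs, abs_of_pos hr]
    rw [g2, h1, smul_smul, inv_mul_cancel₀ hr.ne', one_smul, div_pow, inv_pow]
    field_simp

/-- the compactly supported field. -/
noncomputable def hf (V : E → E) (x : E) : E := psi (‖x‖ ^ 2) • V x

lemma contDiff_hf (hV : UField V) : ContDiff ℝ 1 (hf V) := by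
  rw [contDiff_iff_contDiffAt]
  intro x
  by_cases hx : x = 0
  · subst hx
    have h1 : hf V =ᶠ[𝓝 0] fun _ => 0 := by
      filter_upwards [ball_mem_nhds (0 : E) one_pos] with y hy
      rw [mem_ball_zero_iff] at hy
      have h2 : ‖y‖ ^ 2 < 1 := by nlinarith [norm_nonneg y]
      rw [hf, psi_zero (by rw [abs_sub_comm]; exact le_trans (by linarith) (le_abs_self _)), zero_smul]
    exact contDiffAt_const.congr_of_eventuallyEq h1
  · have h1 : ContDiffAt ℝ 1 (fun x : E => psi (‖x‖ ^ 2)) x :=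
      ((psi_contDiff.of_le (by norm_num)).comp (contDiff_norm_sq ℝ)).contDiffAt
    exact h1.smul ((hV.smooth x hx).contDiffAt (isOpen_compl_singleton.mem_nhds hx))

lemma hasCompactSupport_hf : HasCompactSupport (hf V) := by
  refine HasCompactSupport.intro (isCompact_closedBall (0 : E) 2) (fun x hx => ?_)
  rw [mem_closedBall_zero_iff, not_le] at hx
  have h2 : 4 < ‖x‖ ^ 2 := by nlinarith
  rw [hf, psi_zero (le_trans (by linarith) (le_abs_self _)), zero_smul]

lemma det_hf (hV : UField V) (hfr : finrank ℝ E = n + 3) {x : E} (hx : x ≠ 0) (s : ℝ) :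
    (ContinuousLinearMap.id ℝ E + s • fderiv ℝ (hf V) x).det - 1
      = (∑ k ∈ Finset.range (finrank ℝ E), s ^ (k + 1) * g1 V (k + 1) x)
        + ∑ k ∈ Finset.range (finrank ℝ E + 1), s ^ (k + 2) * g2 V k x := by
  have hn0 : 0 < ‖x‖ := norm_pos_iff.2 hx
  set r := ‖x‖ with hr
  set w0 := r⁻¹ • x with hw0
  have hw01 : ‖w0‖ = 1 := by rw [hw0, norm_smul, norm_inv, ← hr, Real.norm_eq_abs, abs_of_pos hn0,
    inv_mul_cancel₀ hn0.ne']
  have hxw0 : x = r • w0 := by rw [hw0, smul_smul, mul_inv_cancel₀ hn0.ne', one_smul]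
  have hder : HasFDerivAt (hf V)
      (psi (r ^ 2) • fderiv ℝ V x + ((deriv psi (r ^ 2)) • (2 • innerSL ℝ x)).smulRight (V x)) x := by
    have h1 : HasFDerivAt (fun x : E => psi (‖x‖ ^ 2)) ((deriv psi (r ^ 2)) • (2 • innerSL ℝ x)) x :=
      (psi_hasDerivAt (r ^ 2)).comp_hasFDerivAt x (hasStrictFDerivAt_norm_sq x).hasFDerivAt
    exact h1.smul (uf_hasFDerivAt hV hx)
  have hVx : V x = V w0 := by rw [hxw0, hV.homog w0 r hn0]
  have hDV : fderiv ℝ V x = r⁻¹ • fderiv ℝ V w0 := by
    rw [hxw0]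
    exact fderiv_smul_of_homog hn0.ne' (fun X => hV.homog X r hn0) w0
  have hop : ContinuousLinearMap.id ℝ E + s • fderiv ℝ (hf V) x
      = 1 + (s * (2 * r * deriv psi (r ^ 2))) • (innerSL ℝ w0).smulRight (V w0)
        + (s * (psi (r ^ 2) / r)) • fderiv ℝ V w0 := by
    rw [hder.fderiv, hDV, hVx]
    ext δ
    have e2 : ⟪x, δ⟫ = r * ⟪w0, δ⟫ := by
      conv_lhs => rw [hxw0]
      rw [inner_smul_left]; rfl
    simp only [_root_.add_apply, _root_.smul_apply, ContinuousLinearMap.smulRight_apply,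
      innerSL_apply_apply, one_apply_eq_self, ContinuousLinearMap.id_apply, e2]
    rw [div_eq_mul_inv]
    simp only [nsmul_eq_mul, smul_eq_mul, Nat.cast_ofNat]
    module
  rw [hop, det_field hV hfr hw01]
  have hg1 : ∀ k, g1 V k x = (psi (r ^ 2) / r) ^ k * sgE (Lw V w0) k := by
    intro k
    rw [g1, ← hr, ← hw0, div_eq_mul_inv, mul_pow]
    ring
  have hg2 : ∀ k, g2 V k x = (2 * r * deriv psi (r ^ 2)) * (psi (r ^ 2) / r) ^ (k + 1)
      * sgE (Lw V w0) k := by
    intro k
    rw [g2, ← hr, ← hw0, div_eq_mul_inv, mul_pow]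
    ring
  simp_rw [hg1, hg2]
  generalize psi (r ^ 2) / r = q
  generalize 2 * r * deriv psi (r ^ 2) = l
  have hA : ∑ k ∈ Finset.range (finrank ℝ E + 1), (s * q) ^ k * sgE (Lw V w0) k
      = (∑ k ∈ Finset.range (finrank ℝ E), s ^ (k + 1) * (q ^ (k + 1) * sgE (Lw V w0) (k + 1))) + 1 := by
    rw [Finset.sum_range_succ' (fun k => (s * q) ^ k * sgE (Lw V w0) k), sgE_zero, pow_zero, one_mul]
    congr 1
    refine Finset.sum_congr rfl (fun k _ => ?_)
    rw [mul_pow]; ring
  have hB : s * l * (s * q) * ∑ k ∈ Finset.range (finrank ℝ E + 1), (s * q) ^ k * sgE (Lw V w0) k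
      = ∑ k ∈ Finset.range (finrank ℝ E + 1), s ^ (k + 2) * (l * q ^ (k + 1) * sgE (Lw V w0) k) := by
    rw [Finset.mul_sum]
    refine Finset.sum_congr rfl (fun k _ => ?_)
    rw [mul_pow]; ring
  rw [add_mul, one_mul, hB, hA]
  ring

/-- the polynomial identity for the integrals. -/
lemma Ik_identity [Nontrivial E] (hV : UField V) (hfr : finrank ℝ E = n + 3) :
    ∃ δ > 0, ∀ s : ℝ, |s| < δ →
      (∑ k ∈ Finset.range (finrank ℝ E), s ^ (k + 1) * (Ik V (k + 1) * ra (finrank ℝ E) (k + 1)))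
        + ∑ k ∈ Finset.range (finrank ℝ E + 1), s ^ (k + 2) * (Ik V k * rb (finrank ℝ E) k) = 0 := by
  have hsupp : tsupport (hf V) ⊆ ball (0 : E) 3 := by
    refine (closure_minimal (fun x hx => ?_) isClosed_closedBall).trans
      (closedBall_subset_ball (by norm_num : (2 : ℝ) < 3))
    rw [mem_closedBall_zero_iff]
    by_contra h
    rw [not_le] at h
    refine hx ?_
    have h2 : 4 < ‖x‖ ^ 2 := by nlinarith
    rw [hf, psi_zero (le_trans (by linarith) (le_abs_self _)), zero_smul]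
  obtain ⟨δ, hδ, hint⟩ := integral_det_id_add (volume : Measure E) (hf V) (contDiff_hf hV)
    hasCompactSupport_hf hsupp
  refine ⟨δ, hδ, fun s hs => ?_⟩
  have h1 := hint s hs
  have hcD : Continuous (fun x : E => (ContinuousLinearMap.id ℝ E + s • fderiv ℝ (hf V) x).det) := by
    refine ContinuousLinearMap.continuous_det.comp ?_
    exact continuous_const.add (((contDiff_hf hV).continuous_fderiv one_ne_zero).const_smul s)
  have hfin : volume (ball (0 : E) 3) ≠ ⊤ := measure_ball_lt_top.ne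
  have hI1 : IntegrableOn (fun x : E => (ContinuousLinearMap.id ℝ E + s • fderiv ℝ (hf V) x).det)
      (ball 0 3) :=
    (hcD.continuousOn.integrableOn_compact (isCompact_closedBall (0 : E) 3)).mono_set
      ball_subset_closedBall
  have hI2 : IntegrableOn (fun _ : E => (1 : ℝ)) (ball 0 3) := integrableOn_const hfin
  have h2 : ∫ x in ball (0 : E) 3, ((ContinuousLinearMap.id ℝ E + s • fderiv ℝ (hf V) x).det - 1) = 0 := by
    rw [integral_sub hI1 hI2, h1]
    simp
  have h3 : ∫ x : E, ((ContinuousLinearMap.id ℝ E + s • fderiv ℝ (hf V) x).det - 1) = 0 := by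
    rw [← h2]
    refine (setIntegral_eq_integral_of_forall_compl_eq_zero (fun x hx => ?_)).symm
    have hx' : x ∉ tsupport (fderiv ℝ (hf V)) := fun h => hx (hsupp (tsupport_fderiv_subset ℝ h))
    rw [image_eq_zero_of_notMem_tsupport hx', smul_zero, add_zero]
    simp [ContinuousLinearMap.det]
  have h4 : ∫ x : E, ((ContinuousLinearMap.id ℝ E + s • fderiv ℝ (hf V) x).det - 1)
      = ∫ x : E, ((∑ k ∈ Finset.range (finrank ℝ E), s ^ (k + 1) * g1 V (k + 1) x)
        + ∑ k ∈ Finset.range (finrank ℝ E + 1), s ^ (k + 2) * g2 V k x) := by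
    refine integral_congr_ae ?_
    have : ∀ᵐ x : E, x ≠ 0 := by
      rw [ae_iff]
      simp
    filter_upwards [this] with x hx
    exact det_hf hV hfr hx s
  rw [h4, integral_add, integral_finsetSum, integral_finsetSum] at h3
  · simp_rw [integral_const_mul, g1_integral, g2_integral] at h3
    exact h3
  · exact fun k _ => (g2_integrable hV k).const_mul _
  · exact fun k _ => (g1_integrable hV (Nat.succ_ne_zero k)).const_mul _
  · exact integrable_finsetSum _ (fun k _ => (g1_integrable hV (Nat.succ_ne_zero k)).const_mul _)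
  · exact integrable_finsetSum _ (fun k _ => (g2_integrable hV k).const_mul _)

/-- vanishing of a polynomial near `0`. -/
lemma poly_zero {N : ℕ} (f : ℕ → ℝ) {δ : ℝ} (hδ : 0 < δ)
    (h : ∀ s : ℝ, |s| < δ → ∑ k ∈ Finset.range N, s ^ k * f k = 0) {k : ℕ} (hk : k < N) : f k = 0 := by
  have hp : (∑ j ∈ Finset.range N, Polynomial.C (f j) * Polynomial.X ^ j : Polynomial ℝ) = 0 := by
    refine Polynomial.eq_zero_of_infinite_isRoot _ ?_
    refine Set.Infinite.mono (s := Ioo 0 δ) (fun s hs => ?_) (Ioo_infinite hδ)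
    have h1 := h s (by rw [abs_of_pos hs.1]; exact hs.2)
    simp only [mem_ofPred_eq, Polynomial.IsRoot.def, Polynomial.eval_finsetSum, Polynomial.eval_mul,
      Polynomial.eval_C, Polynomial.eval_pow, Polynomial.eval_X]
    simpa only [mul_comm] using h1
  have h2 := congrArg (fun p => p.coeff k) hp
  simp only [Polynomial.finsetSum_coeff, Polynomial.coeff_C_mul, Polynomial.coeff_X_pow,
    Polynomial.coeff_zero] at h2
  simpa [hk] using h2

/-- **The recursion.** -/
lemma Ik_rec [Nontrivial E] (hV : UField V) (hfr : finrank ℝ E = n + 3) {k : ℕ}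
    (hk : k + 2 ≤ finrank ℝ E) :
    ((k : ℝ) + 2) * Ik V (k + 2) = ((finrank ℝ E : ℝ) - (k + 2)) * Ik V k := by
  obtain ⟨δ, hδ, h⟩ := Ik_identity hV hfr
  set N := finrank ℝ E with hN
  have hk2 : ∀ s : ℝ, |s| < δ → ∑ j ∈ Finset.range (N + 3), s ^ j *
      ((if j = 0 ∨ N < j then 0 else Ik V j * ra N j)
        + (if j < 2 then 0 else Ik V (j - 2) * rb N (j - 2))) = 0 := by
    intro s hs
    refine Eq.trans ?_ (h s hs)
    simp_rw [mul_add]
    rw [Finset.sum_add_distrib]
    congr 1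
    · rw [Finset.sum_range_succ, Finset.sum_range_succ, Finset.sum_range_succ']
      have e1 : (if N + 1 = 0 ∨ N < N + 1 then (0 : ℝ) else Ik V (N + 1) * ra N (N + 1)) = 0 :=
        if_pos (Or.inr (by omega))
      have e2 : (if N + 2 = 0 ∨ N < N + 2 then (0 : ℝ) else Ik V (N + 2) * ra N (N + 2)) = 0 :=
        if_pos (Or.inr (by omega))
      have e3 : (if (0 : ℕ) = 0 ∨ N < 0 then (0 : ℝ) else Ik V 0 * ra N 0) = 0 := if_pos (Or.inl rfl)
      rw [e1, e2, e3, mul_zero, mul_zero, mul_zero, add_zero, add_zero, add_zero]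
      refine Finset.sum_congr rfl (fun j hj => ?_)
      rw [Finset.mem_range] at hj
      rw [if_neg (by omega)]
    · rw [Finset.sum_range_succ' _ (N + 2), Finset.sum_range_succ' _ (N + 1)]
      simp only [Nat.zero_add, lt_add_iff_pos_left, zero_lt_one, if_true, mul_zero, add_zero]
      have e4 : (if (0 : ℕ) < 2 then (0 : ℝ) else Ik V (0 - 2) * rb N (0 - 2)) = 0 :=
        if_pos (by norm_num)
      have e5 : (if (1 : ℕ) < 2 then (0 : ℝ) else Ik V (1 - 2) * rb N (1 - 2)) = 0 :=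
        if_pos (by norm_num)
      rw [e4, e5, mul_zero, mul_zero, add_zero, add_zero]
      refine Finset.sum_congr rfl (fun j hj => ?_)
      rw [if_neg (by omega), show j + 1 + 1 = j + 2 by ring, Nat.add_sub_cancel]
  have h3 := poly_zero _ hδ hk2 (k := k + 2) (by omega)
  rw [if_neg (by omega), if_neg (by omega), Nat.add_sub_cancel] at h3
  have h4 := ra_rb N k (by omega)
  have h5 := ra_pos N (k + 2) (by omega)
  have h6 : (((k : ℝ) + 2) * Ik V (k + 2) - ((N : ℝ) - (k + 2)) * Ik V k) * ra N (k + 2) = 0 := by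
    linear_combination ((k : ℝ) + 2) * h3 - Ik V k * h4
  rcases mul_eq_zero.1 h6 with h7 | h7
  · linarith
  · exact absurd h7 h5.ne'

/-- **The integrals of the even elementary symmetric functions.** -/
theorem Ik_even [Nontrivial E] (hV : UField V) {m : ℕ} (hm : 1 ≤ m) (hfr : finrank ℝ E = 2 * m + 2)
    {j : ℕ} (hj : j ≤ m) :
    Ik V (2 * j) = (m.choose j : ℝ) * (volume : Measure E).toSphere.real univ := by
  induction j with
  | zero =>
    simp only [Ik, mul_zero, sgE_zero, Nat.choose_zero_right, Nat.cast_one, one_mul]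
    simp
  | succ j ih =>
    have h1 := Ik_rec hV (n := 2 * m - 1) (by omega) (k := 2 * j) (by omega)
    rw [hfr, ih (by omega)] at h1
    have h2 := Nat.choose_succ_right_eq m j
    have h3 : ((m.choose (j + 1) : ℕ) : ℝ) * ((j : ℝ) + 1) = (m.choose j : ℝ) * ((m : ℝ) - j) := by
      have := congrArg (fun x : ℕ => (x : ℝ)) h2
      push_cast [Nat.cast_sub (by omega : j ≤ m)] at this
      exact this
    have h4 : (2 : ℝ) * (j + 1) ≠ 0 := by positivity
    refine mul_left_cancel₀ h4 ?_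
    rw [show 2 * (j + 1) = 2 * j + 2 by ring]
    push_cast at h1
    calc 2 * ((j : ℝ) + 1) * Ik V (2 * j + 2) = (2 * (j : ℝ) + 2) * Ik V (2 * j + 2) := by ring
      _ = (2 * (m : ℝ) + 2 - (2 * j + 2)) * (↑(m.choose j) * (volume : Measure E).toSphere.real univ) := h1
      _ = 2 * ((m.choose j : ℝ) * ((m : ℝ) - j)) * (volume : Measure E).toSphere.real univ := by ring
      _ = 2 * ((m.choose (j + 1) : ℝ) * ((j : ℝ) + 1)) * (volume : Measure E).toSphere.real univ := by
          rw [h3]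
      _ = _ := by ring

end Pool.Agent.Helper20.VF
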