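import Mathlib
import Pool.Agent.Helper20.VF.NullInt
import Pool.Agent.Helper20.VF.Const
import Pool.Agent.Helper20.VF.MatIneq

/-!
# The bound for fields of arbitrary constant length
-/

open MeasureTheory Set Metric Filter Module Matrix
open scoped NNReal Topology RealInnerProductSpace ENNReal Real ContDiff Manifold

namespace Pool.Agent.Helper20.VF

variable {n : ℕ}
variable {E : Type*} [NormedAddCommGroup E] [InnerProductSpace ℝ E] [FiniteDimensional ℝ E]
variable {V : E → E}

/-- the pointwise inequality. -/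
lemma pointwise_r (hV : UField V) {m : ℕ} (hm : 1 ≤ m) (hfr : finrank ℝ E = 2 * m + 2) {x : E}
    (hx : ‖x‖ = 1) {r b : ℝ} (hr : 0 < r) (hb : b = min 1 (r ^ 2)) :
    (∑ j ∈ Finset.range (m + 1), ((r ^ 2) ^ j - b ^ m) * (cj m j * sgE (Lw V x) (2 * j)))
      + b ^ m * Jd V x ≤ volDens (r • Lw V x) := by
  have hx0 : x ≠ 0 := by rintro rfl; simp at hx
  have hfr' : finrank ℝ E = (2 * m - 1) + 3 := by omega
  obtain ⟨bs, hb0, hb1⟩ := exists_adapted hfr' hx (hV.unit x hx0) (hV.tang x)
  set T := fderiv ℝ V x with hT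
  have hTx : T (bs (Sum.inl 0)) = 0 := by rw [hb0]; exact uf_apply_self hV hx0
  have hTv : ∀ δ, ⟪bs (Sum.inl 1), T δ⟫ = 0 := fun δ => by rw [hb1]; exact uf_inner_V hV hx0 δ
  have hLk : ∀ (k : Fin 2) δ, ⟪bs (Sum.inl k), Lw V x δ⟫ = 0 := by
    intro k δ
    fin_cases k
    · simp only [Fin.zero_eta, hb0]; exact inner_x_Lw hV hx δ
    · simp only [Fin.mk_one, hb1]; exact inner_V_Lw hV hx0 δ
  have hAm : Am bs (Lw V x) = Am bs T := by
    ext i j
    simp only [Am, Matrix.of_apply]
    have h0 : ⟪bs (Sum.inr i), x⟫ = 0 := by rw [← hb0]; exact b_inr_inl _ _ _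
    rw [Lw_apply hV hx0, inner_add_right, inner_smul_right, h0, mul_zero, add_zero]
  have h1 : Jd V x = √((1 + (Am bs T * (Am bs T)ᵀ + vecMulVec (av bs T) (av bs T))).det) := by
    have := volDens_coord bs T hTx hTv
    rw [hb0] at this
    rw [Jd, this, add_assoc]
  have h2 : volDens (r • Lw V x)
      = √((1 + r ^ 2 • (Am bs T * (Am bs T)ᵀ + vecMulVec (av bs T) (av bs T))).det) := by
    have h3 := volDens_coord bs (r • T) (by rw [_root_.smul_apply, hTx, smul_zero])
      (fun δ => by rw [_root_.smul_apply, inner_smul_right, hTv, mul_zero])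
    rw [hb0] at h3
    have h4 : tanPart x (r • T) = r • Lw V x := by
      ext δ
      simp only [Lw, tanPart_apply, _root_.smul_apply, inner_smul_right, ← hT]
      module
    have h5 : Am bs (r • T) = r • Am bs T := by
      ext i j
      simp only [Am, Matrix.of_apply, _root_.smul_apply, inner_smul_right, Matrix.smul_apply,
        smul_eq_mul]
    have h6 : av bs (r • T) = r • av bs T := by
      ext i
      simp only [av, _root_.smul_apply, inner_smul_right, Pi.smul_apply, smul_eq_mul]
    rw [h4, h5, h6] at h3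
    rw [h3]
    congr 2
    rw [transpose_smul, Matrix.smul_mul, Matrix.mul_smul, smul_smul, smul_vecMulVec, vecMulVec_smul,
      smul_smul, ← sq, smul_add, add_assoc]
  have h3 := matrix_ineq (N := 2 * m - 1 + 1) (m := m) (by omega) (Am bs T) (av bs T) hr hb
  rw [← h1, ← h2] at h3
  have h4 : ∀ j ∈ Finset.range (m + 1), ((r ^ 2) ^ j - b ^ m) * (cj m j * sgE (Lw V x) (2 * j))
      = ((r ^ 2) ^ j - b ^ m) * (cj m j * sg (Am bs T) (2 * j)) := by
    intro j hj
    rw [Finset.mem_range] at hj
    rw [sgE_eq_sg hfr' bs (Lw V x) hLk (by omega), hAm]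
  rw [Finset.sum_congr rfl h4]
  linarith

variable [MeasurableSpace E] [BorelSpace E]

/-- **The bound for all lengths**, for homogeneous fields. -/
theorem main_r {m : ℕ} (hm : 2 ≤ m) (hfr : finrank ℝ E = 2 * m + 2) (hV : UField V) {r b : ℝ}
    (hr : 0 < r) (hb : b = min 1 (r ^ 2)) :
    ((∑ j ∈ Finset.range (m + 1), ((r ^ 2) ^ j - b ^ m) * (cj m j * (m.choose j : ℝ)))
      + b ^ m * bm m) * (volume : Measure E).toSphere.real univ
      ≤ ∫ u : sphere (0 : E) 1, volDens (r • Lw V u) ∂(volume : Measure E).toSphere := by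
  have hnt : Nontrivial E := Module.nontrivial_of_finrank_pos (R := ℝ) (by omega)
  set S := (volume : Measure E).toSphere with hS
  have hb0 : 0 < b := by rw [hb]; exact lt_min one_pos (by positivity)
  have hLc : Continuous (fun u : sphere (0 : E) 1 => Lw V u) := by
    refine (continuousOn_Lw hV).comp_continuous continuous_subtype_val (fun u h => ?_)
    have h1 : ‖(u : E)‖ = 1 := mem_sphere_zero_iff_norm.1 u.2
    rw [mem_singleton_iff] at h
    rw [h, norm_zero] at h1
    exact zero_ne_one h1
  have hcomp : CompactSpace (sphere (0 : E) 1) := isCompact_iff_compactSpace.1 (isCompact_sphere _ _)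
  have hint : ∀ f : (E →L[ℝ] E) → ℝ, Continuous f →
      Integrable (fun u : sphere (0 : E) 1 => f (Lw V u)) S := fun f hf =>
    (hf.comp hLc).integrable_of_hasCompactSupport (HasCompactSupport.of_compactSpace _)
  have i1 : ∀ j, Integrable (fun u : sphere (0 : E) 1 =>
      ((r ^ 2) ^ j - b ^ m) * (cj m j * sgE (Lw V u) (2 * j))) S := fun j =>
    ((hint _ (continuous_sgE (2 * j))).const_mul _).const_mul _
  have i2 : Integrable (fun u : sphere (0 : E) 1 => Jd V u) S := hint _ continuous_volDens
  have i3 : Integrable (fun u : sphere (0 : E) 1 => volDens (r • Lw V u)) S :=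
    hint (fun L => volDens (r • L)) (continuous_volDens.comp (continuous_const_smul r))
  have h1 := integral_mono ((integrable_finsetSum (Finset.range (m + 1)) (fun j _ => i1 j)).add
    (i2.const_mul (b ^ m))) i3 (fun u => pointwise_r hV (by omega) hfr
      (mem_sphere_zero_iff_norm.1 u.2) hr hb)
  refine le_trans ?_ h1
  have h2 := main_UField_bm m hm hfr hV
  have e1 : ∫ u : sphere (0 : E) 1, ((∑ j ∈ Finset.range (m + 1),
        ((r ^ 2) ^ j - b ^ m) * (cj m j * sgE (Lw V u) (2 * j))) + b ^ m * Jd V u) ∂S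
      = (∑ j ∈ Finset.range (m + 1), ((r ^ 2) ^ j - b ^ m) * (cj m j * (m.choose j : ℝ))) * S.real univ
        + b ^ m * ∫ u : sphere (0 : E) 1, Jd V u ∂S := by
    rw [integral_add (integrable_finsetSum (Finset.range (m + 1)) (fun j _ => i1 j))
      (i2.const_mul (b ^ m)), integral_const_mul, integral_finsetSum _ (fun j _ => i1 j),
      Finset.sum_mul]
    congr 1
    refine Finset.sum_congr rfl (fun j hj => ?_)
    rw [Finset.mem_range] at hj
    rw [integral_const_mul, integral_const_mul]
    have h3 := Ik_even hV (by omega : 1 ≤ m) hfr (by omega : j ≤ m)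
    rw [Ik] at h3
    rw [h3]
    ring
  refine le_trans ?_ (le_of_eq e1.symm)
  have h4 := mul_le_mul_of_nonneg_left h2 (pow_pos hb0 m).le
  linarith

end Pool.Agent.Helper20.VF
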