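import Mathlib
import Pool.Agent.Helper20.VF.AllR
import Pool.Agent.Helper20.VF.Asym
import Pool.Agent.Helper20.VF.Sphere

/-!
# Fields of arbitrary constant length on the sphere
-/

open MeasureTheory Set Metric Filter Module
open scoped NNReal Topology RealInnerProductSpace ENNReal Real Manifold ContDiff

namespace Pool.Agent.Helper20.VF

/-! ### The constant at `r = 1` -/

/-- Convolution of central binomial coefficients. -/
lemma sum_centralBinom (n : ℕ) :
    ∑ j ∈ Finset.range (n + 1), Nat.centralBinom j * Nat.centralBinom (n - j) = 4 ^ n := by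
  induction n with
  | zero => simp
  | succ n ih =>
    have h1 : (n + 1) * ∑ j ∈ Finset.range (n + 1 + 1),
        Nat.centralBinom j * Nat.centralBinom (n + 1 - j)
        = 2 * ∑ j ∈ Finset.range (n + 1 + 1),
          j * (Nat.centralBinom j * Nat.centralBinom (n + 1 - j)) := by
      have h2 : ∑ j ∈ Finset.range (n + 1 + 1),
          (n + 1 - j) * (Nat.centralBinom j * Nat.centralBinom (n + 1 - j))
          = ∑ j ∈ Finset.range (n + 1 + 1),
          j * (Nat.centralBinom j * Nat.centralBinom (n + 1 - j)) := by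
        rw [← Finset.sum_range_reflect]
        refine Finset.sum_congr rfl (fun j hj => ?_)
        rw [Finset.mem_range] at hj
        have e1 : n + 1 + 1 - 1 - j = n + 1 - j := by omega
        have e2 : n + 1 - (n + 1 - j) = j := by omega
        rw [e1, e2, mul_comm (Nat.centralBinom (n + 1 - j))]
      rw [two_mul]
      nth_rw 1 [← h2]
      rw [← Finset.sum_add_distrib, Finset.mul_sum]
      refine Finset.sum_congr rfl (fun j hj => ?_)
      rw [Finset.mem_range] at hj
      rw [← add_mul]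
      congr 1
      omega
    have h3 : ∑ j ∈ Finset.range (n + 1 + 1),
          j * (Nat.centralBinom j * Nat.centralBinom (n + 1 - j))
        = 2 * ∑ j ∈ Finset.range (n + 1),
          (2 * j + 1) * (Nat.centralBinom j * Nat.centralBinom (n - j)) := by
      rw [Finset.sum_range_succ', zero_mul, add_zero, Finset.mul_sum]
      refine Finset.sum_congr rfl (fun j hj => ?_)
      rw [← mul_assoc, Nat.succ_mul_centralBinom_succ]
      have e1 : n + 1 - (j + 1) = n - j := by omega
      rw [e1]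
      ring
    have h4 : ∑ j ∈ Finset.range (n + 1),
          (2 * j + 1) * (Nat.centralBinom j * Nat.centralBinom (n - j)) = (n + 1) * 4 ^ n := by
      have h5 : ∑ j ∈ Finset.range (n + 1),
          (n - j) * (Nat.centralBinom j * Nat.centralBinom (n - j))
          = ∑ j ∈ Finset.range (n + 1),
          j * (Nat.centralBinom j * Nat.centralBinom (n - j)) := by
        rw [← Finset.sum_range_reflect]
        refine Finset.sum_congr rfl (fun j hj => ?_)
        rw [Finset.mem_range] at hj
        have e1 : n + 1 - 1 - j = n - j := by omega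
        have e2 : n - (n - j) = j := by omega
        rw [e1, e2, mul_comm (Nat.centralBinom (n - j))]
      have h6 : ∑ j ∈ Finset.range (n + 1),
          (2 * j + 1) * (Nat.centralBinom j * Nat.centralBinom (n - j))
          = ∑ j ∈ Finset.range (n + 1), j * (Nat.centralBinom j * Nat.centralBinom (n - j))
          + ∑ j ∈ Finset.range (n + 1), j * (Nat.centralBinom j * Nat.centralBinom (n - j))
          + ∑ j ∈ Finset.range (n + 1), Nat.centralBinom j * Nat.centralBinom (n - j) := by
        rw [← Finset.sum_add_distrib, ← Finset.sum_add_distrib]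
        exact Finset.sum_congr rfl (fun j _ => by ring)
      rw [h6]
      nth_rw 2 [← h5]
      rw [← ih, ← Finset.sum_add_distrib, Finset.mul_sum, ← Finset.sum_add_distrib]
      refine Finset.sum_congr rfl (fun j hj => ?_)
      rw [Finset.mem_range] at hj
      obtain ⟨k, hk⟩ : ∃ k, n = j + k := ⟨n - j, by omega⟩
      have hk2 : n - j = k := by omega
      rw [hk2, hk]
      ring
    have h7 : (n + 1) * ∑ j ∈ Finset.range (n + 1 + 1),
        Nat.centralBinom j * Nat.centralBinom (n + 1 - j) = (n + 1) * 4 ^ (n + 1) := by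
      rw [h1, h3, h4]
      ring
    exact Nat.eq_of_mul_eq_mul_left (Nat.succ_pos n) h7

lemma choose_sq_div {m j : ℕ} (hj : j ≤ m) :
    (m.choose j : ℝ) ^ 2 / ((2 * m).choose (2 * j) : ℝ)
      = (Nat.centralBinom j * Nat.centralBinom (m - j) : ℕ) / (Nat.centralBinom m : ℝ) := by
  have h1 : ((2 * m).choose (2 * j) : ℝ)
      = ((2 * m).factorial : ℝ) / ((2 * j).factorial * (2 * (m - j)).factorial) := by
    rw [Nat.cast_choose ℝ (by omega), show 2 * m - 2 * j = 2 * (m - j) by omega]
  have h2 : (m.choose j : ℝ) = (m.factorial : ℝ) / (j.factorial * (m - j).factorial) :=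
    Nat.cast_choose ℝ hj
  have h3 : ∀ k : ℕ, (Nat.centralBinom k : ℝ) = ((2 * k).factorial : ℝ) / (k.factorial * k.factorial) := by
    intro k
    rw [Nat.centralBinom, Nat.cast_choose ℝ (by omega), show 2 * k - k = k by omega]
  rw [h1, h2, Nat.cast_mul, h3, h3, h3]
  have p1 : (0 : ℝ) < (2 * m).factorial := by positivity
  have p2 : (0 : ℝ) < (2 * j).factorial := by positivity
  have p3 : (0 : ℝ) < (2 * (m - j)).factorial := by positivity
  have p4 : (0 : ℝ) < m.factorial := by positivity
  have p5 : (0 : ℝ) < j.factorial := by positivity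
  have p6 : (0 : ℝ) < (m - j).factorial := by positivity
  field_simp

/-- `c(m,1) = 4^m / binom(2m,m)`. -/
lemma sum_choose_sq (m : ℕ) :
    ∑ j ∈ Finset.range (m + 1), (m.choose j : ℝ) ^ 2 / ((2 * m).choose (2 * j) : ℝ)
      = 4 ^ m / ((2 * m).choose m : ℝ) := by
  rw [Finset.sum_congr rfl (fun j hj => choose_sq_div
    (by rw [Finset.mem_range] at hj; omega)), ← Finset.sum_div, ← Nat.cast_sum, sum_centralBinom,
    Nat.centralBinom]
  push_cast
  rfl

/-- the number `4^k/binom(2k,k)`. -/
noncomputable def qn (k : ℕ) : ℝ := 4 ^ k / (Nat.centralBinom k : ℝ)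

lemma qn_pos (k : ℕ) : 0 < qn k := by
  have := Nat.centralBinom_pos k
  unfold qn
  positivity

lemma qn_succ (k : ℕ) : qn (k + 1) = qn k * ((2 * k + 2) / (2 * k + 1)) := by
  have h0 := Nat.succ_mul_centralBinom_succ k
  have h1 : ((k : ℝ) + 1) * (Nat.centralBinom (k + 1) : ℝ) = 2 * (2 * k + 1) * (Nat.centralBinom k : ℝ) := by
    exact_mod_cast h0
  have h2 : (0 : ℝ) < Nat.centralBinom k := by exact_mod_cast Nat.centralBinom_pos k
  have h3 : (0 : ℝ) < Nat.centralBinom (k + 1) := by exact_mod_cast Nat.centralBinom_pos (k + 1)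
  unfold qn
  rw [pow_succ, div_mul_div_comm, div_eq_div_iff h3.ne' (by positivity)]
  linear_combination (-2 * 4 ^ k) * h1

lemma qn_mono {a b : ℕ} (h : a ≤ b) : qn a ≤ qn b := by
  refine monotone_nat_of_le_succ (fun k => ?_) h
  rw [qn_succ]
  have := qn_pos k
  refine le_mul_of_one_le_right this.le ?_
  rw [le_div_iff₀ (by positivity)]
  linarith

lemma cst_eq_qn (m : ℕ) : cst m = qn (2 * m) := by
  rw [cst, qn, Nat.centralBinom, show 2 * (2 * m) = 4 * m by ring]
  congr 1
  rw [pow_mul]
  norm_num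

/-- `c(m,1) < b(m)`. -/
theorem c_lt_bm {m : ℕ} (hm : 2 ≤ m) : 4 ^ m / ((2 * m).choose m : ℝ) < bm m := by
  have h0 : (4 : ℝ) ^ m / ((2 * m).choose m : ℝ) = qn m := rfl
  have hm0 : (2 : ℝ) ≤ m := by exact_mod_cast hm
  have h1 : qn (m + 1) ≤ cst m := by
    rw [cst_eq_qn]; exact qn_mono (by omega)
  rw [qn_succ] at h1
  have h2 := cst_le_bm (m := m) (by omega)
  have h3 := qn_pos m
  rw [h0]
  have h4 : 0 < 1 - 1 / (64 * (m : ℝ) ^ 2) := by
    rw [sub_pos, div_lt_one (by positivity)]
    nlinarith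
  have h5 : qn m < (1 - 1 / (64 * (m : ℝ) ^ 2)) * (qn m * ((2 * m + 2) / (2 * m + 1))) := by
    have h6 : 1 < (1 - 1 / (64 * (m : ℝ) ^ 2)) * ((2 * m + 2) / (2 * m + 1)) := by
      have e : (1 - 1 / (64 * (m : ℝ) ^ 2)) * ((2 * m + 2) / (2 * m + 1))
          = ((64 * (m : ℝ) ^ 2 - 1) * (2 * m + 2)) / (64 * (m : ℝ) ^ 2 * (2 * m + 1)) := by
        field_simp
      rw [e, lt_div_iff₀ (by positivity)]
      nlinarith
    calc qn m = qn m * 1 := (mul_one _).symm
      _ < qn m * ((1 - 1 / (64 * (m : ℝ) ^ 2)) * ((2 * m + 2) / (2 * m + 1))) :=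
          mul_lt_mul_of_pos_left h6 h3
      _ = _ := by ring
  exact h5.trans_le ((mul_le_mul_of_nonneg_left h1 h4.le).trans h2)

/-! ### Fields of length `r` -/

section
variable {E : Type*} [NormedAddCommGroup E] [InnerProductSpace ℝ E]

lemma radExt_const_smul (V : sphere (0 : E) 1 → E) (r : ℝ) :
    radExt (fun x => r • V x) = r • radExt V := by
  ext y
  by_cases hy : y = 0
  · subst hy; simp [radExt_zero]
  · rw [Pi.smul_apply, radExt_of_ne _ hy, radExt_of_ne _ hy]

lemma covDeriv_const_smul [FiniteDimensional ℝ E] (V : sphere (0 : E) 1 → E) (r : ℝ) (x : sphere (0 : E) 1) :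
    covDeriv (fun x => r • V x) x = r • Lw (radExt V) x := by
  have h1 : fderiv ℝ (r • radExt V) (x : E) = r • fderiv ℝ (radExt V) x :=
    congrFun (fderiv_const_smul_field (𝕜 := ℝ) (f := radExt V) r) (x : E)
  rw [covDeriv, radExt_const_smul, h1]
  ext δ
  rw [Lw, _root_.smul_apply, tanPart_apply]
  simp [smul_smul, smul_sub]

end

/-- **The volume bound for `C¹` fields of constant length `r`.** -/
theorem fieldVolume_ge_r (m : ℕ) (hm : 2 ≤ m) {E : Type*} [NormedAddCommGroup E]
    [InnerProductSpace ℝ E] [FiniteDimensional ℝ E] [MeasurableSpace E] [BorelSpace E]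
    [Fact (finrank ℝ E = 2 * m + 1 + 1)] {r : ℝ} (hr : 0 < r)
    (W : sphere (0 : E) 1 → E) (hW : ContMDiff (𝓡 (2 * m + 1)) 𝓘(ℝ, E) 1 W)
    (htan : ∀ x : sphere (0 : E) 1, ⟪(x : E), W x⟫ = 0) (hnorm : ∀ x, ‖W x‖ = r) :
    ((∑ j ∈ Finset.range (m + 1), (m.choose j : ℝ) ^ 2 / ((2 * m).choose (2 * j) : ℝ) * r ^ (2 * j))
        + min 1 (r ^ (2 * m)) * (bm m - 4 ^ m / ((2 * m).choose m : ℝ)))
          * (volume : Measure E).toSphere.real univ
      ≤ fieldVolume W := by
  set V : sphere (0 : E) 1 → E := fun x => r⁻¹ • W x with hVdef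
  have hVW : W = fun x => r • V x := by
    funext x
    rw [hVdef, smul_smul, mul_inv_cancel₀ hr.ne', one_smul]
  have hVs : ContMDiff (𝓡 (2 * m + 1)) 𝓘(ℝ, E) 1 V :=
    (contDiff_const_smul (𝕜 := ℝ) (n := 1) (F := E) r⁻¹).contMDiff.comp hW
  have hVt : ∀ x : sphere (0 : E) 1, ⟪(x : E), V x⟫ = 0 := fun x => by
    rw [hVdef]; simp only [inner_smul_right, htan, mul_zero]
  have hVu : ∀ x, ‖V x‖ = 1 := fun x => by
    rw [hVdef]
    simp only [norm_smul, norm_inv, Real.norm_eq_abs, abs_of_pos hr, hnorm]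
    exact inv_mul_cancel₀ hr.ne'
  have h := main_r (r := r) (b := min 1 (r ^ 2)) hm (Fact.out (p := finrank ℝ E = 2 * m + 1 + 1))
    (uField_radExt hVs hVt hVu) hr rfl
  have e1 : fieldVolume W = ∫ u : sphere (0 : E) 1, volDens (r • Lw (radExt V) u)
      ∂(volume : Measure E).toSphere := by
    unfold fieldVolume
    refine integral_congr_ae (Eventually.of_forall (fun x => ?_))
    simp only
    rw [hVW, covDeriv_const_smul, volDens]
  rw [e1]
  refine le_trans (le_of_eq ?_) h
  congr 1
  have hb : (min 1 (r ^ 2)) ^ m = min 1 (r ^ (2 * m)) := by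
    rcases le_total 1 (r ^ 2) with h1 | h1
    · rw [min_eq_left h1, one_pow, pow_mul, min_eq_left (one_le_pow₀ h1)]
    · rw [min_eq_right h1, pow_mul, min_eq_right (pow_le_one₀ (by positivity) h1)]
  rw [hb, ← sum_choose_sq, mul_sub, Finset.mul_sum]
  have e2 : ∀ j ∈ Finset.range (m + 1),
      ((r ^ 2) ^ j - min 1 (r ^ (2 * m))) * (cj m j * (m.choose j : ℝ))
      = (m.choose j : ℝ) ^ 2 / ((2 * m).choose (2 * j) : ℝ) * r ^ (2 * j)
        - min 1 (r ^ (2 * m)) * ((m.choose j : ℝ) ^ 2 / ((2 * m).choose (2 * j) : ℝ)) := by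
    intro j _
    rw [cj, ← pow_mul]
    ring
  rw [Finset.sum_congr rfl e2, Finset.sum_sub_distrib]
  ring

end Pool.Agent.Helper20.VF
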