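import Mathlib

/-!
# Polar coordinates, slices and Gaussian moments
-/

open MeasureTheory Set Metric Filter Module
open scoped NNReal Topology RealInnerProductSpace ENNReal

namespace Pool.Agent.Helper20.VF

variable {E : Type*} [NormedAddCommGroup E] [InnerProductSpace ℝ E] [FiniteDimensional ℝ E]
  [MeasurableSpace E] [BorelSpace E]

lemma integral_volumeIoiPow (n : ℕ) (w : ℝ → ℝ) :
    ∫ r : Ioi (0 : ℝ), w r ∂(Measure.volumeIoiPow n) = ∫ r in Ioi (0 : ℝ), r ^ n * w r := by
  simp only [Measure.volumeIoiPow, ENNReal.ofReal]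
  rw [integral_withDensity_eq_integral_smul, integral_subtype_comap measurableSet_Ioi
    (fun a ↦ Real.toNNReal (a ^ n) • w a)]
  · refine setIntegral_congr_fun measurableSet_Ioi (fun x hx ↦ ?_)
    simp only [NNReal.smul_def, smul_eq_mul]
    rw [Real.coe_toNNReal _ (pow_nonneg hx.out.le _)]
  · exact (measurable_subtype_coe.pow_const _).real_toNNReal

/-- polar coordinates. -/
theorem integral_polar (g : E → ℝ) [Nontrivial E] :
    ∫ x, g x = ∫ p : sphere (0 : E) 1 × Ioi (0 : ℝ), g (p.2.1 • p.1.1)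
      ∂((volume : Measure E).toSphere.prod (Measure.volumeIoiPow (finrank ℝ E - 1))) := by
  have h := (volume : Measure E).measurePreserving_homeomorphUnitSphereProd.integral_comp
        (Homeomorph.measurableEmbedding _) (fun p : sphere (0 : E) 1 × Ioi (0 : ℝ) => g (p.2.1 • p.1.1))
  rw [← h]
  have h2 : ∀ x : ({(0)}ᶜ : Set E), g (((homeomorphUnitSphereProd E x).2 : ℝ) •
      ((homeomorphUnitSphereProd E x).1 : E)) = g x.1 := by
    intro x
    have hx : ‖(x.1)‖ ≠ 0 := norm_ne_zero_iff.mpr x.2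
    simp [smul_smul, mul_inv_cancel₀ hx]
  simp_rw [h2]
  rw [integral_subtype_comap (measurableSet_singleton _).compl fun x ↦ g x,
        restrict_compl_singleton]

/-- polar coordinates for a product of a function of the direction and a function of the radius. -/
theorem integral_polar_mul [Nontrivial E] (g h : E → ℝ) (w : ℝ → ℝ)
    (hg : ∀ u : E, ‖u‖ = 1 → ∀ r : ℝ, 0 < r → g (r • u) = h u * w r) :
    ∫ x, g x = (∫ u : sphere (0 : E) 1, h u ∂(volume : Measure E).toSphere)
      * ∫ r in Ioi (0 : ℝ), r ^ (finrank ℝ E - 1) * w r := by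
  rw [integral_polar, ← integral_volumeIoiPow, ← integral_prod_mul]
  refine integral_congr_ae (Eventually.of_forall fun p => ?_)
  exact hg p.1 (by simp) p.2 p.2.2

/-- The coordinates `(t, Y) ↦ t a + Y` adapted to a unit vector. -/
noncomputable def sliceEquiv (a : E) (ha : ‖a‖ = 1) : (ℝ × (ℝ ∙ a)ᗮ) ≃ᵐ E :=
  ((LinearIsometryEquiv.toSpanUnitSingleton (𝕜 := ℝ) a ha).toHomeomorph.prodCongr
    (Homeomorph.refl (ℝ ∙ a)ᗮ)).toMeasurableEquiv.trans
    ((MeasurableEquiv.toLp 2 ((ℝ ∙ a) × (ℝ ∙ a)ᗮ)).trans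
      ((ℝ ∙ a).orthogonalDecomposition.symm.toHomeomorph.toMeasurableEquiv))

lemma sliceEquiv_apply (a : E) (ha : ‖a‖ = 1) (p : ℝ × (ℝ ∙ a)ᗮ) :
    sliceEquiv a ha p = p.1 • a + (p.2 : E) := by
  simp [sliceEquiv]

/-- Fubini along the line spanned by a unit vector. -/
theorem measurePreserving_slice (a : E) (ha : ‖a‖ = 1) :
    MeasurePreserving (sliceEquiv a ha) (volume.prod volume) volume := by
  have h1 : MeasurePreserving (fun p : ℝ × (ℝ ∙ a)ᗮ =>
      (LinearIsometryEquiv.toSpanUnitSingleton a ha p.1, p.2)) (volume.prod volume)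
      (volume.prod volume) :=
    (LinearIsometryEquiv.toSpanUnitSingleton (𝕜 := ℝ) a ha).measurePreserving.prod
      (MeasurePreserving.id volume)
  have h2 := WithLp.volume_preserving_toLp (ℝ ∙ a) (ℝ ∙ a)ᗮ
  have h3 : MeasurePreserving ((ℝ ∙ a).orthogonalDecomposition.symm :
      WithLp 2 ((ℝ ∙ a) × (ℝ ∙ a)ᗮ) → E) volume (volume : Measure E) :=
    ((ℝ ∙ a).orthogonalDecomposition.symm).measurePreserving
  have h4 := h3.comp (h2.comp h1)
  exact h4

theorem integral_slice (a : E) (ha : ‖a‖ = 1) (f : E → ℝ) :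
    ∫ x, f x = ∫ p : ℝ × (ℝ ∙ a)ᗮ, f (p.1 • a + (p.2 : E)) := by
  rw [← (measurePreserving_slice a ha).integral_comp' f]
  simp_rw [sliceEquiv_apply]
  rfl

end Pool.Agent.Helper20.VF
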