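import Pool.Agent.Helper20.VF.PartTwo

/-!
# Averaging over the pole: Tonelli
-/

open MeasureTheory Set Metric Filter
open scoped NNReal Topology RealInnerProductSpace ContDiff Manifold Real ENNReal

namespace Pool.Agent.Helper20.VF

variable {E : Type*} [NormedAddCommGroup E] [InnerProductSpace ℝ E] [FiniteDimensional ℝ E]
variable {V : E → E} {a : E}

lemma fw_smul_left (hV : UField V) (x X : E) {t : ℝ} (ht : 0 < t) : fw V (t • x) X = fw V x X := by
  rw [fw, fw, Dp_smul_left hV x X ht]

variable [MeasurableSpace E] [BorelSpace E]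

lemma lower_ne (hV : UField V) (ha : a ≠ 0) {k : ℕ} (hk : Module.finrank ℝ E = k + 3)
    (hodd : Odd k) :
    ENNReal.ofReal (2 * kap k) ≤ ∫⁻ X : E, ENNReal.ofReal (fw V (-refl X a) X) := by
  have h0 : 0 < ‖a‖ := norm_pos_iff.2 ha
  have h1 : ‖‖a‖⁻¹ • a‖ = 1 := by rw [norm_smul, norm_inv, norm_norm, inv_mul_cancel₀ h0.ne']
  refine (lower_unit hV h1 hk hodd).trans (le_of_eq (lintegral_congr (fun X => ?_)))
  have h2 : -refl X (‖a‖⁻¹ • a) = ‖a‖⁻¹ • (-refl X a) := by
    simp only [refl, inner_smul_right]
    module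
  rw [h2, fw_smul_left hV _ _ (inv_pos.2 h0)]

lemma measurable_refl2 : Measurable (fun p : E × E => -refl p.2 p.1) := by
  unfold refl
  refine (measurable_fst.sub (Measurable.smul ?_ measurable_snd)).neg
  refine Measurable.div ?_ ?_
  · exact (by fun_prop : Continuous fun p : E × E => 2 * ⟪p.2, p.1⟫).measurable
  · exact (by fun_prop : Continuous fun p : E × E => ‖p.2‖ ^ 2).measurable

theorem partII (hV : UField V) {k : ℕ} (hk : Module.finrank ℝ E = k + 3) (hodd : Odd k) :
    ENNReal.ofReal (2 * kap k) * (∫⁻ x : E, ENNReal.ofReal (Real.exp (-‖x‖ ^ 2 / 2)))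
      ≤ ∫⁻ x : E, ENNReal.ofReal (Real.exp (-‖x‖ ^ 2 / 2))
          * ∫⁻ X : E, ENNReal.ofReal (fw V x X) := by
  have hnt : Nontrivial E := Module.nontrivial_of_finrank_pos (R := ℝ) (by omega)
  set g : E → ℝ≥0∞ := fun x => ENNReal.ofReal (Real.exp (-‖x‖ ^ 2 / 2)) with hg
  have hgm : Measurable g := by
    have : Continuous (fun x : E => Real.exp (-‖x‖ ^ 2 / 2)) := by fun_prop
    exact this.measurable.ennreal_ofReal
  have hm1 : Measurable (fun p : E × E => ENNReal.ofReal (fw V (-refl p.2 p.1) p.2)) := by
    have := (measurable_fw hV).comp ((measurable_refl2 (E := E)).prodMk measurable_snd)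
    exact this.ennreal_ofReal
  have hm2 : Measurable (fun p : E × E => ENNReal.ofReal (fw V p.1 p.2)) :=
    (measurable_fw hV).ennreal_ofReal
  calc ENNReal.ofReal (2 * kap k) * ∫⁻ x : E, g x
      = ∫⁻ a : E, g a * ENNReal.ofReal (2 * kap k) := by
        rw [lintegral_mul_const _ hgm, mul_comm]
    _ ≤ ∫⁻ a : E, g a * ∫⁻ X : E, ENNReal.ofReal (fw V (-refl X a) X) := by
        refine lintegral_mono_ae ?_
        have : ∀ᵐ a : E, a ≠ 0 := by
          rw [ae_iff]
          simp
        filter_upwards [this] with a ha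
        exact mul_le_mul_right (lower_ne hV ha hk hodd) _
    _ = ∫⁻ a : E, ∫⁻ X : E, g a * ENNReal.ofReal (fw V (-refl X a) X) := by
        refine lintegral_congr (fun a => ?_)
        have hma : Measurable (fun X : E => ENNReal.ofReal (fw V (-refl X a) X)) :=
          hm1.comp measurable_prodMk_left
        exact (lintegral_const_mul _ hma).symm
    _ = ∫⁻ X : E, ∫⁻ a : E, g a * ENNReal.ofReal (fw V (-refl X a) X) := by
        refine lintegral_lintegral_swap ?_
        exact ((hgm.comp measurable_fst).mul hm1).aemeasurable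
    _ = ∫⁻ X : E, ∫⁻ x : E, g x * ENNReal.ofReal (fw V x X) := by
        have : ∀ᵐ X : E, X ≠ 0 := by
          rw [ae_iff]
          simp
        refine lintegral_congr_ae ?_
        filter_upwards [this] with X hX
        have hmp : MeasurePreserving ((reflI X hX).trans (LinearIsometryEquiv.neg ℝ))
            (volume : Measure E) volume :=
          ((reflI X hX).trans (LinearIsometryEquiv.neg ℝ)).measurePreserving
        rw [← hmp.lintegral_comp_emb
          ((reflI X hX).trans (LinearIsometryEquiv.neg ℝ)).toHomeomorph.measurableEmbedding]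
        refine lintegral_congr (fun a => ?_)
        have e1 : ((reflI X hX).trans (LinearIsometryEquiv.neg ℝ)) a = -refl X a := rfl
        rw [e1]
        simp only [hg]
        rw [norm_neg, norm_refl hX, refl_neg, refl_refl hX, neg_neg]
    _ = ∫⁻ x : E, ∫⁻ X : E, g x * ENNReal.ofReal (fw V x X) := by
        refine lintegral_lintegral_swap ?_
        have h3 : Measurable (fun p : E × E => g p.2 * ENNReal.ofReal (fw V p.2 p.1)) :=
          (hgm.comp measurable_snd).mul (hm2.comp measurable_swap)
        exact h3.aemeasurable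
    _ = ∫⁻ x : E, g x * ∫⁻ X : E, ENNReal.ofReal (fw V x X) := by
        refine lintegral_congr (fun a => ?_)
        have hma : Measurable (fun X : E => ENNReal.ofReal (fw V a X)) :=
          hm2.comp measurable_prodMk_left
        exact lintegral_const_mul _ hma

end Pool.Agent.Helper20.VF
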