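import Mathlib
import Pool.Agent.Helper20.VF.CovD
import Pool.Agent.Helper20.VF.PartTwoB

/-!
# Assembly: the volume bound for homogeneous unit fields
-/

open MeasureTheory Set Metric Filter Module Matrix
open scoped NNReal Topology RealInnerProductSpace ENNReal Real

namespace Pool.Agent.Helper20.VF

variable {n : ℕ}
variable {E : Type*} [NormedAddCommGroup E] [InnerProductSpace ℝ E] [FiniteDimensional ℝ E]
variable {V : E → E}

/-- the volume density of the field at `x`. -/
noncomputable def Jd (V : E → E) (x : E) : ℝ := volDens (tanPart x (fderiv ℝ V x))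

lemma Jd_nonneg (x : E) : 0 ≤ Jd V x := volDens_nonneg _

variable [MeasurableSpace E] [BorelSpace E]

lemma continuousOn_Jd (hV : UField V) : ContinuousOn (Jd V) {0}ᶜ := by
  unfold Jd
  refine continuous_volDens.comp_continuousOn ?_
  unfold tanPart
  have h1 := continuousOn_fderiv_V hV
  refine h1.sub ?_
  have h2 : ContinuousOn (fun x : E => (innerSL ℝ x) ∘L (fderiv ℝ V x)) {0}ᶜ :=
    ((innerSL ℝ (E := E)).continuous.continuousOn).clm_comp h1
  exact (((ContinuousLinearMap.smulRightL ℝ E E).continuous.comp_continuousOn h2)).clm_apply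
    continuousOn_id

lemma continuousOn_Jd_sphere (hV : UField V) : ContinuousOn (Jd V) (sphere (0 : E) 1) := by
  refine (continuousOn_Jd hV).mono (fun x hx => ?_)
  rw [mem_sphere_zero_iff_norm] at hx
  rintro rfl
  simp at hx

/-- The main inequality for degree-zero extensions of unit fields. -/
theorem main_UField (hn : 3 ≤ n) (hodd : Odd n) (hfr : finrank ℝ E = n + 3) (hV : UField V) :
    2 * kap n * (volume : Measure E).toSphere.real univ
      ≤ 2 ^ (n + 1) * KN n * ∫ u : sphere (0 : E) 1, Jd V u ∂(volume : Measure E).toSphere := by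
  have hnt : Nontrivial E := Module.nontrivial_of_finrank_pos (R := ℝ) (by omega)
  set S := (volume : Measure E).toSphere with hS
  have hK0 : 0 ≤ 2 ^ (n + 1) * KN n := by
    have h1 := Zg_pos (E := EuclideanSpace ℝ (Fin (n + 1)))
    have h2 := gm_pos (n + 1)
    have h3 : 0 ≤ ∫ t in (0 : ℝ)..(2 * π), |Real.cos t| ^ n :=
      intervalIntegral.integral_nonneg (by positivity) (fun t _ => by positivity)
    unfold KN
    positivity
  have hk0 : 0 ≤ 2 * kap n := by
    have := gm_pos (2 * n + 4)
    have := gm_pos (2 * n + 1)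
    have := gm_pos n
    unfold kap
    positivity
  -- the function `g`
  set g : E → ℝ := fun x => Jd V (‖x‖⁻¹ • x) * Real.exp (-‖x‖ ^ 2 / 2) with hg
  have hnorm : ∀ x : E, x ≠ 0 → ‖‖x‖⁻¹ • x‖ = 1 := fun x hx => by
    rw [norm_smul, norm_inv, norm_norm, inv_mul_cancel₀ (norm_ne_zero_iff.2 hx)]
  have hne : ∀ x : E, x ≠ 0 → ‖x‖⁻¹ • x ≠ 0 := fun x hx h => by
    have := hnorm x hx
    rw [h, norm_zero] at this
    exact zero_ne_one this
  have hJc : ContinuousOn (fun x : E => Jd V (‖x‖⁻¹ • x)) {0}ᶜ := by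
    refine (continuousOn_Jd hV).comp (ContinuousOn.smul (ContinuousOn.inv₀ (by fun_prop)
      (fun x hx => norm_ne_zero_iff.2 hx)) continuousOn_id) (fun x hx => hne x hx)
  have hJm : Measurable (fun x : E => Jd V (‖x‖⁻¹ • x)) :=
    measurable_of_continuousOn_compl_singleton 0 hJc
  obtain ⟨C, hC⟩ := (isCompact_sphere (0 : E) 1).exists_bound_of_continuousOn
    (continuousOn_Jd_sphere hV)
  have hgint : Integrable g := by
    have h0 : Integrable (fun y : E => (1 : ℝ) * gw y) := by
      have h3 : Hom 0 (fun _ : E => (1 : ℝ)) := ⟨continuous_const, fun r y => by simp⟩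
      exact h3.integrable
    refine (h0.const_mul (max C ‖Jd V 0‖)).mono' (hJm.aestronglyMeasurable.mul
      ((by fun_prop : Continuous fun x : E => Real.exp (-‖x‖ ^ 2 / 2)).aestronglyMeasurable))
      (Eventually.of_forall fun x => ?_)
    rw [norm_mul, one_mul, gw, Real.norm_eq_abs (Real.exp _), abs_of_pos (Real.exp_pos _)]
    refine mul_le_mul_of_nonneg_right ?_ (Real.exp_pos _).le
    by_cases hx : x = 0
    · subst hx
      simp
    · exact (hC _ (by rw [mem_sphere_zero_iff_norm]; exact hnorm x hx)).trans (le_max_left _ _)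
  have hg0 : ∀ x, 0 ≤ g x := fun x => mul_nonneg (Jd_nonneg _) (Real.exp_pos _).le
  have hgI : ∫ x, g x = (∫ u : sphere (0 : E) 1, Jd V u ∂S) * gm (finrank ℝ E - 1) := by
    rw [integral_polar_mul g (Jd V) (fun r => Real.exp (-r ^ 2 / 2))]
    · rfl
    · intro u hu r hr
      simp only [hg]
      rw [norm_smul, hu, mul_one, Real.norm_eq_abs, abs_of_pos hr, smul_smul, inv_mul_cancel₀ hr.ne',
        one_smul]
  have heI : ∫ x : E, Real.exp (-‖x‖ ^ 2 / 2) = S.real univ * gm (finrank ℝ E - 1) := by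
    rw [integral_polar_mul _ (fun _ => (1 : ℝ)) (fun r => Real.exp (-r ^ 2 / 2))]
    · rw [integral_const, smul_eq_mul, mul_one]; rfl
    · intro u hu r hr
      rw [norm_smul, hu, mul_one, Real.norm_eq_abs, sq_abs, one_mul]
  have heint : Integrable (fun x : E => Real.exp (-‖x‖ ^ 2 / 2)) := by
    have h3 : Hom 0 (fun _ : E => (1 : ℝ)) := ⟨continuous_const, fun r y => by simp⟩
    have := h3.integrable
    simpa [gw] using this
  have h2 := partII hV hfr hodd
  have h3 : ∫⁻ x : E, ENNReal.ofReal (Real.exp (-‖x‖ ^ 2 / 2)) * ∫⁻ X : E, ENNReal.ofReal (fw V x X)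
      ≤ ENNReal.ofReal (2 ^ (n + 1) * KN n * ∫ x, g x) := by
    calc ∫⁻ x : E, ENNReal.ofReal (Real.exp (-‖x‖ ^ 2 / 2)) * ∫⁻ X : E, ENNReal.ofReal (fw V x X)
        ≤ ∫⁻ x : E, ENNReal.ofReal (2 ^ (n + 1) * KN n) * ENNReal.ofReal (g x) := by
          refine lintegral_mono_ae ?_
          have : ∀ᵐ x : E, x ≠ 0 := by
            rw [ae_iff]
            simp
          filter_upwards [this] with x hx
          have h4 : ∫⁻ X : E, ENNReal.ofReal (fw V x X)
              ≤ ENNReal.ofReal (2 ^ (n + 1) * KN n * Jd V (‖x‖⁻¹ • x)) := by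
            refine le_trans (le_of_eq ?_) (upper_unit hn hfr hV (hnorm x hx))
            refine lintegral_congr (fun X => ?_)
            rw [fw_smul_left hV x X (inv_pos.2 (norm_pos_iff.2 hx))]
          refine (mul_le_mul_right h4 _).trans (le_of_eq ?_)
          rw [← ENNReal.ofReal_mul (Real.exp_pos _).le, ← ENNReal.ofReal_mul hK0]
          congr 1
          simp only [hg]
          ring
      _ = ENNReal.ofReal (2 ^ (n + 1) * KN n * ∫ x, g x) := by
          rw [lintegral_const_mul' _ _ ENNReal.ofReal_ne_top, ENNReal.ofReal_mul hK0,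
            ofReal_integral_eq_lintegral_ofReal hgint (Eventually.of_forall hg0)]
  have h5 : ENNReal.ofReal (2 * kap n) * (∫⁻ x : E, ENNReal.ofReal (Real.exp (-‖x‖ ^ 2 / 2)))
      = ENNReal.ofReal (2 * kap n * ∫ x : E, Real.exp (-‖x‖ ^ 2 / 2)) := by
    rw [ENNReal.ofReal_mul hk0, ofReal_integral_eq_lintegral_ofReal heint
      (Eventually.of_forall fun x => (Real.exp_pos _).le)]
  rw [h5] at h2
  have h6 := h2.trans h3
  rw [ENNReal.ofReal_le_ofReal_iff (mul_nonneg hK0 (integral_nonneg hg0)), hgI, heI] at h6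
  have hgm := gm_pos (finrank ℝ E - 1)
  refine le_of_mul_le_mul_right ?_ hgm
  calc _ = 2 * kap n * (S.real univ * gm (finrank ℝ E - 1)) := by ring
    _ ≤ _ := h6
    _ = _ := by ring

end Pool.Agent.Helper20.VF
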