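import Mathlib

/-!
# Trigonometric forms on the circle and the Wirtinger-type inequality
-/

open MeasureTheory Set Metric Filter
open scoped Topology Real

namespace Pool.Agent.Helper20.VF

/-- a quadratic form of trace one restricted to the circle. -/
noncomputable def frm (a b t : ℝ) : ℝ :=
  a * Real.cos t ^ 2 + 2 * b * (Real.sin t * Real.cos t) + (1 - a) * Real.sin t ^ 2

/-- its derivative. -/
noncomputable def frm' (a b t : ℝ) : ℝ :=
  2 * (1 - 2 * a) * (Real.sin t * Real.cos t) + 2 * b * (Real.cos t ^ 2 - Real.sin t ^ 2)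

lemma hasDerivAt_frm (a b t : ℝ) : HasDerivAt (frm a b) (frm' a b t) t := by
  have hs := Real.hasDerivAt_sin t
  have hc := Real.hasDerivAt_cos t
  have h := (((hc.pow 2).const_mul a).add ((hs.mul hc).const_mul (2 * b))).add
    ((hs.pow 2).const_mul (1 - a))
  refine (h.congr_of_eventuallyEq (Eventually.of_forall fun s => ?_)).congr_deriv ?_
  · simp [frm]
  · rw [frm']; ring

lemma hasDerivAt_frm' (a b t : ℝ) : HasDerivAt (frm' a b) (2 - 4 * frm a b t) t := by
  have hs := Real.hasDerivAt_sin t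
  have hc := Real.hasDerivAt_cos t
  have h := ((hs.mul hc).const_mul (2 * (1 - 2 * a))).add
    (((hc.pow 2).sub (hs.pow 2)).const_mul (2 * b))
  refine (h.congr_of_eventuallyEq (Eventually.of_forall fun s => ?_)).congr_deriv ?_
  · simp [frm']
  · rw [frm]
    have h1 := Real.sin_sq_add_cos_sq t
    have : (2 : ℝ) = 2 * (Real.sin t ^ 2 + Real.cos t ^ 2) := by rw [h1]; ring
    linear_combination 2 * h1

lemma frm'_sq (a b t : ℝ) :
    frm' a b t ^ 2 = 4 * (frm a b t - frm a b t ^ 2 - (a * (1 - a) - b ^ 2)) := by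
  have h1 : Real.cos t ^ 2 = 1 - Real.sin t ^ 2 := by
    have := Real.sin_sq_add_cos_sq t
    linarith
  have h3 : frm' a b t = 2 * (1 - 2 * a) * (Real.sin t * Real.cos t) + 2 * b * (1 - 2 * Real.sin t ^ 2) := by
    rw [frm', h1]; ring
  have h4 : frm a b t = a * (1 - Real.sin t ^ 2) + 2 * b * (Real.sin t * Real.cos t)
      + (1 - a) * Real.sin t ^ 2 := by
    rw [frm, h1]
  rw [h3, h4]
  have h5 : (Real.sin t * Real.cos t) ^ 2 = Real.sin t ^ 2 * (1 - Real.sin t ^ 2) := by
    rw [mul_pow, h1]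
  linear_combination (4 * (1 - 2 * a) ^ 2 + 16 * b ^ 2) * h5

lemma continuous_frm (a b : ℝ) : Continuous (frm a b) := by
  unfold frm; fun_prop

lemma continuous_frm' (a b : ℝ) : Continuous (frm' a b) := by
  unfold frm'; fun_prop

lemma frm_periodic (a b : ℝ) : Function.Periodic (frm a b) (2 * π) := by
  intro t
  simp [frm]

lemma frm'_periodic (a b : ℝ) : Function.Periodic (frm' a b) (2 * π) := by
  intro t
  simp [frm']

lemma continuous_rpow_frm {a b : ℝ} (hpos : ∀ t, 0 < frm a b t) (p : ℝ) :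
    Continuous (fun t => frm a b t ^ p) :=
  (continuous_frm a b).rpow_const (fun t => Or.inl (hpos t).ne')

/-- Wirtinger-type inequality. -/
lemma wirt {a b : ℝ} (hpos : ∀ t, 0 < frm a b t) {δ δ' : ℝ → ℝ}
    (hδ : ∀ t, HasDerivAt δ (δ' t) t) (hδ'c : Continuous δ') (hper : δ (2 * π) = δ 0) (d : ℝ) :
    ∫ t in (0 : ℝ)..(2 * π), d * (1 - (a * (1 - a) - b ^ 2) / frm a b t ^ 2) * δ t ^ 2
        * frm a b t ^ (-((d - 1) / 2))
      ≤ ∫ t in (0 : ℝ)..(2 * π), δ' t ^ 2 * frm a b t ^ (-((d - 1) / 2)) := by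
  obtain ⟨q, hq⟩ : ∃ q, q = a * (1 - a) - b ^ 2 := ⟨_, rfl⟩
  obtain ⟨p, hp⟩ : ∃ p, p = (d - 1) / 2 := ⟨_, rfl⟩
  rw [← hq, ← hp]
  have hδc : Continuous δ := continuous_iff_continuousAt.2 fun t => (hδ t).continuousAt
  have hc := continuous_frm a b
  have hc' := continuous_frm' a b
  set R : ℝ → ℝ := fun t => d / 2 * (frm' a b t * δ t ^ 2 * frm a b t ^ (-p - 1)) with hR
  set R' : ℝ → ℝ := fun t => δ' t ^ 2 * frm a b t ^ (-p)
    - d * (1 - q / frm a b t ^ 2) * δ t ^ 2 * frm a b t ^ (-p)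
    - (δ' t - d * frm' a b t * δ t / (2 * frm a b t)) ^ 2 * frm a b t ^ (-p) with hR'
  have hRd : ∀ t, HasDerivAt R (R' t) t := by
    intro t
    have h0 := hpos t
    have h1 := (hasDerivAt_frm a b t).rpow_const (p := -p - 1) (Or.inl h0.ne')
    have h2 := (((hasDerivAt_frm' a b t).mul ((hδ t).pow 2)).mul h1).const_mul (d / 2)
    refine (h2.congr_of_eventuallyEq (Eventually.of_forall fun s => ?_)).congr_deriv ?_
    · simp [hR]
    · simp only [hR']
      have e1 : frm a b t ^ (-p - 1) = frm a b t ^ (-p) / frm a b t := by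
        rw [Real.rpow_sub_one h0.ne']
      have e2 : frm a b t ^ (-p - 1 - 1) = frm a b t ^ (-p) / frm a b t ^ 2 := by
        rw [Real.rpow_sub_one h0.ne', Real.rpow_sub_one h0.ne', div_div, sq]
      have hsq := frm'_sq a b t
      rw [← hq] at hsq
      have hp1 : -p - 1 = -(d + 1) / 2 := by rw [hp]; ring
      simp only [Pi.mul_apply, Pi.pow_apply]
      rw [e1, e2, hp1]
      generalize frm a b t ^ (-p) = Y at *
      generalize hC : frm a b t = C at *
      generalize frm' a b t = C' at *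
      have h0' := h0.ne'
      have key : Y / C ^ 2 * (d / 4 * δ t ^ 2) * (C' ^ 2 - 4 * (C - C ^ 2 - q)) = 0 := by
        rw [hsq]; ring
      field_simp at key ⊢
      ring_nf at key ⊢
      linear_combination (-1 : ℝ) * key
  have hcp := continuous_rpow_frm hpos (-p)
  have hne : ∀ t, frm a b t ≠ 0 := fun t => (hpos t).ne'
  have hR'c : Continuous R' := by
    have hi : Continuous fun t => (frm a b t)⁻¹ := hc.inv₀ hne
    simp only [hR', div_eq_mul_inv, mul_inv]
    have hi2 : Continuous fun t => (frm a b t ^ 2)⁻¹ := (hc.pow 2).inv₀ (fun t => pow_ne_zero 2 (hne t))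
    fun_prop
  have hint := intervalIntegral.integral_eq_sub_of_hasDerivAt (a := 0) (b := 2 * π)
    (fun t _ => hRd t) (hR'c.intervalIntegrable _ _)
  have hR0 : R (2 * π) - R 0 = 0 := by
    have h1 := frm_periodic a b 0
    have h2 := frm'_periodic a b 0
    rw [zero_add] at h1 h2
    simp only [hR]
    rw [h1, h2, hper, sub_self]
  rw [hR0] at hint
  have c1 : Continuous (fun t => δ' t ^ 2 * frm a b t ^ (-p)) := by fun_prop
  have c2 : Continuous (fun t => d * (1 - q / frm a b t ^ 2) * δ t ^ 2 * frm a b t ^ (-p)) := by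
    have hi2 : Continuous fun t => (frm a b t ^ 2)⁻¹ := (hc.pow 2).inv₀ (fun t => pow_ne_zero 2 (hne t))
    simp only [div_eq_mul_inv]
    fun_prop
  have c3 : Continuous (fun t => (δ' t - d * frm' a b t * δ t / (2 * frm a b t)) ^ 2 * frm a b t ^ (-p)) := by
    have hi : Continuous fun t => (frm a b t)⁻¹ := hc.inv₀ hne
    simp only [div_eq_mul_inv, mul_inv]
    fun_prop
  have hsplit : ∫ t in (0 : ℝ)..(2 * π), R' t
      = (∫ t in (0 : ℝ)..(2 * π), δ' t ^ 2 * frm a b t ^ (-p))
        - (∫ t in (0 : ℝ)..(2 * π), d * (1 - q / frm a b t ^ 2) * δ t ^ 2 * frm a b t ^ (-p))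
        - ∫ t in (0 : ℝ)..(2 * π), (δ' t - d * frm' a b t * δ t / (2 * frm a b t)) ^ 2 * frm a b t ^ (-p) := by
    simp only [hR']
    have c12 : Continuous (fun t => δ' t ^ 2 * frm a b t ^ (-p)
        - d * (1 - q / frm a b t ^ 2) * δ t ^ 2 * frm a b t ^ (-p)) := c1.sub c2
    rw [intervalIntegral.integral_sub (c12.intervalIntegrable _ _) (c3.intervalIntegrable _ _),
      intervalIntegral.integral_sub (c1.intervalIntegrable _ _) (c2.intervalIntegrable _ _)]
  have hnn : 0 ≤ ∫ t in (0 : ℝ)..(2 * π),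
      (δ' t - d * frm' a b t * δ t / (2 * frm a b t)) ^ 2 * frm a b t ^ (-p) := by
    refine intervalIntegral.integral_nonneg (by positivity) (fun t _ => ?_)
    exact mul_nonneg (sq_nonneg _) (Real.rpow_nonneg (hpos t).le _)
  rw [hsplit] at hint
  linarith

end Pool.Agent.Helper20.VF
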