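import Pool.Agent.Helper20.VF.Circ

/-!
# The circle inequality
-/

open MeasureTheory Set Metric Filter
open scoped Topology Real

namespace Pool.Agent.Helper20.VF

/-- the one-variable inequality (W). -/
def OneVar (n : ℕ) : Prop := ∀ (u : ℝ) (_ : 0 < u) (_ : u ≤ 1 / 2) (a b g : ℝ)
    (_ : 0 ≤ a) (_ : 0 ≤ b) (_ : a + b = 1),
    (∫ t in (0 : ℝ)..(2 * π),
      ((2 * n + 3) * (((1 - u) * Real.cos t ^ 2 + u * Real.sin t ^ 2) ^ ((n : ℝ) / 2)
          + n * (a * Real.cos t ^ 2 + b * Real.sin t ^ 2 + g * (Real.sin t * Real.cos t))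
            * ((1 - u) * Real.cos t ^ 2 + u * Real.sin t ^ 2) ^ ((n : ℝ) / 2 - 1))
        - (3 * n + 6) * (a * Real.cos t ^ 2 + b * Real.sin t ^ 2 + g * (Real.sin t * Real.cos t))
            * ((1 - u) * Real.cos t ^ 2 + u * Real.sin t ^ 2) ^ ((n : ℝ) / 2)
        + (n + 3) * (u * (1 - u)) * (a * Real.cos t ^ 2 + b * Real.sin t ^ 2
            + g * (Real.sin t * Real.cos t))
            * ((1 - u) * Real.cos t ^ 2 + u * Real.sin t ^ 2) ^ ((n : ℝ) / 2 - 2)))
      ≤ 2 * (n + 1) * n * (2 * (∫ t in (0 : ℝ)..(2 * π), |Real.cos t| ^ n)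
          - ∫ t in (0 : ℝ)..(2 * π), ((1 - u) * Real.cos t ^ 2 + u * Real.sin t ^ 2) ^ ((n : ℝ) / 2))

lemma frm_eq (a b t : ℝ) :
    frm a b t = 1 / 2 + (a - 1 / 2) * Real.cos (2 * t) + b * Real.sin (2 * t) := by
  rw [frm, Real.cos_two_mul', Real.sin_two_mul]
  linear_combination (1 / 2) * Real.sin_sq_add_cos_sq t

/-- canonical form after a rotation. -/
lemma frm_rotate {a b : ℝ} (hpos : ∀ t, 0 < frm a b t) : ∃ φ u : ℝ, 0 < u ∧ u ≤ 1 / 2 ∧
    a * (1 - a) - b ^ 2 = u * (1 - u) ∧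
    ∀ t, frm a b (t + φ) = (1 - u) * Real.cos t ^ 2 + u * Real.sin t ^ 2 := by
  set z : ℂ := ⟨a - 1 / 2, b⟩ with hz
  set r := ‖z‖ with hr
  have h1 : r * Real.cos z.arg = a - 1 / 2 := Complex.norm_mul_cos_arg z
  have h2 : r * Real.sin z.arg = b := Complex.norm_mul_sin_arg z
  have hsq : r ^ 2 = (a - 1 / 2) ^ 2 + b ^ 2 := by
    rw [← h1, ← h2, mul_pow, mul_pow, ← mul_add, Real.cos_sq_add_sin_sq, mul_one]
  have hform : ∀ t, frm a b (t + z.arg / 2) = (1 - (1 / 2 - r)) * Real.cos t ^ 2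
      + (1 / 2 - r) * Real.sin t ^ 2 := by
    intro t
    rw [frm_eq, ← h1, ← h2]
    have e1 : 2 * (t + z.arg / 2) = 2 * t + z.arg := by ring
    rw [e1]
    have e2 : Real.cos (2 * t) = Real.cos (2 * t + z.arg) * Real.cos z.arg
        + Real.sin (2 * t + z.arg) * Real.sin z.arg := by
      rw [← Real.cos_sub]; congr 1; ring
    rw [Real.cos_two_mul'] at e2
    linear_combination (-r) * e2 - (1 / 2) * Real.sin_sq_add_cos_sq t
  refine ⟨z.arg / 2, 1 / 2 - r, ?_, ?_, ?_, hform⟩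
  · have := hpos (π / 2 + z.arg / 2)
    rw [hform] at this
    simpa using this
  · have : 0 ≤ r := norm_nonneg z
    linarith
  · nlinarith only [hsq, hsq]

lemma frm_rotate2 (a b φ : ℝ) : ∃ A B G : ℝ, A + B = 1 ∧ A = frm a b φ ∧ B = frm a b (π / 2 + φ) ∧
    ∀ t, frm a b (t + φ) = A * Real.cos t ^ 2 + B * Real.sin t ^ 2 + G * (Real.sin t * Real.cos t) := by
  refine ⟨1 / 2 + ((a - 1 / 2) * Real.cos (2 * φ) + b * Real.sin (2 * φ)),
    1 / 2 - ((a - 1 / 2) * Real.cos (2 * φ) + b * Real.sin (2 * φ)),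
    2 * (-(a - 1 / 2) * Real.sin (2 * φ) + b * Real.cos (2 * φ)), by ring, ?_, ?_, ?_⟩
  · rw [frm_eq]; ring
  · rw [frm_eq, show 2 * (π / 2 + φ) = 2 * φ + π by ring, Real.cos_add_pi, Real.sin_add_pi]; ring
  · intro t
    rw [frm_eq, show 2 * (t + φ) = 2 * t + 2 * φ by ring, Real.cos_add, Real.sin_add,
      Real.cos_two_mul' t, Real.sin_two_mul t]
    linear_combination (-(1 : ℝ) / 2) * Real.sin_sq_add_cos_sq t

lemma integral_shift {f : ℝ → ℝ} (hf : Function.Periodic f (2 * π)) (φ : ℝ) :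
    ∫ t in (0 : ℝ)..(2 * π), f (t + φ) = ∫ t in (0 : ℝ)..(2 * π), f t := by
  rw [intervalIntegral.integral_comp_add_right, zero_add, add_comm (2 * π) φ]
  have := hf.intervalIntegral_add_eq φ 0
  rw [zero_add] at this
  exact this

lemma J_le {n : ℕ} (hn : 2 ≤ n) {a b : ℝ} (hpos : ∀ t, 0 < frm a b t) :
    ∫ t in (0 : ℝ)..(2 * π), frm a b t ^ ((n : ℝ) / 2) ≤ ∫ t in (0 : ℝ)..(2 * π), |Real.cos t| ^ n := by
  obtain ⟨φ, u, hu0, hu1, -, hform⟩ := frm_rotate hpos
  have hper : Function.Periodic (fun t => frm a b t ^ ((n : ℝ) / 2)) (2 * π) := by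
    intro t
    simp only
    rw [frm_periodic a b t]
  rw [← integral_shift hper φ]
  have hp1 : (1 : ℝ) ≤ (n : ℝ) / 2 := by
    have : (2 : ℝ) ≤ n := by exact_mod_cast hn
    linarith
  have hpow : ∀ x : ℝ, (x ^ 2) ^ ((n : ℝ) / 2) = |x| ^ n := by
    intro x
    rw [← sq_abs, ← Real.rpow_natCast (|x|) 2, ← Real.rpow_mul (abs_nonneg x),
      ← Real.rpow_natCast (|x|) n]
    congr 1
    push_cast
    ring
  have hcs : ∫ t in (0 : ℝ)..(2 * π), |Real.sin t| ^ n = ∫ t in (0 : ℝ)..(2 * π), |Real.cos t| ^ n := by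
    have hper2 : Function.Periodic (fun t => |Real.sin t| ^ n) (2 * π) := by
      intro t
      simp only
      rw [Real.sin_add_two_pi]
    rw [← integral_shift hper2 (π / 2)]
    simp only [Real.sin_add_pi_div_two]
  have hb : ∀ t, frm a b (t + φ) ^ ((n : ℝ) / 2)
      ≤ (1 - u) * |Real.cos t| ^ n + u * |Real.sin t| ^ n := by
    intro t
    rw [hform, ← hpow, ← hpow]
    have h := (convexOn_rpow hp1).2 (mem_Ici.2 (sq_nonneg (Real.cos t)))
      (mem_Ici.2 (sq_nonneg (Real.sin t))) (by linarith : (0 : ℝ) ≤ 1 - u) hu0.le (by ring)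
    simpa using h
  have c1 : Continuous (fun t => (1 - u) * |Real.cos t| ^ n + u * |Real.sin t| ^ n) := by fun_prop
  have c0 : Continuous (fun t => frm a b (t + φ) ^ ((n : ℝ) / 2)) :=
    (continuous_rpow_frm hpos _).comp (by fun_prop : Continuous fun t : ℝ => t + φ)
  have c2 : Continuous (fun t => (1 - u) * |Real.cos t| ^ n) := by fun_prop
  have c3 : Continuous (fun t => u * |Real.sin t| ^ n) := by fun_prop
  calc ∫ t in (0 : ℝ)..(2 * π), frm a b (t + φ) ^ ((n : ℝ) / 2)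
      ≤ ∫ t in (0 : ℝ)..(2 * π), ((1 - u) * |Real.cos t| ^ n + u * |Real.sin t| ^ n) :=
        intervalIntegral.integral_mono (by positivity) (c0.intervalIntegrable _ _)
          (c1.intervalIntegrable _ _) (fun t => hb t)
    _ = ∫ t in (0 : ℝ)..(2 * π), |Real.cos t| ^ n := by
        rw [intervalIntegral.integral_add (c2.intervalIntegrable _ _) (c3.intervalIntegrable _ _),
          intervalIntegral.integral_const_mul, intervalIntegral.integral_const_mul, hcs]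
        ring

lemma rpow_aux {C : ℝ} (hC : 0 < C) {n : ℕ} (j : ℕ) (hj : j ≤ n) :
    C ^ (n - j) * C ^ (-((n : ℝ) / 2)) = C ^ ((n : ℝ) / 2 - j) := by
  rw [← Real.rpow_natCast, ← Real.rpow_add hC]
  congr 1
  push_cast [Nat.cast_sub hj]
  ring

lemma circle_ineq {n : ℕ} (hn : 3 ≤ n) (hW : OneVar n) {a b a' b' : ℝ} (hpos : ∀ t, 0 < frm a b t)
    (hκ : ∀ t, 0 ≤ frm a' b' t) {δ δ' σ : ℝ → ℝ}
    (hδ : ∀ t, HasDerivAt δ (δ' t) t) (hδ'c : Continuous δ') (hper : δ (2 * π) = δ 0)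
    (hσ : Continuous σ)
    (hstar : ∀ t, (2 * n + 3) * σ t - (3 * n + 6) * δ t ^ 2 ≤
      (2 * n + 3) * (frm a b t ^ n + n * frm a' b' t * frm a b t ^ (n - 1))
        - (3 * n + 6) * frm a' b' t * frm a b t ^ n)
    (hδκ : ∀ t, δ t ^ 2 ≤ frm a' b' t * frm a b t ^ n) :
    ∫ t in (0 : ℝ)..(2 * π), ((2 * n + 3) * (σ t - δ t ^ 2) - (n + 3) / (n + 1) * δ' t ^ 2)
        * frm a b t ^ (-((n : ℝ) / 2))
      ≤ 2 * (n + 1) * n * (2 * (∫ t in (0 : ℝ)..(2 * π), |Real.cos t| ^ n)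
          - ∫ t in (0 : ℝ)..(2 * π), frm a b t ^ ((n : ℝ) / 2)) := by
  have hδc : Continuous δ := continuous_iff_continuousAt.2 fun t => (hδ t).continuousAt
  have hc := continuous_frm a b
  have hc2 := continuous_frm a' b'
  obtain ⟨φ, u, hu0, hu1, hq, hform⟩ := frm_rotate hpos
  obtain ⟨A, B, G, hAB, hA, hB, hform2⟩ := frm_rotate2 a' b' φ
  have hw := wirt hpos hδ hδ'c hper ((n : ℝ) + 1)
  rw [hq] at hw
  have hn1 : ((n : ℝ) + 1 - 1) / 2 = (n : ℝ) / 2 := by ring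
  rw [hn1] at hw
  have hcp := continuous_rpow_frm hpos (-((n : ℝ) / 2))
  have hne : ∀ t, frm a b t ≠ 0 := fun t => (hpos t).ne'
  have hi2 : Continuous fun t => (frm a b t ^ 2)⁻¹ := (hc.pow 2).inv₀ (fun t => pow_ne_zero 2 (hne t))
  set q := u * (1 - u) with hqdef
  have hq0 : 0 ≤ q := mul_nonneg hu0.le (by linarith)
  have c1 : Continuous (fun t => (2 * n + 3) * (σ t - δ t ^ 2) * frm a b t ^ (-((n : ℝ) / 2))) := by
    fun_prop
  have c2 : Continuous (fun t => δ' t ^ 2 * frm a b t ^ (-((n : ℝ) / 2))) := by fun_prop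
  have c2' : Continuous (fun t => (n + 3) / (n + 1) * (δ' t ^ 2 * frm a b t ^ (-((n : ℝ) / 2)))) := by
    fun_prop
  have c3 : Continuous (fun t => ((n : ℝ) + 1) * (1 - q / frm a b t ^ 2) * δ t ^ 2
        * frm a b t ^ (-((n : ℝ) / 2))) := by
    simp only [div_eq_mul_inv]
    fun_prop
  have c3' : Continuous (fun t => (n + 3) / (n + 1) * (((n : ℝ) + 1) * (1 - q / frm a b t ^ 2) * δ t ^ 2
        * frm a b t ^ (-((n : ℝ) / 2)))) := c3.const_mul _ 
  -- step 1
  have hn0 : (0 : ℝ) < n + 1 := by positivity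
  have s1 : ∫ t in (0 : ℝ)..(2 * π), ((2 * n + 3) * (σ t - δ t ^ 2) - (n + 3) / (n + 1) * δ' t ^ 2)
        * frm a b t ^ (-((n : ℝ) / 2))
      ≤ ∫ t in (0 : ℝ)..(2 * π), ((2 * n + 3) * (σ t - δ t ^ 2) * frm a b t ^ (-((n : ℝ) / 2))
        - (n + 3) / (n + 1) * (((n : ℝ) + 1) * (1 - q / frm a b t ^ 2) * δ t ^ 2
        * frm a b t ^ (-((n : ℝ) / 2)))) := by
    have e1 : ∀ t, ((2 * n + 3) * (σ t - δ t ^ 2) - (n + 3) / (n + 1) * δ' t ^ 2)
        * frm a b t ^ (-((n : ℝ) / 2)) = (2 * n + 3) * (σ t - δ t ^ 2) * frm a b t ^ (-((n : ℝ) / 2))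
          - (n + 3) / (n + 1) * (δ' t ^ 2 * frm a b t ^ (-((n : ℝ) / 2))) := fun t => by ring
    simp_rw [e1]
    rw [intervalIntegral.integral_sub (c1.intervalIntegrable _ _) (c2'.intervalIntegrable _ _),
      intervalIntegral.integral_sub (c1.intervalIntegrable _ _) (c3'.intervalIntegrable _ _),
      intervalIntegral.integral_const_mul ((n + 3) / (n + 1) : ℝ),
      intervalIntegral.integral_const_mul ((n + 3) / (n + 1) : ℝ)]
    have : (0 : ℝ) ≤ (n + 3) / (n + 1) := by positivity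
    nlinarith only [hw, this, mul_le_mul_of_nonneg_left hw this]
  refine s1.trans ?_
  -- step 2: the pointwise bound
  set Wf : ℝ → ℝ := fun t => (2 * n + 3) * (frm a b t ^ ((n : ℝ) / 2)
      + n * frm a' b' t * frm a b t ^ ((n : ℝ) / 2 - 1))
      - (3 * n + 6) * frm a' b' t * frm a b t ^ ((n : ℝ) / 2)
      + (n + 3) * q * frm a' b' t * frm a b t ^ ((n : ℝ) / 2 - 2) with hWf
  have hpt : ∀ t, (2 * n + 3) * (σ t - δ t ^ 2) * frm a b t ^ (-((n : ℝ) / 2))
        - (n + 3) / (n + 1) * (((n : ℝ) + 1) * (1 - q / frm a b t ^ 2) * δ t ^ 2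
        * frm a b t ^ (-((n : ℝ) / 2))) ≤ Wf t := by
    intro t
    have hC := hpos t
    have hY : 0 < frm a b t ^ (-((n : ℝ) / 2)) := Real.rpow_pos_of_pos hC _
    have r0 := rpow_aux hC (n := n) 0 (by omega)
    have r1 := rpow_aux hC (n := n) 1 (by omega)
    have r2 := rpow_aux hC (n := n) 2 (by omega)
    have e0 : frm a b t ^ n = frm a b t ^ (n - 2) * frm a b t ^ 2 := by
      rw [← pow_add]; congr 1; omega
    have hs := hstar t
    have hd := hδκ t
    simp only [hWf]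
    simp only [Nat.cast_zero, sub_zero, Nat.sub_zero, Nat.cast_one, Nat.cast_ofNat] at r0 r1 r2
    rw [← r0, ← r1, ← r2]
    generalize frm a b t ^ (-((n : ℝ) / 2)) = Y at *
    have hC2 : 0 < frm a b t ^ 2 := by positivity
    have hd2 : δ t ^ 2 / frm a b t ^ 2 ≤ frm a' b' t * frm a b t ^ (n - 2) := by
      rw [div_le_iff₀ hC2, mul_assoc, ← e0]
      exact hd
    have e3 : (2 * n + 3) * (σ t - δ t ^ 2) * Y
        - (n + 3) / (n + 1) * (((n : ℝ) + 1) * (1 - q / frm a b t ^ 2) * δ t ^ 2 * Y)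
        = ((2 * n + 3) * σ t - (3 * n + 6) * δ t ^ 2) * Y
          + (n + 3) * q * (δ t ^ 2 / frm a b t ^ 2) * Y := by
      field_simp
      ring
    rw [e3]
    have h1 := mul_le_mul_of_nonneg_right hs hY.le
    have h2 : (n + 3) * q * (δ t ^ 2 / frm a b t ^ 2) * Y
        ≤ (n + 3) * q * (frm a' b' t * frm a b t ^ (n - 2)) * Y := by
      refine mul_le_mul_of_nonneg_right (mul_le_mul_of_nonneg_left hd2 ?_) hY.le
      positivity
    calc _ ≤ _ := add_le_add h1 h2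
      _ = _ := by ring
  have cWf : Continuous Wf := by
    have k1 := continuous_rpow_frm hpos ((n : ℝ) / 2)
    have k2 := continuous_rpow_frm hpos ((n : ℝ) / 2 - 1)
    have k3 := continuous_rpow_frm hpos ((n : ℝ) / 2 - 2)
    simp only [hWf]
    fun_prop
  have s2 := intervalIntegral.integral_mono (μ := volume) (a := 0) (b := 2 * π) (by positivity)
    ((c1.sub c3').intervalIntegrable _ _) (cWf.intervalIntegrable _ _) (fun t => hpt t)
  refine s2.trans ?_
  -- step 3: rotate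
  have hperW : Function.Periodic Wf (2 * π) := by
    intro t
    simp only [hWf]
    rw [frm_periodic a b t, frm_periodic a' b' t]
  have hperJ : Function.Periodic (fun t => frm a b t ^ ((n : ℝ) / 2)) (2 * π) := by
    intro t
    simp only
    rw [frm_periodic a b t]
  rw [← integral_shift hperW φ, ← integral_shift hperJ φ]
  have h4 := hW u hu0 hu1 A B G (hA ▸ hκ _) (hB ▸ hκ _) hAB
  simp only [hWf, hform, hform2]
  exact h4

end Pool.Agent.Helper20.VF
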