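import Mathlib

/-!
# Principal minors and Hadamard's inequality
-/

open Set Matrix
open scoped Topology

namespace Pool.Agent.Helper20.VF

variable {ι : Type*} [Fintype ι] [DecidableEq ι]

/-- the determinant of the matrix whose rows are those of `M` for `i ∈ s` and of `1` otherwise. -/
noncomputable def pm (M : Matrix ι ι ℝ) (s : Finset ι) : ℝ :=
  Matrix.det (Matrix.of (s.piecewise (fun i => M i) (fun i => (1 : Matrix ι ι ℝ) i)))

/-- the elementary symmetric functions of a matrix. -/
noncomputable def sg (M : Matrix ι ι ℝ) (k : ℕ) : ℝ :=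
  ∑ s ∈ Finset.powersetCard k Finset.univ, pm M s

lemma det_one_add_smul (M : Matrix ι ι ℝ) (t : ℝ) :
    (1 + t • M).det = ∑ s : Finset ι, t ^ s.card * pm M s := by
  have h1 : (1 + t • M).det = (detRowAlternating (R := ℝ) (n := ι)).toMultilinearMap
      ((fun i => t • M i) + (fun i => (1 : Matrix ι ι ℝ) i)) := by
    rw [add_comm 1 (t • M)]
    rfl
  rw [h1, MultilinearMap.map_add_univ]
  refine Finset.sum_congr rfl (fun s _ => ?_)
  have h2 : s.piecewise (fun i => t • M i) (fun i => (1 : Matrix ι ι ℝ) i)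
      = s.piecewise (fun i => t • (s.piecewise (fun i => M i) (fun i => (1 : Matrix ι ι ℝ) i)) i)
        (s.piecewise (fun i => M i) (fun i => (1 : Matrix ι ι ℝ) i)) := by
    funext i
    by_cases hi : i ∈ s
    · simp [hi]
    · simp [hi]
  rw [h2, MultilinearMap.map_piecewise_smul, Finset.prod_const, smul_eq_mul]
  rfl

lemma det_one_add_smul' (M : Matrix ι ι ℝ) (t : ℝ) :
    (1 + t • M).det = ∑ k ∈ Finset.range (Fintype.card ι + 1), t ^ k * sg M k := by
  rw [det_one_add_smul, ← Finset.powerset_univ, Finset.sum_powerset]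
  rw [Finset.card_univ]
  refine Finset.sum_congr rfl (fun k _ => ?_)
  rw [sg, Finset.mul_sum]
  refine Finset.sum_congr rfl (fun s hs => ?_)
  rw [(Finset.mem_powersetCard.1 hs).2]

lemma sg_zero (M : Matrix ι ι ℝ) : sg M 0 = 1 := by
  rw [sg, Finset.powersetCard_zero, Finset.sum_singleton, pm, Finset.piecewise_empty]
  exact det_one

lemma continuous_pm (s : Finset ι) : Continuous (fun M : Matrix ι ι ℝ => pm M s) := by
  unfold pm
  refine Continuous.matrix_det ?_
  refine continuous_matrix (fun i j => ?_)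
  by_cases hi : i ∈ s
  · simp only [Matrix.of_apply, Finset.piecewise_eq_of_mem _ _ _ hi]
    exact continuous_id.matrix_elem i j
  · simp only [Matrix.of_apply, Finset.piecewise_eq_of_notMem _ _ _ hi]
    exact continuous_const

lemma continuous_sg (k : ℕ) : Continuous (fun M : Matrix ι ι ℝ => sg M k) := by
  unfold sg
  exact continuous_finsetSum _ (fun s _ => continuous_pm s)

/-- Hadamard's inequality. -/
lemma hadamard (M : Matrix ι ι ℝ) : |M.det| ≤ ∏ i, √(∑ j, M i j ^ 2) := by
  -- reduce to `Fin n`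
  set e := Fintype.equivFin ι with he
  set n := Fintype.card ι with hn
  set N : Matrix (Fin n) (Fin n) ℝ := M.submatrix e.symm e.symm with hN
  have hdet : M.det = N.det := (det_submatrix_equiv_self e.symm M).symm
  haveI : Fact (Module.finrank ℝ (EuclideanSpace ℝ (Fin n)) = n) := ⟨by simp⟩
  set b := EuclideanSpace.basisFun (Fin n) ℝ with hb
  set o := b.toBasis.orientation with ho
  set v : Fin n → EuclideanSpace ℝ (Fin n) := fun i => WithLp.toLp 2 (N i) with hv
  have h1 := o.abs_volumeForm_apply_le v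
  have h2 : o.volumeForm v = N.det := by
    rw [o.volumeForm_robust b rfl]
    rw [Module.Basis.det_apply, ← det_transpose]
    congr 1
  rw [hdet, ← h2]
  refine h1.trans (le_of_eq ?_)
  rw [← Equiv.prod_comp e.symm]
  refine Finset.prod_congr rfl (fun i _ => ?_)
  rw [hv, EuclideanSpace.norm_eq]
  congr 1
  rw [← Equiv.sum_comp e.symm]
  refine Finset.sum_congr rfl (fun j _ => ?_)
  rw [Real.norm_eq_abs, sq_abs]
  rfl

lemma abs_pm_le (M : Matrix ι ι ℝ) (s : Finset ι) (μ : ι → ℝ)
    (h : ∀ i, √(∑ j, M i j ^ 2) ≤ μ i) : |pm M s| ≤ ∏ i ∈ s, μ i := by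
  unfold pm
  refine (hadamard _).trans ?_
  rw [← Finset.prod_mul_prod_compl s]
  have h1 : ∏ i ∈ sᶜ, √(∑ j, (Matrix.of (s.piecewise (fun i => M i)
      (fun i => (1 : Matrix ι ι ℝ) i))) i j ^ 2) = 1 := by
    refine Finset.prod_eq_one (fun i hi => ?_)
    rw [Finset.mem_compl] at hi
    simp only [Matrix.of_apply, Finset.piecewise_eq_of_notMem _ _ _ hi, Matrix.one_apply, ite_pow,
      one_pow]
    simp
  rw [h1, mul_one]
  refine Finset.prod_le_prod (fun i _ => Real.sqrt_nonneg _) (fun i hi => ?_)
  simp only [Matrix.of_apply, Finset.piecewise_eq_of_mem _ _ _ hi]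
  exact h i

/-- the elementary symmetric functions of numbers. -/
noncomputable def es (μ : ι → ℝ) (k : ℕ) : ℝ :=
  ∑ s ∈ Finset.powersetCard k Finset.univ, ∏ i ∈ s, μ i

lemma abs_sg_le (M : Matrix ι ι ℝ) (k : ℕ) (μ : ι → ℝ)
    (h : ∀ i, √(∑ j, M i j ^ 2) ≤ μ i) : |sg M k| ≤ es μ k := by
  unfold sg es
  refine (Finset.abs_sum_le_sum_abs _ _).trans (Finset.sum_le_sum (fun s _ => ?_))
  exact abs_pm_le M s μ h

/-- invariance under conjugation. -/
lemma sg_conj (M N : Matrix ι ι ℝ) (h : ∀ t : ℝ, (1 + t • M).det = (1 + t • N).det) (k : ℕ) :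
    sg M k = sg N k := by
  set n := Fintype.card ι with hn
  by_cases hk : k ∈ Finset.range (n + 1)
  · have hp : (∑ j ∈ Finset.range (n + 1), Polynomial.C (sg M j) * Polynomial.X ^ j)
        = ∑ j ∈ Finset.range (n + 1), Polynomial.C (sg N j) * Polynomial.X ^ j := by
      refine Polynomial.funext (fun t => ?_)
      have := h t
      rw [det_one_add_smul', det_one_add_smul'] at this
      simp only [Polynomial.eval_finsetSum, Polynomial.eval_mul, Polynomial.eval_C,
        Polynomial.eval_pow, Polynomial.eval_X]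
      simpa only [mul_comm] using this
    have h2 := congrArg (fun p => p.coeff k) hp
    simp only [Polynomial.finsetSum_coeff, Polynomial.coeff_C_mul, Polynomial.coeff_X_pow] at h2
    simpa [hk] using h2
  · have : Finset.powersetCard k (Finset.univ : Finset ι) = ∅ := by
      rw [Finset.powersetCard_eq_empty, Finset.card_univ]
      simp only [Finset.mem_range, not_lt] at hk
      omega
    rw [sg, sg, this, Finset.sum_empty, Finset.sum_empty]

end Pool.Agent.Helper20.VF
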