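import Pool.Agent.Helper20.VF.NormB

/-!
# The normalised bound
-/

open MeasureTheory Set Metric Filter Module Matrix
open scoped NNReal Topology RealInnerProductSpace ENNReal Real

namespace Pool.Agent.Helper20.VF

variable {n : ℕ}
variable {P₁ P₂ : Matrix (Fin (n + 1)) (Fin (n + 1)) ℝ} {a : Fin (n + 1) → ℝ}


/-- coefficient of `ρ⁴`. -/
noncomputable def cA (P₁ P₂ : Matrix (Fin (n + 1)) (Fin (n + 1)) ℝ) (a : Fin (n + 1) → ℝ) (φ : ℝ) : ℝ :=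
  (Qc P₁ P₂ φ).det ^ 2 + ((Qc P₁ P₂ φ).adjugate *ᵥ a) ⬝ᵥ ((Qc P₁ P₂ φ).adjugate *ᵥ a)

/-- coefficient of `ρ²`. -/
noncomputable def cB (P₁ P₂ : Matrix (Fin (n + 1)) (Fin (n + 1)) ℝ) (a : Fin (n + 1) → ℝ) (φ : ℝ) : ℝ :=
  (∑ i, ∑ j, (Qc P₁ P₂ φ).adjugate i j ^ 2)
        + n * (((Qc P₁ P₂ φ).adjugate *ᵥ a) ⬝ᵥ ((Qc P₁ P₂ φ).adjugate *ᵥ a))

/-- constant coefficient. -/
noncomputable def cC (P₁ P₂ : Matrix (Fin (n + 1)) (Fin (n + 1)) ℝ) (φ : ℝ) : ℝ :=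
  (n + 3) * ((∑ i, ∑ j, (Qc P₁ P₂ φ).adjugate i j ^ 2) - (n + 1) * (Qc P₁ P₂ φ).det ^ 2)
      - (n + 3) / (n + 1) * (trace ((Qc P₁ P₂ φ).adjugate * Qs P₁ P₂ φ)) ^ 2

lemma Rp_eq (ρ φ : ℝ) : Rp P₁ P₂ a ρ φ = ρ ^ 4 * cA P₁ P₂ a φ + ρ ^ 2 * cB P₁ P₂ a φ + cC P₁ P₂ φ := rfl

lemma continuous_adj : Continuous (fun t => (Qc P₁ P₂ t).adjugate) := continuous_Qc.matrix_adjugate

lemma continuous_alpha : Continuous (fun t => ((Qc P₁ P₂ t).adjugate *ᵥ a) ⬝ᵥ ((Qc P₁ P₂ t).adjugate *ᵥ a)) := by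
  have h : Continuous (fun t => (Qc P₁ P₂ t).adjugate *ᵥ a) :=
    (continuous_adj).matrix_mulVec continuous_const
  exact h.dotProduct h

lemma continuous_sigma : Continuous (fun t => ∑ i, ∑ j, (Qc P₁ P₂ t).adjugate i j ^ 2) :=
  continuous_finsetSum _ (fun i _ => continuous_finsetSum _ (fun j _ =>
    (continuous_adj.matrix_elem i j).pow 2))

lemma continuous_cA : Continuous (cA P₁ P₂ a) := by
  unfold cA
  exact ((continuous_Qc.matrix_det).pow 2).add continuous_alpha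

lemma continuous_cB : Continuous (cB P₁ P₂ a) := by
  unfold cB
  exact continuous_sigma.add (continuous_const.mul continuous_alpha)

lemma continuous_cC : Continuous (cC P₁ P₂) := by
  unfold cC
  refine (continuous_const.mul (continuous_sigma.sub (continuous_const.mul
    ((continuous_Qc.matrix_det).pow 2)))).sub (continuous_const.mul (Continuous.pow ?_ 2))
  exact (continuous_adj.matrix_mul continuous_Qs).matrix_trace

/-- the upper bound in polar coordinates. -/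
noncomputable def Hr (P₁ P₂ : Matrix (Fin (n + 1)) (Fin (n + 1)) ℝ) (a : Fin (n + 1) → ℝ) (L : ℝ)
    (ρ φ : ℝ) : ℝ :=
  Zg (EuclideanSpace ℝ (Fin (n + 1))) / 2 * ((L⁻¹ * frm (pa P₁) (pb P₁ P₂) φ ^ (-((n : ℝ) / 2)))
      * (cA P₁ P₂ a φ * (ρ ^ (n + 3) * Real.exp (-ρ ^ 2 / 2))
        + cB P₁ P₂ a φ * (ρ ^ (n + 1) * Real.exp (-ρ ^ 2 / 2))
        + cC P₁ P₂ φ * (ρ ^ (n - 1) * Real.exp (-ρ ^ 2 / 2)))
      + (L * frm (pa P₁) (pb P₁ P₂) φ ^ ((n : ℝ) / 2))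
        * (ρ ^ (n + 3) * Real.exp (-ρ ^ 2 / 2) + (n + 1) * (ρ ^ (n + 1) * Real.exp (-ρ ^ 2 / 2))))

lemma Hr_bound (hn : 1 ≤ n) (hP : P₁ * P₁ᵀ + P₂ * P₂ᵀ = 1)
    (hpos : ∀ t, 0 < frm (pa P₁) (pb P₁ P₂) t) {L : ℝ} (hL : 0 < L) {ρ : ℝ} (hρ : 0 < ρ) (φ : ℝ) :
    0 ≤ Hr P₁ P₂ a L ρ φ ∧
    ENNReal.ofReal ρ * ∫⁻ y : EuclideanSpace ℝ (Fin (n + 1)), ENNReal.ofReal (√((ρ * Real.cos φ) ^ 2 + (ρ * Real.sin φ) ^ 2 + ‖y‖ ^ 2)
        * √((Gm P₁ P₂ a y.ofLp (ρ * Real.cos φ) (ρ * Real.sin φ)).det)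
        * (gw y * Real.exp (-((ρ * Real.cos φ) ^ 2 + (ρ * Real.sin φ) ^ 2) / 2)))
      ≤ ENNReal.ofReal (Hr P₁ P₂ a L ρ φ) := by
  have hc := hpos φ
  have hcp : 0 < frm (pa P₁) (pb P₁ P₂) φ ^ ((n : ℝ) / 2) := Real.rpow_pos_of_pos hc _
  set κ : ℝ := L * ρ ^ n * frm (pa P₁) (pb P₁ P₂) φ ^ ((n : ℝ) / 2) with hκ
  have hκ0 : 0 < κ := by positivity
  obtain ⟨h0, h1⟩ := inner_y (a := a) hn hP hρ hκ0 φ
  have hE : 0 < Real.exp (-ρ ^ 2 / 2) := Real.exp_pos _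
  have hρe : (0 : ℝ) ≤ ρ * Real.exp (-ρ ^ 2 / 2) := by positivity
  have e1 : Hr P₁ P₂ a L ρ φ = ρ * Real.exp (-ρ ^ 2 / 2)
      * (Zg (EuclideanSpace ℝ (Fin (n + 1))) / 2 * (κ⁻¹ * (ρ ^ (2 * (n - 1)) * Rp P₁ P₂ a ρ φ) + κ * (ρ ^ 2 + (n + 1)))) := by
    have e2 : ρ * (κ⁻¹ * ρ ^ (2 * (n - 1)))
        = L⁻¹ * frm (pa P₁) (pb P₁ P₂) φ ^ (-((n : ℝ) / 2)) * ρ ^ (n - 1) := by
      have e3 : ρ * ρ ^ (2 * (n - 1)) = ρ ^ n * ρ ^ (n - 1) := by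
        rw [← pow_succ', ← pow_add]; congr 1; omega
      rw [Real.rpow_neg hc.le, hκ]
      have hρn : ρ ^ n ≠ 0 := by positivity
      calc ρ * ((L * ρ ^ n * frm (pa P₁) (pb P₁ P₂) φ ^ ((n : ℝ) / 2))⁻¹ * ρ ^ (2 * (n - 1)))
          = (L * ρ ^ n * frm (pa P₁) (pb P₁ P₂) φ ^ ((n : ℝ) / 2))⁻¹ * (ρ * ρ ^ (2 * (n - 1))) := by
            ring
        _ = _ := by
            rw [e3]
            field_simp
    have e4 : ρ ^ (n + 3) = ρ ^ (n - 1) * ρ ^ 4 := by rw [← pow_add]; congr 1; omega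
    have e5 : ρ ^ (n + 1) = ρ ^ (n - 1) * ρ ^ 2 := by rw [← pow_add]; congr 1; omega
    have e6 : ρ * κ = L * frm (pa P₁) (pb P₁ P₂) φ ^ ((n : ℝ) / 2) * ρ ^ (n + 1) := by
      rw [hκ, pow_succ]; ring
    have e7 : ρ ^ (n + 3) = ρ ^ (n + 1) * ρ ^ 2 := by rw [← pow_add]
    calc Hr P₁ P₂ a L ρ φ
        = Real.exp (-ρ ^ 2 / 2) * (Zg (EuclideanSpace ℝ (Fin (n + 1))) / 2 * ((L⁻¹ * frm (pa P₁) (pb P₁ P₂) φ ^ (-((n : ℝ) / 2))
            * ρ ^ (n - 1)) * (ρ ^ 4 * cA P₁ P₂ a φ + ρ ^ 2 * cB P₁ P₂ a φ + cC P₁ P₂ φ)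
            + (L * frm (pa P₁) (pb P₁ P₂) φ ^ ((n : ℝ) / 2) * ρ ^ (n + 1)) * (ρ ^ 2 + (n + 1)))) := by
          rw [Hr]
          have e8 : cA P₁ P₂ a φ * (ρ ^ (n + 3) * Real.exp (-ρ ^ 2 / 2))
              + cB P₁ P₂ a φ * (ρ ^ (n + 1) * Real.exp (-ρ ^ 2 / 2))
              + cC P₁ P₂ φ * (ρ ^ (n - 1) * Real.exp (-ρ ^ 2 / 2))
              = Real.exp (-ρ ^ 2 / 2) * (ρ ^ (n - 1) *
                (ρ ^ 4 * cA P₁ P₂ a φ + ρ ^ 2 * cB P₁ P₂ a φ + cC P₁ P₂ φ)) := by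
            rw [e4, e5]; ring
          have e9 : ρ ^ (n + 3) * Real.exp (-ρ ^ 2 / 2)
              + (n + 1) * (ρ ^ (n + 1) * Real.exp (-ρ ^ 2 / 2))
              = Real.exp (-ρ ^ 2 / 2) * (ρ ^ (n + 1) * (ρ ^ 2 + (n + 1))) := by
            rw [e7]; ring
          rw [e8, e9]; ring
      _ = Real.exp (-ρ ^ 2 / 2) * (Zg (EuclideanSpace ℝ (Fin (n + 1))) / 2 * ((ρ * (κ⁻¹ * ρ ^ (2 * (n - 1))))
            * Rp P₁ P₂ a ρ φ + (ρ * κ) * (ρ ^ 2 + (n + 1)))) := by rw [e2, e6, Rp_eq]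
      _ = _ := by ring
  refine ⟨e1 ▸ mul_nonneg hρe h0, ?_⟩
  rw [e1, ENNReal.ofReal_mul hρe, ENNReal.ofReal_mul hρ.le, mul_assoc]
  refine mul_le_mul_right ?_ _
  refine le_trans (le_of_eq ?_) (mul_le_mul_right h1 _)
  rw [← lintegral_const_mul' _ _ ENNReal.ofReal_ne_top]
  refine lintegral_congr (fun y => ?_)
  rw [← ENNReal.ofReal_mul hE.le]
  congr 1
  have e10 : (ρ * Real.cos φ) ^ 2 + (ρ * Real.sin φ) ^ 2 = ρ ^ 2 := by
    have := Real.sin_sq_add_cos_sq φ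
    linear_combination ρ ^ 2 * this
  rw [e10]
  ring

lemma continuous_Hr (hpos : ∀ t, 0 < frm (pa P₁) (pb P₁ P₂) t) (L : ℝ) :
    Continuous (fun p : ℝ × ℝ => Hr P₁ P₂ a L p.1 p.2) := by
  unfold Hr
  have h1 : Continuous (fun p : ℝ × ℝ => frm (pa P₁) (pb P₁ P₂) p.2 ^ (-((n : ℝ) / 2))) :=
    (continuous_rpow_frm hpos _).comp continuous_snd
  have h2 : Continuous (fun p : ℝ × ℝ => frm (pa P₁) (pb P₁ P₂) p.2 ^ (((n : ℝ) / 2))) :=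
    (continuous_rpow_frm hpos _).comp continuous_snd
  have h3 : Continuous (fun p : ℝ × ℝ => cA P₁ P₂ a p.2) := continuous_cA.comp continuous_snd
  have h4 : Continuous (fun p : ℝ × ℝ => cB P₁ P₂ a p.2) := continuous_cB.comp continuous_snd
  have h5 : Continuous (fun p : ℝ × ℝ => cC P₁ P₂ p.2) := continuous_cC.comp continuous_snd
  fun_prop

lemma integrable_Hr (L φ : ℝ) : IntegrableOn (fun ρ => Hr P₁ P₂ a L ρ φ) (Ioi 0) := by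
  have h1 := integrableOn_gm (n + 3)
  have h2 := integrableOn_gm (n + 1)
  have h3 := integrableOn_gm (n - 1)
  unfold Hr
  have k1 := (((h1.const_mul (cA P₁ P₂ a φ)).add (h2.const_mul (cB P₁ P₂ a φ))).add
    (h3.const_mul (cC P₁ P₂ φ))).const_mul (L⁻¹ * frm (pa P₁) (pb P₁ P₂) φ ^ (-((n : ℝ) / 2)))
  have k2 := (h1.add (h2.const_mul ((n : ℝ) + 1))).const_mul (L * frm (pa P₁) (pb P₁ P₂) φ ^ ((n : ℝ) / 2))
  exact (k1.add k2).const_mul (Zg (EuclideanSpace ℝ (Fin (n + 1))) / 2)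

/-- the angular density. -/
noncomputable def Fr (P₁ P₂ : Matrix (Fin (n + 1)) (Fin (n + 1)) ℝ) (a : Fin (n + 1) → ℝ) (L : ℝ)
    (φ : ℝ) : ℝ :=
  Zg (EuclideanSpace ℝ (Fin (n + 1))) / 2 * gm (n - 1) * (L⁻¹ * (((2 * n + 3) * ((∑ i, ∑ j, (Qc P₁ P₂ φ).adjugate i j ^ 2)
          - (Qc P₁ P₂ φ).det ^ 2)
          - (n + 3) / (n + 1) * (trace ((Qc P₁ P₂ φ).adjugate * Qs P₁ P₂ φ)) ^ 2)
          * frm (pa P₁) (pb P₁ P₂) φ ^ (-((n : ℝ) / 2))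
        + 2 * n * (n + 1) * ((((Qc P₁ P₂ φ).adjugate *ᵥ a) ⬝ᵥ ((Qc P₁ P₂ φ).adjugate *ᵥ a))
          * frm (pa P₁) (pb P₁ P₂) φ ^ (-((n : ℝ) / 2))))
      + L * n * (2 * n + 3) * frm (pa P₁) (pb P₁ P₂) φ ^ ((n : ℝ) / 2))

lemma integral_three {μ : Measure ℝ} {g1 g2 g3 : ℝ → ℝ} (h1 : Integrable g1 μ)
    (h2 : Integrable g2 μ) (h3 : Integrable g3 μ) (c1 c2 c3 : ℝ) :
    ∫ x, (c1 * g1 x + c2 * g2 x + c3 * g3 x) ∂μ
      = c1 * (∫ x, g1 x ∂μ) + c2 * (∫ x, g2 x ∂μ) + c3 * (∫ x, g3 x ∂μ) := by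
  have k1 : Integrable (fun x => c1 * g1 x) μ := h1.const_mul _
  have k2 : Integrable (fun x => c2 * g2 x) μ := h2.const_mul _
  have k3 : Integrable (fun x => c3 * g3 x) μ := h3.const_mul _
  have k12 : Integrable (fun x => c1 * g1 x + c2 * g2 x) μ := k1.add k2
  rw [integral_add k12 k3, integral_add k1 k2, integral_const_mul, integral_const_mul,
    integral_const_mul]

lemma integral_Hr (hn : 1 ≤ n) (L φ : ℝ) :
    ∫ ρ in Ioi (0 : ℝ), Hr P₁ P₂ a L ρ φ = Fr P₁ P₂ a L φ := by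
  have h1 := integrableOn_gm (n + 3)
  have h2 := integrableOn_gm (n + 1)
  have h3 := integrableOn_gm (n - 1)
  set g1 : ℝ → ℝ := fun ρ => ρ ^ (n + 3) * Real.exp (-ρ ^ 2 / 2) with hg1
  set g2 : ℝ → ℝ := fun ρ => ρ ^ (n + 1) * Real.exp (-ρ ^ 2 / 2) with hg2
  set g3 : ℝ → ℝ := fun ρ => ρ ^ (n - 1) * Real.exp (-ρ ^ 2 / 2) with hg3
  have e1 : ∀ ρ, Hr P₁ P₂ a L ρ φ
      = (Zg (EuclideanSpace ℝ (Fin (n + 1))) / 2 * ((L⁻¹ * frm (pa P₁) (pb P₁ P₂) φ ^ (-((n : ℝ) / 2))) * cA P₁ P₂ a φ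
          + (L * frm (pa P₁) (pb P₁ P₂) φ ^ ((n : ℝ) / 2)))) * g1 ρ
        + (Zg (EuclideanSpace ℝ (Fin (n + 1))) / 2 * ((L⁻¹ * frm (pa P₁) (pb P₁ P₂) φ ^ (-((n : ℝ) / 2))) * cB P₁ P₂ a φ
          + (L * frm (pa P₁) (pb P₁ P₂) φ ^ ((n : ℝ) / 2)) * (n + 1))) * g2 ρ
        + (Zg (EuclideanSpace ℝ (Fin (n + 1))) / 2 * ((L⁻¹ * frm (pa P₁) (pb P₁ P₂) φ ^ (-((n : ℝ) / 2))) * cC P₁ P₂ φ)) * g3 ρ := by
    intro ρ
    rw [Hr]; ring
  simp_rw [e1]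
  rw [integral_three h1 h2 h3]
  have m1 : ∫ ρ in Ioi (0 : ℝ), g1 ρ = (n + 2) * (n * gm (n - 1)) := by
    have : gm (n + 3) = (n + 2) * (n * gm (n - 1)) := by
      have q1 := gm_succ_succ (n + 1)
      have q2 := gm_succ_succ (n - 1)
      have q3 : n - 1 + 2 = n + 1 := by omega
      rw [q3] at q2
      rw [show n + 3 = n + 1 + 2 by rfl, q1, q2]
      push_cast [Nat.cast_sub hn]
      ring
    exact this
  have m2 : ∫ ρ in Ioi (0 : ℝ), g2 ρ = n * gm (n - 1) := by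
    have q2 := gm_succ_succ (n - 1)
    have q3 : n - 1 + 2 = n + 1 := by omega
    rw [q3] at q2
    have : gm (n + 1) = n * gm (n - 1) := by
      rw [q2]
      push_cast [Nat.cast_sub hn]
      ring
    exact this
  have m3 : ∫ ρ in Ioi (0 : ℝ), g3 ρ = gm (n - 1) := rfl
  rw [m1, m2, m3, Fr, cA, cB, cC]
  ring

lemma continuous_Fr (hpos : ∀ t, 0 < frm (pa P₁) (pb P₁ P₂) t) (L : ℝ) :
    Continuous (Fr P₁ P₂ a L) := by
  unfold Fr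
  have h1 : Continuous (fun φ : ℝ => frm (pa P₁) (pb P₁ P₂) φ ^ (-((n : ℝ) / 2))) :=
    continuous_rpow_frm hpos _
  have h2 : Continuous (fun φ : ℝ => frm (pa P₁) (pb P₁ P₂) φ ^ (((n : ℝ) / 2))) :=
    continuous_rpow_frm hpos _
  have h3 : Continuous (fun φ => (Qc P₁ P₂ φ).det) := continuous_Qc.matrix_det
  have h4 : Continuous (fun φ => trace ((Qc P₁ P₂ φ).adjugate * Qs P₁ P₂ φ)) :=
    (continuous_adj.matrix_mul continuous_Qs).matrix_trace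
  have h5 := continuous_sigma (P₁ := P₁) (P₂ := P₂)
  have h6 := continuous_alpha (P₁ := P₁) (P₂ := P₂) (a := a)
  fun_prop

/-- the bound before choosing the weight. -/
lemma polar_bound (hn : 1 ≤ n) (hP : P₁ * P₁ᵀ + P₂ * P₂ᵀ = 1)
    (hpos : ∀ t, 0 < frm (pa P₁) (pb P₁ P₂) t) {L : ℝ} (hL : 0 < L) :
    ∫⁻ p : ℝ × ℝ, ∫⁻ y : EuclideanSpace ℝ (Fin (n + 1)), ENNReal.ofReal (√(p.1 ^ 2 + p.2 ^ 2 + ‖y‖ ^ 2)
        * √((Gm P₁ P₂ a y.ofLp p.1 p.2).det)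
        * (gw y * Real.exp (-(p.1 ^ 2 + p.2 ^ 2) / 2)))
      ≤ ENNReal.ofReal (∫ φ in (0 : ℝ)..(2 * π), Fr P₁ P₂ a L φ) := by
  set f : ℝ × ℝ → ℝ≥0∞ := fun p => ∫⁻ y : EuclideanSpace ℝ (Fin (n + 1)), ENNReal.ofReal (√(p.1 ^ 2 + p.2 ^ 2 + ‖y‖ ^ 2)
        * √((Gm P₁ P₂ a y.ofLp p.1 p.2).det)
        * (gw y * Real.exp (-(p.1 ^ 2 + p.2 ^ 2) / 2))) with hf
  have hcH := continuous_Hr (a := a) hpos L
  have hmH : Measurable (fun p : ℝ × ℝ => ENNReal.ofReal (Hr P₁ P₂ a L p.1 p.2)) :=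
    hcH.measurable.ennreal_ofReal
  have hHnn : ∀ φ, ∀ ρ ∈ Ioi (0 : ℝ), 0 ≤ Hr P₁ P₂ a L ρ φ := fun φ ρ hρ =>
    (Hr_bound (a := a) hn hP hpos hL hρ φ).1
  have hFnn : ∀ φ, 0 ≤ Fr P₁ P₂ a L φ := by
    intro φ
    rw [← integral_Hr hn]
    exact setIntegral_nonneg measurableSet_Ioi (hHnn φ)
  have hper : Function.Periodic (Fr P₁ P₂ a L) (2 * π) := by
    intro φ
    have hQs : Qs P₁ P₂ (φ + 2 * π) = Qs P₁ P₂ φ := by simp [Qs]
    simp only [Fr]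
    rw [Qc_periodic, hQs, frm_periodic]
  calc ∫⁻ p : ℝ × ℝ, f p
      = ∫⁻ p in polarCoord.target, ENNReal.ofReal p.1 • f (polarCoord.symm p) :=
        (lintegral_comp_polarCoord_symm f).symm
    _ ≤ ∫⁻ p in polarCoord.target, ENNReal.ofReal (Hr P₁ P₂ a L p.1 p.2) := by
        refine setLIntegral_mono' polarCoord.open_target.measurableSet (fun p hp => ?_)
        rw [polarCoord_target] at hp
        rw [polarCoord_symm_apply, smul_eq_mul]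
        exact (Hr_bound (a := a) hn hP hpos hL hp.1 p.2).2
    _ = ∫⁻ φ in Ioo (-π) π, ∫⁻ ρ in Ioi (0 : ℝ), ENNReal.ofReal (Hr P₁ P₂ a L ρ φ) := by
        rw [polarCoord_target, Measure.volume_eq_prod, ← Measure.prod_restrict,
          lintegral_prod_symm' _ hmH]
    _ = ∫⁻ φ in Ioo (-π) π, ENNReal.ofReal (Fr P₁ P₂ a L φ) := by
        refine lintegral_congr (fun φ => ?_)
        rw [← integral_Hr hn, ofReal_integral_eq_lintegral_ofReal (integrable_Hr L φ)]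
        exact (ae_restrict_mem measurableSet_Ioi).mono (fun ρ hρ => hHnn φ ρ hρ)
    _ = ENNReal.ofReal (∫ φ in Ioo (-π) π, Fr P₁ P₂ a L φ) := by
        rw [ofReal_integral_eq_lintegral_ofReal]
        · exact ((continuous_Fr hpos L).integrableOn_Icc (a := -π) (b := π)).mono_set Ioo_subset_Icc_self
        · exact Eventually.of_forall hFnn
    _ = ENNReal.ofReal (∫ φ in (0 : ℝ)..(2 * π), Fr P₁ P₂ a L φ) := by
        congr 1
        rw [← integral_Ioc_eq_integral_Ioo, ← intervalIntegral.integral_of_le (by linarith [Real.pi_pos])]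
        have := hper.intervalIntegral_add_eq (-π) 0
        rw [zero_add, show -π + 2 * π = π by ring] at this
        exact this

/-- **The normalised bound.** -/
theorem norm_bound (hn : 3 ≤ n) (hW : OneVar n) (hP : P₁ * P₁ᵀ + P₂ * P₂ᵀ = 1)
    (hpos : ∀ t, 0 < frm (pa P₁) (pb P₁ P₂) t) (s : ℝ) (ha : a = s • Pi.single (Fin.last n) 1) :
    ∫⁻ p : ℝ × ℝ, ∫⁻ y : EuclideanSpace ℝ (Fin (n + 1)), ENNReal.ofReal (√(p.1 ^ 2 + p.2 ^ 2 + ‖y‖ ^ 2)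
        * √((Gm P₁ P₂ a y.ofLp p.1 p.2).det)
        * (gw y * Real.exp (-(p.1 ^ 2 + p.2 ^ 2) / 2)))
      ≤ ENNReal.ofReal (Zg (EuclideanSpace ℝ (Fin (n + 1))) * gm (n + 1) * √(2 * (n + 1) * (2 * n + 3))
          * (∫ t in (0 : ℝ)..(2 * π), |Real.cos t| ^ n) * √(1 + s ^ 2)) := by
  have hs0 : 0 < 1 + s ^ 2 := by positivity
  have hn0 : (0 : ℝ) < 2 * n + 3 := by positivity
  set L : ℝ := √(2 * (n + 1) / (2 * n + 3) * (1 + s ^ 2)) with hL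
  have hL0 : 0 < L := Real.sqrt_pos.2 (by positivity)
  have hLsq : L ^ 2 = 2 * (n + 1) / (2 * n + 3) * (1 + s ^ 2) := Real.sq_sqrt (by positivity)
  refine (polar_bound (a := a) (by omega) hP hpos hL0).trans (ENNReal.ofReal_le_ofReal ?_)
  set Γ : ℝ := ∫ t in (0 : ℝ)..(2 * π), |Real.cos t| ^ n with hΓ
  set J : ℝ := ∫ t in (0 : ℝ)..(2 * π), frm (pa P₁) (pb P₁ P₂) t ^ ((n : ℝ) / 2) with hJ
  have hpen := pencil_ineq hn hW hP hpos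
  rw [← hΓ, ← hJ] at hpen
  have hJΓ : J ≤ Γ := J_le (by omega) hpos
  have hΓ0 : 0 ≤ Γ := intervalIntegral.integral_nonneg (by positivity) (fun t _ => by positivity)
  have hJ0 : 0 ≤ J := intervalIntegral.integral_nonneg (by positivity)
    (fun t _ => Real.rpow_nonneg (hpos t).le _)
  have h1 : Continuous (fun φ : ℝ => frm (pa P₁) (pb P₁ P₂) φ ^ (-((n : ℝ) / 2))) :=
    continuous_rpow_frm hpos _
  have h2 : Continuous (fun φ : ℝ => frm (pa P₁) (pb P₁ P₂) φ ^ (((n : ℝ) / 2))) :=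
    continuous_rpow_frm hpos _
  have h3 : Continuous (fun φ => (Qc P₁ P₂ φ).det) := continuous_Qc.matrix_det
  have h4 : Continuous (fun φ => trace ((Qc P₁ P₂ φ).adjugate * Qs P₁ P₂ φ)) :=
    (continuous_adj.matrix_mul continuous_Qs).matrix_trace
  have h5 := continuous_sigma (P₁ := P₁) (P₂ := P₂)
  have h6 := continuous_alpha (P₁ := P₁) (P₂ := P₂) (a := a)
  set f1 : ℝ → ℝ := fun φ => ((2 * n + 3) * ((∑ i, ∑ j, (Qc P₁ P₂ φ).adjugate i j ^ 2)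
          - (Qc P₁ P₂ φ).det ^ 2)
          - (n + 3) / (n + 1) * (trace ((Qc P₁ P₂ φ).adjugate * Qs P₁ P₂ φ)) ^ 2)
          * frm (pa P₁) (pb P₁ P₂) φ ^ (-((n : ℝ) / 2)) with hf1
  set f2 : ℝ → ℝ := fun φ => (((Qc P₁ P₂ φ).adjugate *ᵥ a) ⬝ᵥ ((Qc P₁ P₂ φ).adjugate *ᵥ a))
          * frm (pa P₁) (pb P₁ P₂) φ ^ (-((n : ℝ) / 2)) with hf2
  set f3 : ℝ → ℝ := fun φ => frm (pa P₁) (pb P₁ P₂) φ ^ ((n : ℝ) / 2) with hf3
  have c1 : Continuous f1 := by simp only [hf1]; fun_prop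
  have c2 : Continuous f2 := h6.mul h1
  have c3 : Continuous f3 := h2
  have hsplit : ∫ φ in (0 : ℝ)..(2 * π), Fr P₁ P₂ a L φ
      = Zg (EuclideanSpace ℝ (Fin (n + 1))) / 2 * gm (n - 1) * (L⁻¹ * ((∫ φ in (0 : ℝ)..(2 * π), f1 φ)
        + 2 * n * (n + 1) * ∫ φ in (0 : ℝ)..(2 * π), f2 φ) + L * n * (2 * n + 3) * J) := by
    have e : ∀ φ, Fr P₁ P₂ a L φ = Zg (EuclideanSpace ℝ (Fin (n + 1))) / 2 * gm (n - 1) * L⁻¹ * f1 φ
        + Zg (EuclideanSpace ℝ (Fin (n + 1))) / 2 * gm (n - 1) * L⁻¹ * (2 * n * (n + 1)) * f2 φ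
        + Zg (EuclideanSpace ℝ (Fin (n + 1))) / 2 * gm (n - 1) * (L * n * (2 * n + 3)) * f3 φ := by
      intro φ
      simp only [Fr, hf1, hf2, hf3]
      ring
    simp_rw [e]
    rw [intervalIntegral.integral_of_le (by positivity), integral_three
      ((c1.intervalIntegrable 0 (2 * π)).1) ((c2.intervalIntegrable 0 (2 * π)).1)
      ((c3.intervalIntegrable 0 (2 * π)).1), ← intervalIntegral.integral_of_le (by positivity),
      ← intervalIntegral.integral_of_le (by positivity),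
      ← intervalIntegral.integral_of_le (by positivity)]
    simp only [hJ, hf3]
    ring
  have hf2le : ∫ φ in (0 : ℝ)..(2 * π), f2 φ ≤ s ^ 2 * J := by
    rw [hJ, ← intervalIntegral.integral_const_mul]
    refine intervalIntegral.integral_mono (by positivity) (c2.intervalIntegrable _ _)
      ((c3.const_mul _).intervalIntegrable _ _) (fun φ => ?_)
    have hα : ((Qc P₁ P₂ φ).adjugate *ᵥ a) ⬝ᵥ ((Qc P₁ P₂ φ).adjugate *ᵥ a)
        = s ^ 2 * ∑ j, (Qc P₁ P₂ φ).adjugate j (Fin.last n) ^ 2 := by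
      rw [ha, mulVec_smul, mulVec_single_one]
      simp only [dotProduct, Pi.smul_apply, smul_eq_mul, col_apply, Finset.mul_sum]
      exact Finset.sum_congr rfl (fun j _ => by ring)
    have hb := cofactor_bound hn (Qc P₁ P₂ φ) (Qc_contraction hP φ)
    rw [mean_form (by omega) hP] at hb
    simp only [hf2, hf3]
    rw [hα]
    have hr0 := rpow_aux (hpos φ) (n := n) 0 (by omega)
    simp only [Nat.cast_zero, sub_zero] at hr0
    rw [← hr0, mul_assoc]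
    refine mul_le_mul_of_nonneg_left ?_ (sq_nonneg s)
    exact mul_le_mul_of_nonneg_right hb (Real.rpow_nonneg (hpos φ).le _)
  rw [hsplit]
  have hgm : gm (n + 1) = n * gm (n - 1) := by
    have q2 := gm_succ_succ (n - 1)
    have q3 : n - 1 + 2 = n + 1 := by omega
    rw [q3] at q2
    rw [q2]
    push_cast [Nat.cast_sub (by omega : 1 ≤ n)]
    ring
  have hZ := Zg_pos (E := EuclideanSpace ℝ (Fin (n + 1)))
  have hg := gm_pos (n - 1)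
  have hin : L⁻¹ * ((∫ φ in (0 : ℝ)..(2 * π), f1 φ)
        + 2 * n * (n + 1) * ∫ φ in (0 : ℝ)..(2 * π), f2 φ) + L * n * (2 * n + 3) * J
        ≤ L⁻¹ * (4 * n * (n + 1) * (1 + s ^ 2) * Γ) := by
    have e1 : L * n * (2 * n + 3) * J = L⁻¹ * (2 * n * (n + 1) * (1 + s ^ 2) * J) := by
      have : L * n * (2 * n + 3) * J = L⁻¹ * (L ^ 2 * n * (2 * n + 3) * J) := by
        field_simp
      rw [this, hLsq]
      field_simp
    rw [e1, ← mul_add]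
    refine mul_le_mul_of_nonneg_left ?_ (inv_pos.2 hL0).le
    have e2 : 2 * n * (n + 1) * ∫ φ in (0 : ℝ)..(2 * π), f2 φ ≤ 2 * n * (n + 1) * (s ^ 2 * J) :=
      mul_le_mul_of_nonneg_left hf2le (by positivity)
    have e3 : 4 * n * (n + 1) * s ^ 2 * J ≤ 4 * n * (n + 1) * s ^ 2 * Γ :=
      mul_le_mul_of_nonneg_left hJΓ (by positivity)
    linarith
  have hw : L⁻¹ * (2 * (n + 1) * (1 + s ^ 2))
      = √(2 * (n + 1) * (2 * n + 3)) * √(1 + s ^ 2) := by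
    have hL2 : L = √(2 * (n + 1) * (1 + s ^ 2) / (2 * n + 3)) := by rw [hL]; congr 1; ring
    have h7 : L * (√(2 * (n + 1) * (2 * n + 3)) * √(1 + s ^ 2)) = 2 * (n + 1) * (1 + s ^ 2) := by
      rw [hL2, ← Real.sqrt_mul (by positivity), ← Real.sqrt_mul (by positivity)]
      have : 2 * ((n : ℝ) + 1) * (1 + s ^ 2) / (2 * n + 3) * (2 * (n + 1) * (2 * n + 3) * (1 + s ^ 2))
          = (2 * (n + 1) * (1 + s ^ 2)) ^ 2 := by
        field_simp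
      rw [this, Real.sqrt_sq (by positivity)]
    rw [← h7]
    field_simp
  calc Zg (EuclideanSpace ℝ (Fin (n + 1))) / 2 * gm (n - 1) * (L⁻¹ * ((∫ φ in (0 : ℝ)..(2 * π), f1 φ)
        + 2 * n * (n + 1) * ∫ φ in (0 : ℝ)..(2 * π), f2 φ) + L * n * (2 * n + 3) * J)
      ≤ Zg (EuclideanSpace ℝ (Fin (n + 1))) / 2 * gm (n - 1) * (L⁻¹ * (4 * n * (n + 1) * (1 + s ^ 2) * Γ)) :=
        mul_le_mul_of_nonneg_left hin (by positivity)
    _ = Zg (EuclideanSpace ℝ (Fin (n + 1))) * (n * gm (n - 1)) * Γ * (L⁻¹ * (2 * (n + 1) * (1 + s ^ 2))) := by ring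
    _ = _ := by rw [hw, hgm]; ring

end Pool.Agent.Helper20.VF
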