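import Mathlib

/-!
# The integral of the Jacobian determinant of a compactly supported C^1 map vanishes
-/

open MeasureTheory Set Polynomial Metric
open scoped NNReal Topology

namespace Pool.Agent.Helper20.VF

variable {E : Type*} [NormedAddCommGroup E] [NormedSpace ℝ E] [FiniteDimensional ℝ E]
  [MeasurableSpace E] [BorelSpace E]

omit [MeasurableSpace E] [BorelSpace E] in
lemma det_smul_id_add (M : E →L[ℝ] E) (t : ℝ) :
    (t • ContinuousLinearMap.id ℝ E + M).det
      = ((-(M : E →ₗ[ℝ] E) : Module.End ℝ E).charpoly).eval t := by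
  rw [LinearMap.eval_charpoly, ContinuousLinearMap.det]
  congr 1
  ext x
  simp [Algebra.algebraMap_eq_smul_one]

omit [MeasurableSpace E] [BorelSpace E] in
lemma exists_det_pos (C : ℝ) : ∃ δ > 0, ∀ s : ℝ, |s| < δ → ∀ M : E →L[ℝ] E, ‖M‖ ≤ C →
    0 < (ContinuousLinearMap.id ℝ E + s • M).det := by
  have hcont : Continuous fun p : ℝ × (E →L[ℝ] E) =>
      (ContinuousLinearMap.id ℝ E + p.1 • p.2).det :=
    ContinuousLinearMap.continuous_det.comp (by fun_prop)
  have hK : IsCompact (closedBall (0 : E →L[ℝ] E) C) := isCompact_closedBall _ _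
  obtain ⟨U, V, hU, hV, h0, hKV, hUV⟩ := generalized_tube_lemma (s := {(0 : ℝ)})
    isCompact_singleton hK (isOpen_Ioi.preimage hcont : IsOpen {p : ℝ × (E →L[ℝ] E) |
      0 < (ContinuousLinearMap.id ℝ E + p.1 • p.2).det}) (by
        rintro ⟨s, M⟩ ⟨hs, -⟩
        simp only [mem_singleton_iff] at hs
        subst hs
        simp [ContinuousLinearMap.det])
  obtain ⟨δ, hδ, hball⟩ := Metric.isOpen_iff.1 hU 0 (h0 rfl)
  refine ⟨δ, hδ, fun s hs M hM => ?_⟩
  have : (s, M) ∈ U ×ˢ V := ⟨hball (by simpa using hs), hKV (by simpa using hM)⟩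
  exact hUV this

lemma integral_det_id_add (μ : Measure E) [μ.IsAddHaarMeasure] (h : E → E)
    (hd : ContDiff ℝ 1 h) (hc : HasCompactSupport h) {R : ℝ} (hR : tsupport h ⊆ ball 0 R) :
    ∃ δ > 0, ∀ s : ℝ, |s| < δ →
      ∫ x in ball (0 : E) R, (ContinuousLinearMap.id ℝ E + s • fderiv ℝ h x).det ∂μ
        = μ.real (ball (0 : E) R) := by
  obtain ⟨C, hC⟩ := (hd.continuous_fderiv one_ne_zero).bounded_above_of_compact_support (hc.fderiv ℝ)
  have hC0 : 0 ≤ C := (norm_nonneg _).trans (hC 0)
  obtain ⟨δ, hδ, hpos⟩ := exists_det_pos (E := E) C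
  refine ⟨min δ (1 / (2 * (C + 1))), by positivity, fun s hs => ?_⟩
  have hs1 : |s| < δ := hs.trans_le (min_le_left _ _)
  have hs2 : |s| < 1 / (2 * (C + 1)) := hs.trans_le (min_le_right _ _)
  have hsC : |s| * C ≤ 1 / 2 := by
    have : |s| * (2 * (C + 1)) < 1 := by
      rwa [lt_div_iff₀ (by positivity)] at hs2
    nlinarith [abs_nonneg s]
  have hlip : LipschitzWith C.toNNReal h :=
    lipschitzWith_of_nnnorm_fderiv_le (hd.differentiable one_ne_zero) (fun x => by
      rw [← NNReal.coe_le_coe, Real.coe_toNNReal _ hC0, coe_nnnorm]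
      exact hC x)
  set f : E → E := fun x => x + s • h x with hf
  have hderiv : ∀ x, HasFDerivAt f (ContinuousLinearMap.id ℝ E + s • fderiv ℝ h x) x := fun x =>
    (hasFDerivAt_id x).add (((hd.differentiable one_ne_zero) x).hasFDerivAt.const_smul s)
  have happ : ApproximatesLinearOn f
      ((ContinuousLinearEquiv.refl ℝ E : E ≃L[ℝ] E) : E →L[ℝ] E) univ (1 / 2 : ℝ≥0) := by
    intro x _ y _
    have : f x - f y - ((ContinuousLinearEquiv.refl ℝ E : E ≃L[ℝ] E) : E →L[ℝ] E) (x - y)
        = s • (h x - h y) := by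
      simp only [hf, ContinuousLinearEquiv.coe_refl, ContinuousLinearMap.coe_id', id_eq, smul_sub]
      abel
    rw [this, norm_smul, Real.norm_eq_abs]
    have h1 := hlip.dist_le_mul x y
    rw [dist_eq_norm, dist_eq_norm] at h1
    rw [Real.coe_toNNReal _ hC0] at h1
    calc |s| * ‖h x - h y‖ ≤ |s| * (C * ‖x - y‖) := by gcongr
      _ = (|s| * C) * ‖x - y‖ := by ring
      _ ≤ 1 / 2 * ‖x - y‖ := by gcongr
      _ = _ := by norm_num
  have hcN : Subsingleton E ∨ (1 / 2 : ℝ≥0) <
      ‖((ContinuousLinearEquiv.refl ℝ E : E ≃L[ℝ] E).symm : E →L[ℝ] E)‖₊⁻¹ := by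
    rcases subsingleton_or_nontrivial E with hE | hE
    · exact Or.inl hE
    · right
      have : ‖((ContinuousLinearEquiv.refl ℝ E : E ≃L[ℝ] E).symm : E →L[ℝ] E)‖₊ = 1 := by
        rw [← NNReal.coe_inj]
        simp
      rw [this]
      norm_num
  have hbij : Function.Bijective f := (happ.toHomeomorph f hcN).bijective
  have hout : ∀ x, x ∉ ball (0 : E) R → f x = x := by
    intro x hx
    have : h x = 0 := by
      by_contra hne
      exact hx (hR (subset_tsupport _ hne))
    simp [hf, this]
  have himg : f '' ball (0 : E) R = ball (0 : E) R := by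
    apply Subset.antisymm
    · rintro _ ⟨x, hx, rfl⟩
      by_contra hne
      have := hbij.1 (hout _ hne)
      rw [this] at hne
      exact hne hx
    · intro y hy
      obtain ⟨x, rfl⟩ := hbij.2 y
      by_cases hx : x ∈ ball (0 : E) R
      · exact ⟨x, hx, rfl⟩
      · rw [hout x hx] at hy
        exact absurd hy hx
  have key := integral_image_eq_integral_abs_det_fderiv_smul μ (measurableSet_ball (x := (0 : E))
    (ε := R)) (fun x _ => (hderiv x).hasFDerivWithinAt) hbij.1.injOn (fun _ => (1 : ℝ))
  rw [himg] at key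
  simp only [smul_eq_mul, mul_one, integral_const, measureReal_restrict_apply_univ] at key
  rw [key]
  refine integral_congr_ae (Filter.Eventually.of_forall fun x => ?_)
  simp only
  rw [abs_of_pos (hpos s hs1 _ (hC x))]

/-- The integral of the Jacobian determinant of a compactly supported `C^1` map of a nontrivial
finite-dimensional space to itself vanishes. -/
theorem integral_det_fderiv_eq_zero [Nontrivial E] (μ : Measure E) [μ.IsAddHaarMeasure]
    (h : E → E) (hd : ContDiff ℝ 1 h) (hc : HasCompactSupport h) :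
    ∫ x, (fderiv ℝ h x).det ∂μ = 0 := by
  obtain ⟨R, hR⟩ : ∃ R : ℝ, tsupport h ⊆ ball 0 R := by
    obtain ⟨R, hR⟩ := hc.isCompact.isBounded.subset_ball (0 : E)
    exact ⟨R, hR⟩
  obtain ⟨δ, hδ, hint⟩ := integral_det_id_add μ h hd hc hR
  set n := Module.finrank ℝ E with hn
  have hn0 : 0 < n := Module.finrank_pos
  -- reduce to the ball
  have hdet0 : ∀ x, x ∉ ball (0 : E) R → (fderiv ℝ h x).det = 0 := by
    intro x hx
    have hx' : x ∉ tsupport h := fun hx' => hx (hR hx')
    have : fderiv ℝ h x = 0 := by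
      by_contra hne
      exact hx' (tsupport_fderiv_subset ℝ (subset_tsupport _ hne))
    rw [this]
    simp only [ContinuousLinearMap.det, ContinuousLinearMap.toLinearMap_zero]
    exact LinearMap.det_zero'' (M := E)
  rw [← setIntegral_eq_integral_of_forall_compl_eq_zero hdet0]
  -- nodes
  have hnode : ∀ i : ℕ, |((i : ℝ) + 1 + 1 / δ)⁻¹| < δ := by
    intro i
    have h1 : 0 < (i : ℝ) + 1 + 1 / δ := by positivity
    rw [abs_of_pos (by positivity)]
    rw [inv_lt_comm₀ h1 hδ]
    rw [← one_div]
    linarith [(Nat.cast_nonneg i : (0 : ℝ) ≤ i)]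
  set v : ℕ → ℝ := fun i => (i : ℝ) + 1 + 1 / δ with hv
  have hvpos : ∀ i, 0 < v i := fun i => by simp only [hv]; positivity
  have hvinj : Set.InjOn v (Finset.range (n + 1) : Finset ℕ) := by
    intro i _ j _ hij
    simpa [hv] using hij
  have hball : ∀ i : ℕ, ∫ x in ball (0 : E) R,
      (v i • ContinuousLinearMap.id ℝ E + fderiv ℝ h x).det ∂μ
        = v i ^ n * μ.real (ball (0 : E) R) := by
    intro i
    rw [← hint _ (hnode i), ← integral_const_mul]
    refine integral_congr_ae (Filter.Eventually.of_forall fun x => ?_)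
    simp only
    have : v i • ContinuousLinearMap.id ℝ E + fderiv ℝ h x
        = v i • (ContinuousLinearMap.id ℝ E + (v i)⁻¹ • fderiv ℝ h x) := by
      rw [smul_add, smul_smul, mul_inv_cancel₀ (hvpos i).ne', one_smul]
    rw [this, ContinuousLinearMap.det, ContinuousLinearMap.toLinearMap_smul, LinearMap.det_smul]
  -- Lagrange interpolation at `0`
  have hlag : ∀ x, (fderiv ℝ h x).det = ∑ i ∈ Finset.range (n + 1),
      (Lagrange.basis (Finset.range (n + 1)) v i).eval 0 *
        (v i • ContinuousLinearMap.id ℝ E + fderiv ℝ h x).det := by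
    intro x
    set P := (-(fderiv ℝ h x : E →ₗ[ℝ] E) : Module.End ℝ E).charpoly with hP
    have hdeg : P.degree < (Finset.range (n + 1)).card := by
      rw [Finset.card_range]
      calc P.degree ≤ P.natDegree := Polynomial.degree_le_natDegree
        _ = (n : WithBot ℕ) := by rw [hP, LinearMap.charpoly_natDegree]
        _ < ((n + 1 : ℕ) : WithBot ℕ) := by exact_mod_cast Nat.lt_succ_self n
    have h1 := Lagrange.eq_interpolate (f := P) hvinj hdeg
    have h2 : (fderiv ℝ h x).det = P.eval 0 := by
      rw [hP, ← det_smul_id_add]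
      simp
    rw [h2, h1, Lagrange.interpolate_apply, Polynomial.eval_finsetSum]
    refine Finset.sum_congr rfl fun i _ => ?_
    rw [Polynomial.eval_mul, Polynomial.eval_C, det_smul_id_add, mul_comm]
  have hpow : (0 : ℝ) ^ n = ∑ i ∈ Finset.range (n + 1),
      (Lagrange.basis (Finset.range (n + 1)) v i).eval 0 * v i ^ n := by
    have hdeg : (X ^ n : ℝ[X]).degree < (Finset.range (n + 1)).card := by
      rw [Finset.card_range, Polynomial.degree_X_pow]
      exact_mod_cast Nat.lt_succ_self n
    have h1 := Lagrange.eq_interpolate (f := (X ^ n : ℝ[X])) hvinj hdeg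
    have h2 : (0 : ℝ) ^ n = (X ^ n : ℝ[X]).eval 0 := by simp
    rw [h2, h1, Lagrange.interpolate_apply, Polynomial.eval_finsetSum]
    refine Finset.sum_congr rfl fun i _ => ?_
    rw [Polynomial.eval_mul, Polynomial.eval_C]
    simp [mul_comm]
  have hintegrable : ∀ i : ℕ, IntegrableOn (fun x =>
      (v i • ContinuousLinearMap.id ℝ E + fderiv ℝ h x).det) (ball (0 : E) R) μ := by
    intro i
    have hcont : Continuous fun x => (v i • ContinuousLinearMap.id ℝ E + fderiv ℝ h x).det :=
      ContinuousLinearMap.continuous_det.comp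
        (continuous_const.add (hd.continuous_fderiv one_ne_zero))
    exact (hcont.continuousOn.integrableOn_compact (isCompact_closedBall (0 : E) R)).mono_set
      ball_subset_closedBall
  calc ∫ x in ball (0 : E) R, (fderiv ℝ h x).det ∂μ
      = ∫ x in ball (0 : E) R, ∑ i ∈ Finset.range (n + 1),
          (Lagrange.basis (Finset.range (n + 1)) v i).eval 0 *
            (v i • ContinuousLinearMap.id ℝ E + fderiv ℝ h x).det ∂μ := by
        refine integral_congr_ae (Filter.Eventually.of_forall fun x => ?_)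
        exact hlag x
    _ = ∑ i ∈ Finset.range (n + 1), (Lagrange.basis (Finset.range (n + 1)) v i).eval 0 *
          ∫ x in ball (0 : E) R, (v i • ContinuousLinearMap.id ℝ E + fderiv ℝ h x).det ∂μ := by
        rw [integral_finsetSum]
        · refine Finset.sum_congr rfl fun i _ => ?_
          rw [integral_const_mul]
        · intro i _
          exact (hintegrable i).const_mul _
    _ = ∑ i ∈ Finset.range (n + 1), (Lagrange.basis (Finset.range (n + 1)) v i).eval 0 *
          (v i ^ n * μ.real (ball (0 : E) R)) := by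
        refine Finset.sum_congr rfl fun i _ => ?_
        rw [hball i]
    _ = (∑ i ∈ Finset.range (n + 1), (Lagrange.basis (Finset.range (n + 1)) v i).eval 0 *
          v i ^ n) * μ.real (ball (0 : E) R) := by
        rw [Finset.sum_mul]
        refine Finset.sum_congr rfl fun i _ => ?_
        ring
    _ = 0 := by
        rw [← hpow, zero_pow hn0.ne', zero_mul]

end Pool.Agent.Helper20.VF
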