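import Mathlib
import Pool.Agent.Helper20.VF.CovD
import Pool.Agent.Helper20.VF.Minors

/-!
# Null Lagrangians of unit fields: the pointwise computation
-/

open MeasureTheory Set Metric Filter Module Matrix
open scoped NNReal Topology RealInnerProductSpace ENNReal Real ContDiff

namespace Pool.Agent.Helper20.VF

variable {n : ℕ}
variable {E : Type*} [NormedAddCommGroup E] [InnerProductSpace ℝ E] [FiniteDimensional ℝ E]

lemma det_lower (b : OrthonormalBasis (Fin 2 ⊕ Fin (n + 1)) ℝ E) (M : E →L[ℝ] E)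
    (C : Matrix (Fin 2) (Fin 2) ℝ) (D : Matrix (Fin (n + 1)) (Fin (n + 1)) ℝ)
    (h11 : ∀ k l, ⟪b (Sum.inl k), M (b (Sum.inl l))⟫ = C k l)
    (h12 : ∀ k j, ⟪b (Sum.inl k), M (b (Sum.inr j))⟫ = 0)
    (h22 : ∀ i j, ⟪b (Sum.inr i), M (b (Sum.inr j))⟫ = D i j) : M.det = C.det * D.det := by
  have h : LinearMap.toMatrix b.toBasis b.toBasis (M : E →ₗ[ℝ] E)
      = Matrix.fromBlocks C 0 (Matrix.of fun i l => ⟪b (Sum.inr i), M (b (Sum.inl l))⟫) D := by
    ext i j
    rw [LinearMap.toMatrix_apply, OrthonormalBasis.coe_toBasis_repr_apply,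
      OrthonormalBasis.repr_apply_apply, OrthonormalBasis.coe_toBasis]
    rcases i with i | i <;> rcases j with j | j
    · exact h11 i j
    · exact h12 i j
    · rfl
    · exact h22 i j
  rw [ContinuousLinearMap.det, ← LinearMap.det_toMatrix b.toBasis, h, det_fromBlocks_zero₁₂]

/-- an adapted orthonormal basis. -/
lemma exists_adapted (hfr : finrank ℝ E = n + 3) {x v : E} (hx : ‖x‖ = 1) (hv : ‖v‖ = 1)
    (hxv : ⟪x, v⟫ = 0) : ∃ b : OrthonormalBasis (Fin 2 ⊕ Fin (n + 1)) ℝ E,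
      b (Sum.inl 0) = x ∧ b (Sum.inl 1) = v := by
  set w : Fin 2 ⊕ Fin (n + 1) → E := Sum.elim ![x, v] 0 with hw
  set s : Set (Fin 2 ⊕ Fin (n + 1)) := range Sum.inl with hs
  have hon : Orthonormal ℝ (s.domRestrict w) := by
    constructor
    · rintro ⟨i, k, rfl⟩
      fin_cases k
      · simpa [hw, Set.domRestrict] using hx
      · simpa [hw, Set.domRestrict] using hv
    · rintro ⟨i, k, rfl⟩ ⟨j, l, rfl⟩ hkl
      fin_cases k <;> fin_cases l
      · exact absurd rfl hkl
      · simpa [hw, Set.domRestrict] using hxv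
      · simpa [hw, Set.domRestrict, real_inner_comm] using hxv
      · exact absurd rfl hkl
  obtain ⟨b, hb⟩ := hon.exists_orthonormalBasis_extension_of_card_eq (by
    rw [hfr]; simp; ring)
  exact ⟨b, by rw [hb _ ⟨0, rfl⟩]; rfl, by rw [hb _ ⟨1, rfl⟩]; rfl⟩

lemma det_id_add_tan (b : OrthonormalBasis (Fin 2 ⊕ Fin (n + 1)) ℝ E) (L : E →L[ℝ] E)
    (hLk : ∀ (k : Fin 2) δ, ⟪b (Sum.inl k), L δ⟫ = 0) (t : ℝ) :
    (1 + t • L).det = (1 + t • Am b L).det := by
  rw [det_lower b (1 + t • L) 1 (1 + t • Am b L), det_one, one_mul]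
  · intro k l
    simp only [_root_.add_apply, _root_.smul_apply, inner_add_right, inner_smul_right, hLk,
      one_apply_eq_self, b_inl_inl, mul_zero, add_zero]
  · intro k l
    simp only [_root_.add_apply, _root_.smul_apply, inner_add_right, inner_smul_right, hLk,
      one_apply_eq_self, b_inl_inr, mul_zero, add_zero]
  · intro i j
    simp only [_root_.add_apply, _root_.smul_apply, inner_add_right, inner_smul_right,
      one_apply_eq_self, b_inr_inr, Matrix.add_apply, Matrix.smul_apply, Am, Matrix.of_apply,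
      smul_eq_mul]

lemma det_struct (b : OrthonormalBasis (Fin 2 ⊕ Fin (n + 1)) ℝ E) (L : E →L[ℝ] E)
    (hLk : ∀ (k : Fin 2) δ, ⟪b (Sum.inl k), L δ⟫ = 0) (hL0 : L (b (Sum.inl 0)) = 0) (p q : ℝ) :
    (1 + p • (innerSL ℝ (b (Sum.inl 0))).smulRight (b (Sum.inl 1))
      - q • (innerSL ℝ (b (Sum.inl 1))).smulRight (b (Sum.inl 0)) + q • L).det
      = (1 + p * q) * (1 + q • L).det := by
  rw [det_id_add_tan b L hLk, det_lower b _ !![1, -q; p, 1] (1 + q • Am b L)]
  · congr 1
    rw [det_fin_two_of]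
    ring
  · intro k l
    simp only [_root_.add_apply, _root_.smul_apply, _root_.sub_apply, inner_add_right,
      inner_sub_right, inner_smul_right, hLk,
      one_apply_eq_self, b_inl_inl, mul_zero, add_zero, ContinuousLinearMap.smulRight_apply,
      innerSL_apply_apply]
    fin_cases k <;> fin_cases l <;> simp [Matrix.one_apply]
  · intro k l
    simp only [_root_.add_apply, _root_.smul_apply, _root_.sub_apply, inner_add_right,
      inner_sub_right, inner_smul_right, hLk,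
      one_apply_eq_self, b_inl_inr, mul_zero, add_zero, ContinuousLinearMap.smulRight_apply,
      innerSL_apply_apply, zero_mul, sub_zero]
  · intro i j
    simp only [_root_.add_apply, _root_.smul_apply, _root_.sub_apply, inner_add_right,
      inner_sub_right, inner_smul_right,
      one_apply_eq_self, b_inr_inr, b_inl_inr, b_inr_inl, Matrix.add_apply, Matrix.smul_apply, Am,
      Matrix.of_apply, smul_eq_mul, mul_zero, add_zero, ContinuousLinearMap.smulRight_apply,
      innerSL_apply_apply, zero_mul, sub_zero]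

/-- coordinate-free elementary symmetric functions. -/
noncomputable def sgE (L : E →L[ℝ] E) (k : ℕ) : ℝ :=
  sg (LinearMap.toMatrix (stdOrthonormalBasis ℝ E).toBasis (stdOrthonormalBasis ℝ E).toBasis
    (L : E →ₗ[ℝ] E)) k

lemma det_sgE (L : E →L[ℝ] E) (t : ℝ) :
    (1 + t • L).det = ∑ k ∈ Finset.range (finrank ℝ E + 1), t ^ k * sgE L k := by
  have h := det_one_add_smul' (LinearMap.toMatrix (stdOrthonormalBasis ℝ E).toBasis
    (stdOrthonormalBasis ℝ E).toBasis (L : E →ₗ[ℝ] E)) t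
  rw [Fintype.card_fin] at h
  unfold sgE
  rw [← h, ContinuousLinearMap.det, ← LinearMap.det_toMatrix (stdOrthonormalBasis ℝ E).toBasis]
  congr 1
  have e : ((1 + t • L : E →L[ℝ] E) : E →ₗ[ℝ] E) = 1 + t • (L : E →ₗ[ℝ] E) := rfl
  rw [e, map_add, map_smul, LinearMap.toMatrix_one]

lemma sgE_zero (L : E →L[ℝ] E) : sgE L 0 = 1 := sg_zero _

lemma continuous_sgE (k : ℕ) : Continuous (fun L : E →L[ℝ] E => sgE L k) := by
  unfold sgE
  refine (continuous_sg k).comp ?_
  have h : Continuous (fun L : E →L[ℝ] E => (LinearMap.toMatrix (stdOrthonormalBasis ℝ E).toBasis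
    (stdOrthonormalBasis ℝ E).toBasis) (L : E →ₗ[ℝ] E)) := by
    refine continuous_matrix (fun i j => ?_)
    simp only [LinearMap.toMatrix_apply, OrthonormalBasis.coe_toBasis_repr_apply,
      OrthonormalBasis.repr_apply_apply, OrthonormalBasis.coe_toBasis, ContinuousLinearMap.coe_coe]
    fun_prop
  exact h

/-- comparison of coefficients. -/
lemma coeff_eq {N M : ℕ} (f g : ℕ → ℝ)
    (h : ∀ t : ℝ, ∑ k ∈ Finset.range N, t ^ k * f k = ∑ k ∈ Finset.range M, t ^ k * g k) {k : ℕ}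
    (hk : k < N) (hk' : k < M) : f k = g k := by
  have hp : (∑ j ∈ Finset.range N, Polynomial.C (f j) * Polynomial.X ^ j)
      = ∑ j ∈ Finset.range M, Polynomial.C (g j) * Polynomial.X ^ j := by
    refine Polynomial.funext (fun t => ?_)
    simp only [Polynomial.eval_finsetSum, Polynomial.eval_mul, Polynomial.eval_C,
      Polynomial.eval_pow, Polynomial.eval_X]
    simpa only [mul_comm] using h t
  have h2 := congrArg (fun p => p.coeff k) hp
  simp only [Polynomial.finsetSum_coeff, Polynomial.coeff_C_mul, Polynomial.coeff_X_pow] at h2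
  simpa [hk, hk'] using h2

lemma sgE_eq_sg (hfr : finrank ℝ E = n + 3) (b : OrthonormalBasis (Fin 2 ⊕ Fin (n + 1)) ℝ E)
    (L : E →L[ℝ] E) (hLk : ∀ (k : Fin 2) δ, ⟪b (Sum.inl k), L δ⟫ = 0) {k : ℕ} (hk : k ≤ n + 1) :
    sgE L k = sg (Am b L) k := by
  refine coeff_eq (N := finrank ℝ E + 1) (M := n + 1 + 1) _ _ (fun t => ?_) (by omega) (by omega)
  have h2 := det_one_add_smul' (Am b L) t
  rw [Fintype.card_fin] at h2
  rw [← det_sgE, ← h2, det_id_add_tan b L hLk]

variable {V : E → E}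

lemma uf_hasFDerivAt (hV : UField V) {x : E} (hx0 : x ≠ 0) : HasFDerivAt V (fderiv ℝ V x) x :=
  ((hV.smooth.differentiableOn one_ne_zero x hx0).differentiableAt
    (isOpen_compl_singleton.mem_nhds hx0)).hasFDerivAt

lemma uf_apply_self (hV : UField V) {x : E} (hx0 : x ≠ 0) : fderiv ℝ V x x = 0 :=
  fderiv_apply_self_of_homog (fun X t ht => hV.homog X t ht) (uf_hasFDerivAt hV hx0).differentiableAt

lemma uf_inner_V (hV : UField V) {x : E} (hx0 : x ≠ 0) (δ : E) : ⟪V x, fderiv ℝ V x δ⟫ = 0 := by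
  have hVd := uf_hasFDerivAt hV hx0
  have h1 : HasDerivAt (fun t : ℝ => ⟪V (x + t • δ), V (x + t • δ)⟫)
      (⟪V x, fderiv ℝ V x δ⟫ + ⟪fderiv ℝ V x δ, V x⟫) 0 := by
    have hc : HasDerivAt (fun t : ℝ => x + t • δ) δ 0 := by
      simpa using ((hasDerivAt_id (0 : ℝ)).smul_const δ).const_add x
    have hu : HasDerivAt (fun t : ℝ => V (x + t • δ)) (fderiv ℝ V x δ) 0 := by
      have : HasFDerivAt V (fderiv ℝ V x) (x + (0 : ℝ) • δ) := by rw [zero_smul, add_zero]; exact hVd
      exact this.comp_hasDerivAt (0 : ℝ) hc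
    simpa using hu.inner ℝ hu
  have h2 : HasDerivAt (fun t : ℝ => ⟪V (x + t • δ), V (x + t • δ)⟫) 0 0 := by
    refine (hasDerivAt_const (0 : ℝ) (1 : ℝ)).congr_of_eventuallyEq ?_
    have hc : Continuous (fun t : ℝ => x + t • δ) := by fun_prop
    have h3 := (hc.tendsto 0).eventually (isOpen_compl_singleton.mem_nhds
      (by simpa using hx0 : x + (0 : ℝ) • δ ∈ ({0}ᶜ : Set E)))
    filter_upwards [h3] with t ht
    rw [real_inner_self_eq_norm_sq, hV.unit _ ht]; norm_num
  have h3 := h1.unique h2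
  rw [real_inner_comm (V x) (fderiv ℝ V x δ)] at h3
  linarith

lemma uf_inner_x (hV : UField V) {x : E} (hx0 : x ≠ 0) (δ : E) :
    ⟪x, fderiv ℝ V x δ⟫ = -⟪δ, V x⟫ := by
  have hVd := uf_hasFDerivAt hV hx0
  have hc : HasDerivAt (fun t : ℝ => x + t • δ) δ 0 := by
    simpa using ((hasDerivAt_id (0 : ℝ)).smul_const δ).const_add x
  have h1 : HasDerivAt (fun t : ℝ => ⟪x + t • δ, V (x + t • δ)⟫)
      (⟪x, fderiv ℝ V x δ⟫ + ⟪δ, V x⟫) 0 := by
    have hu : HasDerivAt (fun t : ℝ => V (x + t • δ)) (fderiv ℝ V x δ) 0 := by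
      have : HasFDerivAt V (fderiv ℝ V x) (x + (0 : ℝ) • δ) := by rw [zero_smul, add_zero]; exact hVd
      exact this.comp_hasDerivAt (0 : ℝ) hc
    simpa using hc.inner ℝ hu
  have h2 : HasDerivAt (fun t : ℝ => ⟪x + t • δ, V (x + t • δ)⟫) 0 0 := by
    refine (hasDerivAt_const (0 : ℝ) (0 : ℝ)).congr_of_eventuallyEq (Eventually.of_forall fun t => ?_)
    exact hV.tang _
  linarith [h1.unique h2]

/-- the covariant derivative of the field at a unit vector. -/
noncomputable def Lw (V : E → E) (x : E) : E →L[ℝ] E := tanPart x (fderiv ℝ V x)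

lemma Lw_apply (hV : UField V) {x : E} (hx0 : x ≠ 0) (δ : E) :
    Lw V x δ = fderiv ℝ V x δ + ⟪V x, δ⟫ • x := by
  rw [Lw, tanPart_apply, uf_inner_x hV hx0, real_inner_comm (V x)]
  module

lemma Lw_self (hV : UField V) {x : E} (hx0 : x ≠ 0) : Lw V x x = 0 := by
  have h := hV.tang x
  rw [real_inner_comm] at h
  rw [Lw_apply hV hx0, uf_apply_self hV hx0, h, zero_smul, add_zero]

lemma inner_x_Lw (hV : UField V) {x : E} (hx : ‖x‖ = 1) (δ : E) : ⟪x, Lw V x δ⟫ = 0 := by
  have hx0 : x ≠ 0 := by rintro rfl; simp at hx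
  rw [Lw_apply hV hx0, inner_add_right, uf_inner_x hV hx0, inner_smul_right,
    real_inner_self_eq_norm_sq, hx, real_inner_comm (V x)]
  ring

lemma inner_V_Lw (hV : UField V) {x : E} (hx0 : x ≠ 0) (δ : E) : ⟪V x, Lw V x δ⟫ = 0 := by
  have h := hV.tang x
  rw [real_inner_comm] at h
  rw [Lw_apply hV hx0, inner_add_right, uf_inner_V hV hx0, inner_smul_right, h]
  ring

/-- the determinant of `1 + p V⊗x + q DV` at a unit vector. -/
lemma det_field (hV : UField V) (hfr : finrank ℝ E = n + 3) {x : E} (hx : ‖x‖ = 1) (p q : ℝ) :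
    (1 + p • (innerSL ℝ x).smulRight (V x) + q • fderiv ℝ V x).det
      = (1 + p * q) * ∑ k ∈ Finset.range (finrank ℝ E + 1), q ^ k * sgE (Lw V x) k := by
  have hx0 : x ≠ 0 := by rintro rfl; simp at hx
  obtain ⟨b, hb0, hb1⟩ := exists_adapted hfr hx (hV.unit x hx0) (hV.tang x)
  have hLk : ∀ (k : Fin 2) δ, ⟪b (Sum.inl k), Lw V x δ⟫ = 0 := by
    intro k δ
    fin_cases k
    · simp only [Fin.zero_eta, hb0]; exact inner_x_Lw hV hx δ
    · simp only [Fin.mk_one, hb1]; exact inner_V_Lw hV hx0 δ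
  have h := det_struct b (Lw V x) hLk (by rw [hb0]; exact Lw_self hV hx0) p q
  rw [hb0, hb1] at h
  rw [← det_sgE, ← h]
  congr 1
  ext δ
  simp only [_root_.add_apply, _root_.smul_apply, _root_.sub_apply, Lw_apply hV hx0,
    ContinuousLinearMap.smulRight_apply, innerSL_apply_apply, one_apply_eq_self]
  module

end Pool.Agent.Helper20.VF
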