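import Pool.Agent.Helper20.VF.Minors

/-!
# Averages over pairings
-/

open Set
open scoped Topology

namespace Pool.Agent.Helper20.VF

variable {ι : Type*} [Fintype ι] [DecidableEq ι]

lemma es_comp_perm (μ : ι → ℝ) (π : Equiv.Perm ι) (k : ℕ) : es (μ ∘ π) k = es μ k := by
  unfold es
  refine Finset.sum_nbij' (fun s => s.map π.toEmbedding) (fun s => s.map π.symm.toEmbedding) ?_ ?_ ?_ ?_ ?_
  · intro s hs
    rw [Finset.mem_powersetCard] at hs ⊢
    exact ⟨Finset.subset_univ _, by rw [Finset.card_map]; exact hs.2⟩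
  · intro s hs
    rw [Finset.mem_powersetCard] at hs ⊢
    exact ⟨Finset.subset_univ _, by rw [Finset.card_map]; exact hs.2⟩
  · intro s _
    rw [Finset.map_map]
    ext x
    simp
  · intro s _
    rw [Finset.map_map]
    ext x
    simp
  · intro s _
    rw [Finset.prod_map]
    rfl

lemma exists_perm_map {U U' : Finset ι} (h : U.card = U'.card) :
    ∃ σ : Equiv.Perm ι, U.map σ.toEmbedding = U' := by
  let e : {x // x ∈ U} ≃ {x // x ∈ U'} := Finset.equivOfCardEq h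
  refine ⟨e.extendSubtype, ?_⟩
  refine Finset.eq_of_subset_of_card_le ?_ (by rw [Finset.card_map, h])
  intro x hx
  rw [Finset.mem_map] at hx
  obtain ⟨y, hy, rfl⟩ := hx
  exact e.extendSubtype_mem y hy

lemma perm_sum (μ : ι → ℝ) (U : Finset ι) :
    ((Fintype.card ι).choose U.card : ℝ) * ∑ π : Equiv.Perm ι, ∏ i ∈ U, μ (π i)
      = (Fintype.card ι).factorial * es μ U.card := by
  have h1 : ∀ U' ∈ Finset.powersetCard U.card (Finset.univ : Finset ι),
      ∑ π : Equiv.Perm ι, ∏ i ∈ U', μ (π i) = ∑ π : Equiv.Perm ι, ∏ i ∈ U, μ (π i) := by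
    intro U' hU'
    rw [Finset.mem_powersetCard] at hU'
    obtain ⟨σ, hσ⟩ := exists_perm_map hU'.2.symm
    rw [← hσ]
    simp_rw [Finset.prod_map]
    exact Equiv.sum_comp (Equiv.mulRight σ) (fun π : Equiv.Perm ι => ∏ i ∈ U, μ (π i))
  have h2 : ∑ U' ∈ Finset.powersetCard U.card (Finset.univ : Finset ι),
      ∑ π : Equiv.Perm ι, ∏ i ∈ U', μ (π i)
      = ((Fintype.card ι).choose U.card : ℝ) * ∑ π : Equiv.Perm ι, ∏ i ∈ U, μ (π i) := by
    rw [Finset.sum_congr rfl h1, Finset.sum_const, Finset.card_powersetCard, Finset.card_univ,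
      nsmul_eq_mul]
  rw [← h2, Finset.sum_comm]
  have h3 : ∀ π : Equiv.Perm ι, ∑ U' ∈ Finset.powersetCard U.card (Finset.univ : Finset ι),
      ∏ i ∈ U', μ (π i) = es μ U.card := fun π => es_comp_perm μ π U.card
  simp_rw [h3]
  rw [Finset.sum_const, Finset.card_univ, Fintype.card_perm, nsmul_eq_mul]

variable {m : ℕ}

/-- the coefficients. -/
noncomputable def cj (m j : ℕ) : ℝ := (m.choose j : ℝ) / ((2 * m).choose (2 * j) : ℝ)

lemma cj_nonneg (m j : ℕ) : 0 ≤ cj m j := by unfold cj; positivity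

lemma pairing_sum (hm : Fintype.card ι = 2 * m) (e : Fin m × Fin 2 ≃ ι) (μ : ι → ℝ) (t : ℝ) :
    ∑ π : Equiv.Perm ι, ∏ k : Fin m, (1 + t * (μ (π (e (k, 0))) * μ (π (e (k, 1)))))
      = (2 * m).factorial * ∑ j ∈ Finset.range (m + 1), t ^ j * (cj m j * es μ (2 * j)) := by
  have h1 : ∀ π : Equiv.Perm ι, ∏ k : Fin m, (1 + t * (μ (π (e (k, 0))) * μ (π (e (k, 1)))))
      = ∑ T : Finset (Fin m), t ^ T.card
        * ∏ i ∈ (T ×ˢ (Finset.univ : Finset (Fin 2))).map e.toEmbedding, μ (π i) := by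
    intro π
    rw [Finset.prod_one_add, Finset.powerset_univ]
    refine Finset.sum_congr rfl (fun T _ => ?_)
    rw [Finset.prod_mul_distrib, Finset.prod_const, Finset.prod_map, Finset.prod_product]
    congr 1
    refine Finset.prod_congr rfl (fun k _ => ?_)
    rw [Fin.prod_univ_two]
    rfl
  simp_rw [h1]
  rw [Finset.sum_comm]
  have h2 : ∀ T : Finset (Fin m), ∑ π : Equiv.Perm ι, t ^ T.card
        * ∏ i ∈ (T ×ˢ (Finset.univ : Finset (Fin 2))).map e.toEmbedding, μ (π i)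
      = t ^ T.card * ((2 * m).factorial / ((2 * m).choose (2 * T.card) : ℝ) * es μ (2 * T.card)) := by
    intro T
    rw [← Finset.mul_sum]
    congr 1
    have h3 := perm_sum μ ((T ×ˢ (Finset.univ : Finset (Fin 2))).map e.toEmbedding)
    have hc : ((T ×ˢ (Finset.univ : Finset (Fin 2))).map e.toEmbedding).card = 2 * T.card := by
      rw [Finset.card_map, Finset.card_product, Finset.card_univ, Fintype.card_fin, mul_comm]
    have hT : T.card ≤ m := by
      have := Finset.card_le_univ T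
      rwa [Fintype.card_fin] at this
    rw [hc, hm] at h3
    have h4 : (0 : ℝ) < ((2 * m).choose (2 * T.card) : ℝ) := by
      exact_mod_cast Nat.choose_pos (by omega)
    rw [div_mul_eq_mul_div, eq_div_iff h4.ne', ← h3]
    ring
  simp_rw [h2]
  rw [← Finset.powerset_univ, Finset.sum_powerset, Finset.card_univ, Fintype.card_fin, Finset.mul_sum]
  refine Finset.sum_congr rfl (fun j _ => ?_)
  have h5 : ∀ T ∈ Finset.powersetCard j (Finset.univ : Finset (Fin m)),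
      t ^ T.card * ((2 * m).factorial / ((2 * m).choose (2 * T.card) : ℝ) * es μ (2 * T.card))
      = t ^ j * ((2 * m).factorial / ((2 * m).choose (2 * j) : ℝ) * es μ (2 * j)) := by
    intro T hT
    rw [(Finset.mem_powersetCard.1 hT).2]
  rw [Finset.sum_congr rfl h5, Finset.sum_const, Finset.card_powersetCard, Finset.card_univ,
    Fintype.card_fin, nsmul_eq_mul, cj]
  ring

/-- telescoping. -/
lemma prod_sub_prod {κ : Type*} (s : Finset κ) (x y X Z : κ → ℝ)
    (hZ : ∀ k ∈ s, 0 ≤ Z k) (hXZ : ∀ k ∈ s, Z k ≤ X k) (hxX : ∀ k ∈ s, X k ≤ x k)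
    (hyZ : ∀ k ∈ s, Z k ≤ y k) (hd : ∀ k ∈ s, X k - Z k ≤ x k - y k) :
    ∏ k ∈ s, X k - ∏ k ∈ s, Z k ≤ ∏ k ∈ s, x k - ∏ k ∈ s, y k := by
  classical
  induction s using Finset.induction_on with
  | empty => simp
  | insert a s ha ih =>
    rw [Finset.prod_insert ha, Finset.prod_insert ha, Finset.prod_insert ha, Finset.prod_insert ha]
    have hs : ∀ k ∈ s, k ∈ insert a s := fun k hk => Finset.mem_insert_of_mem hk
    have ih' := ih (fun k hk => hZ k (hs k hk)) (fun k hk => hXZ k (hs k hk))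
      (fun k hk => hxX k (hs k hk)) (fun k hk => hyZ k (hs k hk)) (fun k hk => hd k (hs k hk))
    have ham : a ∈ insert a s := Finset.mem_insert_self a s
    have hPZ : 0 ≤ ∏ k ∈ s, Z k := Finset.prod_nonneg (fun k hk => hZ k (hs k hk))
    have hPXZ : ∏ k ∈ s, Z k ≤ ∏ k ∈ s, X k :=
      Finset.prod_le_prod (fun k hk => hZ k (hs k hk)) (fun k hk => hXZ k (hs k hk))
    have hPxX : ∏ k ∈ s, X k ≤ ∏ k ∈ s, x k :=
      Finset.prod_le_prod (fun k hk => (hZ k (hs k hk)).trans (hXZ k (hs k hk)))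
        (fun k hk => hxX k (hs k hk))
    have h1 := hZ a ham
    have h2 := hXZ a ham
    have h3 := hxX a ham
    have h4 := hyZ a ham
    have h5 := hd a ham
    have e1 : x a * ∏ k ∈ s, x k - y a * ∏ k ∈ s, y k
        = (x a - y a) * ∏ k ∈ s, x k + y a * (∏ k ∈ s, x k - ∏ k ∈ s, y k) := by ring
    have e2 : X a * ∏ k ∈ s, X k - Z a * ∏ k ∈ s, Z k
        = (X a - Z a) * ∏ k ∈ s, X k + Z a * (∏ k ∈ s, X k - ∏ k ∈ s, Z k) := by ring
    rw [e1, e2]
    refine add_le_add ?_ ?_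
    · exact mul_le_mul h5 hPxX (hPZ.trans hPXZ) ((sub_nonneg.2 h2).trans h5)
    · exact mul_le_mul h4 ih' (sub_nonneg.2 hPXZ) (h1.trans h4)

/-- the inequality for one pair. -/
lemma one_pair {r b : ℝ} (hr : 0 < r) (hb : b = min 1 (r ^ 2)) {p q : ℝ} (hp : 0 ≤ p) (hq : 0 ≤ q) :
    1 + r ^ 2 * (p * q) ≤ √(1 + r ^ 2 * p ^ 2) * √(1 + r ^ 2 * q ^ 2) ∧
    b * (1 + p * q) ≤ b * (√(1 + p ^ 2) * √(1 + q ^ 2)) ∧
    b * (1 + p * q) ≤ 1 + r ^ 2 * (p * q) ∧
    1 + r ^ 2 * (p * q) - b * (1 + p * q)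
      ≤ √(1 + r ^ 2 * p ^ 2) * √(1 + r ^ 2 * q ^ 2) - b * (√(1 + p ^ 2) * √(1 + q ^ 2)) := by
  have hb0 : 0 < b := by rw [hb]; exact lt_min one_pos (by positivity)
  have hb1 : b ≤ 1 := by rw [hb]; exact min_le_left _ _
  have hbr : b ≤ r ^ 2 := by rw [hb]; exact min_le_right _ _
  have hpq : 0 ≤ p * q := mul_nonneg hp hq
  set x := √(1 + r ^ 2 * p ^ 2) * √(1 + r ^ 2 * q ^ 2) with hx
  set y := √(1 + p ^ 2) * √(1 + q ^ 2) with hy
  have hx2 : x ^ 2 = (1 + r ^ 2 * p ^ 2) * (1 + r ^ 2 * q ^ 2) := by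
    rw [hx, mul_pow, Real.sq_sqrt (by positivity), Real.sq_sqrt (by positivity)]
  have hy2 : y ^ 2 = (1 + p ^ 2) * (1 + q ^ 2) := by
    rw [hy, mul_pow, Real.sq_sqrt (by positivity), Real.sq_sqrt (by positivity)]
  have hx0 : 0 ≤ x := by positivity
  have hy0 : 0 ≤ y := by positivity
  have hX0 : 0 < 1 + r ^ 2 * (p * q) := by positivity
  have hY0 : 0 < 1 + p * q := by positivity
  have h1 : 1 + r ^ 2 * (p * q) ≤ x := by
    refine abs_le_of_sq_le_sq' ?_ hx0 |>.2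
    rw [hx2]
    nlinarith [mul_nonneg (sq_nonneg r) (sq_nonneg (p - q))]
  have h2 : 1 + p * q ≤ y := by
    refine abs_le_of_sq_le_sq' ?_ hy0 |>.2
    rw [hy2]
    nlinarith [sq_nonneg (p - q)]
  have h3 : b * (1 + p * q) ≤ 1 + r ^ 2 * (p * q) := by nlinarith
  refine ⟨h1, mul_le_mul_of_nonneg_left h2 hb0.le, h3, ?_⟩
  -- `b (y - Y) ≤ x - X`
  have h4 : b * x ≤ r ^ 2 * y := by
    have h5 : (b * x) ^ 2 ≤ (r ^ 2 * y) ^ 2 := by
      rw [mul_pow b x, mul_pow (r ^ 2) y, hx2, hy2]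
      rcases le_total 1 (r ^ 2) with h | h
      · have hb' : b = 1 := by rw [hb]; exact min_eq_left h
        rw [hb']
        have a1 : 1 + r ^ 2 * p ^ 2 ≤ r ^ 2 * (1 + p ^ 2) := by nlinarith
        have a2 : 1 + r ^ 2 * q ^ 2 ≤ r ^ 2 * (1 + q ^ 2) := by nlinarith
        have a3 := mul_le_mul a1 a2 (by positivity) (by positivity)
        nlinarith
      · have hb' : b = r ^ 2 := by rw [hb]; exact min_eq_right h
        rw [hb']
        have a1 : 1 + r ^ 2 * p ^ 2 ≤ 1 + p ^ 2 := by nlinarith [sq_nonneg p]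
        have a2 : 1 + r ^ 2 * q ^ 2 ≤ 1 + q ^ 2 := by nlinarith [sq_nonneg q]
        have a3 := mul_le_mul a1 a2 (by positivity) (by positivity)
        exact mul_le_mul_of_nonneg_left a3 (by positivity)
    exact abs_le_of_sq_le_sq' h5 (by positivity) |>.2
  have h6 : b * (1 + r ^ 2 * (p * q)) ≤ r ^ 2 * (1 + p * q) := by
    have := mul_le_mul_of_nonneg_right hb1 (by positivity : 0 ≤ r ^ 2 * (p * q))
    linarith
  have hd1 : (x - (1 + r ^ 2 * (p * q))) * (x + (1 + r ^ 2 * (p * q))) = r ^ 2 * (p - q) ^ 2 := by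
    have : (x - (1 + r ^ 2 * (p * q))) * (x + (1 + r ^ 2 * (p * q)))
        = x ^ 2 - (1 + r ^ 2 * (p * q)) ^ 2 := by ring
    rw [this, hx2]; ring
  have hd2 : (y - (1 + p * q)) * (y + (1 + p * q)) = (p - q) ^ 2 := by
    have : (y - (1 + p * q)) * (y + (1 + p * q)) = y ^ 2 - (1 + p * q) ^ 2 := by ring
    rw [this, hy2]; ring
  have hs1 : 0 < x + (1 + r ^ 2 * (p * q)) := by positivity
  have hs2 : 0 < y + (1 + p * q) := by positivity
  have h7 : b * (x + (1 + r ^ 2 * (p * q))) ≤ r ^ 2 * (y + (1 + p * q)) := by linarith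
  have h8 : b * (y - (1 + p * q)) ≤ x - (1 + r ^ 2 * (p * q)) := by
    refine le_of_mul_le_mul_right ?_ (mul_pos hs1 hs2)
    calc b * (y - (1 + p * q)) * ((x + (1 + r ^ 2 * (p * q))) * (y + (1 + p * q)))
        = (b * (x + (1 + r ^ 2 * (p * q)))) * ((y - (1 + p * q)) * (y + (1 + p * q))) := by ring
      _ = (b * (x + (1 + r ^ 2 * (p * q)))) * (p - q) ^ 2 := by rw [hd2]
      _ ≤ (r ^ 2 * (y + (1 + p * q))) * (p - q) ^ 2 :=
          mul_le_mul_of_nonneg_right h7 (sq_nonneg _)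
      _ = (r ^ 2 * (p - q) ^ 2) * (y + (1 + p * q)) := by ring
      _ = ((x - (1 + r ^ 2 * (p * q))) * (x + (1 + r ^ 2 * (p * q)))) * (y + (1 + p * q)) := by
          rw [hd1]
      _ = _ := by ring
  linarith

/-- **The averaged inequality.** -/
theorem pair_ineq (hm : Fintype.card ι = 2 * m) {r b : ℝ} (hr : 0 < r) (hb : b = min 1 (r ^ 2))
    (μ : ι → ℝ) (hμ : ∀ i, 0 ≤ μ i) :
    ∑ j ∈ Finset.range (m + 1), ((r ^ 2) ^ j - b ^ m) * (cj m j * es μ (2 * j))
      ≤ ∏ i, √(1 + r ^ 2 * μ i ^ 2) - b ^ m * ∏ i, √(1 + μ i ^ 2) := by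
  have e : Fin m × Fin 2 ≃ ι := by
    refine Fintype.equivOfCardEq ?_
    rw [Fintype.card_prod, Fintype.card_fin, Fintype.card_fin, hm, mul_comm]
  have hb0 : 0 < b := by rw [hb]; exact lt_min one_pos (by positivity)
  have h1 := pairing_sum hm e μ (r ^ 2)
  have h2 := pairing_sum hm e μ 1
  -- the inequality for one permutation
  have h3 : ∀ π : Equiv.Perm ι,
      ∏ k : Fin m, (1 + r ^ 2 * (μ (π (e (k, 0))) * μ (π (e (k, 1)))))
        - b ^ m * ∏ k : Fin m, (1 + 1 * (μ (π (e (k, 0))) * μ (π (e (k, 1)))))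
      ≤ ∏ i, √(1 + r ^ 2 * μ i ^ 2) - b ^ m * ∏ i, √(1 + μ i ^ 2) := by
    intro π
    have hb' : ∀ f : Fin m → ℝ, b ^ m * ∏ k, f k = ∏ k, (b * f k) := by
      intro f
      rw [Finset.prod_mul_distrib, Finset.prod_const, Finset.card_univ, Fintype.card_fin]
    have hpr : ∀ f : ι → ℝ, ∏ i, f i = ∏ k : Fin m, (f (π (e (k, 0))) * f (π (e (k, 1)))) := by
      intro f
      rw [← Equiv.prod_comp π, ← Equiv.prod_comp e, Fintype.prod_prod_type]
      refine Finset.prod_congr rfl (fun k _ => ?_)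
      rw [Fin.prod_univ_two]
    rw [hb', hpr (fun i => √(1 + r ^ 2 * μ i ^ 2)), hpr (fun i => √(1 + μ i ^ 2)), hb']
    have hp := fun k : Fin m => one_pair hr hb (hμ (π (e (k, 0)))) (hμ (π (e (k, 1))))
    refine prod_sub_prod Finset.univ _ _ _ _ (fun k _ => ?_) (fun k _ => ?_) (fun k _ => ?_)
      (fun k _ => ?_) (fun k _ => ?_)
    · have := mul_nonneg (hμ (π (e (k, 0)))) (hμ (π (e (k, 1))))
      positivity
    · have := (hp k).2.2.1
      simpa using this
    · exact (hp k).1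
    · have := (hp k).2.1
      simpa using this
    · have := (hp k).2.2.2
      simpa using this
  have hN : (0 : ℝ) < (2 * m).factorial := by positivity
  have h4 : ∑ π : Equiv.Perm ι, (∏ k : Fin m, (1 + r ^ 2 * (μ (π (e (k, 0))) * μ (π (e (k, 1)))))
        - b ^ m * ∏ k : Fin m, (1 + 1 * (μ (π (e (k, 0))) * μ (π (e (k, 1))))))
      ≤ (2 * m).factorial * (∏ i, √(1 + r ^ 2 * μ i ^ 2) - b ^ m * ∏ i, √(1 + μ i ^ 2)) := by
    refine (Finset.sum_le_sum (fun π _ => h3 π)).trans (le_of_eq ?_)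
    rw [Finset.sum_const, Finset.card_univ, Fintype.card_perm, hm, nsmul_eq_mul]
  rw [Finset.sum_sub_distrib, ← Finset.mul_sum, h1, h2] at h4
  refine le_of_mul_le_mul_left (le_trans (le_of_eq ?_) h4) hN
  simp only [one_pow, one_mul, sub_mul, Finset.sum_sub_distrib, Finset.mul_sum, mul_sub]
  congr 1
  refine Finset.sum_congr rfl (fun j _ => ?_)
  ring

end Pool.Agent.Helper20.VF
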