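import Pool.Agent.Helper20.VF.Polar

/-!
# Concentration on a hyperplane
-/

open MeasureTheory Set Metric Filter Module
open scoped NNReal Topology RealInnerProductSpace ENNReal

namespace Pool.Agent.Helper20.VF

variable {E : Type*} [NormedAddCommGroup E] [InnerProductSpace ℝ E] [FiniteDimensional ℝ E]
  [MeasurableSpace E] [BorelSpace E]

lemma inner_slice {a : E} (ha : ‖a‖ = 1) (t : ℝ) (Y : (ℝ ∙ a)ᗮ) : ⟪t • a + (Y : E), a⟫ = t := by
  have h : ⟪(Y : E), a⟫ = 0 := by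
    rw [real_inner_comm]
    exact Submodule.mem_orthogonal_singleton_iff_inner_right.1 Y.2
  rw [inner_add_left, inner_smul_left, h, real_inner_self_eq_norm_sq, ha]
  simp

lemma norm_slice {a : E} (ha : ‖a‖ = 1) (t : ℝ) (Y : (ℝ ∙ a)ᗮ) :
    ‖t • a + (Y : E)‖ ^ 2 = t ^ 2 + ‖Y‖ ^ 2 := by
  have h : ⟪(Y : E), a⟫ = 0 := by
    rw [real_inner_comm]
    exact Submodule.mem_orthogonal_singleton_iff_inner_right.1 Y.2
  have h' : ⟪t • a, (Y : E)⟫ = 0 := by rw [inner_smul_left, real_inner_comm, h, mul_zero]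
  rw [norm_add_sq_real, h', norm_smul, ha]
  simp

lemma slice_limit (a : E) (ha : ‖a‖ = 1) (Ψ : E → ℝ) (hΨ : Continuous Ψ) (hΨc : HasCompactSupport Ψ)
    (θ : ℝ → ℝ) (hθ : Continuous θ) (hθc : HasCompactSupport θ) :
    Tendsto (fun s : ℝ => ∫ X, s⁻¹ * θ (⟪X, a⟫ / s) * Ψ X) (𝓝[>] 0)
      (𝓝 ((∫ t, θ t) * ∫ Y : (ℝ ∙ a)ᗮ, Ψ Y)) := by
  -- bounds
  obtain ⟨C, hC⟩ := hΨ.bounded_above_of_compact_support hΨc
  obtain ⟨R, hR⟩ := hΨc.isBounded.subset_closedBall (0 : E)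
  have hsupp : ∀ t : ℝ, ∀ Y : (ℝ ∙ a)ᗮ, Ψ (t • a + (Y : E)) ≠ 0 → |t| ≤ R ∧ ‖Y‖ ≤ R := by
    intro t Y hne
    have hmem : t • a + (Y : E) ∈ closedBall (0 : E) R := hR (subset_tsupport _ hne)
    rw [mem_closedBall_zero_iff] at hmem
    have h2 := norm_slice ha t Y
    have h0 := norm_nonneg (t • a + (Y : E))
    have hR0 : 0 ≤ R := h0.trans hmem
    constructor
    · refine abs_le_of_sq_le_sq ?_ hR0
      nlinarith [sq_nonneg ‖Y‖]
    · refine abs_le_of_sq_le_sq' ?_ hR0 |>.2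
      nlinarith [sq_nonneg t]
  -- the function `J`
  set J : ℝ → ℝ := fun t => ∫ Y : (ℝ ∙ a)ᗮ, Ψ (t • a + (Y : E)) with hJ
  have hmeas : ∀ t : ℝ, Continuous (fun Y : (ℝ ∙ a)ᗮ => Ψ (t • a + (Y : E))) := fun t => by fun_prop
  have hbd : Integrable (fun Y : (ℝ ∙ a)ᗮ => (closedBall (0 : (ℝ ∙ a)ᗮ) R).indicator (fun _ => C) Y) := by
    rw [integrable_indicator_iff measurableSet_closedBall]
    exact integrableOn_const (by
      exact (isCompact_closedBall _ _).measure_lt_top.ne)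
  have hbound : ∀ t : ℝ, ∀ Y : (ℝ ∙ a)ᗮ, ‖Ψ (t • a + (Y : E))‖
      ≤ (closedBall (0 : (ℝ ∙ a)ᗮ) R).indicator (fun _ => C) Y := by
    intro t Y
    by_cases hne : Ψ (t • a + (Y : E)) = 0
    · rw [hne, norm_zero]
      exact indicator_nonneg (fun _ _ => (norm_nonneg _).trans (hC 0)) _
    · rw [indicator_of_mem]
      · exact hC _
      · exact mem_closedBall_zero_iff.2 (hsupp t Y hne).2
  have hJc : Continuous J := by
    refine continuous_of_dominated (fun t => (hmeas t).aestronglyMeasurable)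
      (fun t => Eventually.of_forall (hbound t)) hbd (Eventually.of_forall fun Y => ?_)
    fun_prop
  have hJb : ∀ t, ‖J t‖ ≤ ∫ Y : (ℝ ∙ a)ᗮ, (closedBall (0 : (ℝ ∙ a)ᗮ) R).indicator (fun _ => C) Y :=
    fun t => norm_integral_le_of_norm_le hbd (Eventually.of_forall (hbound t))
  -- rewriting
  have hI : ∀ s : ℝ, 0 < s → ∫ X, s⁻¹ * θ (⟪X, a⟫ / s) * Ψ X = ∫ t, θ t * J (s * t) := by
    intro s hs
    rw [integral_slice a ha]
    simp_rw [inner_slice ha]
    have hcont : Continuous (fun p : ℝ × (ℝ ∙ a)ᗮ => s⁻¹ * θ (p.1 / s) * Ψ (p.1 • a + (p.2 : E))) := by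
      fun_prop
    have hcs : HasCompactSupport (fun p : ℝ × (ℝ ∙ a)ᗮ =>
        s⁻¹ * θ (p.1 / s) * Ψ (p.1 • a + (p.2 : E))) := by
      refine HasCompactSupport.intro ((isCompact_closedBall (0 : ℝ) R).prod
        (isCompact_closedBall (0 : (ℝ ∙ a)ᗮ) R)) (fun p hp => ?_)
      by_contra hne
      have h1 : Ψ (p.1 • a + (p.2 : E)) ≠ 0 := right_ne_zero_of_mul hne
      obtain ⟨h2, h3⟩ := hsupp _ _ h1
      exact hp ⟨by simpa using h2, by simpa using h3⟩
    have hint := hcont.integrable_of_hasCompactSupport (μ := (volume : Measure (ℝ × (ℝ ∙ a)ᗮ))) hcs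
    rw [show (volume : Measure (ℝ × (ℝ ∙ a)ᗮ)) = volume.prod volume from rfl] at hint ⊢
    rw [integral_prod _ hint]
    have h4 : ∀ t : ℝ, ∫ Y : (ℝ ∙ a)ᗮ, s⁻¹ * θ (t / s) * Ψ (t • a + (Y : E))
        = s⁻¹ * (θ (t / s) * J (s * (t / s))) := by
      intro t
      rw [integral_const_mul, mul_div_cancel₀ _ hs.ne', mul_assoc]
    simp only [h4]
    rw [integral_const_mul]
    have h5 := Measure.integral_comp_div (fun t => θ t * J (s * t)) s
    rw [h5, abs_of_pos hs, smul_eq_mul, ← mul_assoc, inv_mul_cancel₀ hs.ne', one_mul]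
  have hlim : Tendsto (fun s : ℝ => ∫ t, θ t * J (s * t)) (𝓝 0) (𝓝 (∫ t, θ t * J (0 * t))) := by
    set C' := ∫ Y : (ℝ ∙ a)ᗮ, (closedBall (0 : (ℝ ∙ a)ᗮ) R).indicator (fun _ => C) Y
    have hcc : Continuous (fun s : ℝ => ∫ t, θ t * J (s * t)) := by
      refine continuous_of_dominated (bound := fun t => ‖θ t‖ * C')
        (fun s => ?_) (fun s => Eventually.of_forall fun t => ?_) ?_
        (Eventually.of_forall fun t => ?_)
      · exact (by fun_prop : Continuous (fun t => θ t * J (s * t))).aestronglyMeasurable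
      · rw [norm_mul]
        exact mul_le_mul_of_nonneg_left (hJb _) (norm_nonneg _)
      · exact ((hθ.integrable_of_hasCompactSupport hθc).norm).mul_const _
      · fun_prop
    exact hcc.tendsto 0
  have hval : ∫ t, θ t * J (0 * t) = (∫ t, θ t) * ∫ Y : (ℝ ∙ a)ᗮ, Ψ Y := by
    simp only [zero_mul]
    rw [integral_mul_const]
    simp [hJ]
  rw [← hval]
  refine (hlim.mono_left nhdsWithin_le_nhds).congr' ?_
  filter_upwards [self_mem_nhdsWithin] with s hs
  exact (hI s hs).symm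

end Pool.Agent.Helper20.VF
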