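import Mathlib
import Pool.Agent.Helper20.VF.PartOne
import Pool.Agent.Helper20.VF.Slice

/-!
# The calibration inequality for a fixed pole
-/

open MeasureTheory Set Metric Filter
open scoped NNReal Topology RealInnerProductSpace ContDiff Manifold

namespace Pool.Agent.Helper20.VF

variable {E : Type*} [NormedAddCommGroup E] [InnerProductSpace ℝ E] [FiniteDimensional ℝ E]
  [MeasurableSpace E] [BorelSpace E]
variable {V : E → E} {a : E} {δ : ℝ}

omit [InnerProductSpace ℝ E] [FiniteDimensional ℝ E] [MeasurableSpace E] [BorelSpace E] in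
lemma K_zero_of_notMem {K : ℝ → ℝ} {X : E} (hX : X ∉ {X : E | ‖X‖ ^ 2 ∈ tsupport K}) :
    K (‖X‖ ^ 2) = 0 := image_eq_zero_of_notMem_tsupport hX

omit [MeasurableSpace E] [BorelSpace E] in
lemma isCompact_shell {K : ℝ → ℝ} (hKc : HasCompactSupport K) :
    IsCompact {X : E | ‖X‖ ^ 2 ∈ tsupport K} := by
  obtain ⟨R, hR⟩ := hKc.isBounded.subset_closedBall (0 : ℝ)
  refine Metric.isCompact_of_isClosed_isBounded
    ((isClosed_tsupport K).preimage (by fun_prop : Continuous fun X : E => ‖X‖ ^ 2)) ?_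
  refine (isBounded_iff_subset_closedBall (0 : E)).2 ⟨1 + |R|, fun X hX => ?_⟩
  have h1 := hR hX
  rw [mem_closedBall_zero_iff, Real.norm_eq_abs, abs_of_nonneg (sq_nonneg _)] at h1
  rw [mem_closedBall_zero_iff]
  have h2 : R ≤ |R| := le_abs_self R
  nlinarith [norm_nonneg X, abs_nonneg R]

omit [FiniteDimensional ℝ E] [MeasurableSpace E] [BorelSpace E] in
lemma shell_subset {K : ℝ → ℝ} (hKpos : tsupport K ⊆ Ioi 0) :
    {X : E | ‖X‖ ^ 2 ∈ tsupport K} ⊆ ({0}ᶜ : Set E) := by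
  intro X hX h0
  have : X = 0 := h0
  subst this
  have := hKpos hX
  simp at this

lemma cont_Psi (hV : UField V) (ha : ‖a‖ = 1) (hδ : 0 < δ) {K : ℝ → ℝ} (hK : Continuous K)
    (hKc : HasCompactSupport K) (hKpos : tsupport K ⊆ Ioi 0) : Continuous (Psi V a δ K) := by
  refine continuous_of_continuousOn_of_zero isOpen_U (isCompact_shell (E := E) hKc).isClosed
    (shell_subset hKpos) _ (continuousOn_Psi hV ha hδ hK) (fun X hX => ?_)
  rw [Psi, K_zero_of_notMem hX]; ring

lemma cont_Theta (hV : UField V) (ha : ‖a‖ = 1) (hδ : 0 < δ) {K : ℝ → ℝ} (hK : Continuous K)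
    (hKc : HasCompactSupport K) (hKpos : tsupport K ⊆ Ioi 0) : Continuous (Theta V a δ K) := by
  refine continuous_of_continuousOn_of_zero isOpen_U (isCompact_shell (E := E) hKc).isClosed
    (shell_subset hKpos) _ (continuousOn_Theta hV ha hδ hK) (fun X hX => ?_)
  rw [Theta, K_zero_of_notMem hX]; ring

lemma cont_KMj (hV : UField V) (ha : ‖a‖ = 1) {K : ℝ → ℝ} (hK : Continuous K)
    (hKc : HasCompactSupport K) (hKpos : tsupport K ⊆ Ioi 0) :
    Continuous (fun X => 2 * K (‖X‖ ^ 2) * Mj V a X) := by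
  have hKc' : ContinuousOn (fun X : E => 2 * K (‖X‖ ^ 2)) {0}ᶜ := by fun_prop
  refine continuous_of_continuousOn_of_zero isOpen_U (isCompact_shell (E := E) hKc).isClosed
    (shell_subset hKpos) _ (hKc'.mul (continuousOn_Mj hV ha)) (fun X hX => ?_)
  rw [K_zero_of_notMem hX]; ring

theorem calib (hN : 2 ≤ Module.finrank ℝ E) (hV : UField V) (ha : ‖a‖ = 1) (hδ : 0 < δ)
    {K : ℝ → ℝ} (hK : Continuous K)
    (hKc : HasCompactSupport K) (hKpos : tsupport K ⊆ Ioi 0) (hK0 : ∀ u, 0 ≤ K u) :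
    |∫ Y : (ℝ ∙ a)ᗮ, Psi V a δ K Y| ≤ ∫ X in {X : E | 0 < ⟪X, a⟫}, 2 * K (‖X‖ ^ 2) * Mj V a X := by
  set S : Set E := {X : E | ‖X‖ ^ 2 ∈ tsupport K} with hS
  have hSc : IsCompact S := isCompact_shell hKc
  have hSU : S ⊆ ({0}ᶜ : Set E) := shell_subset hKpos
  obtain ⟨η, θ, hη, hηd, hθ, hθc, hθ1, hη0, hη1, hηz⟩ := exists_step
  -- the function `g`
  set G : ℝ → ℝ := fun u => ∫ t in (0 : ℝ)..u, K t with hG
  have hGd : ∀ u, HasDerivAt G (K u) u := fun u => (hK.integral_hasStrictDerivAt 0 u).hasDerivAt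
  have hGc : ContDiff ℝ 1 G := by
    rw [contDiff_one_iff_deriv]
    refine ⟨fun u => (hGd u).differentiableAt, ?_⟩
    have : deriv G = K := funext fun u => (hGd u).deriv
    rw [this]; exact hK
  set g : E → ℝ := fun X => G (‖X‖ ^ 2) with hg
  have hgc : ContDiff ℝ 1 g := hGc.comp (contDiff_norm_sq ℝ)
  have hgd : ∀ X, fderiv ℝ g X = (2 * K (‖X‖ ^ 2)) • (innerSL ℝ X : E →L[ℝ] ℝ) := by
    intro X
    have h1 := (hGd (‖X‖ ^ 2)).comp_hasFDerivAt X (hasStrictFDerivAt_norm_sq X).hasFDerivAt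
    rw [show fderiv ℝ g X = fderiv ℝ (G ∘ fun x : E => ‖x‖ ^ 2) X from rfl, h1.fderiv]
    ext v
    simp
    ring
  -- cutoff
  obtain ⟨K', hK'c, hSK', hK'U⟩ := exists_compact_between hSc isOpen_U hSU
  obtain ⟨ζ, hζ1, hζ0, -⟩ := exists_contMDiffMap_one_nhds_of_subset_interior (n := 1)
    (𝓘(ℝ, E)) hSc.isClosed hSK'
  have hζd : ContDiff ℝ 1 (ζ : E → ℝ) := ζ.contMDiff.contDiff
  have hcP := cont_Psi hV ha hδ hK hKc hKpos
  have hcT := cont_Theta hV ha hδ hK hKc hKpos
  have hcM := cont_KMj hV ha hK hKc hKpos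
  have hsP : HasCompactSupport (Psi V a δ K) := HasCompactSupport.intro hSc (fun X hX => by
    rw [Psi, K_zero_of_notMem hX]; ring)
  have hsT : HasCompactSupport (Theta V a δ K) := HasCompactSupport.intro hSc (fun X hX => by
    rw [Theta, K_zero_of_notMem hX]; ring)
  have hsM : HasCompactSupport (fun X => 2 * K (‖X‖ ^ 2) * Mj V a X) :=
    HasCompactSupport.intro hSc (fun X hX => by
      rw [K_zero_of_notMem hX]; ring)
  -- the identity
  have key : ∀ s : ℝ, 0 < s → ∫ X, (s⁻¹ * θ (⟪X, a⟫ / s) * Psi V a δ K X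
      + η (⟪X, a⟫ / s) * Theta V a δ K X) = 0 := by
    intro s hs
    set F : E → ℝ := fun X => η (⟪X, a⟫ / s) * ζ X * F2 V a δ X with hF
    have hηc : ContDiff ℝ 1 (fun X : E => η (⟪X, a⟫ / s)) := by
      refine hη.comp ?_
      exact (contDiff_id.inner ℝ contDiff_const).div_const s
    have hFd : ContDiff ℝ 1 F := by
      refine contDiff_of_contDiffOn_of_zero isOpen_U hK'c.isClosed hK'U F ?_
        (fun x hx => by simp [hF, hζ0 x hx])
      exact (hηc.contDiffOn.mul hζd.contDiffOn).mul (contDiffOn_F2 hV ha hδ)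
    have hFc : HasCompactSupport F := HasCompactSupport.intro hK'c
      (fun x hx => by simp [hF, hζ0 x hx])
    have hFU : tsupport F ⊆ ({0}ᶜ : Set E) := by
      refine (closure_minimal (fun x hx => ?_) hK'c.isClosed).trans hK'U
      by_contra hx'
      exact hx (by simp [hF, hζ0 x hx'])
    have h0 := integral_Om_eq_zero hN volume isOpen_U (Wf V a) (contDiffOn_Wf hV ha) a ha
      (fun x hx => norm_Wf hV ha hx) (fun x _ => inner_Wf hV) F g hFd hFc hFU hgc.contDiffOn
    rw [← h0, ← setIntegral_eq_integral_of_forall_compl_eq_zero (s := ({0}ᶜ : Set E))]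
    · refine setIntegral_congr_fun isOpen_U.measurableSet (fun X hX => ?_)
      have hX0 : X ≠ 0 := hX
      have o1 := inner_Wf_fderiv hV ha hX0
      have o2 := inner_a_fderiv hV ha hX0
      have n1 := norm_Wf hV ha hX0
      rw [hgd, Om_smul_right _ _ _ ha (inner_Wf hV) o2]
      by_cases hXS : X ∈ S
      · have hζX : ∀ᶠ y in 𝓝 X, ζ y = 1 := by
          have := hζ1
          rw [eventually_nhdsSet_iff_forall] at this
          exact this X hXS
        obtain ⟨β, hβ⟩ := hasFDerivAt_F2 hV ha hδ hX0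
        have hηX : HasFDerivAt (fun X : E => η (⟪X, a⟫ / s))
            ((θ (⟪X, a⟫ / s) * s⁻¹) • (innerSL ℝ a : E →L[ℝ] ℝ)) X := by
          have h1 : HasFDerivAt (fun X : E => ⟪X, a⟫ / s) (s⁻¹ • (innerSL ℝ a : E →L[ℝ] ℝ)) X := by
            have h2 : (fun X : E => ⟪X, a⟫ / s)
                = fun X => (s⁻¹ • (innerSL ℝ a : E →L[ℝ] ℝ)) X := by
              funext Z
              simp [real_inner_comm Z a, div_eq_inv_mul]
            rw [h2]
            exact (s⁻¹ • (innerSL ℝ a : E →L[ℝ] ℝ)).hasFDerivAt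
          have h3 := (hηd (⟪X, a⟫ / s)).comp_hasFDerivAt X h1
          rw [smul_smul] at h3
          exact h3
        have hFX : HasFDerivAt F (η (⟪X, a⟫ / s) • (innerSL ℝ (cvec X (Bw V a δ X))
            + β ∘L (fderiv ℝ (Wf V a) X)) + F2 V a δ X • ((θ (⟪X, a⟫ / s) * s⁻¹) •
              (innerSL ℝ a : E →L[ℝ] ℝ))) X := by
          refine (hηX.mul hβ).congr_of_eventuallyEq ?_
          filter_upwards [hζX] with y hy
          simp [hF, hy]
        rw [hFX.fderiv, Om_add_left _ _ _ n1 (inner_Wf hV) o1, Om_smul_left _ _ _ n1 (inner_Wf hV) o1,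
          Om_add_left _ _ _ n1 (inner_Wf hV) o1, Om_comp_left _ _ _ n1 (inner_Wf hV) ha o1 o2,
          Om_smul_left _ _ _ n1 (inner_Wf hV) o1, Om_smul_left _ _ _ n1 (inner_Wf hV) o1, Psi, Theta]
        ring
      · rw [Psi, Theta, K_zero_of_notMem hXS]
        ring
    · intro X hX
      have : X = 0 := by simpa using hX
      have hXS : X ∉ S := fun h => hSU h this
      rw [Psi, Theta, K_zero_of_notMem hXS]
      ring
  -- the bound
  set M : ℝ := ∫ X in {X : E | 0 < ⟪X, a⟫}, 2 * K (‖X‖ ^ 2) * Mj V a X with hM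
  have hmeasS : MeasurableSet {X : E | 0 < ⟪X, a⟫} :=
    (isOpen_lt continuous_const (by fun_prop)).measurableSet
  have hiM : Integrable (fun X => 2 * K (‖X‖ ^ 2) * Mj V a X) :=
    hcM.integrable_of_hasCompactSupport hsM
  have bound : ∀ s : ℝ, 0 < s → |∫ X, s⁻¹ * θ (⟪X, a⟫ / s) * Psi V a δ K X| ≤ M := by
    intro s hs
    have i1 : Integrable (fun X => s⁻¹ * θ (⟪X, a⟫ / s) * Psi V a δ K X) :=
      (by fun_prop : Continuous (fun X => s⁻¹ * θ (⟪X, a⟫ / s) * Psi V a δ K X)).integrable_of_hasCompactSupport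
        hsP.mul_left
    have i2 : Integrable (fun X => η (⟪X, a⟫ / s) * Theta V a δ K X) :=
      ((hη.continuous.comp (by fun_prop : Continuous fun X : E => ⟪X, a⟫ / s)).mul
        hcT).integrable_of_hasCompactSupport hsT.mul_left
    have h1 := key s hs
    rw [integral_add i1 i2] at h1
    have h2 : |∫ X, s⁻¹ * θ (⟪X, a⟫ / s) * Psi V a δ K X|
        = |∫ X, η (⟪X, a⟫ / s) * Theta V a δ K X| := by
      rw [eq_neg_of_add_eq_zero_left h1, abs_neg]
    rw [h2, hM, ← integral_indicator hmeasS, ← Real.norm_eq_abs]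
    refine norm_integral_le_of_norm_le (hiM.indicator hmeasS) (Eventually.of_forall fun X => ?_)
    rw [norm_mul, Real.norm_eq_abs, Real.norm_eq_abs, abs_of_nonneg (hη0 _)]
    by_cases hX : 0 < ⟪X, a⟫
    · rw [indicator_of_mem (by exact hX)]
      have hX0 : X ≠ 0 := by rintro rfl; simp at hX
      calc η (⟪X, a⟫ / s) * |Theta V a δ K X| ≤ 1 * |Theta V a δ K X| :=
            mul_le_mul_of_nonneg_right (hη1 _) (abs_nonneg _)
        _ = |Theta V a δ K X| := one_mul _
        _ ≤ _ := abs_Theta_le hV ha hδ K hK0 hX0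
    · rw [indicator_of_notMem (by exact hX), hηz _ (div_nonpos_of_nonpos_of_nonneg (not_lt.1 hX) hs.le),
        zero_mul]
  have hlim := slice_limit a ha (Psi V a δ K) hcP hsP θ hθ hθc
  rw [hθ1, one_mul] at hlim
  refine le_of_tendsto hlim.abs ?_
  filter_upwards [self_mem_nhdsWithin] with s hs using bound s hs

end Pool.Agent.Helper20.VF
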