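import Mathlib
import Pool.Agent.Helper20.VF.PartOneB
import Pool.Agent.Helper20.VF.Boundary

/-!
# The limit `δ → 0`, polar coordinates
-/

open MeasureTheory Set Metric Filter
open scoped NNReal Topology RealInnerProductSpace ContDiff Manifold

namespace Pool.Agent.Helper20.VF

variable {E : Type*} [NormedAddCommGroup E] [InnerProductSpace ℝ E] [FiniteDimensional ℝ E]
  [MeasurableSpace E] [BorelSpace E]
variable {V : E → E} {a : E} {δ : ℝ}

omit [MeasurableSpace E] [BorelSpace E] in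
lemma Psi_boundary (hV : UField V) (ha : ‖a‖ = 1) (K : ℝ → ℝ)
    {Y : E} (hY : Y ≠ 0) (hYa : ⟪Y, a⟫ = 0) {k : ℕ} (hk : Module.finrank ℝ E = k + 3)
    (hodd : Odd k) {τ : ℝ} (hτ : τ = ⟪V (-a), Y⟫ / ‖Y‖ ^ 2) :
    Psi V a δ K Y = Real.arcsin (2 * τ * ‖Y‖ / √(4 * (τ * ‖Y‖) ^ 2 + δ))
      * (2 * K (‖Y‖ ^ 2) * (2 * (2 * τ) ^ k)) := by
  have hY0 : ‖Y‖ ≠ 0 := norm_ne_zero_iff.2 hY
  set v := V (-a) with hv
  have hW : Wf V a Y = v - (2 * τ) • Y := by
    rw [Wf_of_orth hYa, refl, real_inner_comm, hτ]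
    congr 2
    ring
  have hvY : ⟪v, Y⟫ = τ * ‖Y‖ ^ 2 := by rw [hτ]; field_simp
  have hYv : ⟪Y, v⟫ = τ * ‖Y‖ ^ 2 := by rw [real_inner_comm]; exact hvY
  have hvv : ⟪v, v⟫ = 1 := by
    rw [real_inner_self_eq_norm_sq, hv, norm_V_neg hV ha]; norm_num
  have hF : F2 V a δ Y = Real.arcsin (2 * τ * ‖Y‖ / √(4 * (τ * ‖Y‖) ^ 2 + δ)) := by
    rw [F2, Bw, Bf, hW]
    congr 1
    have e1 : 2 + δ - 2 * ⟪v, v - (2 * τ) • Y⟫ = 4 * (τ * ‖Y‖) ^ 2 + δ := by
      rw [inner_sub_right, inner_smul_right, hvv, hvY]; ring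
    rw [e1, sub_sub_cancel, inner_smul_right, inner_smul_right, real_inner_self_eq_norm_sq]
    field_simp
  rw [Psi, hF]
  by_cases h0 : τ = 0
  · have hk0 : k ≠ 0 := by rintro rfl; simp at hodd
    simp [h0]
  · rw [Om_boundary hV ha hY hYa hk hτ h0]
    have : (-2 * τ) ^ k = -(2 * τ) ^ k := by
      rw [show (-2 * τ) = -(2 * τ) by ring, hodd.neg_pow]
    rw [this]
    ring

lemma tendsto_arcsin_aux {c : ℝ} {k : ℕ} (hodd : Odd k) (A τ : ℝ) (hc : c = 0 ↔ τ = 0)
    (hs : 0 < c ↔ 0 < τ) :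
    Tendsto (fun δ : ℝ => Real.arcsin (2 * c / √(4 * c ^ 2 + δ)) * (A * (2 * τ) ^ k)) (𝓝[>] 0)
      (𝓝 (Real.pi / 2 * (A * |2 * τ| ^ k))) := by
  have hk0 : k ≠ 0 := by rintro rfl; simp at hodd
  by_cases h0 : c = 0
  · have hτ := hc.1 h0
    simp [h0, hτ, hk0]
  · have hcont : ContinuousAt (fun δ : ℝ => Real.arcsin (2 * c / √(4 * c ^ 2 + δ))
        * (A * (2 * τ) ^ k)) 0 := by
      have : ContinuousAt (fun δ : ℝ => 2 * c / √(4 * c ^ 2 + δ)) 0 := by
        refine ContinuousAt.div (by fun_prop) (by fun_prop) ?_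
        have : 0 < 4 * c ^ 2 := by positivity
        simpa using (Real.sqrt_pos.2 this).ne'
      exact (Real.continuous_arcsin.continuousAt.comp this).mul continuousAt_const
    have hval : Real.arcsin (2 * c / √(4 * c ^ 2 + 0)) * (A * (2 * τ) ^ k)
        = Real.pi / 2 * (A * |2 * τ| ^ k) := by
      have e1 : √(4 * c ^ 2 + 0) = 2 * |c| := by
        rw [add_zero, show 4 * c ^ 2 = (2 * |c|) ^ 2 by rw [mul_pow, sq_abs]; norm_num,
          Real.sqrt_sq (by positivity)]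
      rw [e1]
      rcases lt_or_gt_of_ne h0 with h | h
      · have hτ : τ < 0 := by
          rcases lt_trichotomy τ 0 with h1 | h1 | h1
          · exact h1
          · exact absurd (hc.2 h1) h0
          · exact absurd (hs.2 h1) (not_lt.2 h.le)
        rw [abs_of_neg h, abs_of_neg (by linarith : 2 * τ < 0), hodd.neg_pow]
        have : 2 * c / (2 * -c) = -1 := by
          have : c ≠ 0 := h0
          field_simp
        rw [this, Real.arcsin_neg_one]
        ring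
      · have hτ : 0 < τ := hs.1 h
        rw [abs_of_pos h, abs_of_pos (by linarith : 0 < 2 * τ)]
        have : 2 * c / (2 * c) = 1 := by
          have : c ≠ 0 := h0
          field_simp
        rw [this, Real.arcsin_one]
    rw [← hval]
    exact hcont.tendsto.mono_left nhdsWithin_le_nhds

/-- calibration inequality after the limit. -/
theorem calib0 (hV : UField V) (ha : ‖a‖ = 1) {k : ℕ} (hk : Module.finrank ℝ E = k + 3)
    (hodd : Odd k) {K : ℝ → ℝ} (hK : Continuous K)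
    (hKc : HasCompactSupport K) (hKpos : tsupport K ⊆ Ioi 0) (hK0 : ∀ u, 0 ≤ K u) :
    ∫ Y : (ℝ ∙ a)ᗮ, Real.pi / 2 * (4 * K (‖Y‖ ^ 2) * |2 * (⟪V (-a), (Y : E)⟫ / ‖Y‖ ^ 2)| ^ k)
      ≤ ∫ X in {X : E | 0 < ⟪X, a⟫}, 2 * K (‖X‖ ^ 2) * Mj V a X := by
  set D : (ℝ ∙ a)ᗮ → ℝ := fun Y =>
    Real.pi / 2 * (4 * K (‖Y‖ ^ 2) * |2 * (⟪V (-a), (Y : E)⟫ / ‖Y‖ ^ 2)| ^ k) with hD
  have horth : ∀ Y : (ℝ ∙ a)ᗮ, ⟪(Y : E), a⟫ = 0 := fun Y => by
    rw [real_inner_comm]
    exact Submodule.mem_orthogonal_singleton_iff_inner_right.1 Y.2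
  -- pointwise formula
  have hform : ∀ δ : ℝ, ∀ Y : (ℝ ∙ a)ᗮ, Psi V a δ K Y
      = Real.arcsin (2 * (⟪V (-a), (Y : E)⟫ / ‖Y‖) / √(4 * (⟪V (-a), (Y : E)⟫ / ‖Y‖) ^ 2 + δ))
        * (4 * K (‖Y‖ ^ 2) * (2 * (⟪V (-a), (Y : E)⟫ / ‖Y‖ ^ 2)) ^ k) := by
    intro δ Y
    by_cases hY : Y = 0
    · have hK00 : K 0 = 0 := by
        have : (0 : ℝ) ∉ tsupport K := fun h => lt_irrefl (0 : ℝ) (hKpos h)
        exact image_eq_zero_of_notMem_tsupport this
      subst hY
      simp [Psi, hK00]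
    · have hY' : (Y : E) ≠ 0 := by simpa using hY
      rw [Psi_boundary hV ha K hY' (horth Y) hk hodd rfl]
      have hn : ‖(Y : E)‖ = ‖Y‖ := rfl
      rw [hn]
      have hY0 : ‖Y‖ ≠ 0 := norm_ne_zero_iff.2 hY
      have e1 : ⟪V (-a), (Y : E)⟫ / ‖Y‖ ^ 2 * ‖Y‖ = ⟪V (-a), (Y : E)⟫ / ‖Y‖ := by
        field_simp
      rw [mul_assoc 2 (⟪V (-a), (Y : E)⟫ / ‖Y‖ ^ 2) ‖Y‖, e1]
      ring
  -- continuity and support of `D`
  have hSc : IsCompact {X : (ℝ ∙ a)ᗮ | ‖X‖ ^ 2 ∈ tsupport K} := isCompact_shell hKc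
  have hDz : ∀ Y ∉ {X : (ℝ ∙ a)ᗮ | ‖X‖ ^ 2 ∈ tsupport K}, D Y = 0 := by
    intro Y hY
    simp only [hD]
    rw [K_zero_of_notMem hY]; ring
  have hDc : Continuous D := by
    refine continuous_of_continuousOn_of_zero (U := {0}ᶜ) isOpen_compl_singleton hSc.isClosed
      (shell_subset hKpos) D ?_ hDz
    have h1 : ContinuousOn (fun Y : (ℝ ∙ a)ᗮ => ⟪V (-a), (Y : E)⟫ / ‖Y‖ ^ 2) {0}ᶜ := by
      refine ContinuousOn.div (by fun_prop) (by fun_prop) (fun Y hY => ?_)
      exact pow_ne_zero 2 (norm_ne_zero_iff.2 hY)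
    have h2 : ContinuousOn (fun Y : (ℝ ∙ a)ᗮ => |2 * (⟪V (-a), (Y : E)⟫ / ‖Y‖ ^ 2)| ^ k) {0}ᶜ :=
      ((continuousOn_const.mul h1).abs).pow k
    have h3 : ContinuousOn (fun Y : (ℝ ∙ a)ᗮ => 4 * K (‖Y‖ ^ 2)) {0}ᶜ := by fun_prop
    exact continuousOn_const.mul (h3.mul h2)
  have hDi : Integrable D :=
    hDc.integrable_of_hasCompactSupport (HasCompactSupport.intro hSc hDz)
  -- limit
  have hlim : Tendsto (fun δ : ℝ => ∫ Y : (ℝ ∙ a)ᗮ, Psi V a δ K Y) (𝓝[>] 0)
      (𝓝 (∫ Y : (ℝ ∙ a)ᗮ, D Y)) := by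
    refine tendsto_integral_filter_of_dominated_convergence D ?_ ?_ hDi ?_
    · filter_upwards [self_mem_nhdsWithin] with δ hδ
      exact ((cont_Psi hV ha hδ hK hKc hKpos).comp continuous_subtype_val).aestronglyMeasurable
    · refine Eventually.of_forall fun δ => Eventually.of_forall fun Y => ?_
      rw [hform, norm_mul, norm_mul, norm_mul, norm_pow, Real.norm_eq_abs, Real.norm_eq_abs,
        Real.norm_eq_abs, Real.norm_eq_abs, abs_of_nonneg (hK0 _), abs_of_pos (by norm_num : (0:ℝ) < 4)]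
      refine mul_le_mul_of_nonneg_right ?_ (by have := hK0 (‖Y‖ ^ 2); positivity)
      exact abs_le.2 ⟨Real.neg_pi_div_two_le_arcsin _, Real.arcsin_le_pi_div_two _⟩
    · refine Eventually.of_forall fun Y => ?_
      simp_rw [hform]
      by_cases hY : Y = 0
      · have hK00 : K 0 = 0 := by
          have : (0 : ℝ) ∉ tsupport K := fun h => lt_irrefl (0 : ℝ) (hKpos h)
          exact image_eq_zero_of_notMem_tsupport this
        subst hY
        simp [hD, hK00]
      · have hY0 : 0 < ‖Y‖ := norm_pos_iff.2 hY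
        refine tendsto_arcsin_aux hodd _ _ ?_ ?_
        · constructor
          · intro h
            have h1 : ⟪V (-a), (Y : E)⟫ = 0 := by
              rcases div_eq_zero_iff.1 h with h1 | h1
              · exact h1
              · exact absurd h1 hY0.ne'
            rw [h1, zero_div]
          · intro h
            have h1 : ⟪V (-a), (Y : E)⟫ = 0 := by
              rcases div_eq_zero_iff.1 h with h1 | h1
              · exact h1
              · exact absurd h1 (pow_ne_zero 2 hY0.ne')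
            rw [h1, zero_div]
        · constructor
          · intro h
            exact div_pos (by
              by_contra hn
              exact absurd h (not_lt.2 (div_nonpos_of_nonpos_of_nonneg (not_lt.1 hn) hY0.le))) (by positivity)
          · intro h
            exact div_pos (by
              by_contra hn
              exact absurd h (not_lt.2 (div_nonpos_of_nonpos_of_nonneg (not_lt.1 hn) (by positivity)))) hY0
  refine le_of_tendsto hlim ?_
  filter_upwards [self_mem_nhdsWithin] with δ hδ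
  exact (le_abs_self _).trans (calib (by omega) hV ha hδ hK hKc hKpos hK0)

end Pool.Agent.Helper20.VF
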