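import Pool.Agent.Helper20.VF.GaussY

/-!
# The Gaussian average over `y`
-/

open MeasureTheory Set Metric Filter Module Matrix
open scoped NNReal Topology RealInnerProductSpace ENNReal Real

namespace Pool.Agent.Helper20.VF

variable {d : ℕ}


lemma dot_eq_inner (u : Fin d → ℝ) (y : EuclideanSpace ℝ (Fin d)) : u ⬝ᵥ y.ofLp = ⟪WithLp.toLp 2 u, y⟫ := by
  rw [EuclideanSpace.inner_eq_star_dotProduct]
  simp [dotProduct_comm]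

lemma dot_self_eq (y : EuclideanSpace ℝ (Fin d)) : y.ofLp ⬝ᵥ y.ofLp = ‖y‖ ^ 2 := by
  rw [dot_eq_inner, ← real_inner_self_eq_norm_sq]

lemma hom_dot (u : Fin d → ℝ) : Hom 1 (fun y : EuclideanSpace ℝ (Fin d) => u ⬝ᵥ y.ofLp) := by
  simp_rw [dot_eq_inner]
  exact Hom.inner _

lemma hom_mulVec_apply (Ξ : Matrix (Fin d) (Fin d) ℝ) (i : Fin d) :
    Hom 1 (fun y : EuclideanSpace ℝ (Fin d) => (Ξ *ᵥ y.ofLp) i) := hom_dot (Ξ i)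

lemma hom_coord (i : Fin d) : Hom 1 (fun y : EuclideanSpace ℝ (Fin d) => y.ofLp i) := by
  have := hom_dot (d := d) (Pi.single i 1)
  simpa [single_dotProduct] using this

lemma hom_T (Ξ : Matrix (Fin d) (Fin d) ℝ) : Hom 2 (fun y : EuclideanSpace ℝ (Fin d) => y.ofLp ⬝ᵥ (Ξ *ᵥ y.ofLp)) := by
  have := Hom.sum (E := EuclideanSpace ℝ (Fin d)) Finset.univ (fun i => (hom_coord i).mul (hom_mulVec_apply Ξ i))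
  exact this

lemma hom_X (Ξ : Matrix (Fin d) (Fin d) ℝ) :
    Hom 2 (fun y : EuclideanSpace ℝ (Fin d) => (Ξ *ᵥ y.ofLp) ⬝ᵥ (Ξ *ᵥ y.ofLp)) := by
  have := Hom.sum (E := EuclideanSpace ℝ (Fin d)) Finset.univ (fun i => (hom_mulVec_apply Ξ i).mul (hom_mulVec_apply Ξ i))
  exact this

lemma hom_B (u : Fin d → ℝ) (Ξ : Matrix (Fin d) (Fin d) ℝ) :
    Hom 1 (fun y : EuclideanSpace ℝ (Fin d) => u ⬝ᵥ (Ξ *ᵥ y.ofLp)) := by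
  have := hom_dot (d := d) (u ᵥ* Ξ)
  simpa [dotProduct_mulVec] using this

variable [NeZero d]

lemma int_dot_mul (u v : Fin d → ℝ) :
    ∫ y : EuclideanSpace ℝ (Fin d), (u ⬝ᵥ y.ofLp) * (v ⬝ᵥ y.ofLp) * gw y = (u ⬝ᵥ v) * Zg (EuclideanSpace ℝ (Fin d)) := by
  simp_rw [dot_eq_inner]
  rw [integral_inner_mul, EuclideanSpace.inner_eq_star_dotProduct]
  simp [dotProduct_comm]

lemma int_T (Ξ : Matrix (Fin d) (Fin d) ℝ) :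
    ∫ y : EuclideanSpace ℝ (Fin d), (y.ofLp ⬝ᵥ (Ξ *ᵥ y.ofLp)) * gw y = trace Ξ * Zg (EuclideanSpace ℝ (Fin d)) := by
  have h1 : ∀ y : EuclideanSpace ℝ (Fin d), (y.ofLp ⬝ᵥ (Ξ *ᵥ y.ofLp)) * gw y
      = ∑ i, ((Pi.single i 1 : Fin d → ℝ) ⬝ᵥ y.ofLp) * (Ξ i ⬝ᵥ y.ofLp) * gw y := by
    intro y
    rw [dotProduct, Finset.sum_mul]
    refine Finset.sum_congr rfl (fun i _ => ?_)
    rw [single_dotProduct, one_mul]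
    rfl
  simp_rw [h1]
  rw [integral_finsetSum]
  · simp_rw [int_dot_mul]
    rw [← Finset.sum_mul]
    congr 1
    refine Finset.sum_congr rfl (fun i _ => ?_)
    rw [single_dotProduct, one_mul]
    rfl
  · intro i _
    exact ((hom_dot _).mul (hom_dot _)).integrable

lemma int_X (Ξ : Matrix (Fin d) (Fin d) ℝ) :
    ∫ y : EuclideanSpace ℝ (Fin d), ((Ξ *ᵥ y.ofLp) ⬝ᵥ (Ξ *ᵥ y.ofLp)) * gw y = (∑ i, ∑ j, Ξ i j ^ 2) * Zg (EuclideanSpace ℝ (Fin d)) := by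
  have h1 : ∀ y : EuclideanSpace ℝ (Fin d), ((Ξ *ᵥ y.ofLp) ⬝ᵥ (Ξ *ᵥ y.ofLp)) * gw y
      = ∑ i, (Ξ i ⬝ᵥ y.ofLp) * (Ξ i ⬝ᵥ y.ofLp) * gw y := by
    intro y
    rw [dotProduct, Finset.sum_mul]
    rfl
  simp_rw [h1]
  rw [integral_finsetSum]
  · simp_rw [int_dot_mul]
    rw [← Finset.sum_mul]
    congr 1
    refine Finset.sum_congr rfl (fun i _ => ?_)
    rw [dotProduct]
    exact Finset.sum_congr rfl (fun j _ => (sq _).symm)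
  · intro i _
    exact ((hom_dot _).mul (hom_dot _)).integrable

lemma int_one : ∫ y : EuclideanSpace ℝ (Fin d), gw y = Zg (EuclideanSpace ℝ (Fin d)) := rfl

lemma int_T_sq (Ξ : Matrix (Fin d) (Fin d) ℝ) :
    ((d : ℝ) + 2) / d * (trace Ξ) ^ 2 * Zg (EuclideanSpace ℝ (Fin d))
      ≤ ∫ y : EuclideanSpace ℝ (Fin d), (y.ofLp ⬝ᵥ (Ξ *ᵥ y.ofLp)) * (y.ofLp ⬝ᵥ (Ξ *ᵥ y.ofLp)) * gw y := by
  have hd : (0 : ℝ) < d := by exact_mod_cast Nat.pos_of_ne_zero (NeZero.ne d)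
  set l : ℝ := trace Ξ / d with hl
  have hT := hom_T Ξ
  have hfr : (finrank ℝ (EuclideanSpace ℝ (Fin d)) : ℝ) = d := by rw [finrank_euclideanSpace, Fintype.card_fin]
  have hN : Hom 2 (fun y : EuclideanSpace ℝ (Fin d) => ‖y‖ ^ 2) := Hom.norm_sq
  have iTT := (hT.mul hT).integrable
  have iTN := (hT.mul hN).integrable
  have iNN := (hN.mul hN).integrable
  have h0 : 0 ≤ ∫ y : EuclideanSpace ℝ (Fin d), ((y.ofLp ⬝ᵥ (Ξ *ᵥ y.ofLp)) - l * ‖y‖ ^ 2) ^ 2 * gw y :=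
    integral_nonneg (fun y => mul_nonneg (sq_nonneg _) (gw_pos y).le)
  have h1 : ∀ y : EuclideanSpace ℝ (Fin d), ((y.ofLp ⬝ᵥ (Ξ *ᵥ y.ofLp)) - l * ‖y‖ ^ 2) ^ 2 * gw y
      = ((y.ofLp ⬝ᵥ (Ξ *ᵥ y.ofLp)) * (y.ofLp ⬝ᵥ (Ξ *ᵥ y.ofLp)) * gw y
        - (2 * l) * ((y.ofLp ⬝ᵥ (Ξ *ᵥ y.ofLp)) * ‖y‖ ^ 2 * gw y))
        + l ^ 2 * (‖y‖ ^ 2 * ‖y‖ ^ 2 * gw y) := fun y => by ring
  simp_rw [h1] at h0
  have i12 : Integrable (fun y : EuclideanSpace ℝ (Fin d) => (y.ofLp ⬝ᵥ (Ξ *ᵥ y.ofLp)) * (y.ofLp ⬝ᵥ (Ξ *ᵥ y.ofLp)) * gw y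
        - (2 * l) * ((y.ofLp ⬝ᵥ (Ξ *ᵥ y.ofLp)) * ‖y‖ ^ 2 * gw y)) := iTT.sub (iTN.const_mul _)
  rw [integral_add i12 (iNN.const_mul _), integral_sub iTT (iTN.const_mul _), integral_const_mul,
    integral_const_mul, hT.integral_mul_sq, hN.integral_mul_sq, int_T] at h0
  have h2 : ∫ y : EuclideanSpace ℝ (Fin d), ‖y‖ ^ 2 * gw y = d * Zg (EuclideanSpace ℝ (Fin d)) := by
    have h3 : Hom 0 (fun _ : EuclideanSpace ℝ (Fin d) => (1 : ℝ)) := ⟨continuous_const, fun r y => by simp⟩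
    have h4 := h3.integral_mul_sq
    simp only [one_mul, hfr, Nat.cast_zero, add_zero] at h4
    exact h4
  rw [h2, hfr] at h0
  push_cast at h0
  have e1 : ((d : ℝ) + 2) / d * (trace Ξ) ^ 2 * Zg (EuclideanSpace ℝ (Fin d))
      = 2 * l * ((d + 2) * (trace Ξ * Zg (EuclideanSpace ℝ (Fin d)))) - l ^ 2 * ((d + 2) * (d * Zg (EuclideanSpace ℝ (Fin d)))) := by
    rw [hl]; field_simp; ring
  rw [e1]
  linarith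

lemma yavg (Ξ : Matrix (Fin d) (Fin d) ℝ) (α : Fin d → ℝ) (ρ Δ : ℝ) :
    Integrable (fun y : EuclideanSpace ℝ (Fin d) => ((ρ ^ 2 + y.ofLp ⬝ᵥ y.ofLp) * (ρ ^ 2 * Δ
        + (ρ • α - Ξ *ᵥ y.ofLp) ⬝ᵥ (ρ • α - Ξ *ᵥ y.ofLp))
        - (y.ofLp ⬝ᵥ (ρ • α - Ξ *ᵥ y.ofLp)) ^ 2) * gw y) ∧
    ∫ y : EuclideanSpace ℝ (Fin d), ((ρ ^ 2 + y.ofLp ⬝ᵥ y.ofLp) * (ρ ^ 2 * Δ
        + (ρ • α - Ξ *ᵥ y.ofLp) ⬝ᵥ (ρ • α - Ξ *ᵥ y.ofLp))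
        - (y.ofLp ⬝ᵥ (ρ • α - Ξ *ᵥ y.ofLp)) ^ 2) * gw y
      ≤ Zg (EuclideanSpace ℝ (Fin d)) * (ρ ^ 4 * (Δ + α ⬝ᵥ α) + ρ ^ 2 * (d * Δ + (d - 1) * (α ⬝ᵥ α) + ∑ i, ∑ j, Ξ i j ^ 2)
        + (d + 2) * (∑ i, ∑ j, Ξ i j ^ 2) - (d + 2) / d * (trace Ξ) ^ 2) := by
  have hT := hom_T Ξ
  have hX := hom_X Ξ
  have hB := hom_B α Ξ
  have hA := hom_dot (d := d) α
  have hN : Hom 2 (fun y : EuclideanSpace ℝ (Fin d) => ‖y‖ ^ 2) := Hom.norm_sq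
  have h3 : Hom 0 (fun _ : EuclideanSpace ℝ (Fin d) => (1 : ℝ)) := ⟨continuous_const, fun r y => by simp⟩
  have hfr : (finrank ℝ (EuclideanSpace ℝ (Fin d)) : ℝ) = d := by rw [finrank_euclideanSpace, Fintype.card_fin]
  -- integrals
  have I0 : ∫ y : EuclideanSpace ℝ (Fin d), (1 : ℝ) * gw y = Zg (EuclideanSpace ℝ (Fin d)) := by simp [Zg]
  have IN : ∫ y : EuclideanSpace ℝ (Fin d), ‖y‖ ^ 2 * gw y = d * Zg (EuclideanSpace ℝ (Fin d)) := by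
    have h4 := h3.integral_mul_sq
    simp only [one_mul, hfr, Nat.cast_zero, add_zero] at h4
    exact h4
  have IX := int_X Ξ
  have IA : ∫ y : EuclideanSpace ℝ (Fin d), (α ⬝ᵥ y.ofLp) * (α ⬝ᵥ y.ofLp) * gw y = (α ⬝ᵥ α) * Zg (EuclideanSpace ℝ (Fin d)) := int_dot_mul α α
  have INX : ∫ y : EuclideanSpace ℝ (Fin d), ((Ξ *ᵥ y.ofLp) ⬝ᵥ (Ξ *ᵥ y.ofLp)) * ‖y‖ ^ 2 * gw y
      = (d + 2) * ((∑ i, ∑ j, Ξ i j ^ 2) * Zg (EuclideanSpace ℝ (Fin d))) := by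
    rw [hX.integral_mul_sq, IX, hfr]; push_cast; rfl
  have ITT := int_T_sq Ξ
  have IB : ∫ y : EuclideanSpace ℝ (Fin d), (α ⬝ᵥ (Ξ *ᵥ y.ofLp)) * gw y = 0 := hB.integral_odd odd_one
  have INB : ∫ y : EuclideanSpace ℝ (Fin d), ‖y‖ ^ 2 * (α ⬝ᵥ (Ξ *ᵥ y.ofLp)) * gw y = 0 :=
    (hN.mul hB).integral_odd (by decide)
  have IAT : ∫ y : EuclideanSpace ℝ (Fin d), (α ⬝ᵥ y.ofLp) * (y.ofLp ⬝ᵥ (Ξ *ᵥ y.ofLp)) * gw y = 0 :=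
    (hA.mul hT).integral_odd (by decide)
  -- integrability
  have i0 := h3.integrable
  have iN := hN.integrable
  have iX := hX.integrable
  have iA := (hA.mul hA).integrable
  have iNX := (hX.mul hN).integrable
  have iTT := (hT.mul hT).integrable
  have iB := hB.integrable
  have iNB := (hN.mul hB).integrable
  have iAT := (hA.mul hT).integrable
  have hexp : ∀ y : EuclideanSpace ℝ (Fin d), ((ρ ^ 2 + y.ofLp ⬝ᵥ y.ofLp) * (ρ ^ 2 * Δ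
        + (ρ • α - Ξ *ᵥ y.ofLp) ⬝ᵥ (ρ • α - Ξ *ᵥ y.ofLp))
        - (y.ofLp ⬝ᵥ (ρ • α - Ξ *ᵥ y.ofLp)) ^ 2) * gw y
      = ρ ^ 4 * (Δ + α ⬝ᵥ α) * ((1 : ℝ) * gw y) + ρ ^ 2 * (Δ + α ⬝ᵥ α) * (‖y‖ ^ 2 * gw y)
        + ρ ^ 2 * (((Ξ *ᵥ y.ofLp) ⬝ᵥ (Ξ *ᵥ y.ofLp)) * gw y)
        + (((Ξ *ᵥ y.ofLp) ⬝ᵥ (Ξ *ᵥ y.ofLp)) * ‖y‖ ^ 2 * gw y)
        + (-ρ ^ 2) * ((α ⬝ᵥ y.ofLp) * (α ⬝ᵥ y.ofLp) * gw y)
        + (-1) * ((y.ofLp ⬝ᵥ (Ξ *ᵥ y.ofLp)) * (y.ofLp ⬝ᵥ (Ξ *ᵥ y.ofLp)) * gw y)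
        + (-2 * ρ ^ 3) * ((α ⬝ᵥ (Ξ *ᵥ y.ofLp)) * gw y)
        + (-2 * ρ) * (‖y‖ ^ 2 * (α ⬝ᵥ (Ξ *ᵥ y.ofLp)) * gw y)
        + (2 * ρ) * ((α ⬝ᵥ y.ofLp) * (y.ofLp ⬝ᵥ (Ξ *ᵥ y.ofLp)) * gw y) := by
    intro y
    rw [dot_self_eq]
    simp only [sub_dotProduct, dotProduct_sub, smul_dotProduct, dotProduct_smul, smul_eq_mul]
    rw [dotProduct_comm (Ξ *ᵥ y.ofLp) α, dotProduct_comm y.ofLp α]
    ring
  simp_rw [hexp]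
  set f1 : (EuclideanSpace ℝ (Fin d)) → ℝ := fun y => ρ ^ 4 * (Δ + α ⬝ᵥ α) * ((1 : ℝ) * gw y) with hf1
  set f2 : (EuclideanSpace ℝ (Fin d)) → ℝ := fun y => ρ ^ 2 * (Δ + α ⬝ᵥ α) * (‖y‖ ^ 2 * gw y) with hf2
  set f3 : (EuclideanSpace ℝ (Fin d)) → ℝ := fun y => ρ ^ 2 * (((Ξ *ᵥ y.ofLp) ⬝ᵥ (Ξ *ᵥ y.ofLp)) * gw y) with hf3
  set f4 : (EuclideanSpace ℝ (Fin d)) → ℝ := fun y => (((Ξ *ᵥ y.ofLp) ⬝ᵥ (Ξ *ᵥ y.ofLp)) * ‖y‖ ^ 2 * gw y) with hf4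
  set f5 : (EuclideanSpace ℝ (Fin d)) → ℝ := fun y => (-ρ ^ 2) * ((α ⬝ᵥ y.ofLp) * (α ⬝ᵥ y.ofLp) * gw y) with hf5
  set f6 : (EuclideanSpace ℝ (Fin d)) → ℝ := fun y => (-1) * ((y.ofLp ⬝ᵥ (Ξ *ᵥ y.ofLp)) * (y.ofLp ⬝ᵥ (Ξ *ᵥ y.ofLp)) * gw y)
    with hf6
  set f7 : (EuclideanSpace ℝ (Fin d)) → ℝ := fun y => (-2 * ρ ^ 3) * ((α ⬝ᵥ (Ξ *ᵥ y.ofLp)) * gw y) with hf7
  set f8 : (EuclideanSpace ℝ (Fin d)) → ℝ := fun y => (-2 * ρ) * (‖y‖ ^ 2 * (α ⬝ᵥ (Ξ *ᵥ y.ofLp)) * gw y) with hf8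
  set f9 : (EuclideanSpace ℝ (Fin d)) → ℝ := fun y => (2 * ρ) * ((α ⬝ᵥ y.ofLp) * (y.ofLp ⬝ᵥ (Ξ *ᵥ y.ofLp)) * gw y) with hf9
  have k1 : Integrable f1 := i0.const_mul _
  have k2 : Integrable f2 := iN.const_mul _
  have k3 : Integrable f3 := iX.const_mul _
  have k4 : Integrable f4 := iNX
  have k5 : Integrable f5 := iA.const_mul _
  have k6 : Integrable f6 := iTT.const_mul _
  have k7 : Integrable f7 := iB.const_mul _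
  have k8 : Integrable f8 := iNB.const_mul _
  have k9 : Integrable f9 := iAT.const_mul _
  have j2 : Integrable (fun y => f1 y + f2 y) := k1.add k2
  have j3 : Integrable (fun y => f1 y + f2 y + f3 y) := j2.add k3
  have j4 : Integrable (fun y => f1 y + f2 y + f3 y + f4 y) := j3.add k4
  have j5 : Integrable (fun y => f1 y + f2 y + f3 y + f4 y + f5 y) := j4.add k5
  have j6 : Integrable (fun y => f1 y + f2 y + f3 y + f4 y + f5 y + f6 y) := j5.add k6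
  have j7 : Integrable (fun y => f1 y + f2 y + f3 y + f4 y + f5 y + f6 y + f7 y) := j6.add k7
  have j8 : Integrable (fun y => f1 y + f2 y + f3 y + f4 y + f5 y + f6 y + f7 y + f8 y) := j7.add k8
  have j9 : Integrable (fun y => f1 y + f2 y + f3 y + f4 y + f5 y + f6 y + f7 y + f8 y + f9 y) :=
    j8.add k9
  refine ⟨j9, ?_⟩
  have hI : ∫ y : EuclideanSpace ℝ (Fin d), (f1 y + f2 y + f3 y + f4 y + f5 y + f6 y + f7 y + f8 y + f9 y)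
      = (∫ y, f1 y) + (∫ y, f2 y) + (∫ y, f3 y) + (∫ y, f4 y) + (∫ y, f5 y) + (∫ y, f6 y)
        + (∫ y, f7 y) + (∫ y, f8 y) + (∫ y, f9 y) := by
    rw [integral_add j8 k9, integral_add j7 k8, integral_add j6 k7, integral_add j5 k6,
      integral_add j4 k5, integral_add j3 k4, integral_add j2 k3, integral_add k1 k2]
  have e1 : ∫ y, f1 y = ρ ^ 4 * (Δ + α ⬝ᵥ α) * Zg (EuclideanSpace ℝ (Fin d)) := by rw [hf1, integral_const_mul, I0]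
  have e2 : ∫ y, f2 y = ρ ^ 2 * (Δ + α ⬝ᵥ α) * (d * Zg (EuclideanSpace ℝ (Fin d))) := by rw [hf2, integral_const_mul, IN]
  have e3 : ∫ y, f3 y = ρ ^ 2 * ((∑ i, ∑ j, Ξ i j ^ 2) * Zg (EuclideanSpace ℝ (Fin d))) := by
    rw [hf3, integral_const_mul, IX]
  have e4 : ∫ y, f4 y = (d + 2) * ((∑ i, ∑ j, Ξ i j ^ 2) * Zg (EuclideanSpace ℝ (Fin d))) := by rw [hf4, INX]
  have e5 : ∫ y, f5 y = (-ρ ^ 2) * ((α ⬝ᵥ α) * Zg (EuclideanSpace ℝ (Fin d))) := by rw [hf5, integral_const_mul, IA]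
  have e6 : ∫ y, f6 y = - ∫ y : EuclideanSpace ℝ (Fin d), (y.ofLp ⬝ᵥ (Ξ *ᵥ y.ofLp)) * (y.ofLp ⬝ᵥ (Ξ *ᵥ y.ofLp)) * gw y := by
    rw [hf6, integral_const_mul]; ring
  have e7 : ∫ y, f7 y = 0 := by rw [hf7, integral_const_mul, IB, mul_zero]
  have e8 : ∫ y, f8 y = 0 := by rw [hf8, integral_const_mul, INB, mul_zero]
  have e9 : ∫ y, f9 y = 0 := by rw [hf9, integral_const_mul, IAT, mul_zero]
  rw [hI, e1, e2, e3, e4, e5, e6, e7, e8, e9]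
  have hfin : Zg (EuclideanSpace ℝ (Fin d)) * (ρ ^ 4 * (Δ + α ⬝ᵥ α) + ρ ^ 2 * (d * Δ + (d - 1) * (α ⬝ᵥ α)
        + ∑ i, ∑ j, Ξ i j ^ 2)
        + (d + 2) * (∑ i, ∑ j, Ξ i j ^ 2) - (d + 2) / d * (trace Ξ) ^ 2)
      = ρ ^ 4 * (Δ + α ⬝ᵥ α) * Zg (EuclideanSpace ℝ (Fin d)) + ρ ^ 2 * (Δ + α ⬝ᵥ α) * (d * Zg (EuclideanSpace ℝ (Fin d)))
        + ρ ^ 2 * ((∑ i, ∑ j, Ξ i j ^ 2) * Zg (EuclideanSpace ℝ (Fin d))) + (d + 2) * ((∑ i, ∑ j, Ξ i j ^ 2) * Zg (EuclideanSpace ℝ (Fin d)))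
        + (-ρ ^ 2) * ((α ⬝ᵥ α) * Zg (EuclideanSpace ℝ (Fin d))) - ((d : ℝ) + 2) / d * (trace Ξ) ^ 2 * Zg (EuclideanSpace ℝ (Fin d)) := by ring
  rw [hfin]
  linarith [ITT]

end Pool.Agent.Helper20.VF
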